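import Pool.Agent.MP_d958de_lc.Path

-- part MP_d958de_lc.Generic
section

/-! For a good row set, short runs are correct only on a nowhere dense set of inputs. -/

namespace Pool.Agent.MP_d958de_lc

open Finset Topology

variable {σ Ω : Type}

theorem rootOfUnity_natCast (d n : ℕ) : rootOfUnity d (n : ℤ) = rootOfUnity d 1 ^ n := by
  unfold rootOfUnity
  rw [← Complex.exp_nat_mul]
  congr 1
  push_cast
  ring

theorem isPrimitiveRoot_rootOfUnity {d : ℕ} (hd : d ≠ 0) : IsPrimitiveRoot (rootOfUnity d 1) d := by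
  have h := (Complex.isPrimitiveRoot_exp d hd).inv
  rw [← Complex.exp_neg] at h
  unfold rootOfUnity
  simpa using h

/-- the columns `1, L, L^2, …, L^(m-1)` -/
def cols (m L : ℕ) : Finset ℕ := univ.image fun i : Fin m => L ^ (i : ℕ)

theorem pow_inj {m L : ℕ} (hL : 2 ≤ L) : Function.Injective fun i : Fin m => L ^ (i : ℕ) :=
  fun _ _ h => Fin.ext (Nat.pow_right_injective hL h)

theorem card_cols {m L : ℕ} (hL : 2 ≤ L) : (cols m L).card = m := by
  rw [cols, card_image_of_injective _ (pow_inj hL)]; simp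

/-- the input vector with real entries `x` -/
noncomputable def vec {m : ℕ} (L : ℕ) (x : Fin m → ℝ) : ℕ → ℂ :=
  fun k => ∑ i : Fin m, if k = L ^ (i : ℕ) then (x i : ℂ) else 0

theorem vec_pow {m L : ℕ} (hL : 2 ≤ L) (x : Fin m → ℝ) (i : Fin m) : vec L x (L ^ (i : ℕ)) = x i := by
  unfold vec
  rw [Finset.sum_eq_single i]
  · simp
  · intro b _ hb
    rw [if_neg]
    intro h
    exact hb (pow_inj hL h).symm
  · simp

theorem mem0_eq {m L : ℕ} (x : Fin m → ℝ) :
    (fun k => if k ∈ cols m L then vec L x k else 0) = vec L x := by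
  funext k
  split_ifs with h
  · rfl
  · symm
    refine sum_eq_zero fun i _ => if_neg fun hk => h ?_
    rw [hk]
    exact mem_image_of_mem _ (mem_univ i)

/-- a complex-valued real-linear form -/
noncomputable def form {m : ℕ} (c : Fin m → ℂ) : (Fin m → ℝ) →L[ℝ] ℂ :=
  ∑ i : Fin m, c i • Complex.ofRealCLM.comp (ContinuousLinearMap.proj i)

theorem form_apply {m : ℕ} (c : Fin m → ℂ) (x : Fin m → ℝ) : form c x = ∑ i, c i * x i := by
  simp [form]

theorem form_single {m : ℕ} (c : Fin m → ℂ) (l : Fin m) : form c (Pi.single l 1) = c l := by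
  rw [form_apply, Finset.sum_eq_single l]
  · simp
  · intro b _ hb; simp [hb]
  · simp

theorem inv_vec {m L : ℕ} (x : Fin m → ℝ) : Inv (vec (m := m) L) x 0 := by
  refine ⟨fun k => form fun i => if k = L ^ (i : ℕ) then 1 else 0, ∅, by simp, fun k => ⟨?_, ?_⟩⟩
  · have : (fun y : Fin m → ℝ => vec L y k) =
        form fun i : Fin m => if k = L ^ (i : ℕ) then 1 else 0 := by
      funext y
      rw [form_apply]
      simp [vec]
    rw [this]
    exact ContinuousLinearMap.hasFDerivAt _
  · intro l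
    rw [form_single]
    split_ifs
    · simpa using one_mem_WS_pow ∅ 0
    · simp

theorem target_eq {m L : ℕ} (hL : 2 ≤ L) (d j : ℕ) (x : Fin m → ℝ) :
    ∑ k ∈ cols m L, ((Real.sqrt d : ℝ) : ℂ)⁻¹ * rootOfUnity d ((j : ℤ) * (k : ℤ)) * vec L x k =
      form (fun i : Fin m => ((Real.sqrt d : ℝ) : ℂ)⁻¹ * rootOfUnity d 1 ^ (j * L ^ (i : ℕ))) x := by
  rw [form_apply, cols, sum_image fun a _ b _ h => pow_inj hL h]
  refine sum_congr rfl fun i _ => ?_
  rw [vec_pow hL, ← rootOfUnity_natCast]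
  push_cast
  rfl

/-- `R` contains rows `r a` whose combinations with coefficients below `L ^ m` are distinct
modulo `d`. -/
def Good (m L d : ℕ) (R : Finset ℕ) : Prop :=
  ∃ r : Fin m → ℕ, (∀ a, r a ∈ R) ∧
    Function.Injective fun u : Fin m → Fin (L ^ m) => (∑ a, r a * (u a : ℕ)) % d

theorem count_of_good {m L d : ℕ} (hd : d.Prime) {R : Finset ℕ} (hR : Good m L d R)
    (S : Finset ℂ) (D : ℕ)
    (h : ∀ j ∈ R, ∀ i : Fin m, rootOfUnity d 1 ^ (j * L ^ (i : ℕ)) ∈ WS S ^ D) :
    L ^ (m * m) ≤ (D * L * m * m + 1) ^ S.card + 1 := by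
  obtain ⟨r, hr, hinj⟩ := hR
  have := card_le_of_powers hd (isPrimitiveRoot_rootOfUnity hd.ne_zero)
    (ι := Fin m → Fin m → Fin L)
    (fun e => ∑ a, r a * (finFunctionFinEquiv (e a) : ℕ)) (by
      intro e e' hee
      have := hinj (a₁ := fun a => finFunctionFinEquiv (e a))
        (a₂ := fun a => finFunctionFinEquiv (e' a)) hee
      funext a
      exact finFunctionFinEquiv.injective (congrFun this a)) S (D * L * m * m) (by
      intro e
      rw [← Finset.prod_pow_eq_pow_sum]
      have h1 := WS_prod_mem (S := S) univ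
        (fun a : Fin m => rootOfUnity d 1 ^ (r a * (finFunctionFinEquiv (e a) : ℕ)))
        (D * L * m) (fun a _ => by
          rw [finFunctionFinEquiv_apply, mul_sum, ← Finset.prod_pow_eq_pow_sum]
          have h2 := WS_prod_mem (S := S) univ
            (fun i : Fin m => rootOfUnity d 1 ^ (r a * ((e a i : ℕ) * L ^ (i : ℕ)))) (D * L)
            (fun i _ => by
              have h3 := WS_pow_mem (h (r a) (hr a) i) (e a i)
              rw [← pow_mul] at h3
              have e1 : r a * ((e a i : ℕ) * L ^ (i : ℕ)) = r a * L ^ (i : ℕ) * e a i := by ring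
              rw [e1]
              exact WS_pow_mono subset_rfl (Nat.mul_le_mul_left D (e a i).2.le) h3)
          simpa using h2)
      simpa using h1)
  simpa [← pow_mul] using this

/-- the base used for the columns -/
def base (m : ℕ) : ℕ := ((m * m) * (m * m) + 1) ^ (m * m) + 2

theorem two_le_base (m : ℕ) : 2 ≤ base m := Nat.le_add_left _ _

theorem numeric {m D N : ℕ} (hD : D ≤ m * m) (hN : N + 1 ≤ m * m) :
    (D * base m * m * m + 1) ^ N + 1 < base m ^ (m * m) := by
  set M := m * m with hM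
  set L := base m with hL
  have hL2 : 2 ≤ L := two_le_base m
  have h1 : D * L * m * m + 1 ≤ (M * M + 1) * L := by
    have : D * L * m * m = D * M * L := by rw [hM]; ring
    rw [this]
    have : D * M * L ≤ M * M * L := by gcongr
    nlinarith
  have h2 : (D * L * m * m + 1) ^ N ≤ (M * M + 1) ^ M * L ^ N := by
    calc (D * L * m * m + 1) ^ N ≤ ((M * M + 1) * L) ^ N := Nat.pow_le_pow_left h1 N
      _ = (M * M + 1) ^ N * L ^ N := mul_pow _ _ _
      _ ≤ (M * M + 1) ^ M * L ^ N := by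
        gcongr
        · omega
        · omega
  have h3 : 1 ≤ L ^ N := Nat.one_le_pow _ _ (by omega)
  have h4 : L = (M * M + 1) ^ M + 2 := rfl
  calc (D * L * m * m + 1) ^ N + 1 ≤ (M * M + 1) ^ M * L ^ N + L ^ N := by omega
    _ < L * L ^ N := by nlinarith
    _ = L ^ (N + 1) := by ring
    _ ≤ L ^ M := Nat.pow_le_pow_right (by omega) hN

/-- inputs on which the run along `w` is defined, halts, and is correct -/
def Zset (A : Alg σ Ω) (m d : ℕ) (R : Finset ℕ) (w : List ℕ) : Set (Fin m → ℝ) :=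
  {x | x ∈ dom A d (A.start d R (cols m (base m))) (vec (base m)) w ∧
    ∃ out, A.prog (fstate A (A.start d R (cols m (base m))) w) = .halt out ∧
      ∀ j ∈ R, fmem A d (A.start d R (cols m (base m))) (vec (base m)) w x (out j) =
        form (fun i : Fin m => ((Real.sqrt d : ℝ) : ℂ)⁻¹ *
          rootOfUnity d 1 ^ (j * base m ^ (i : ℕ))) x}

theorem interior_Zset (A : Alg σ Ω) {m d : ℕ} (hd : d.Prime) {R : Finset ℕ}
    (hR : Good m (base m) d R) (w : List ℕ) (hw : 4 * w.length + 2 ≤ m * m) :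
    interior (Zset A m d R w) = ∅ := by
  classical
  rw [Set.eq_empty_iff_forall_notMem]
  intro x hx
  have hx' := mem_interior_iff_mem_nhds.1 hx
  obtain ⟨hdom, out, hout, -⟩ := mem_of_mem_nhds hx'
  obtain ⟨L, S, hS, h⟩ := inv_fmem A d _ (vec (base m)) inv_vec w x hdom
  have hsq : ((Real.sqrt d : ℝ) : ℂ) ≠ 0 := by
    have : (0 : ℝ) < d := by exact_mod_cast hd.pos
    exact_mod_cast (Real.sqrt_pos.2 this).ne'
  have key := count_of_good hd hR (insert ((Real.sqrt d : ℝ) : ℂ) S) (w.length + 1) (by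
    intro j hj i
    have e1 : (fun y => fmem A d (A.start d R (cols m (base m))) (vec (base m)) w y (out j)) =ᶠ[𝓝 x]
        form (fun i : Fin m => ((Real.sqrt d : ℝ) : ℂ)⁻¹ *
          rootOfUnity d 1 ^ (j * base m ^ (i : ℕ))) := by
      filter_upwards [hx'] with y hy
      obtain ⟨-, out', hout', hy⟩ := hy
      rw [hout] at hout'
      cases hout'
      exact hy j hj
    have e2 := ((h (out j)).1.congr_of_eventuallyEq e1.symm).unique
      (ContinuousLinearMap.hasFDerivAt _)
    have e3 := ((h (out j)).2 i).1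
    rw [e2, form_single] at e3
    have e4 := WS_const_mul_mem (mem_insert_self ((Real.sqrt d : ℝ) : ℂ) S)
      (WS_pow_mono (subset_insert _ S) le_rfl e3)
    rwa [← mul_assoc, mul_inv_cancel₀ hsq, one_mul] at e4)
  have h5 := card_insert_le ((Real.sqrt d : ℝ) : ℂ) S
  have := numeric (m := m) (D := w.length + 1) (N := (insert ((Real.sqrt d : ℝ) : ℂ) S).card)
    (by omega) (by omega)
  omega

theorem interior_closure_Zset (A : Alg σ Ω) {m d : ℕ} (hd : d.Prime) {R : Finset ℕ}
    (hR : Good m (base m) d R) (w : List ℕ) (hw : 4 * w.length + 2 ≤ m * m) :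
    interior (closure (Zset A m d R w)) = ∅ := by
  rw [Set.eq_empty_iff_forall_notMem]
  intro x hx
  set U := dom A d (A.start d R (cols m (base m))) (vec (m := m) (base m)) w with hU
  have hUo : IsOpen U := isOpen_dom A d _ _ inv_vec w
  obtain ⟨y, hy1, hy2⟩ : (interior (closure (Zset A m d R w)) ∩ Zset A m d R w).Nonempty :=
    mem_closure_iff.1 (interior_subset hx) _ isOpen_interior hx
  obtain ⟨hyU, out, hout, -⟩ := id hy2
  have hsub : interior (closure (Zset A m d R w)) ∩ U ⊆ Zset A m d R w := by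
    rintro z ⟨hz1, hz2⟩
    refine ⟨hz2, out, hout, fun j hj => ?_⟩
    have hc := continuousOn_fmem A d (A.start d R (cols m (base m))) (vec (base m)) inv_vec w
      (out j) z hz2
    have hc2 := (form (fun i : Fin m => ((Real.sqrt d : ℝ) : ℂ)⁻¹ *
      rootOfUnity d 1 ^ (j * base m ^ (i : ℕ)))).continuous.continuousAt (x := z)
    have hz3 : z ∈ closure (Zset A m d R w) := interior_subset hz1
    refine tendsto_nhds_unique_of_frequently_eq hc.tendsto hc2.tendsto ?_
    refine (mem_closure_iff_frequently.1 hz3).mono fun t ht => ?_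
    obtain ⟨-, out', hout', ht⟩ := ht
    rw [hout] at hout'
    cases hout'
    exact ht j hj
  have : y ∈ interior (Zset A m d R w) :=
    interior_maximal hsub (isOpen_interior.inter hUo) ⟨hy1, hyU⟩
  rw [interior_Zset A hd hR w hw] at this
  exact this

theorem exists_generic (A : Alg σ Ω) {m d : ℕ} (hd : d.Prime) :
    ∃ x : Fin m → ℝ, ∀ (R : Finset ℕ) (w : List ℕ), Good m (base m) d R →
      4 * w.length + 2 ≤ m * m → x ∉ Zset A m d R w := by
  by_contra hcon
  push Not at hcon
  let ι := {p : Finset ℕ × List ℕ // Good m (base m) d p.1 ∧ 4 * p.2.length + 2 ≤ m * m}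
  obtain ⟨i, hi⟩ := nonempty_interior_of_iUnion_of_closed
    (f := fun p : ι => closure (Zset A m d p.1.1 p.1.2)) (fun _ => isClosed_closure) (by
      rw [Set.eq_univ_iff_forall]
      intro x
      obtain ⟨R, w, h1, h2, h3⟩ := hcon x
      exact Set.mem_iUnion.2 ⟨⟨(R, w), h1, h2⟩, subset_closure h3⟩)
  rw [interior_closure_Zset A hd i.2.1 _ i.2.2] at hi
  exact Set.not_nonempty_empty hi

theorem run_of_halt (A : Alg σ Ω) (d : ℕ) (R C : Finset ℕ) (v : ℕ → ℂ) (ω : Ω) {n : ℕ}
    {out : ℕ → ℕ} (h : A.prog (A.run d R C v ω n).1 = .halt out) :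
    ∀ k, A.run d R C v ω (n + k) = A.run d R C v ω n
  | 0 => rfl
  | k + 1 => by
      have ih := run_of_halt A d R C v ω h k
      have : A.run d R C v ω (n + (k + 1)) = A.step d ω (A.run d R C v ω (n + k)) := by
        unfold Alg.run
        rw [← add_assoc, Function.iterate_succ_apply']
      rw [this, ih]
      unfold Alg.step
      rw [h]

/-- the run with seed `ω` halts with the right output -/
def Correct (A : Alg σ Ω) (d : ℕ) (R C : Finset ℕ) (v : ℕ → ℂ) (ω : Ω) : Prop :=
  ∃ n out, A.prog (A.run d R C v ω n).1 = .halt out ∧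
    ∀ j ∈ R, (A.run d R C v ω n).2 (out j) =
      ∑ k ∈ C, ((Real.sqrt d : ℝ) : ℂ)⁻¹ * rootOfUnity d ((j : ℤ) * (k : ℤ)) * v k

theorem time_lower (A : Alg σ Ω) {m d : ℕ} (hd : d.Prime) :
    ∃ v : ℕ → ℂ, ∀ R : Finset ℕ, Good m (base m) d R → ∀ ω : Ω,
      Correct A d R (cols m (base m)) v ω →
      m * m < 4 * A.time d R (cols m (base m)) v ω + 2 := by
  obtain ⟨x, hx⟩ := exists_generic A (m := m) hd
  refine ⟨vec (base m) x, fun R hG ω hω => ?_⟩
  obtain ⟨n, out, h1, h2⟩ := hω
  set t := A.time d R (cols m (base m)) (vec (base m) x) ω with ht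
  have hne : {n | ∃ out, A.prog (A.run d R (cols m (base m)) (vec (base m) x) ω n).1 =
      .halt out}.Nonempty := ⟨n, out, h1⟩
  obtain ⟨out', h3⟩ : t ∈ {n | ∃ out,
      A.prog (A.run d R (cols m (base m)) (vec (base m) x) ω n).1 = .halt out} := Nat.sInf_mem hne
  have htn : t ≤ n := Nat.sInf_le ⟨out, h1⟩
  have h4 := run_of_halt A d R _ _ ω h3 (n - t)
  rw [Nat.add_sub_cancel' htn] at h4
  rw [h4] at h1 h2
  by_contra hlt
  obtain ⟨w, hw, hdom, hrun⟩ := run_eq A d (A.start d R (cols m (base m))) (vec (base m)) ω x t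
  have hrun' : A.run d R (cols m (base m)) (vec (base m) x) ω t =
      (fstate A (A.start d R (cols m (base m))) w,
        fmem A d (A.start d R (cols m (base m))) (vec (base m)) w x) := by
    unfold Alg.run
    rw [mem0_eq]
    exact hrun
  rw [hrun'] at h1 h2
  refine hx R w hG (by omega) ⟨hdom, out, h1, fun j hj => ?_⟩
  rw [← target_eq (two_le_base m)]
  exact h2 j hj

end Pool.Agent.MP_d958de_lc

end

-- part MP_d958de_lc.Count
section

/-! Almost all row sets are good when `d` is a large prime. -/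

namespace Pool.Agent.MP_d958de_lc

open Finset

theorem card_hyperplane {d m : ℕ} [Fact d.Prime] (c : Fin m → ZMod d) (a0 : Fin m)
    (h0 : c a0 ≠ 0) :
    (univ.filter fun r : Fin m → ZMod d => ∑ a, r a * c a = 0).card ≤ d ^ (m - 1) := by
  classical
  have h := card_le_card_of_injOn
    (s := univ.filter fun r : Fin m → ZMod d => ∑ a, r a * c a = 0)
    (t := (univ : Finset ({a : Fin m // a ≠ a0} → ZMod d)))
    (fun r a => r a.1) (fun _ _ => mem_coe.2 (mem_univ _)) (by
      intro r hr r' hr' hrr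
      have hr1 := (mem_filter.1 hr).2
      have hr2 := (mem_filter.1 hr').2
      have hne : ∀ a, a ≠ a0 → r a = r' a := fun a ha => congrFun hrr ⟨a, ha⟩
      rw [← Finset.add_sum_erase _ _ (mem_univ a0)] at hr1 hr2
      have e : ∑ a ∈ univ.erase a0, r a * c a = ∑ a ∈ univ.erase a0, r' a * c a :=
        sum_congr rfl fun a ha => by rw [hne a (ne_of_mem_erase ha)]
      have e2 : r a0 * c a0 = r' a0 * c a0 := by
        rw [e] at hr1
        exact add_right_cancel (hr1.trans hr2.symm)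
      funext a
      by_cases ha : a = a0
      · rw [ha]; exact mul_right_cancel₀ h0 e2
      · exact hne a ha)
  simpa [ZMod.card] using h

open Classical in
theorem card_bad {m L d : ℕ} (hd : d.Prime) (hL : L ^ m ≤ d) :
    (((range d).powersetCard m).filter fun R => ¬ Good m L d R).card ≤
      (L ^ m) ^ m * (L ^ m) ^ m * d ^ (m - 1) := by
  have : Fact d.Prime := ⟨hd⟩
  let φ' : Finset ℕ → Fin m → ZMod d := fun R a =>
    if h : R.card = m then ((R.orderEmbOfFin h a : ℕ) : ZMod d) else 0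
  let P : Finset ((Fin m → Fin (L ^ m)) × (Fin m → Fin (L ^ m))) := univ.filter fun p => p.1 ≠ p.2
  let T : Finset (Fin m → ZMod d) := P.biUnion fun p =>
    univ.filter fun r : Fin m → ZMod d =>
      ∑ a, r a * (((p.1 a : ℕ) : ZMod d) - ((p.2 a : ℕ) : ZMod d)) = 0
  have h1 := card_le_card_of_injOn
    (s := ((range d).powersetCard m).filter fun R => ¬ Good m L d R) (t := T) φ' (by
      intro R hR
      obtain ⟨hR1, hR2⟩ := mem_filter.1 hR
      obtain ⟨hsub, hcard⟩ := mem_powersetCard.1 hR1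
      have : ¬ Function.Injective fun u : Fin m → Fin (L ^ m) =>
          (∑ a, R.orderEmbOfFin hcard a * (u a : ℕ)) % d := fun h =>
        hR2 ⟨fun a => R.orderEmbOfFin hcard a, fun a => R.orderEmbOfFin_mem hcard a, h⟩
      rw [Function.not_injective_iff] at this
      obtain ⟨u, u', huu, hne⟩ := this
      refine mem_coe.2 (mem_biUnion.2 ⟨(u, u'), by simpa [P] using hne, ?_⟩)
      rw [mem_filter]
      refine ⟨mem_univ _, ?_⟩
      have h2 := (ZMod.natCast_eq_natCast_iff' _ _ d).2 huu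
      push_cast at h2
      simp only [φ', dif_pos hcard, mul_sub, sum_sub_distrib]
      exact sub_eq_zero.2 h2) (by
      intro R hR R' hR' hRR
      obtain ⟨hsub, hcard⟩ := mem_powersetCard.1 (mem_filter.1 hR).1
      obtain ⟨hsub', hcard'⟩ := mem_powersetCard.1 (mem_filter.1 hR').1
      have h2 : (R.orderEmbOfFin hcard : Fin m → ℕ) = R'.orderEmbOfFin hcard' := by
        funext a
        have h3 := congrFun hRR a
        simp only [φ', dif_pos hcard, dif_pos hcard'] at h3
        have h4 := (ZMod.natCast_eq_natCast_iff' _ _ d).1 h3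
        rwa [Nat.mod_eq_of_lt (mem_range.1 (hsub (R.orderEmbOfFin_mem hcard a))),
          Nat.mod_eq_of_lt (mem_range.1 (hsub' (R'.orderEmbOfFin_mem hcard' a)))] at h4
      apply coe_injective
      rw [← R.range_orderEmbOfFin hcard, ← R'.range_orderEmbOfFin hcard', h2])
  refine h1.trans (card_biUnion_le.trans ?_)
  refine (sum_le_card_nsmul _ _ (d ^ (m - 1)) ?_).trans ?_
  · intro p hp
    have hp' : p.1 ≠ p.2 := by simpa [P] using hp
    obtain ⟨a0, ha0⟩ := Function.ne_iff.1 hp'
    refine card_hyperplane _ a0 fun h => ha0 ?_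
    have h4 := (ZMod.natCast_eq_natCast_iff' _ _ d).1 (sub_eq_zero.1 h)
    rw [Nat.mod_eq_of_lt ((p.1 a0).2.trans_le hL), Nat.mod_eq_of_lt ((p.2 a0).2.trans_le hL)] at h4
    exact Fin.ext h4
  · rw [smul_eq_mul]
    refine Nat.mul_le_mul_right _ ((card_filter_le _ _).trans ?_)
    simp

theorem pow_le_mul_choose {m d : ℕ} (h : 2 * m ≤ d) :
    d ^ m ≤ 2 ^ m * m.factorial * d.choose m := by
  have h1 := Nat.pow_sub_le_descFactorial d m
  rw [Nat.descFactorial_eq_factorial_mul_choose] at h1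
  calc d ^ m ≤ (2 * (d + 1 - m)) ^ m := Nat.pow_le_pow_left (by omega) m
    _ = 2 ^ m * (d + 1 - m) ^ m := mul_pow _ _ _
    _ ≤ 2 ^ m * (m.factorial * d.choose m) := Nat.mul_le_mul_left _ h1
    _ = _ := by ring

open Classical in
/-- For every `m ≥ 1` and `K` there is a prime `d` for which at most a `1/K` fraction of the row
sets is not good. -/
theorem exists_prime {m : ℕ} (hm : 1 ≤ m) (L K : ℕ) : ∃ d : ℕ, d.Prime ∧ L ^ m ≤ d ∧ 2 * m ≤ d ∧
    K * (((range d).powersetCard m).filter fun R => ¬ Good m L d R).card ≤ d.choose m := by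
  obtain ⟨d, hd1, hd⟩ := Nat.exists_infinite_primes
    (L ^ m + 2 * m + K * ((L ^ m) ^ m * (L ^ m) ^ m) * (2 ^ m * m.factorial))
  refine ⟨d, hd, by omega, by omega, ?_⟩
  have h1 := card_bad (m := m) (L := L) hd (by omega)
  have h2 := pow_le_mul_choose (m := m) (d := d) (by omega)
  set B := (((range d).powersetCard m).filter fun R => ¬ Good m L d R).card
  set X := (L ^ m) ^ m * (L ^ m) ^ m
  set F := 2 ^ m * m.factorial with hF
  have hFpos : 0 < F := by positivity
  have h3 : K * X * F ≤ d := by omega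
  have h4 : d ^ m = d * d ^ (m - 1) := by
    rw [← pow_succ']; congr 1; omega
  refine Nat.le_of_mul_le_mul_left ?_ hFpos
  calc F * (K * B) ≤ F * (K * (X * d ^ (m - 1))) := by gcongr
    _ = (K * X * F) * d ^ (m - 1) := by ring
    _ ≤ d * d ^ (m - 1) := by gcongr
    _ ≤ F * d.choose m := by rw [← h4]; exact h2

/-- The quantitative lower bound: for all but a `1/K` fraction of the row sets, every correct run
takes more than `(m² - 2) / 4` steps. -/
theorem lower_bound {σ Ω : Type} (A : Alg σ Ω) {m : ℕ} (hm : 1 ≤ m) (K : ℕ) :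
    ∃ (d : ℕ) (C : Finset ℕ) (v : ℕ → ℂ) (B : Finset (Finset ℕ)),
      2 * m ≤ d ∧ C ⊆ range d ∧ C.card = m ∧ K * B.card ≤ d.choose m ∧
      ∀ R ∈ (range d).powersetCard m, R ∉ B → ∀ ω : Ω, Correct A d R C v ω →
        m * m < 4 * A.time d R C v ω + 2 := by
  classical
  obtain ⟨d, hd, h1, h2, h3⟩ := exists_prime hm (base m) K
  have hC : cols m (base m) ⊆ range d := by
    intro k hk
    obtain ⟨i, -, rfl⟩ := mem_image.1 hk
    exact mem_range.2 ((Nat.pow_lt_pow_right (two_le_base m) i.2).trans_le h1)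
  obtain ⟨v, hv⟩ := time_lower A (m := m) hd
  refine ⟨d, cols m (base m), v, _, h2, hC, card_cols (two_le_base m), h3, fun R hR hB => ?_⟩
  refine hv R ?_
  by_contra hG
  exact hB (mem_filter.2 ⟨hR, hG⟩)

end Pool.Agent.MP_d958de_lc

end

-- part MP_d958de_lc.Final
section

/-! From the quantitative bound to the negated form of the question. -/

namespace Pool.Agent.MP_d958de_lc

open Finset Filter MeasureTheory

theorem avg_lower {d m : ℕ} (hdm : m ≤ d) (B : Finset (Finset ℕ)) (hB : 4 * B.card ≤ d.choose m)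
    (f : Finset ℕ → ENNReal) (a : ENNReal)
    (hf : ∀ R ∈ (range d).powersetCard m, R ∉ B → a * (2 / 3) ≤ f R) :
    a / 2 ≤ (∑ R ∈ (range d).powersetCard m, f R) / (d.choose m : ENNReal) := by
  classical
  have hpos : 0 < d.choose m := Nat.choose_pos hdm
  set P := (range d).powersetCard m with hP
  have hPc : P.card = d.choose m := by simp [hP]
  have h1 : 3 * d.choose m ≤ 4 * (P \ B).card := by
    have := le_card_sdiff B P
    omega
  have h2 : ((P \ B).card : ENNReal) * (a * (2 / 3)) ≤ ∑ R ∈ P, f R := by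
    calc ((P \ B).card : ENNReal) * (a * (2 / 3)) = ∑ _R ∈ P \ B, a * (2 / 3) := by
          rw [sum_const, nsmul_eq_mul]
      _ ≤ ∑ R ∈ P \ B, f R :=
          sum_le_sum fun R hR => hf R (mem_sdiff.1 hR).1 (mem_sdiff.1 hR).2
      _ ≤ _ := sum_le_sum_of_subset sdiff_subset
  rw [ENNReal.le_div_iff_mul_le (Or.inl (by exact_mod_cast hpos.ne')) (Or.inl (by simp))]
  refine le_trans ?_ h2
  have h3 : (d.choose m : ENNReal) / 2 ≤ ((P \ B).card : ENNReal) * (2 / 3) := by
    have h4 : ((d.choose m : NNReal) / 2 : NNReal) ≤ ((P \ B).card : NNReal) * (2 / 3) := by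
      have h5 : (3 : ℝ) * d.choose m ≤ 4 * (P \ B).card := by exact_mod_cast h1
      rw [← NNReal.coe_le_coe]
      push_cast
      linarith
    have h6 := ENNReal.coe_le_coe.2 h4
    rw [ENNReal.coe_div (by norm_num), ENNReal.coe_mul, ENNReal.coe_div (by norm_num)] at h6
    simpa using h6
  calc a / 2 * (d.choose m : ENNReal) = a * ((d.choose m : ENNReal) / 2) := by
        rw [div_eq_mul_inv, div_eq_mul_inv]; ring
    _ ≤ a * (((P \ B).card : ENNReal) * (2 / 3)) := by gcongr
    _ = _ := by ring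

theorem prob_lower {σ Ω : Type} [MeasurableSpace Ω] (P : Measure Ω) (A : Alg σ Ω)
    (hA : A.Computes P) {m : ℕ} (hm : 1 ≤ m) :
    ∃ (d : ℕ) (C : Finset ℕ) (v : ℕ → ℂ), m ≤ d ∧ C ⊆ range d ∧ C.card = m ∧
      ∀ t : ℝ, 4 * t + 2 ≤ (m : ℝ) ^ 2 → 1 / 2 ≤ A.probExceeds P d C v t ∧
        ENNReal.ofReal t / 2 ≤ A.expectedTime P d C v := by
  obtain ⟨d, C, v, B, h1, h2, h3, h4, h5⟩ := lower_bound A hm 4
  refine ⟨d, C, v, by omega, h2, h3, fun t ht => ?_⟩
  have key : ∀ R ∈ (range d).powersetCard m, R ∉ B → ∃ G : Set Ω, MeasurableSet G ∧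
      2 / 3 ≤ P G ∧ ∀ ω ∈ G, t < (A.time d R C v ω : ℝ) := by
    intro R hR hB
    obtain ⟨hsub, hcard⟩ := mem_powersetCard.1 hR
    obtain ⟨G, hG1, hG2, hG3⟩ := hA d R C v (by omega) hsub h2 (by rw [hcard, h3])
    refine ⟨G, hG1, hG2, fun ω hω => ?_⟩
    have := h5 R hR hB ω (hG3 ω hω)
    have : (m : ℝ) * m < 4 * A.time d R C v ω + 2 := by exact_mod_cast this
    nlinarith
  constructor
  · unfold Alg.probExceeds
    rw [h3]
    refine avg_lower (by omega) B h4 _ 1 fun R hR hB => ?_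
    obtain ⟨G, -, hG2, hG3⟩ := key R hR hB
    rw [one_mul]
    exact hG2.trans (measure_mono hG3)
  · unfold Alg.expectedTime
    rw [h3]
    refine avg_lower (by omega) B h4 _ _ fun R hR hB => ?_
    obtain ⟨G, hG1, hG2, hG3⟩ := key R hR hB
    calc ENNReal.ofReal t * (2 / 3) ≤ ENNReal.ofReal t * P G := by gcongr
      _ = ∫⁻ ω, G.indicator (fun _ => ENNReal.ofReal t) ω ∂P := by
          rw [lintegral_indicator_const hG1]
      _ ≤ _ := lintegral_mono fun ω => by
          by_cases hω : ω ∈ G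
          · rw [Set.indicator_of_mem hω, ← ENNReal.ofReal_natCast]
            exact ENNReal.ofReal_le_ofReal (hG3 ω hω).le
          · rw [Set.indicator_of_notMem hω]
            exact zero_le

theorem negated_form {σ Ω : Type} [MeasurableSpace Ω] (P : Measure Ω) (A : Alg σ Ω)
    (hA : A.Computes P) (T : ℕ → ℝ) (hT : T =o[atTop] fun m => (m : ℝ) ^ 2) :
    (∀ᶠ m : ℕ in atTop, ∃ (d : ℕ) (C : Finset ℕ) (v : ℕ → ℂ),
      m ≤ d ∧ C ⊆ range d ∧ C.card = m ∧ ENNReal.ofReal (T m) < A.expectedTime P d C v) ∧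
    ∀ c : ℝ, 0 < c → ∀ᶠ m : ℕ in atTop, ∃ (d : ℕ) (C : Finset ℕ) (v : ℕ → ℂ),
      m ≤ d ∧ C ⊆ range d ∧ C.card = m ∧
        ENNReal.ofReal ((m : ℝ) ^ (-c)) < A.probExceeds P d C v (T m) := by
  have h1 : ∀ᶠ m : ℕ in atTop, T m ≤ 1 / 32 * (m : ℝ) ^ 2 := by
    filter_upwards [hT.def (by norm_num : (0 : ℝ) < 1 / 32)] with m hm
    rw [Real.norm_eq_abs, Real.norm_eq_abs, abs_of_nonneg (sq_nonneg (m : ℝ))] at hm
    exact (le_abs_self _).trans hm
  have h2 : ∀ x : ℝ, ENNReal.ofReal x / 2 = ENNReal.ofReal (x / 2) := fun x => by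
    rw [ENNReal.ofReal_div_of_pos (by norm_num)]; simp
  constructor
  · filter_upwards [h1, eventually_ge_atTop 2] with m hm hm2
    obtain ⟨d, C, v, h3, h4, h5, h6⟩ := prob_lower P A hA (m := m) (by omega)
    have hm3 : (2 : ℝ) ≤ m := by exact_mod_cast hm2
    refine ⟨d, C, v, h3, h4, h5, lt_of_lt_of_le ?_ (h6 (1 / 8 * (m : ℝ) ^ 2) (by nlinarith)).2⟩
    rw [h2, ENNReal.ofReal_lt_ofReal_iff (by nlinarith)]
    nlinarith
  · intro c hc
    have h0 : Tendsto (fun m : ℕ => (m : ℝ) ^ (-c)) atTop (nhds 0) :=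
      (tendsto_rpow_neg_atTop hc).comp tendsto_natCast_atTop_atTop
    filter_upwards [h1, eventually_ge_atTop 2,
      h0.eventually (gt_mem_nhds (by norm_num : (0 : ℝ) < 1 / 2))] with m hm hm2 hm4
    obtain ⟨d, C, v, h3, h4, h5, h6⟩ := prob_lower P A hA (m := m) (by omega)
    have hm3 : (2 : ℝ) ≤ m := by exact_mod_cast hm2
    refine ⟨d, C, v, h3, h4, h5, lt_of_lt_of_le ?_ (h6 (T m) (by nlinarith)).1⟩
    have h7 := h2 1
    rw [ENNReal.ofReal_one] at h7
    rw [h7, ENNReal.ofReal_lt_ofReal_iff (by norm_num)]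
    exact hm4

end Pool.Agent.MP_d958de_lc

end
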