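import Pool.Agent.MP_d958de_lc.Mg.H19_Sym

attribute [-instance] instNonemptyProd ZMod.decidableEq SemilinearMapClass.toAddHomClass
  IsAddCyclic.isAddCommutative Unique.instInhabited TotallySeparatedSpace.t2Space One.instNonempty
  Nontrivial.to_nonempty Zero.instNonempty Group.IsPerfect.subsingleton_of_isMulCommutative
  instNonemptyOfMonad bot_nonempty RKHS.instFunLike infSet_to_nonempty AddQuantale.instAddLeftMono
  instInhabitedOfMonad CoheytingAlgebra.toGeneralizedCoheytingAlgebra AddTorsor.nonempty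
  IsSemitopologicalRing.toContinuousNeg Torsor.nonempty NumberField.to_charZero
  ConnectedSpace.toNonempty NonUnitalAlgSemiHomClass.toDistribMulActionSemiHomClass
  Unique.instSubsingleton CategoryTheory.IsConnected.is_nonempty IsTopologicalRing.toContinuousNeg
  littleWedderburn Nat.AtLeastTwo.toNeZero top_nonempty supSet_to_nonempty
  NonUnitalNonAssocSemiring.toDistrib

/-! The inequality at a leaf, for random rows and columns modulo large primes. -/

namespace Pool.Agent.MP_d958de_lc.H19

open Filter MeasureTheory Topology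

variable {P : Type} (U : Ultrafilter P) (n : P → ℕ) [hp : ∀ p, Fact (n p).Prime] (m : ℕ)

/-- The random indices. -/
abbrev GG (p : P) : Type := Fin m → ZMod (n p)

/-- Exponent sequences. -/
abbrev Sq : Type := ∀ p, GG n m p → ZMod (n p)

/-- The coordinates. -/
def XX (c : Fin m) : Sq n m := fun _ x => x c

open Classical in
/-- The set of coordinates. -/
noncomputable def Xs : Finset (Sq n m) := Finset.univ.image (XX n m)

variable {n m}

/-- The normalised residues. -/
noncomputable def uu (p : P) (x : GG n m p) : Sq n m → ℝ := fun s => rep (ZMod.toAddCircle (s p x))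

lemma poly_XX (c : Fin m) : Poly U n (XX n m c) :=
  ⟨1, Eventually.of_forall fun _ => Deg.hom _ fun _ _ => rfl⟩

/-- The exponents of the matrix entries are independent modulo the coordinates. -/
structure Gen (tg : Fin m × Fin m → Sq n m) : Prop where
  poly : ∀ a, Poly U n (tg a)
  zero : ∀ a p, tg a p 0 = 0
  ind : ∀ r : Fin m ⊕ Fin m × Fin m → ℤ,
    (∀ᶠ p in U, ∀ x, ∑ j, (r j : ZMod (n p)) * (Sum.elim (XX n m) tg j : Sq n m) p x = 0) →
      ∀ j, r j = 0

variable {tg : Fin m × Fin m → Sq n m}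

open Classical in
theorem model (hn : Tendsto n U atTop) (ht : Gen U tg) (S : Finset (Sq n m)) (hS : ∀ s ∈ S, Poly U n s) :
    ∃ (k : ℕ) (yy : ∀ p, GG n m p → Fin k → UnitAddCircle) (q : Sq n m → Fin k → ℤ)
      (V : Submodule ℚ (Fin m × Fin m → ℚ)),
      (∀ g : C(Fin k → UnitAddCircle, ℝ),
        Tendsto (fun p => av fun x => g (yy p x)) U (𝓝 (∫ y, g y))) ∧
      (∀ᶠ p in U, ∀ x, ∀ s ∈ S ∪ Finset.univ.image tg,
        uu p x s = iota q (fun s => ZMod.toAddCircle (s p 0)) (yy p x) s) ∧
      Module.finrank ℚ V ≤ (S \ Xs n m).card ∧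
      ∀ v ∉ V, ∃ (h : Fin k → UnitAddCircle) (φ : (Fin m × Fin m → ℚ) →ₗ[ℚ] ℚ), φ v = 1 / 2 ∧
        (∀ s ∈ S, pair (q s) h = 0) ∧
        ∀ a, pair (q (tg a)) h = (((φ (Pi.single a 1) : ℚ) : ℝ) : UnitAddCircle) := by
  let w : Fin m ⊕ Fin m × Fin m → Sq n m := Sum.elim (XX n m) tg
  obtain ⟨k, B, q, hB, hq⟩ := exists_basis hn (S ∪ Finset.univ.image w) (fun s hs => by
    rcases Finset.mem_union.1 hs with h | h
    · exact hS s h
    · obtain ⟨j, -, rfl⟩ := Finset.mem_image.1 h
      rcases j with c | a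
      exacts [poly_XX U c, ht.poly a])
  have hq' := (eventually_all_finset _).2 hq
  have hpair : ∀ (r : Fin k → ℤ) p x, pair r (fun j => ZMod.toAddCircle (B j p x)) =
      ZMod.toAddCircle (∑ j, (r j : ZMod (n p)) * B j p x) := by
    intro r p x
    rw [map_sum, pair]
    exact Finset.sum_congr rfl fun j _ => by rw [← zsmul_eq_mul, map_zsmul]
  have hli : LinearIndependent ℚ fun j => fun i => (q (w j) i : ℚ) := by
    rw [← LinearIndependent.iff_fractionRing ℤ ℚ, Fintype.linearIndependent_iff]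
    intro r hr
    have h1 : ∀ i, ∑ j, r j * q (w j) i = 0 := fun i => by
      have := congrFun hr i
      simp only [Finset.sum_apply, Pi.smul_apply, Pi.zero_apply] at this
      simp only [zsmul_eq_mul] at this
      exact_mod_cast this
    have h2 : ∀ᶠ p in U, ∀ x, ∑ j, (r j : ZMod (n p)) * w j p x = 0 := by
      filter_upwards [hq'] with p h x
      have h3 : ∀ j, w j p x = ∑ i, (q (w j) i : ZMod (n p)) * B i p x := fun j => by
        rw [h (w j) (by simp only [Finset.mem_union, Finset.mem_image, Finset.mem_univ, true_and, exists_apply_eq_apply, or_true]) x]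
        rcases j with c | a <;> simp only [w, Sum.elim_inl, XX, Pi.zero_apply, add_zero, Sum.elim_inr, ht.zero]
      simp only [h3, Finset.mul_sum, ← mul_assoc]
      rw [Finset.sum_comm]
      refine Finset.sum_eq_zero fun i _ => ?_
      rw [← Finset.sum_mul]
      have h4 := congrArg (Int.cast : ℤ → ZMod (n p)) (h1 i)
      push_cast at h4
      rw [h4, zero_mul]
    exact ht.ind r h2
  obtain ⟨g, hg⟩ := LinearMap.exists_extend hli.repr
  have hg' : ∀ j, g (fun i => (q (w j) i : ℚ)) = Finsupp.single j 1 := fun j => by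
    have h1 := LinearMap.congr_fun hg ⟨fun i => (q (w j) i : ℚ), Submodule.subset_span ⟨j, rfl⟩⟩
    rw [hli.repr_eq_single j _ rfl] at h1
    exact h1
  let lam : (Fin k → ℚ) →ₗ[ℚ] (Fin m × Fin m → ℚ) :=
    LinearMap.pi fun a => (Finsupp.lapply (Sum.inr a)).comp g
  let V := Submodule.span ℚ
    (((S \ Xs n m).image fun s => lam fun i => (q s i : ℚ) : Finset _) : Set (Fin m × Fin m → ℚ))
  refine ⟨k, fun p x j => ZMod.toAddCircle (B j p x), q, V,
    equidist (U : Filter P) (fun p x j => ZMod.toAddCircle (B j p x)) fun r hr => ?_, ?_,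
    (finrank_span_finset_le_card _).trans Finset.card_image_le, fun v hv => ?_⟩
  · obtain ⟨⟨D, hD⟩, h0⟩ := hB r hr
    simp only [hpair]
    refine Metric.tendsto_nhds.2 fun ε hε => ?_
    obtain ⟨N, hN⟩ := weyl D (ε / 2) (by positivity)
    filter_upwards [hD, h0, hn.eventually (eventually_ge_atTop N)] with p h1 h2 h3
    have h4 := hN (n p) (hp p).out h3 (GG n m p) (ZMod (n p)) (fun a => ec (ZMod.toAddCircle a))
      (fun x => by ext <;> simp) (fun a b => by rw [map_add, ec_add]) (fun a => ec_norm _)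
      (fun a h => by simpa using ec_eq_one h) _ h1 h2
    have h5 : (0 : ℝ) < Fintype.card (GG n m p) := by exact_mod_cast Fintype.card_pos
    rw [dist_zero_right, norm_div, Complex.norm_natCast, div_lt_iff₀ h5]
    nlinarith only [hε, h4, h5]
  · filter_upwards [hq'] with p h x s hs
    have hs' : s ∈ S ∪ Finset.univ.image w := by
      rcases Finset.mem_union.1 hs with h | h
      · exact Finset.mem_union_left _ h
      · obtain ⟨a, -, rfl⟩ := Finset.mem_image.1 h
        exact Finset.mem_union_right _ (Finset.mem_image.2 ⟨Sum.inr a, Finset.mem_univ _, rfl⟩)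
    rw [uu, iota, hpair, ← map_add, ← h s hs' x]
  · obtain ⟨h, φ, h1, h2, h3⟩ := exists_shift lam V v hv
    refine ⟨h, φ, h1, fun s hs => ?_, fun a => ?_⟩
    · rw [h3, h2]
      · simp
      by_cases hx : s ∈ Xs n m
      · obtain ⟨c, -, rfl⟩ := Finset.mem_image.1 hx
        have : (lam fun i => (q (XX n m c) i : ℚ)) = 0 := by
          funext a
          have := hg' (.inl c)
          simp only [w, Sum.elim_inl] at this
          simp [lam, this]
        rw [this]; exact V.zero_mem
      · exact Submodule.subset_span (Finset.mem_coe.2 (Finset.mem_image_of_mem _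
          (Finset.mem_sdiff.2 ⟨hs, hx⟩)))
    · rw [h3]
      congr 3
      funext b
      have := hg' (.inr a)
      simp only [w, Sum.elim_inr] at this
      simp [lam, this, Finsupp.single_apply, Pi.single_apply, eq_comm]

/-- Complex values that are rational in the variables from `S`. -/
def Rep (S : Finset (Sq n m)) (f : ∀ p, GG n m p → ℂ) : Prop :=
  ∃ F, Rat (S : Set (Sq n m)) F ∧ ∀ᶠ p in U, ∀ x, f p x = F p (uu p x)

/-- Events that are sign conditions in the variables from `S`. -/
def CRep (S : Finset (Sq n m)) (e : ∀ p, GG n m p → Prop) : Prop :=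
  ∃ E, Cond (S : Set (Sq n m)) E ∧ ∀ᶠ p in U, ∀ x, e p x = E p (uu p x)

/-- Mean asymptotically at most zero. -/
def Small (f : ∀ p, GG n m p → ℝ) : Prop := ∀ η : ℝ, 0 < η → ∀ᶠ p in U, av (f p) ≤ η

variable (tg) in
/-- The matrix entries. -/
noncomputable def zz (p : P) (x : GG n m p) (a : Fin m × Fin m) : ℂ := em (uu p x (tg a))

/-- The vector `W` approximates the row sums of `z`. -/
def Close (ε : ℝ) (W : Fin m → ℂ) (z : Fin m × Fin m → ℂ) : Prop :=
  ∑ i, ‖W i - ∑ j, z (i, j)‖ ^ 2 ≤ ε ^ 2 * max (NN z) (m ^ 2)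

lemma cond_close {ι : Type} {S : Set ι} (ε : ℝ) {W : Fin m → P → (ι → ℝ) → ℂ}
    {z : Fin m × Fin m → P → (ι → ℝ) → ℂ} (hW : ∀ i, Rat S (W i)) (hz : ∀ a, Rat S (z a)) :
    Cond S fun p u => Close ε (fun i => W i p u) fun a => z a p u := by
  have h1 := fun i => Rat.sum Finset.univ fun j => hz (i, j)
  have h2 := Rat.sum Finset.univ fun i => ((hW i).sub (h1 i)).sq
  have h3 := (Rat.const (S := S) fun _ : P => ((ε ^ 2 : ℝ) : ℂ)).mul
    (Rat.sum Finset.univ fun i => (h1 i).sq)
  have h4 := (Cond.le' h2 h3).or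
    (Cond.le' h2 (Rat.const (S := S) fun _ : P => ((ε ^ 2 * m ^ 2 : ℝ) : ℂ)))
  simp only [← Complex.ofReal_sum, ← Complex.ofReal_mul, Complex.ofReal_re] at h4
  simpa only [Close, NN, mul_max_of_nonneg _ _ (sq_nonneg ε), le_max_iff] using h4

variable (tg) in
/-- The characters of the torus that carry the matrix entries. -/
noncomputable def ZZ {k : ℕ} (q : Sq n m → Fin k → ℤ) (a : Fin m × Fin m)
    (y : Fin k → UnitAddCircle) : ℂ := ec (-pair (q (tg a)) y)

lemma continuous_ZZ {k : ℕ} (q : Sq n m → Fin k → ℤ) (a : Fin m × Fin m) : Continuous (ZZ tg q a) :=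
  continuous_ec.comp (continuous_pair _).neg

lemma chars_ZZ {k : ℕ} (q : Sq n m → Fin k → ℤ) : Chars (ZZ tg q) :=
  ⟨fun a => (continuous_ZZ (tg := tg) q a).measurable, fun a y h => by
    simp only [ZZ]; rw [pair_add, neg_add, ec_add], fun _ _ => ec_norm _⟩

lemma em_iota (ht : Gen U tg) {k : ℕ} (q : Sq n m → Fin k → ℤ) (p : P) (a : Fin m × Fin m)
    (y : Fin k → UnitAddCircle) :
    em (iota q (fun s => ZMod.toAddCircle (s p 0)) y (tg a)) = ZZ tg q a y := by
  rw [iota, em_rep, ZZ]; simp [ht.zero]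

variable (tg) in
/-- The majorant as a continuous function on the torus. -/
noncomputable def PhiC {k : ℕ} (q : Sq n m → Fin k → ℤ) (γ τ : ℝ) : C(Fin k → UnitAddCircle, ℝ) :=
  ⟨fun y => Phi m γ τ (NN fun a => ZZ tg q a y), by
    have := continuous_ZZ (tg := tg) q
    unfold Phi NN; fun_prop⟩

lemma iota_shift {k : ℕ} {ι : Type} (q : ι → Fin k → ℤ) (c : ι → UnitAddCircle) {S : Finset ι}
    {h : Fin k → UnitAddCircle} (hh : ∀ s ∈ S, pair (q s) h = 0) (y : Fin k → UnitAddCircle) :
    ∀ s ∈ (S : Set ι), iota q c (y + h) s = iota q c y s := fun s hs => by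
  rw [iota, iota, pair_add, hh s hs, add_zero]

lemma ec_half {a b : ℚ} (h : a - b = 1 / 2) :
    ec (-((a : ℝ) : UnitAddCircle)) ≠ ec (-((b : ℝ) : UnitAddCircle)) := by
  intro h1
  have h2 : (a : ℝ) = b + 1 / 2 := by
    have : ((a - b : ℚ) : ℝ) = ((1 / 2 : ℚ) : ℝ) := by rw [h]
    push_cast at this; linarith only [this]
  rw [h2, AddCircle.coe_add, neg_add, ec_add] at h1
  have h3 : ec (-((b : ℝ) : UnitAddCircle)) ≠ 0 := by
    rw [← norm_ne_zero_iff, ec_norm]; norm_num
  exact half_ne (neg_eq_zero.1 (ec_eq_one (mul_left_cancel₀ h3 (by rw [h1, mul_one]))))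

open Classical in
theorem leaf (hn : Tendsto n U atTop) (ht : Gen U tg) (hm : 0 < m) {ε γ : ℝ} (hγ : 0 < γ)
    (he : ε ^ 2 = 1 - 2 * γ)
    (S : Finset (Sq n m)) (hS : ∀ s ∈ S, Poly U n s) (T : ℕ) (hT : (S \ Xs n m).card ≤ T)
    {e : ∀ p, GG n m p → Prop} (hE : CRep U S e) {W : Fin m → ∀ p, GG n m p → ℂ}
    (hW : ∀ i, Rep U S (W i)) :
    Small U fun p x => ind (e p x ∧ Close ε (fun i => W i p x) (zz tg p x)) -
      ind (e p x) * Phi m γ (2 * T) (NN (zz tg p x)) := by
  obtain ⟨k, yy, q, V, h1, h2, h3, h4⟩ := model U hn ht S hS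
  obtain ⟨E, hE, hE'⟩ := hE
  choose F hF hF' using hW
  obtain ⟨A, hA, hA'⟩ := singles V
  set c : P → Sq n m → UnitAddCircle := fun p s => ZMod.toAddCircle (s p 0) with hc
  have hsub : (S : Set (Sq n m)) ⊆ (S ∪ Finset.univ.image tg : Finset _) := by simp only [Finset.coe_union, Finset.coe_image, Finset.coe_univ, Set.image_univ, Set.subset_union_left]
  have hB := (hE.mono hsub).and (cond_close ε (fun i => (hF i).mono hsub)
    fun a => Rat.exp (tg a) (by simp only [Finset.coe_union, Finset.coe_image, Finset.coe_univ, Set.image_univ, Set.mem_union, SetLike.mem_coe, Set.mem_range, exists_apply_eq_apply, or_true]))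
  intro η hη
  filter_upwards [h2, hE', eventually_all.2 hF',
    transfer U volume yy h1 (hB.tame U q c) (fun p => measurable_iota q (c p) (hB.meas p)) 1
      (η / 2) (by positivity),
    transfer U volume yy h1 (hE.tame U q c) (fun p => measurable_iota q (c p) (hE.meas p))
      (PhiC tg q γ (2 * T)) (η / 2) (by positivity)] with p e1 e2 e3 e4 e5
  have e6 := leaf_haar (H := {h | ∀ s ∈ S, pair (q s) h = 0}) (τ := 2 * T) volume hm hγ he
    (chars_ZZ (tg := tg) q) (E := fun y => E p (iota q (c p) y)) (measurable_iota q (c p) (hE.meas p))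
    (fun h hh y => hE.congr p (iota_shift q _ hh y)) A (fun a ha b hb => by
      obtain ⟨h, φ, g1, g2, g3⟩ := h4 _ (hA' a ha b hb)
      refine ⟨h, g2, ?_⟩
      simp only [ZZ, g3]
      exact ec_half (by rw [← map_sub, g1])) (by
      have g1 : m * m ≤ A.card + 2 * T := by
        simp only [Fintype.card_prod, Fintype.card_fin] at hA; omega
      have g2 : (m : ℝ) * m ≤ A.card + 2 * T := by exact_mod_cast g1
      linarith only [g2]) (fun i y => F i p (iota q (c p) y))
    (fun i => ((hF i).meas p).comp (measurable_iota q (c p)))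
    (fun i h hh y => (hF i).congr p (iota_shift q _ hh y))
    (measurable_iota q (c p) (hB.meas p)) (fun y hy => ⟨hy.1, by
      simpa only [Close, hc, em_iota U ht] using hy.2⟩)
  have z1 : ∀ x, zz tg p x = fun a => ZZ tg q a (yy p x) := fun x => funext fun a => by
    rw [zz, e1 x _ (by simp only [Finset.mem_union, Finset.mem_image, Finset.mem_univ, true_and, exists_apply_eq_apply, or_true]), em_iota U ht]
  have z2 : ∀ x, e p x = E p (iota q (c p) (yy p x)) := fun x => by
    rw [e2 x, hE.congr p fun s hs => e1 x s (hsub hs)]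
  have z3 : ∀ i x, W i p x = F i p (iota q (c p) (yy p x)) := fun i x => by
    rw [e3 i x, (hF i).congr p fun s hs => e1 x s (hsub hs)]
  simp only [hc, Set.mem_ofPred_eq, em_iota U ht, ContinuousMap.one_apply, mul_one, PhiC,
    ContinuousMap.coe_mk] at e4 e5 e6
  simp only [av_sub, z1, z2, z3, hc]
  rw [abs_le] at e4 e5
  linarith only [e4.2, e5.1, e6]

open Classical in
theorem mean (hn : Tendsto n U atTop) (ht : Gen U tg) (hm : 0 < m) {γ : ℝ} (hγ : 0 < γ) (τ : ℝ)
    {e : ∀ p, GG n m p → Prop} (hE : CRep U (Xs n m) e) :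
    Small U fun p x => ind (e p x) * Phi m γ τ (NN (zz tg p x)) -
      (1 / (γ ^ 2 * m) + (2 * m + 2 * τ) / (γ * m ^ 2)) * ind (e p x) := by
  obtain ⟨k, yy, q, V, h1, h2, h3, h4⟩ := model U hn ht (Xs n m) (fun s hs => by
    obtain ⟨c, -, rfl⟩ := Finset.mem_image.1 hs
    exact poly_XX U c)
  obtain ⟨E, hE, hE'⟩ := hE
  have hV : V = ⊥ := by simpa only [sdiff_self, Finset.bot_eq_empty, Finset.card_empty, nonpos_iff_eq_zero, Submodule.finrank_eq_zero] using h3
  set κ := 1 / (γ ^ 2 * m) + (2 * m + 2 * τ) / (γ * m ^ 2)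
  set c : P → Sq n m → UnitAddCircle := fun p s => ZMod.toAddCircle (s p 0) with hc
  have hsub : (Xs n m : Set (Sq n m)) ⊆ (Xs n m ∪ Finset.univ.image tg : Finset _) := by simp only [Finset.coe_union, Finset.coe_image, Finset.coe_univ, Set.image_univ, Set.subset_union_left]
  intro η hη
  filter_upwards [h2, hE',
    transfer U volume yy h1 (hE.tame U q c) (fun p => measurable_iota q (c p) (hE.meas p))
      (ContinuousMap.const _ κ) (η / 2) (by positivity),
    transfer U volume yy h1 (hE.tame U q c) (fun p => measurable_iota q (c p) (hE.meas p))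
      (PhiC tg q γ τ) (η / 2) (by positivity)] with p e1 e2 e4 e5
  have e6 := mean_phi (H := {h | ∀ s ∈ Xs n m, pair (q s) h = 0}) (τ := τ) volume hm hγ
    (chars_ZZ (tg := tg) q) (E := fun y => E p (iota q (c p) y)) (measurable_iota q (c p) (hE.meas p))
    (fun h hh y => hE.congr p (iota_shift q _ hh y)) (fun a b hb => by
      obtain ⟨h, φ, g1, g2, g3⟩ := h4 (Pi.single a 1 - Pi.single b 1) (by
        rw [hV, Submodule.mem_bot]
        intro g
        simpa [hb.symm] using congrFun g a)
      refine ⟨h, g2, ?_⟩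
      simp only [ZZ, g3]
      exact ec_half (by rw [← map_sub, g1])) (fun i j l i' j' l' g4 g5 g6 => by
      obtain ⟨h, φ, g1, g2, g3⟩ := h4 ((Pi.single (i, j) 1 - Pi.single (i, l) 1) -
          (Pi.single (i', j') 1 - Pi.single (i', l') 1)) (by
        rw [hV, Submodule.mem_bot]
        intro g
        have a1 := congrFun g (i, j)
        have a2 := congrFun g (i, l)
        simp only [Pi.sub_apply, Pi.single_apply, Prod.mk.injEq, Pi.zero_apply] at a1 a2
        apply g6
        by_cases b1 : i = i' <;> by_cases b2 : j = j' <;> by_cases b3 : l = l' <;>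
          by_cases b4 : j = l' <;> simp_all)
      refine ⟨h, g2, ?_⟩
      simp only [ZZ, g3, ← ec_neg, ← ec_add, ← neg_add, ← AddCircle.coe_neg, ← AddCircle.coe_add,
        ← Rat.cast_neg, ← Rat.cast_add]
      simp only [Rat.cast_neg, AddCircle.coe_neg]
      exact ec_half (by rw [← g1]; simp only [map_sub]; ring))
  have z1 : ∀ x, zz tg p x = fun a => ZZ tg q a (yy p x) := fun x => funext fun a => by
    rw [zz, e1 x _ (by simp only [Finset.mem_union, Finset.mem_image, Finset.mem_univ, true_and, exists_apply_eq_apply, or_true]), em_iota U ht]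
  have z2 : ∀ x, e p x = E p (iota q (c p) (yy p x)) := fun x => by
    rw [e2 x, hE.congr p fun s hs => e1 x s (hsub hs)]
  simp only [PhiC, ContinuousMap.coe_mk, ContinuousMap.const_apply, mul_comm _ κ,
    integral_const_mul] at e4 e5 e6
  simp only [av_sub, z1, z2]
  rw [abs_le] at e4 e5
  linarith only [e4.1, e5.2, e6]

end Pool.Agent.MP_d958de_lc.H19
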