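import Pool.Agent.MP_d958de_lc.Mg.H19_Leaf
import Pool.Agent.MP_d958de_lc.H19.Defs

attribute [-instance] Fintype.decidableForallFintype AddQuantale.instAddLeftMono RKHS.instFunLike
  IdemSemiring.toCanonicallyOrderedAdd Nat.AtLeastTwo.toNeZero NumberField.to_charZero
  Finset.decidableDforallFinset AddQuantale.instAddRightMono
  ContinuousMonoidHom.instCoeOutOfMonoidHomClassOfContinuousMapClass
  LinearOrderedCommMonoidWithZero.toPosMulStrictMono Multiset.decidableDforallMultiset
  Group.IsPerfect.subsingleton_of_isMulCommutative Vector.instDecidableForallForallMemOfDecidablePred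
  instCoeTCOfCoe Int.decidableLTLE Array.instDecidableForallForallMemOfDecidablePred
  ContinuousAddMonoidHom.instCoeOutOfAddMonoidHomClassOfContinuousMapClass Option.decidableForallMem
  AddGroup.addLeftReflectLE_of_addLeftMono instCoeTOfCoeDep IdemSemiring.toSemiring
  Quantale.instMulRightMono

-- part MP_d958de_lc.H19.Ind
section

/-! Induction along the computation. -/

namespace Pool.Agent.MP_d958de_lc.H19

open Filter MeasureTheory Topology

variable {P : Type} {U : Ultrafilter P} {n : P → ℕ} [hp : ∀ p, Fact (n p).Prime] {m : ℕ}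
  {S S' : Finset (Sq n m)} {f g : ∀ p, GG n m p → ℂ} {e e' : ∀ p, GG n m p → Prop}

lemma Rep.congr (h : Rep U S f) (hg : ∀ᶠ p in U, ∀ x, g p x = f p x) : Rep U S g := by
  obtain ⟨F, h1, h2⟩ := h
  exact ⟨F, h1, by filter_upwards [h2, hg] with p a b x; rw [b, a]⟩

lemma Rep.mono (h : Rep U S f) (hS : S ⊆ S') : Rep U S' f :=
  let ⟨F, h1, h2⟩ := h; ⟨F, h1.mono hS, h2⟩

lemma CRep.mono (h : CRep U S e) (hS : S ⊆ S') : CRep U S' e :=
  let ⟨F, h1, h2⟩ := h; ⟨F, h1.mono hS, h2⟩

lemma Rep.const (a : P → ℂ) : Rep U S fun p _ => a p :=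
  ⟨_, .const a, Eventually.of_forall fun _ _ => rfl⟩

lemma Rep.coord {s : Sq n m} (hs : s ∈ S) : Rep U S fun p x => (uu p x s : ℂ) :=
  ⟨_, .coord s hs, Eventually.of_forall fun _ _ => rfl⟩

lemma Rep.exp {s : Sq n m} (hs : s ∈ S) : Rep U S fun p x => em (uu p x s) :=
  ⟨_, .exp s hs, Eventually.of_forall fun _ _ => rfl⟩

lemma Rep.add (h : Rep U S f) (h' : Rep U S g) : Rep U S fun p x => f p x + g p x := by
  obtain ⟨F, h1, h2⟩ := h
  obtain ⟨G, h3, h4⟩ := h'
  exact ⟨_, h1.add h3, by filter_upwards [h2, h4] with p a b x; rw [a, b]⟩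

lemma Rep.mul (h : Rep U S f) (h' : Rep U S g) : Rep U S fun p x => f p x * g p x := by
  obtain ⟨F, h1, h2⟩ := h
  obtain ⟨G, h3, h4⟩ := h'
  exact ⟨_, h1.mul h3, by filter_upwards [h2, h4] with p a b x; rw [a, b]⟩

lemma Rep.inv (h : Rep U S f) : Rep U S fun p x => (f p x)⁻¹ := by
  obtain ⟨F, h1, h2⟩ := h
  exact ⟨_, h1.inv, by filter_upwards [h2] with p a x; rw [a]⟩

lemma Rep.conj (h : Rep U S f) : Rep U S fun p x => (starRingEnd ℂ) (f p x) := by
  obtain ⟨F, h1, h2⟩ := h
  exact ⟨_, h1.conj, by filter_upwards [h2] with p a x; rw [a]⟩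

lemma CRep.and (h : CRep U S e) (h' : CRep U S e') : CRep U S fun p x => e p x ∧ e' p x := by
  obtain ⟨F, h1, h2⟩ := h
  obtain ⟨G, h3, h4⟩ := h'
  exact ⟨_, h1.and h3, by filter_upwards [h2, h4] with p a b x; rw [a, b]⟩

lemma CRep.le (h : Rep U S f) (h' : Rep U S g) (b : Prop) :
    CRep U S fun p x => (f p x).re ≤ (g p x).re ↔ b := by
  obtain ⟨F, h1, h2⟩ := h
  obtain ⟨G, h3, h4⟩ := h'
  exact ⟨_, (Cond.le' h1 h3).iff b, by filter_upwards [h2, h4] with p a b x; rw [a, b]⟩

lemma CRep.all {κ : Type} [Fintype κ] {e : κ → ∀ p, GG n m p → Prop} (h : ∀ i, CRep U S (e i)) :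
    CRep U S fun p x => ∀ i, e i p x := by
  choose E h1 h2 using h
  exact ⟨_, Cond.all h1, by filter_upwards [eventually_all.2 h2] with p a x; simp only [a]⟩

omit hp in
lemma sel {α : Type} [Zero α] (Q : (∀ p, GG n m p → α) → Prop) (h0 : Q fun _ _ => 0)
    (hc : ∀ f g, Q f → (∀ᶠ p in U, ∀ x, g p x = f p x) → Q g) {L : List (∀ p, GG n m p → α)}
    (hL : ∀ f ∈ L, Q f) (i : P → ℕ) : Q fun p x => (L.map fun f => f p x).getD (i p) 0 := by
  have h1 : ∀ᶠ p in U, ∃ f ∈ {f | f ∈ (fun _ _ => 0) :: L},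
      ∀ x, (L.map fun f => f p x).getD (i p) 0 = f p x := Eventually.of_forall fun p => by
    by_cases h : i p < L.length
    · exact ⟨L[i p], by simp, fun x => by simp [h]⟩
    · exact ⟨fun _ _ => 0, by simp, fun x => by simp [not_lt.1 h]⟩
  obtain ⟨f, hf, h2⟩ := (Ultrafilter.eventually_exists_mem_iff (List.finite_toSet _)).1 h1
  refine hc f _ ?_ h2
  rcases List.mem_cons.1 hf with rfl | h
  exacts [h0, hL f h]

variable (U S) in
/-- Admissible integer registers. -/
def IOk (f : ∀ p, GG n m p → ℤ) : Prop :=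
  (Poly U n fun p x => (f p x : ZMod (n p))) ∧ Rep U S fun p x => (f p x : ℂ)

lemma IOk.const (a : P → ℤ) : IOk U S fun p _ => a p := ⟨Poly.const _, Rep.const _⟩

lemma IOk.add {f g : ∀ p, GG n m p → ℤ} (h : IOk U S f) (h' : IOk U S g) :
    IOk U S fun p x => f p x + g p x :=
  ⟨by simpa using h.1.add h'.1, by simpa using h.2.add h'.2⟩

lemma IOk.mul {f g : ∀ p, GG n m p → ℤ} (h : IOk U S f) (h' : IOk U S g) :
    IOk U S fun p x => f p x * g p x :=
  ⟨by simpa using h.1.mul h'.1, by simpa using h.2.mul h'.2⟩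

lemma IOk.sel {L : List (∀ p, GG n m p → ℤ)} (hL : ∀ f ∈ L, IOk U S f) (i : P → ℕ) :
    IOk U S fun p x => (L.map fun f => f p x).getD (i p) 0 :=
  H19.sel (U := U) (IOk U S) (IOk.const fun _ => 0) (fun _ _ h hg =>
    ⟨h.1.congr (hg.mono fun p a => funext fun x => by rw [a]),
      h.2.congr (hg.mono fun p a x => by rw [a])⟩) hL i

lemma Rep.sel {L : List (∀ p, GG n m p → ℂ)} (hL : ∀ f ∈ L, Rep U S f) (i : P → ℕ) :
    Rep U S fun p x => (L.map fun f => f p x).getD (i p) 0 :=
  H19.sel (U := U) (Rep U S) (Rep.const fun _ => 0) (fun _ _ h hg => h.congr hg) hL i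

lemma Small.mono {f g : ∀ p, GG n m p → ℝ} (h : Small U f) (hg : ∀ᶠ p in U, ∀ x, g p x ≤ f p x) :
    Small U g := fun η hη => by
  filter_upwards [h η hη, hg] with p a b
  exact (av_mono b).trans a

lemma Small.add {f g : ∀ p, GG n m p → ℝ} (h : Small U f) (h' : Small U g) :
    Small U fun p x => f p x + g p x := fun η hη => by
  filter_upwards [h (η / 2) (by positivity), h' (η / 2) (by positivity)] with p a b
  rw [av_add]; linarith

lemma Small.sum {κ : Type} (s : Finset κ) {f : κ → ∀ p, GG n m p → ℝ} (h : ∀ i, Small U (f i)) :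
    Small U fun p x => ∑ i ∈ s, f i p x := by
  classical
  induction s using Finset.induction_on with
  | empty => exact fun η hη => Eventually.of_forall fun p => by simp only [av, Finset.sum_empty, Finset.sum_const_zero, Fintype.card_pi, ZMod.card, Finset.prod_const, Finset.card_univ, Fintype.card_fin, Nat.cast_pow, zero_div, hη.le]
  | insert a s ha ih => simp only [Finset.sum_insert ha]; exact (h a).add ih

lemma rep_int (d : ℕ) [NeZero d] (t : ℤ) :
    ((t % d : ℤ) : ℂ) = d * (rep (ZMod.toAddCircle (t : ZMod d)) : ℂ) := by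
  have h : (d : ℂ) ≠ 0 := by exact_mod_cast NeZero.ne d
  rw [ZMod.toAddCircle_intCast, rep_coe, Int.fract_div_intCast_eq_div_intCast_mod]
  push_cast; field_simp

lemma root_eq (d : ℕ) [NeZero d] (t : ℤ) :
    rootOfUnity d t = em (rep (ZMod.toAddCircle (t : ZMod d))) := by
  rw [ZMod.toAddCircle_intCast, rep_coe, em_fract, em, rootOfUnity]
  congr 1; push_cast; ring

lemma getD_min {α : Type} (l : List α) (a : α) (i : ℕ) : l.getD (min i l.length) a = l.getD i a := by
  by_cases h : i < l.length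
  · rw [min_eq_left h.le]
  · rw [min_eq_right (not_lt.1 h)]; simp [not_lt.1 h]

variable {σ : Type} (prog : σ → Op σ) {tg : Fin m × Fin m → Sq n m}

/-- A family of configurations. -/
def cfg (s : P → σ) (I : List (∀ p, GG n m p → ℤ)) (Z : List (∀ p, GG n m p → ℂ)) (p : P)
    (x : GG n m p) : σ × List ℤ × List ℂ := (s p, I.map fun f => f p x, Z.map fun f => f p x)

variable (tg) in
/-- A halting configuration with a good output. -/
def Succ (ε : ℝ) (p : P) (x : GG n m p) (c : σ × List ℤ × List ℂ) : Prop :=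
  ∃ out, prog c.1 = .halt out ∧
    Close ε (fun i : Fin m => ((√(n p) : ℝ) : ℂ) * c.2.2.getD (out i) 0) (zz tg p x)

open Classical in
theorem induct (hn : Tendsto n U atTop) (ht : Gen U tg) (hm : 0 < m) {ε γ : ℝ} (hγ : 0 < γ)
    (he : ε ^ 2 = 1 - 2 * γ) (T k : ℕ) : ∀ (S : Finset (Sq n m)) (s : P → σ)
      (I : List (∀ p, GG n m p → ℤ)) (Z : List (∀ p, GG n m p → ℂ)) (e : ∀ p, GG n m p → Prop),
      (∀ t ∈ S, Poly U n t) → (S \ Xs n m).card + k ≤ T → (∀ f ∈ I, IOk U S f) →
      (∀ f ∈ Z, Rep U S f) → CRep U S e →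
      Small U fun p x => ind (e p x ∧ Succ prog tg ε p x ((exec prog (n p))^[k] (cfg s I Z p x))) -
        ind (e p x) * Phi m γ (2 * T) (NN (zz tg p x)) := by
  induction k with
  | zero =>
    intro S s I Z e hS hT hI hZ hE
    have h1 : ∀ p, ∃ out, ∀ o, prog (s p) = .halt o → o = out := fun p => by
      by_cases h : ∃ o, prog (s p) = .halt o
      · obtain ⟨o, h⟩ := h
        exact ⟨o, fun o' h' => by simpa [h'] using h⟩
      · exact ⟨0, fun o h' => (h ⟨o, h'⟩).elim⟩
    choose out hout using h1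
    refine (leaf U hn ht hm hγ he S hS T hT hE fun i : Fin m =>
      (Rep.const fun p => ((√(n p) : ℝ) : ℂ)).mul (Rep.sel hZ fun p => out p i)).mono
      (Eventually.of_forall fun p x => sub_le_sub_right (ind_mono ?_) _)
    rintro ⟨h1, o, h2, h3⟩
    obtain rfl := hout p o h2
    exact ⟨h1, h3⟩
  | succ k ih =>
    intro S s I Z e hS hT hI hZ hE
    simp only [Function.iterate_succ_apply]
    have key : ∀ (t : Sq n m) (s' : P → σ) I' Z', Poly U n t → (∀ f ∈ I', IOk U (insert t S) f) →
        (∀ f ∈ Z', Rep U (insert t S) f) →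
        (∀ᶠ p in U, ∀ x, exec prog (n p) (cfg s I Z p x) = cfg s' (I ++ I') (Z ++ Z') p x) →
        Small U fun p x => ind (e p x ∧ Succ prog tg ε p x ((exec prog (n p))^[k]
          (exec prog (n p) (cfg s I Z p x)))) - ind (e p x) * Phi m γ (2 * T) (NN (zz tg p x)) := by
      intro t s' I' Z' h1 h2 h3 h4
      have h5 := Finset.subset_insert t S
      refine (ih (insert t S) s' (I ++ I') (Z ++ Z') e (by simpa only [Finset.mem_insert, forall_eq_or_imp, h1, true_and] using hS) ?_ ?_ ?_
        (hE.mono h5)).mono (h4.mono fun p a x => by rw [a])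
      · have := Finset.card_le_card (show insert t S \ Xs n m ⊆ insert t (S \ Xs n m) by
          intro a; simp only [Finset.mem_sdiff, Finset.mem_insert]; tauto)
        have := Finset.card_insert_le t (S \ Xs n m)
        omega
      · intro f hf
        rcases List.mem_append.1 hf with h | h
        exacts [⟨(hI f h).1, (hI f h).2.mono h5⟩, h2 f h]
      · intro f hf
        rcases List.mem_append.1 hf with h | h
        exacts [(hZ f h).mono h5, h3 f h]
    have h0 : Poly U n (0 : Sq n m) := Poly.const fun _ => 0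
    have hI' : ∀ t, ∀ f ∈ I, IOk U (insert t S) f := fun t f h =>
      ⟨(hI f h).1, (hI f h).2.mono (Finset.subset_insert _ _)⟩
    have hZ' : ∀ t, ∀ f ∈ Z, Rep U (insert t S) f := fun t f h =>
      (hZ f h).mono (Finset.subset_insert _ _)
    have hcase : ∀ᶠ p in U,
        (∃ t : (ℤ × ℤ × ℤ × ℤ) × ℕ × ℕ × σ,
          prog (s p) = .iop t.1.1 t.1.2.1 t.1.2.2.1 t.1.2.2.2 t.2.1 t.2.2.1 t.2.2.2) ∨
        (∃ t : ℕ × σ, prog (s p) = .imod t.1 t.2) ∨
        (∃ t : (ℂ × ℂ × ℂ × ℂ) × ℕ × ℕ × σ,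
          prog (s p) = .cop t.1.1 t.1.2.1 t.1.2.2.1 t.1.2.2.2 t.2.1 t.2.2.1 t.2.2.2) ∨
        (∃ t : ℕ × ℕ × σ, prog (s p) = .div t.1 t.2.1 t.2.2) ∨
        (∃ t : ℕ × σ, prog (s p) = .conj t.1 t.2) ∨
        (∃ t : ℕ × σ, prog (s p) = .cast t.1 t.2) ∨
        (∃ t : ℕ × σ, prog (s p) = .root t.1 t.2) ∨
        (∃ t, prog (s p) = .branch t) ∨ ∃ t, prog (s p) = .halt t :=
      Eventually.of_forall fun p => by cases prog (s p) <;> simp only [Op.iop.injEq, Prod.exists, exists_and_left, ↓ existsAndEq, and_true, exists_eq', reduceCtorEq, exists_false, exists_const, or_self, or_false, Op.imod.injEq, or_true, Op.cop.injEq, Op.div.injEq, Op.conj.injEq, Op.cast.injEq, Op.root.injEq, Op.branch.injEq, Op.halt.injEq]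
    simp only [Ultrafilter.eventually_or] at hcase
    rcases hcase with h | h | h | h | h | h | h | h | h <;> obtain ⟨t, h⟩ := h.choice
    · have a := IOk.sel (hI' 0) fun p => (t p).2.1
      have b := IOk.sel (hI' 0) fun p => (t p).2.2.1
      refine key 0 (fun p => (t p).2.2.2) [_] [] h0 (List.forall_mem_singleton.2
        ((((((IOk.const fun p => (t p).1.1).mul a).mul b).add
          ((IOk.const fun p => (t p).1.2.1).mul a)).add
          ((IOk.const fun p => (t p).1.2.2.1).mul b)).add (IOk.const fun p => (t p).1.2.2.2)))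
        (by simp only [List.not_mem_nil, IsEmpty.forall_iff, implies_true]) (h.mono fun p a x => by simp only [exec, cfg, a, List.getD_eq_getElem?_getD, List.getElem?_map, List.map_append, List.map_cons, List.map_nil, List.append_nil])
    · have a := IOk.sel hI fun p => (t p).1
      refine key _ (fun p => (t p).2)
        [fun p x => (I.map fun f => f p x).getD (t p).1 0 % n p] [] a.1
        (List.forall_mem_singleton.2 ⟨by simpa only [List.getD_eq_getElem?_getD, List.getElem?_map, ZMod.intCast_mod] using a.1, ?_⟩) (by simp only [List.not_mem_nil, List.getD_eq_getElem?_getD, List.getElem?_map, IsEmpty.forall_iff, implies_true])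
        (h.mono fun p a x => by simp only [exec, cfg, a, List.getD_eq_getElem?_getD, List.getElem?_map, List.map_append, List.map_cons, List.map_nil, List.append_nil])
      exact ((Rep.const fun p => (n p : ℂ)).mul (Rep.coord (Finset.mem_insert_self _ _))).congr
        (Eventually.of_forall fun p x => rep_int _ _)
    · have a := Rep.sel (hZ' 0) fun p => (t p).2.1
      have b := Rep.sel (hZ' 0) fun p => (t p).2.2.1
      refine key 0 (fun p => (t p).2.2.2) [] [_] h0 (by simp only [List.not_mem_nil, IsEmpty.forall_iff, implies_true]) (List.forall_mem_singleton.2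
        ((((((Rep.const fun p => (t p).1.1).mul a).mul b).add
          ((Rep.const fun p => (t p).1.2.1).mul a)).add
          ((Rep.const fun p => (t p).1.2.2.1).mul b)).add (Rep.const fun p => (t p).1.2.2.2)))
        (h.mono fun p a x => by simp only [exec, cfg, a, List.getD_eq_getElem?_getD, List.getElem?_map, List.append_nil, List.map_append, List.map_cons, List.map_nil])
    · refine key 0 (fun p => (t p).2.2) [] [_] h0 (by simp only [List.not_mem_nil, IsEmpty.forall_iff, implies_true]) (List.forall_mem_singleton.2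
        ((Rep.sel (hZ' 0) fun p => (t p).1).mul (Rep.sel (hZ' 0) fun p => (t p).2.1).inv))
        (h.mono fun p a x => by simp only [exec, cfg, a, List.getD_eq_getElem?_getD, List.getElem?_map, div_eq_mul_inv, List.append_nil, List.map_append, List.map_cons, List.map_nil])
    · refine key 0 (fun p => (t p).2) [] [_] h0 (by simp only [List.not_mem_nil, IsEmpty.forall_iff, implies_true]) (List.forall_mem_singleton.2
        (Rep.sel (hZ' 0) fun p => (t p).1).conj) (h.mono fun p a x => by simp only [exec, cfg, a, List.getD_eq_getElem?_getD, List.getElem?_map, List.append_nil, List.map_append, List.map_cons, List.map_nil])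
    · refine key 0 (fun p => (t p).2) [] [_] h0 (by simp only [List.not_mem_nil, IsEmpty.forall_iff, implies_true]) (List.forall_mem_singleton.2
        (IOk.sel (hI' 0) fun p => (t p).1).2) (h.mono fun p a x => by simp only [exec, cfg, a, List.getD_eq_getElem?_getD, List.getElem?_map, List.append_nil, List.map_append, List.map_cons, List.map_nil])
    · refine key _ (fun p => (t p).2) [] [_] (IOk.sel hI fun p => (t p).1).1 (by simp only [List.not_mem_nil, List.getD_eq_getElem?_getD, List.getElem?_map, IsEmpty.forall_iff, implies_true])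
        (List.forall_mem_singleton.2 (Rep.exp (Finset.mem_insert_self _ _)))
        (h.mono fun p a x => by simp only [exec, cfg, a, List.getD_eq_getElem?_getD, List.getElem?_map, root_eq, List.append_nil, uu, List.map_append, List.map_cons, List.map_nil])
    · let pat : ∀ p, GG n m p → Fin (Z.length + 1) × Fin (Z.length + 1) → Prop := fun p x a =>
        ((cfg s I Z p x).2.2.getD a.1 0).re ≤ ((cfg s I Z p x).2.2.getD a.2 0).re
      let ex : (Fin (Z.length + 1) × Fin (Z.length + 1) → Prop) → ℕ → ℕ → Prop := fun π i j =>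
        π (⟨min i Z.length, by omega⟩, ⟨min j Z.length, by omega⟩)
      refine (Small.sum Finset.univ fun π => ih S (fun p => t p (ex π)) I Z
        (fun p x => e p x ∧ ∀ a, pat p x a ↔ π a) hS (by omega) hI hZ
        (hE.and (CRep.all fun a => CRep.le (Rep.sel hZ fun _ => a.1) (Rep.sel hZ fun _ => a.2)
          (π a)))).mono (h.mono fun p a x => le_of_eq ?_)
      rw [Finset.sum_eq_single (pat p x) (fun π _ hπ => ?_) (by simp)]
      · have h1 : exec prog (n p) (cfg s I Z p x) = cfg (fun q => t q (ex (pat p x))) I Z p x := by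
          simp only [cfg, exec, a, ex, pat]
          congr 2
          funext i j
          have := getD_min (Z.map fun f => f p x) 0
          simp only [List.length_map] at this
          rw [this, this]
        simp [h1]
      · have h1 : ¬ ∀ a, pat p x a ↔ π a := fun h => hπ (funext fun a => propext (h a).symm)
        rw [ind_neg fun h => h1 h.1.2, ind_neg fun h => h1 h.2]; simp
    · exact key 0 s [] [] h0 (by simp only [List.not_mem_nil, IsEmpty.forall_iff, implies_true]) (by simp only [List.not_mem_nil, IsEmpty.forall_iff, implies_true]) (h.mono fun p a x => by simp [cfg, exec, a])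

end Pool.Agent.MP_d958de_lc.H19

end

-- part MP_d958de_lc.H19.Count
section

/-! From increasing tuples of residues to pairs of subsets. -/

namespace Pool.Agent.MP_d958de_lc.H19

open Filter MeasureTheory Topology

section
variable {d m : ℕ} [NeZero d]

/-- The set of values of a tuple of residues. -/
def img (a : Fin m → ZMod d) : Finset ℕ := Finset.univ.image fun i => (a i).val

/-- Increasing tuples. -/
def SM (a : Fin m → ZMod d) : Prop := StrictMono fun i => (a i).val

omit [NeZero d] in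
lemma SM.card {a : Fin m → ZMod d} (h : SM a) : (img a).card = m := by
  rw [img, Finset.card_image_of_injective _ h.injective]; simp only [Finset.card_univ, Fintype.card_fin]

omit [NeZero d] in
lemma SM.emb {a : Fin m → ZMod d} (h : SM a) :
    (fun i => (a i).val) = (img a).orderEmbOfFin h.card :=
  Finset.orderEmbOfFin_unique h.card (fun i => Finset.mem_image_of_mem _ (Finset.mem_univ i)) h

omit [NeZero d] in
lemma SM.sort {a : Fin m → ZMod d} (h : SM a) :
    (img a).sort = (List.finRange m).map fun i => (a i).val := by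
  rw [h.emb, Finset.listMap_orderEmbOfFin_finRange]

omit [NeZero d] in
lemma SM.sum {a : Fin m → ZMod d} (h : SM a) {M : Type} [AddCommMonoid M] (g : ℕ → M) :
    ∑ k ∈ img a, g k = ∑ i, g (a i).val :=
  Finset.sum_image fun _ _ _ _ e => h.injective e

lemma sum_sorted (g : Finset ℕ → ℝ) :
    ∑ a : Fin m → ZMod d, ind (SM a) * g (img a) = ∑ R ∈ (Finset.range d).powersetCard m, g R := by
  classical
  have h1 : ∑ a : Fin m → ZMod d, ind (SM a) * g (img a) =
      ∑ a ∈ Finset.univ.filter fun a : Fin m → ZMod d => SM a, g (img a) := by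
    rw [Finset.sum_filter]
    exact Finset.sum_congr rfl fun a _ => by by_cases h : SM a <;> simp [h, ind]
  rw [h1]
  refine Finset.sum_bij (fun a _ => img a) (fun a ha => ?_) (fun a ha b hb h => ?_)
    (fun R hR => ?_) fun _ _ => rfl
  · refine Finset.mem_powersetCard.2 ⟨fun k hk => ?_, (Finset.mem_filter.1 ha).2.card⟩
    obtain ⟨i, -, rfl⟩ := Finset.mem_image.1 hk
    exact Finset.mem_range.2 (ZMod.val_lt _)
  · have h2 := (Finset.mem_filter.1 ha).2.sort
    rw [h, (Finset.mem_filter.1 hb).2.sort] at h2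
    funext i
    exact ZMod.val_injective d (List.map_inj_left.1 h2 i (List.mem_finRange i)).symm
  · obtain ⟨h2, h3⟩ := Finset.mem_powersetCard.1 hR
    have h4 : (fun i => ((R.orderEmbOfFin h3 i : ℕ) : ZMod d).val) = R.orderEmbOfFin h3 :=
      funext fun i => ZMod.val_cast_of_lt (Finset.mem_range.1 (h2 (R.orderEmbOfFin_mem h3 i)))
    refine ⟨fun i => ((R.orderEmbOfFin h3 i : ℕ) : ZMod d), Finset.mem_filter.2
      ⟨Finset.mem_univ _, ?_⟩, ?_⟩
    · rw [SM, h4]; exact (R.orderEmbOfFin h3).strictMono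
    · rw [img, h4, Finset.image_orderEmbOfFin_univ]

omit [NeZero d] in
lemma choose_ge (h : 2 * m ≤ d) : 1 / (2 ^ m * m.factorial) * (d : ℝ) ^ m ≤ d.choose m := by
  refine le_trans ?_ (Nat.pow_le_choose m d)
  have h6 : (d : ℝ) / 2 ≤ (d + 1 - m : ℕ) := by
    have : d ≤ (d + 1 - m) * 2 := by omega
    rw [div_le_iff₀ two_pos]; exact_mod_cast this
  have h7 := pow_le_pow_left₀ (by positivity) h6 m
  rw [div_pow] at h7
  rw [le_div_iff₀ (by positivity)]
  refine le_trans (le_of_eq ?_) h7
  field_simp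

end

variable {P : Type} {U : Ultrafilter P} {n : P → ℕ} [hp : ∀ p, Fact (n p).Prime] {m : ℕ}

open Classical in
lemma iok_XX (c : Fin m) : IOk U (Xs n m) fun _ x => ((x c).val : ℤ) := by
  refine ⟨(poly_XX U c).congr (.of_forall fun p => funext fun x => by simp [XX]), ((Rep.const fun p => (n p : ℂ)).mul
    (Rep.coord (Finset.mem_image_of_mem (XX n m) (Finset.mem_univ c)))).congr
    (Eventually.of_forall fun p x => ?_)⟩
  have h := rep_int (n p) ((x c).val : ℤ)
  rw [Int.emod_eq_of_lt (by positivity) (by exact_mod_cast ZMod.val_lt _)] at h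
  simpa [uu, XX] using h

lemma crep_SM : CRep U (Xs n m) fun _ x => SM x := by
  obtain ⟨E, h2, h3⟩ := CRep.all fun a : Fin m × Fin m =>
    CRep.le (iok_XX (U := U) (n := n) a.1).2 (iok_XX a.2).2 (a.1 ≤ a.2)
  refine ⟨E, h2, h3.mono fun p a x => ?_⟩
  rw [← a x]
  simp only [Complex.intCast_re, Int.cast_le, Nat.cast_le, Prod.forall, SM, eq_iff_iff]
  exact ⟨fun h i j => h.le_iff_le, fun h => strictMono_of_le_iff_le fun i j => (h i j).symm⟩

variable {σ Ω : Type}

lemma exec_halt {prog : σ → Op σ} {d : ℕ} {c : σ × List ℤ × List ℂ} {out : ℕ → ℕ}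
    (h : prog c.1 = .halt out) : exec prog d c = c := by
  obtain ⟨s, I, Z⟩ := c
  simp only at h
  simp [exec, h]

lemma run_stable (A : Alg σ Ω) {d : ℕ} {R C : Finset ℕ} {v : ℕ → ℂ} {ω : Ω} {a b : ℕ}
    (h : ∃ out, A.prog (A.run d R C v ω a).1 = .halt out) (hb : A.time d R C v ω ≤ b) :
    A.run d R C v ω b = A.run d R C v ω a := by
  obtain ⟨out, h1⟩ : ∃ out, A.prog (A.run d R C v ω (A.time d R C v ω)).1 = .halt out :=
    Nat.sInf_mem (s := {n | ∃ out, A.prog (A.run d R C v ω n).1 = .halt out}) ⟨a, h⟩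
  have h2 : ∀ c, A.time d R C v ω ≤ c → A.run d R C v ω c = A.run d R C v ω (A.time d R C v ω) := by
    intro c hc
    obtain ⟨j, rfl⟩ := Nat.exists_eq_add_of_le' hc
    rw [Alg.run, Function.iterate_add_apply]
    exact Function.iterate_fixed (exec_halt h1) j
  rw [h2 b hb, h2 a (Nat.sInf_le h)]

variable (a b : ∀ p, GG n m p → Fin m → ZMod (n p))

/-- The initial integer registers. -/
def I0 : List (∀ p, GG n m p → ℤ) :=
  (List.finRange m).map (fun i p x => ((a p x i).val : ℤ)) ++
    (List.finRange m).map fun i p x => ((b p x i).val : ℤ)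

/-- The exponents of the entries. -/
def tgt (e : Fin m × Fin m) : Sq n m := fun p x => a p x e.1 * b p x e.2

lemma succ_of (A : Alg σ Ω) (w : Ω) (s : P → σ) {ε : ℝ} {T : ℕ} {p : P} {x : GG n m p}
    (h1 : SM (a p x)) (h2 : SM (b p x)) (hs : A.start w (n p) (img (a p x)) (img (b p x)) 1 = s p)
    (h : A.Approx ε (n p) (img (a p x)) (img (b p x)) 1 w)
    (ht : A.time (n p) (img (a p x)) (img (b p x)) 1 w ≤ T) :
    Succ A.prog (tgt a b) ε p x ((exec A.prog (n p))^[T] (cfg s (I0 a b)
      ((List.finRange m).map fun _ _ _ => 1) p x)) := by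
  obtain ⟨k, out, h3, h4⟩ := h
  have h5 : (exec A.prog (n p))^[T] (cfg s (I0 a b) ((List.finRange m).map fun _ _ _ => 1) p x) =
      A.run (n p) (img (a p x)) (img (b p x)) 1 w k := by
    rw [← run_stable A ⟨out, h3⟩ ht, Alg.run, h1.sort, h2.sort, hs]
    simp [cfg, I0, Function.comp_def]
  rw [h5]
  refine ⟨out, h3, ?_⟩
  have hd : (0 : ℝ) < n p := by exact_mod_cast (hp p).out.pos
  have hs : ((√(n p) : ℝ) : ℂ) ≠ 0 := by
    exact_mod_cast (Real.sqrt_pos.2 hd).ne'
  have h6 : ∀ i, ∑ j, zz (tgt a b) p x (i, j) =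
      (√(n p) : ℝ) * entry (n p) (img (b p x)) 1 (a p x i).val := by
    intro i
    rw [entry, h2.sum, Finset.mul_sum]
    refine Finset.sum_congr rfl fun j _ => ?_
    rw [root_eq, ← mul_assoc, ← mul_assoc, mul_inv_cancel₀ hs]
    simp only [zz, uu, tgt, ZMod.natCast_val, Int.cast_mul, ZMod.intCast_cast, ZMod.cast_id', id_eq, one_mul, Pi.one_apply, mul_one]
  have h7 : ∀ z : ℂ, ‖((√(n p) : ℝ) : ℂ) * z‖ ^ 2 = n p * ‖z‖ ^ 2 := fun z => by
    rw [norm_mul, mul_pow, Complex.norm_real, Real.norm_eq_abs, sq_abs, Real.sq_sqrt hd.le]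
  rw [h2.card, Finset.sum_range, h1.sum, h1.sort] at h4
  simp only [Close, NN, h6, ← mul_sub, h7, ← Finset.mul_sum]
  have h8 : (m : ℝ) ^ 2 = n p * (m / n p * ∑ k ∈ img (b p x), ‖(1 : ℕ → ℂ) k‖ ^ 2) := by
    simp only [Pi.one_apply, norm_one, one_pow, Finset.sum_const, h2.card, nsmul_eq_mul]
    field_simp
  rw [h8, ← mul_max_of_nonneg _ _ hd.le, mul_left_comm]
  refine mul_le_mul_of_nonneg_left ?_ hd.le
  simpa only [List.getD_eq_getElem?_getD, Pi.one_apply, norm_one, one_pow, Finset.sum_const, nsmul_eq_mul, mul_one, List.length_map, List.length_finRange, Fin.is_lt, getElem?_pos, List.getElem_map, List.getElem_finRange, Fin.cast_mk, Fin.eta, Option.getD_some] using h4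

open Classical in
/-- The fraction of random index sets with a good output within `T` steps is small. -/
theorem fraction (hn : Tendsto n U atTop) (ht : Gen U (tgt a b)) (hm : 0 < m) {ε γ : ℝ}
    (hγ : 0 < γ) (he : ε ^ 2 = 1 - 2 * γ) (T : ℕ) (A : Alg σ Ω) (w : P → Ω) (s : P → σ)
    (ha : ∀ i, IOk U (Xs n m) fun p x => ((a p x i).val : ℤ))
    (hb : ∀ i, IOk U (Xs n m) fun p x => ((b p x i).val : ℤ))
    (hs : ∀ᶠ p in U, ∀ x, SM x → SM (a p x) ∧ SM (b p x) ∧
      A.start (w p) (n p) (img (a p x)) (img (b p x)) 1 = s p) {β : ℝ}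
    (hβ : 1 / (γ ^ 2 * m) + (2 * m + 2 * (2 * T)) / (γ * m ^ 2) < β) : ∀ᶠ p in U,
    ∑ x : GG n m p, ind (SM x) * ind (A.Approx ε (n p) (img (a p x)) (img (b p x)) 1 (w p) ∧
      A.time (n p) (img (a p x)) (img (b p x)) 1 (w p) ≤ T) < β * (n p).choose m := by
  set κ := 1 / (γ ^ 2 * m) + (2 * m + 2 * (2 * T : ℝ)) / (γ * m ^ 2) with hκ
  have h1 := (induct A.prog hn ht hm hγ he T T (Xs n m) s (I0 a b)
    ((List.finRange m).map fun _ _ _ => 1) _ (fun s hs => by
      obtain ⟨c, -, rfl⟩ := Finset.mem_image.1 hs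
      exact poly_XX U c) (by simp only [sdiff_self, Finset.bot_eq_empty, Finset.card_empty, zero_add, Std.le_refl]) (fun f hf => by
      rcases List.mem_append.1 hf with h | h <;> obtain ⟨c, -, rfl⟩ := List.mem_map.1 h
      exacts [ha c, hb c]) (fun f hf => by
      obtain ⟨c, -, rfl⟩ := List.mem_map.1 hf
      exact Rep.const fun _ => 1) crep_SM).add (mean U hn ht hm hγ (2 * T) crep_SM)
  set c : ℝ := 1 / (2 ^ m * m.factorial) with hc
  have hc0 : 0 < c := by positivity
  have hη : 0 < (β - κ) * c / 2 := by have := sub_pos.2 hβ; positivity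
  filter_upwards [h1 _ hη, hn.eventually (eventually_ge_atTop (2 * m)), hs] with p h2 h3 hs
  have hd : (0 : ℝ) < n p := by exact_mod_cast (hp p).out.pos
  have h4 : (Fintype.card (GG n m p) : ℝ) = (n p : ℝ) ^ m := by simp only [Fintype.card_pi, ZMod.card, Finset.prod_const, Finset.card_univ, Fintype.card_fin, Nat.cast_pow]
  have h5 := choose_ge h3
  have h6 := sum_sorted (d := n p) (m := m) fun _ => 1
  simp only [mul_one, Finset.sum_const, Finset.card_powersetCard, Finset.card_range,
    nsmul_eq_mul] at h6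
  rw [av, h4, div_le_iff₀ (by positivity)] at h2
  simp only [sub_add_sub_cancel, Finset.sum_sub_distrib, ← Finset.mul_sum, h6, ← hκ] at h2
  refine lt_of_le_of_lt (Finset.sum_le_sum (g := fun x => ind (SM x ∧ Succ A.prog (tgt a b) ε p x
    ((exec A.prog (n p))^[T] (cfg s (I0 a b)
      ((List.finRange m).map fun _ _ _ => 1) p x)))) fun x _ => ?_) ?_
  · by_cases h : SM x
    · rw [ind_pos h, one_mul]
      obtain ⟨g1, g2, g3⟩ := hs x h
      exact ind_mono fun g => ⟨h, succ_of a b A (w p) s g1 g2 g3 g.1 g.2⟩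
    · rw [ind_neg h, zero_mul]; exact ind_nonneg _
  · have h7 := mul_le_mul_of_nonneg_left h5 (sub_pos.2 hβ).le
    have h8 : 0 < (β - κ) * c / 2 * (n p : ℝ) ^ m := by positivity
    rw [← hc] at h7
    linarith only [h2, h7, h8]

end Pool.Agent.MP_d958de_lc.H19

end

-- part MP_d958de_lc.H19.Final
section

/-! Averaging over the seed, and the asymptotic statement. -/

namespace Pool.Agent.MP_d958de_lc.H19

open Filter MeasureTheory Topology

lemma diag {α : ℕ → Type} [∀ k, Nonempty (α k)] (Q : ℕ → ∀ k, α k → Prop)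
    (hm : ∀ K K' k a, K ≤ K' → Q K' k a → Q K k a) (h : ∀ K, ∀ᶠ k in atTop, ∃ a, Q K k a) :
    ∃ a : ∀ k, α k, ∀ K, ∀ᶠ k in atTop, Q K k (a k) := by
  classical
  refine ⟨fun k => Classical.epsilon (Q (Nat.findGreatest (fun K => ∃ a, Q K k a) k) k), fun K => ?_⟩
  filter_upwards [h K, eventually_ge_atTop K] with k h1 h2
  exact hm _ _ _ _ (Nat.le_findGreatest h2 h1)
    (Classical.epsilon_spec (Nat.findGreatest_spec (P := fun K => ∃ a, Q K k a) h2 h1))

lemma count_rel {d m : ℕ} [Fact d.Prime] (r0 : ZMod d) (r : Fin m → ZMod d) (h : r0 ≠ 0 ∨ r ≠ 0) :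
    d * ∑ c : Fin m → ZMod d, ind (r0 + ∑ j, r j * c j = 0) ≤ (d : ℝ) ^ m := by
  classical
  by_cases hr : r = 0
  · have : r0 ≠ 0 := h.resolve_right (not_not.2 hr)
    simp only [hr, Pi.zero_apply, zero_mul, Finset.sum_const_zero, add_zero, ind_neg this, mul_zero, Nat.cast_nonneg, pow_nonneg]
  obtain ⟨j, hj⟩ := Function.ne_iff.1 hr
  have h1 := Fintype.card_le_of_injective
    (fun t : ZMod d × {c : Fin m → ZMod d // r0 + ∑ j, r j * c j = 0} =>
      (t.2.1 + Pi.single j t.1 : Fin m → ZMod d)) (by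
      rintro ⟨t, c, hc⟩ ⟨t', c', hc'⟩ e
      have e1 := congrArg (fun x : Fin m → ZMod d => r0 + ∑ i, r i * x i) e
      simp only [Pi.add_apply, mul_add, Finset.sum_add_distrib, ← add_assoc, hc, hc',
        Pi.single_apply, mul_ite, mul_zero, Finset.sum_ite_eq', Finset.mem_univ, if_true,
        zero_add] at e1
      obtain rfl := mul_left_cancel₀ hj e1
      obtain rfl : c = c' := add_right_cancel e
      rfl)
  simp only [Fintype.card_prod, ZMod.card, Fintype.card_pi, Finset.prod_const, Finset.card_univ,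
    Fintype.card_fin, Fintype.card_subtype] at h1
  have h2 : ∑ c : Fin m → ZMod d, ind (r0 + ∑ j, r j * c j = 0) =
      (Finset.univ.filter fun c : Fin m → ZMod d => r0 + ∑ j, r j * c j = 0).card := by
    rw [Finset.card_filter]; push_cast
    exact Finset.sum_congr rfl fun c _ => by simp only [ind, ite_eq_ite]
  rw [h2]
  exact_mod_cast h1

theorem select {m : ℕ} (n : ℕ → ℕ) [hp : ∀ k, Fact (n k).Prime] (hn : Tendsto n atTop atTop)
    {ρ : ℝ} (hρ : 0 < ρ) (Gd : ∀ k, (Fin m → ZMod (n k)) → Prop)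
    (hG : ∀ᶠ k in atTop, ρ * (n k : ℝ) ^ m ≤ ∑ c, ind (Gd k c)) :
    ∃ c : ∀ k, Fin m → ZMod (n k), (∀ᶠ k in atTop, Gd k (c k)) ∧ ∀ (r0 : ℤ) (r : Fin m → ℤ),
      (∃ᶠ k in atTop, (r0 : ZMod (n k)) + ∑ j, (r j : ZMod (n k)) * c k j = 0) →
        r0 = 0 ∧ r = 0 := by
  obtain ⟨e, he⟩ := exists_surjective_nat (ℤ × (Fin m → ℤ))
  have h0 : ∀ a : ℤ, a ≠ 0 → ∀ᶠ k in atTop, (a : ZMod (n k)) ≠ 0 := fun a ha =>
    (hn.eventually (eventually_gt_atTop a.natAbs)).mono fun k hk h => ha
      (Int.eq_zero_of_dvd_of_natAbs_lt_natAbs ((ZMod.intCast_zmod_eq_zero_iff_dvd a _).1 h)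
        (by simpa using hk))
  have h1 : ∀ i, ∀ᶠ k in atTop, e i ≠ 0 →
      ((e i).1 : ZMod (n k)) ≠ 0 ∨ (fun j => ((e i).2 j : ZMod (n k))) ≠ 0 := by
    intro i
    by_cases a : (e i).1 = 0
    · by_cases b : (e i).2 = 0
      · exact .of_forall fun k h => (h (Prod.ext a b)).elim
      · obtain ⟨j, hj⟩ := Function.ne_iff.1 b
        exact (h0 _ hj).mono fun k hk _ => .inr (Function.ne_iff.2 ⟨j, hk⟩)
    · exact (h0 _ a).mono fun k hk _ => .inl hk
  obtain ⟨c, hc⟩ := diag (fun K k (c : Fin m → ZMod (n k)) => Gd k c ∧ ∀ i < K, e i ≠ 0 →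
      ((e i).1 : ZMod (n k)) + ∑ j, ((e i).2 j : ZMod (n k)) * c j ≠ 0)
    (fun K K' k a h g => ⟨g.1, fun i hi => g.2 i (by omega)⟩) (fun K => by
      filter_upwards [hG, (eventually_all_finset (Finset.range K)).2 fun i _ => h1 i,
        (tendsto_natCast_atTop_atTop.comp hn).eventually (eventually_gt_atTop ((K : ℝ) / ρ))]
        with k a1 a2 a3
      by_contra! a4
      have hd : (0 : ℝ) < n k := by exact_mod_cast (hp k).out.pos
      have a5 : ∑ c, ind (Gd k c) ≤ ∑ c : Fin m → ZMod (n k), ∑ i ∈ Finset.range K, ind (e i ≠ 0 ∧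
          ((e i).1 : ZMod (n k)) + ∑ j, ((e i).2 j : ZMod (n k)) * c j = 0) := by
        refine Finset.sum_le_sum fun c _ => ?_
        by_cases h : Gd k c
        · obtain ⟨i, b1, b2⟩ := a4 c h
          rw [ind_pos h, ← ind_pos b2]
          exact Finset.single_le_sum (f := fun i => ind (e i ≠ 0 ∧ ((e i).1 : ZMod (n k)) +
            ∑ j, ((e i).2 j : ZMod (n k)) * c j = 0)) (fun _ _ => ind_nonneg _)
            (Finset.mem_range.2 b1)
        · rw [ind_neg h]; exact Finset.sum_nonneg fun _ _ => ind_nonneg _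
      rw [Finset.sum_comm] at a5
      have a6 := mul_le_mul_of_nonneg_left (a1.trans a5) hd.le
      rw [Finset.mul_sum] at a6
      have a7 := a6.trans (Finset.sum_le_sum (g := fun _ => (n k : ℝ) ^ m) fun i hi => by
        by_cases h : e i = 0
        · simp only [ind, h, ne_eq, not_true_eq_false, Prod.fst_zero, Int.cast_zero, Prod.snd_zero, Pi.zero_apply, zero_mul, Finset.sum_const_zero, add_zero, and_true, ↓ reduceIte, mul_zero, Nat.cast_nonneg, pow_nonneg]
        · simpa only [ne_eq, h, not_false_eq_true, true_and] using count_rel _ _ (a2 i hi h))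
      simp only [Finset.sum_const, Finset.card_range, nsmul_eq_mul] at a7
      have a8 : (K : ℝ) < n k * ρ := (div_lt_iff₀ hρ).1 a3
      nlinarith only [pow_pos hd m, a7, a8])
  refine ⟨c, (hc 0).mono fun k h => h.1, fun r0 r h => ?_⟩
  obtain ⟨i, hi⟩ := he (r0, r)
  obtain ⟨k, a1, a2⟩ := (h.and_eventually (hc (i + 1))).exists
  have := a2.2 i (by omega)
  rw [hi] at this
  by_contra a3
  exact this (fun g => a3 (by simpa using g)) a1

lemma rich {d m : ℕ} [NeZero d] (h : 2 * m ≤ d) (g : Finset ℕ → Finset ℕ → Prop) {β : ℝ}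
    (hβ : 0 < β) (hg : β * (d.choose m : ℝ) ^ 2 ≤ ∑ R ∈ (Finset.range d).powersetCard m,
      ∑ C ∈ (Finset.range d).powersetCard m, ind (g R C)) :
    β / 2 * (1 / (2 ^ m * m.factorial)) * (d : ℝ) ^ m ≤ ∑ c : Fin m → ZMod d, ind (SM c ∧
      β / 2 * d.choose m ≤ ∑ x : Fin m → ZMod d, ind (SM x) * ind (g (img c) (img x))) := by
  have hN : (0 : ℝ) < d.choose m := by exact_mod_cast Nat.choose_pos (by omega)
  have h1 := sum_sorted (d := d) (m := m) fun R => ind (β / 2 * d.choose m ≤
    ∑ C ∈ (Finset.range d).powersetCard m, ind (g R C))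
  have h2 := hg.trans (Finset.sum_le_sum (g := fun R => d.choose m * ind (β / 2 * d.choose m ≤
      ∑ C ∈ (Finset.range d).powersetCard m, ind (g R C)) + β / 2 * d.choose m) fun R _ => by
    by_cases a : β / 2 * d.choose m ≤ ∑ C ∈ (Finset.range d).powersetCard m, ind (g R C)
    · have := Finset.sum_le_sum (s := (Finset.range d).powersetCard m) fun C _ => ind_le_one (g R C)
      simp only [Finset.sum_const, Finset.card_powersetCard, Finset.card_range, nsmul_eq_mul] at this
      rw [ind_pos a]; nlinarith only [hβ, this]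
    · rw [ind_neg a]; linarith only [a])
  simp only [Finset.sum_add_distrib, ← Finset.mul_sum, ← h1, Finset.sum_const,
    Finset.card_powersetCard, Finset.card_range, nsmul_eq_mul] at h2
  have h3 : ∀ N X : ℝ, 0 < N → β * N ^ 2 ≤ N * X + β / 2 * (N * N) → β / 2 * N ≤ X :=
    fun N X a b => le_of_mul_le_mul_left (by linarith only [b]) a
  rw [mul_assoc]
  refine (mul_le_mul_of_nonneg_left (choose_ge h) (by positivity)).trans
    ((h3 _ _ hN h2).trans (Finset.sum_congr rfl fun c _ => ?_).le)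
  rw [sum_sorted fun C => ind (g (img c) C)]
  by_cases a : SM c <;> simp only [ind, a, ↓ reduceIte, Finset.sum_boole, mul_ite, mul_one, mul_zero, true_and, ite_self, false_and]

variable {σ Ω : Type} [MeasurableSpace Ω] (P : Measure Ω) [IsProbabilityMeasure P]

lemma mean_real {ι : Type} (s : Finset ι) (f : ι → Set Ω) {N : ℕ} (hN : 0 < N) :
    (∑ R ∈ s, P (f R)) / (N : ENNReal) = ENNReal.ofReal ((∑ R ∈ s, P.real (f R)) / N) := by
  rw [ENNReal.ofReal_div_of_pos (by exact_mod_cast hN), ENNReal.ofReal_natCast,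
    ENNReal.ofReal_sum_of_nonneg fun _ _ => measureReal_nonneg]
  simp only [ofReal_measureReal (measure_ne_top P _)]

lemma good_seed (A : Alg σ Ω) {ε δ : ℝ} (hδ : 0 < δ) (hA : A.Computes P ε δ) {d m : ℕ} (T : ℕ)
    (hd : 1 ≤ d) (hm : m ≤ d) (h : ∀ C ⊆ Finset.range d, C.card = m →
      A.probExceeds P d C 1 T ≤ ENNReal.ofReal (δ / 2)) :
    ∃ ω, δ / 2 * (d.choose m : ℝ) ^ 2 ≤ ∑ R ∈ (Finset.range d).powersetCard m,
      ∑ C ∈ (Finset.range d).powersetCard m, ind (A.Approx ε d R C 1 ω ∧ A.time d R C 1 ω ≤ T) := by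
  have hN := Nat.choose_pos hm
  have hN' : (0 : ℝ) < d.choose m := by exact_mod_cast hN
  have h1 : ∀ C ∈ (Finset.range d).powersetCard m, ∃ B : Finset ℕ → Set Ω,
      δ / 2 * d.choose m ≤ ∑ R ∈ (Finset.range d).powersetCard m, P.real (B R) ∧
      ∀ R ∈ (Finset.range d).powersetCard m, MeasurableSet (B R) ∧
        ∀ ω ∈ B R, A.Approx ε d R C 1 ω ∧ A.time d R C 1 ω ≤ T := by
    intro C hC
    obtain ⟨h1, rfl⟩ := Finset.mem_powersetCard.1 hC
    obtain ⟨G, h2, h3⟩ := hA d C 1 hd h1
    have h4 := h C h1 rfl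
    rw [Alg.probExceeds, mean_real P _ _ hN, ENNReal.ofReal_le_ofReal_iff (by positivity),
      div_le_iff₀ hN'] at h4
    rw [mean_real P _ _ hN, ENNReal.ofReal_le_ofReal_iff (by positivity), le_div_iff₀ hN'] at h2
    refine ⟨fun R => G R \ {ω | (T : ℝ) < (A.time d R C 1 ω : ℝ)}, ?_, fun R hR => ⟨?_, ?_⟩⟩
    · have h5 := Finset.sum_le_sum (s := (Finset.range d).powersetCard C.card) fun R _ =>
        le_measureReal_sdiff (μ := P) (s₁ := G R) (s₂ := {ω | (T : ℝ) < (A.time d R C 1 ω : ℝ)})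
      rw [Finset.sum_sub_distrib] at h5
      linarith only [h2, h4, h5]
    · exact (h3 R hR).2.1.diff ((h3 R hR).1 (MeasurableSet.of_discrete (s := {k : ℕ | (T : ℝ) < k})))
    · intro ω hω
      exact ⟨(h3 R hR).2.2 ω hω.1, by simpa using hω.2⟩
  choose! B h2 h3 using h1
  have h4 : ∀ R ∈ (Finset.range d).powersetCard m, ∀ C ∈ (Finset.range d).powersetCard m,
      Integrable ((B C R).indicator (1 : Ω → ℝ)) P := fun R hR C hC =>
    (integrable_const 1).indicator (h3 C hC R hR).1
  obtain ⟨ω, h5⟩ := exists_integral_le (μ := P)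
    (integrable_finsetSum _ fun R hR => integrable_finsetSum _ (h4 R hR))
  refine ⟨ω, le_trans ?_ (h5.trans (Finset.sum_le_sum fun R hR => Finset.sum_le_sum fun C hC => ?_))⟩
  · rw [integral_finsetSum _ fun R hR => integrable_finsetSum _ (h4 R hR),
      Finset.sum_congr rfl fun R hR => integral_finsetSum _ (h4 R hR), Finset.sum_comm]
    refine le_trans (le_of_eq ?_) (Finset.sum_le_sum fun C hC => (h2 C hC).trans
      (Finset.sum_congr rfl fun R hR => (integral_indicator_one (h3 C hC R hR).1).symm).le)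
    simp only [sq, Finset.sum_const, Finset.card_powersetCard, Finset.card_range, nsmul_eq_mul]; ring
  · by_cases hω : ω ∈ B C R
    · rw [ind_pos ((h3 C hC R hR).2 ω hω)]; simp [hω]
    · simp [hω, ind_nonneg]

theorem core (A : Alg σ Ω) (h1 : A.OneSided) {ε γ δ : ℝ} (hδ : 0 < δ) (hA : A.Computes P ε δ)
    (hγ : 0 < γ) (he : ε ^ 2 = 1 - 2 * γ) {m : ℕ} (hm : 0 < m) (T : ℕ)
    (hβ : 1 / (γ ^ 2 * m) + (2 * m + 2 * (2 * T)) / (γ * m ^ 2) < δ / 2 / 2) :
    ∃ d C, m ≤ d ∧ C ⊆ Finset.range d ∧ C.card = m ∧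
      ENNReal.ofReal (δ / 2) < A.probExceeds P d C 1 T := by
  by_contra! hc
  let n := Nat.nth Nat.Prime
  have hp : ∀ k, Fact (n k).Prime := fun k => ⟨Nat.prime_nth_prime k⟩
  have hn : Tendsto n atTop atTop := (Nat.nth_strictMono Nat.infinite_setOfPred_prime).tendsto_atTop
  let U := Ultrafilter.of (atTop : Filter ℕ)
  have hU : (U : Filter ℕ) ≤ atTop := Ultrafilter.of_le _
  obtain ⟨w, hw⟩ := ((hn.eventually (eventually_ge_atTop m)).mono fun k hk =>
    good_seed P A hδ hA T (hp k).out.pos hk (hc _ · hk)).choice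
  have hw' := hw.and (hn.eventually (eventually_ge_atTop (2 * m)))
  rcases h1 with h1 | h1
  · obtain ⟨c, h2, h3⟩ := select n hn (by positivity) _ (hw'.mono fun k hk =>
      rich hk.2 _ (half_pos hδ) (hk.1.trans_eq Finset.sum_comm))
    have h4 : Gen U (tgt (fun _ x => x) fun p (_ : GG n m p) => c p) :=
      ⟨fun a => (poly_XX U a.1).mul (Poly.const fun p => c p a.2), fun a p => by simp [tgt],
        fun r hr => by
        have h5 : ∀ i, r (.inl i) = 0 ∧ (fun j => r (.inr (i, j))) = 0 := fun i =>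
          h3 _ _ ((hr.mono fun p h => by
            simpa only [Fintype.sum_sum_type, Sum.elim_inl, XX, Pi.single_apply, mul_ite, mul_one, mul_zero, Finset.sum_ite_eq', Finset.mem_univ, ↓ reduceIte, Sum.elim_inr, tgt, ite_mul, one_mul, zero_mul, Fintype.sum_prod_type, Finset.sum_ite_irrel, Finset.sum_const_zero]
              using h (Pi.single i 1)).frequently.filter_mono hU)
        rintro (i | ⟨i, j⟩)
        exacts [(h5 i).1, congrFun (h5 i).2 j]⟩
    obtain ⟨k, a1, a2⟩ := ((h2.filter_mono hU).and (fraction _ _ (hn.mono_left hU) h4 hm hγ he T A w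
      (fun p => A.start (w p) (n p) ∅ (img (c p)) 1) iok_XX
      (fun i => IOk.const fun p => ((c p i).val : ℤ))
      ((h2.filter_mono hU).mono fun p h x hx => ⟨hx, h.1, h1 ..⟩) hβ)).exists
    exact a2.not_ge a1.2
  · obtain ⟨c, h2, h3⟩ := select n hn (by positivity) _ (hw'.mono fun k hk =>
      rich hk.2 _ (half_pos hδ) hk.1)
    have h4 : Gen U (tgt (fun p (_ : GG n m p) => c p) fun _ x => x) :=
      ⟨fun a => (Poly.const fun p => c p a.1).mul (poly_XX U a.2), fun a p => by simp [tgt],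
        fun r hr => by
        have h5 : ∀ i, r (.inl i) = 0 ∧ (fun j => r (.inr (j, i))) = 0 := fun i =>
          h3 _ _ ((hr.mono fun p h => by
            simpa only [Fintype.sum_sum_type, Sum.elim_inl, XX, Pi.single_apply, mul_ite, mul_one, mul_zero, Finset.sum_ite_eq', Finset.mem_univ, ↓ reduceIte, Sum.elim_inr, tgt, Fintype.sum_prod_type]
              using h (Pi.single i 1)).frequently.filter_mono hU)
        rintro (i | ⟨i, j⟩)
        exacts [(h5 i).1, congrFun (h5 j).2 i]⟩
    obtain ⟨k, a1, a2⟩ := ((h2.filter_mono hU).and (fraction _ _ (hn.mono_left hU) h4 hm hγ he T A w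
      (fun p => A.start (w p) (n p) (img (c p)) ∅ 1)
      (fun i => IOk.const fun p => ((c p i).val : ℤ)) iok_XX
      ((h2.filter_mono hU).mono fun p h x hx => ⟨h.1, hx, h1 ..⟩) hβ)).exists
    exact a2.not_ge a1.2

omit [IsProbabilityMeasure P] in
lemma markov (A : Alg σ Ω) {ε δ : ℝ} (hA : A.Computes P ε δ) {d : ℕ} {C : Finset ℕ} (v : ℕ → ℂ)
    (hd : 1 ≤ d) (hC : C ⊆ Finset.range d) (t : ℕ) :
    t * A.probExceeds P d C v t ≤ A.expectedTime P d C v := by
  obtain ⟨G, -, h⟩ := hA d C v hd hC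
  rw [Alg.probExceeds, Alg.expectedTime, ← mul_div_assoc, Finset.mul_sum]
  refine ENNReal.div_le_div_right (Finset.sum_le_sum fun R hR => le_trans ?_
    (mul_meas_ge_le_lintegral (measurable_from_nat.comp (h R hR).1) (t : ENNReal))) _
  gcongr with ω
  intro hω
  have h1 : t < A.time d R C v ω := by exact_mod_cast hω
  simpa using h1.le

theorem negated_form (A : Alg σ Ω) (hO : A.OneSided) {ε δ : ℝ} (hε : |ε| < 1) (hδ : 0 < δ)
    (hA : A.Computes P ε δ)
    (T : ℕ → ℝ) (hT : T =o[atTop] fun m => (m : ℝ) ^ 2) :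
    (∀ᶠ m : ℕ in atTop, ∃ (d : ℕ) (C : Finset ℕ), m ≤ d ∧ C ⊆ Finset.range d ∧ C.card = m ∧
        ENNReal.ofReal (T m) < A.expectedTime P d C 1) ∧
    ∀ c : ℝ, 0 < c → ∀ᶠ m : ℕ in atTop, ∃ (d : ℕ) (C : Finset ℕ),
      m ≤ d ∧ C ⊆ Finset.range d ∧ C.card = m ∧
        ENNReal.ofReal ((m : ℝ) ^ (-c)) < A.probExceeds P d C 1 (T m) := by
  set γ := (1 - ε ^ 2) / 2 with hγ'
  have hγ : 0 < γ := by have := (sq_lt_one_iff_abs_lt_one ε).2 hε; rw [hγ']; linarith only [this]
  set b := γ * δ / 32 with hb'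
  have hb : 0 < b := by positivity
  have hcast : Tendsto (fun m : ℕ => (m : ℝ)) atTop atTop := tendsto_natCast_atTop_atTop
  have h1 : ∀ᶠ m : ℕ in atTop, ∃ (t : ℕ) (d : ℕ) (C : Finset ℕ), b * m ^ 2 ≤ 2 * t ∧ 0 < t ∧
      1 ≤ d ∧ m ≤ d ∧ C ⊆ Finset.range d ∧ C.card = m ∧
      ENNReal.ofReal (δ / 2) < A.probExceeds P d C 1 t := by
    filter_upwards [hcast.eventually (eventually_ge_atTop (2 / b)), eventually_gt_atTop 0,
      hcast.eventually (eventually_gt_atTop ((1 / γ ^ 2 + 2 / γ) / (δ / 8)))] with m a1 a2 a3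
    have a4 : (1 : ℝ) ≤ m := by exact_mod_cast a2
    have a5 : 2 ≤ b * m ^ 2 := by
      rw [div_le_iff₀ hb] at a1; nlinarith only [a1, a4]
    have a6 := Nat.floor_le (show 0 ≤ b * m ^ 2 by positivity)
    have a7 := Nat.lt_floor_add_one (b * m ^ 2)
    obtain ⟨d, C, g1, g2, g3, g4⟩ := core P A hO hδ hA hγ (by rw [hγ']; ring) a2 ⌊b * m ^ 2⌋₊ (by
      rw [div_lt_iff₀ (by positivity)] at a3
      have a8 : (1 / γ ^ 2 + 2 / γ) / m < δ / 8 := by
        rw [div_lt_iff₀ (by positivity)]; linarith only [a3]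
      have a9 : (2 * m + 2 * (2 * (⌊b * m ^ 2⌋₊ : ℝ))) / (γ * m ^ 2) ≤
          (2 * m + 2 * (2 * (b * m ^ 2))) / (γ * m ^ 2) := by gcongr
      have a10 : 1 / (γ ^ 2 * m) + (2 * m + 2 * (2 * (b * m ^ 2))) / (γ * m ^ 2) =
          (1 / γ ^ 2 + 2 / γ) / m + δ / 8 := by rw [hb']; field_simp; ring
      linarith only [a8, a9, a10])
    exact ⟨_, d, C, by linarith only [a5, a7], Nat.floor_pos.2 (by linarith only [a5]), by omega, g1, g2, g3, g4⟩
  refine ⟨?_, fun c hc => ?_⟩
  · filter_upwards [h1, hT.def (show 0 < b * δ / 4 by positivity)] with m ⟨t, d, C, a1, a2, a3, a4,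
      a5, a6, a7⟩ a8
    refine ⟨d, C, a4, a5, a6, lt_of_lt_of_le ?_ (markov P A hA 1 a3 a5 t)⟩
    refine lt_of_le_of_lt ?_ (ENNReal.mul_lt_mul_right (by simpa using a2.ne') (by simp) a7)
    rw [← ENNReal.ofReal_natCast, ← ENNReal.ofReal_mul (by positivity)]
    refine ENNReal.ofReal_le_ofReal ((le_abs_self _).trans (a8.trans ?_))
    rw [Real.norm_of_nonneg (by positivity)]
    nlinarith only [hδ, a1]
  · filter_upwards [h1, hT.def (show 0 < b / 2 by positivity),
      ((tendsto_rpow_neg_atTop hc).comp hcast).eventually (ge_mem_nhds (half_pos hδ))]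
      with m ⟨t, d, C, a1, a2, a3, a4, a5, a6, a7⟩ a8 a9
    refine ⟨d, C, a4, a5, a6, (ENNReal.ofReal_le_ofReal a9).trans_lt (a7.trans_le ?_)⟩
    have a10 : T m ≤ t := by
      refine (le_abs_self _).trans (a8.trans ?_)
      rw [Real.norm_of_nonneg (by positivity)]; linarith only [a1]
    exact ENNReal.div_le_div_right (Finset.sum_le_sum fun R _ =>
      measure_mono fun ω hω => a10.trans_lt hω) _

end Pool.Agent.MP_d958de_lc.H19

end

-- part MP_d958de_lc.H19.Naive
section

/-! The entry-by-entry algorithm in the model. -/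

namespace Pool.Agent.MP_d958de_lc.H19

open MeasureTheory

/-- Four steps per matrix entry. -/
noncomputable def naive : Alg (ℕ × ℕ × ℕ) Unit where
  prog := fun (d, m, t) =>
    if t < 4 * (m * m) then
      if t % 4 = 0 then .iop 1 0 0 0 (t / 4 / m) (m + t / 4 % m) (d, m, t + 1)
      else if t % 4 = 1 then .root (2 * m + t / 4) (d, m, t + 1)
      else if t % 4 = 2 then
        .cop ((Real.sqrt d : ℝ) : ℂ)⁻¹ 0 0 0 (m + 3 * (t / 4)) (t / 4 % m) (d, m, t + 1)
      else .cop 0 1 (if t / 4 % m = 0 then 0 else 1) 0 (m + 3 * (t / 4) + 1) (m + 3 * (t / 4) - 1)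
        (d, m, t + 1)
    else .halt fun i => m + (3 * (i * m + (m - 1)) + 2)
  start := fun _ d _ C _ => (d, C.card, 0)

variable (d m : ℕ) (L : List ℤ) (V : List ℂ)

/-- Exponents. -/
def na (u : ℕ) : ℤ := L.getD (u / m) 0 * L.getD (m + u % m) 0

/-- Terms. -/
noncomputable def nb (u : ℕ) : ℂ :=
  ((Real.sqrt d : ℝ) : ℂ)⁻¹ * rootOfUnity d (na m L u) * V.getD (u % m) 0

/-- Running sums. -/
noncomputable def nc : ℕ → ℂ
  | 0 => nb d m L V 0
  | u + 1 => nb d m L V (u + 1) + if (u + 1) % m = 0 then 0 else nc u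

/-- The computed complex registers. -/
noncomputable def nz (k : ℕ) : ℂ :=
  if k % 3 = 0 then rootOfUnity d (na m L (k / 3))
  else if k % 3 = 1 then nb d m L V (k / 3) else nc d m L V (k / 3)

lemma nc_eq (i j : ℕ) (hj : j < m) :
    nc d m L V (i * m + j) = ∑ k ∈ Finset.range (j + 1), nb d m L V (i * m + k) := by
  induction j with
  | zero =>
    rw [Finset.sum_range_one]
    rcases h : i * m + 0 with _ | u
    · rfl
    · have : (u + 1) % m = 0 := by rw [← h]; simp
      simp [nc, this]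
  | succ j ih =>
    have : (i * m + j + 1) % m ≠ 0 := by
      rw [add_assoc, Nat.mul_add_mod', Nat.mod_eq_of_lt hj]; omega
    rw [← add_assoc, nc, if_neg this, ih (by omega), Finset.sum_range_succ _ (j + 1), add_comm,
      add_assoc]

lemma getD_last {α : Type} (l : List α) (a b : α) {k : ℕ} (h : l.length = k) :
    (l ++ [a]).getD k b = a := by simp [← h]

lemma naive_run (hL : L.length = 2 * m) (hV : V.length = m) (u : ℕ) (hu : u ≤ m * m) :
    (exec naive.prog d)^[4 * u] ((d, m, 0), L, V) = ((d, m, 4 * u),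
      L ++ (List.range u).map (na m L), V ++ (List.range (3 * u)).map (nz d m L V)) := by
  induction u with
  | zero => simp
  | succ u ih =>
    have hm : 0 < m := Nat.pos_of_ne_zero (by rintro rfl; omega)
    have a1 : u / m < m := (Nat.div_lt_iff_lt_mul hm).2 (by omega)
    have a2 : u % m < m := Nat.mod_lt _ hm
    have p0 : naive.prog (d, m, 4 * u) = .iop 1 0 0 0 (u / m) (m + u % m) (d, m, 4 * u + 1) := by
      simp only [naive]
      rw [if_pos (by omega), if_pos (by omega), show 4 * u / 4 = u by omega]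
    have p1 : naive.prog (d, m, 4 * u + 1) = .root (2 * m + u) (d, m, 4 * u + 2) := by
      simp only [naive]
      rw [if_pos (by omega), if_neg (by omega), if_pos (by omega), show (4 * u + 1) / 4 = u by omega]
    have p2 : naive.prog (d, m, 4 * u + 2) =
        .cop ((Real.sqrt d : ℝ) : ℂ)⁻¹ 0 0 0 (m + 3 * u) (u % m) (d, m, 4 * u + 3) := by
      simp only [naive]
      rw [if_pos (by omega), if_neg (by omega), if_neg (by omega), if_pos (by omega),
        show (4 * u + 2) / 4 = u by omega]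
    have p3 : naive.prog (d, m, 4 * u + 3) = .cop 0 1 (if u % m = 0 then 0 else 1) 0
        (m + 3 * u + 1) (m + 3 * u - 1) (d, m, 4 * (u + 1)) := by
      simp only [naive]
      rw [if_pos (by omega), if_neg (by omega), if_neg (by omega), if_neg (by omega),
        show (4 * u + 3) / 4 = u by omega]
      rfl
    rw [show 4 * (u + 1) = 4 * u + 1 + 1 + 1 + 1 by ring]
    simp only [Function.iterate_succ_apply', ih (by omega)]
    set I := L ++ (List.range u).map (na m L) with hI
    set Z := V ++ (List.range (3 * u)).map (nz d m L V) with hZ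
    have lI : I.length = 2 * m + u := by simp [hI, hL]
    have lZ : Z.length = m + 3 * u := by simp [hZ, hV]
    have s0 : exec naive.prog d ((d, m, 4 * u), I, Z) = ((d, m, 4 * u + 1), I ++ [na m L u], Z) := by
      simp only [exec, p0]
      rw [hI, List.getD_append _ _ _ _ (by omega), List.getD_append _ _ _ _ (by omega)]
      simp only [List.getD_eq_getElem?_getD, one_mul, zero_mul, add_zero, List.append_assoc, na]
    have s1 : exec naive.prog d ((d, m, 4 * u + 1), I ++ [na m L u], Z) =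
        ((d, m, 4 * u + 2), I ++ [na m L u], Z ++ [rootOfUnity d (na m L u)]) := by
      simp only [exec, p1, getD_last _ _ _ lI]
    have s2 : exec naive.prog d ((d, m, 4 * u + 2), I ++ [na m L u],
        Z ++ [rootOfUnity d (na m L u)]) = ((d, m, 4 * u + 3), I ++ [na m L u],
        Z ++ [rootOfUnity d (na m L u)] ++ [nb d m L V u]) := by
      simp only [exec, p2, getD_last _ _ _ lZ]
      rw [List.getD_append _ _ _ _ (by omega), hZ, List.getD_append _ _ _ _ (by omega)]
      simp only [List.append_assoc, List.getD_eq_getElem?_getD, zero_mul, add_zero, List.cons_append, List.nil_append, nb]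
    have s3 : exec naive.prog d ((d, m, 4 * u + 3), I ++ [na m L u],
        Z ++ [rootOfUnity d (na m L u)] ++ [nb d m L V u]) = ((d, m, 4 * (u + 1)), I ++ [na m L u],
        Z ++ [rootOfUnity d (na m L u)] ++ [nb d m L V u] ++ [nc d m L V u]) := by
      simp only [exec, p3]
      rw [getD_last _ _ _ (by simp [lZ])]
      rcases u with _ | u
      · simp only [zero_add, mul_one, List.append_assoc, List.cons_append, List.nil_append, zero_mul, mul_zero, add_zero, List.getD_eq_getElem?_getD, one_mul, Nat.zero_mod, ↓ reduceIte, nc]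
      · rw [List.append_assoc Z, List.getD_append _ _ _ _ (by omega), hZ,
          List.getD_append_right _ _ _ _ (by omega), hV,
          show m + 3 * (u + 1) - 1 - m = 3 * u + 2 by omega]
        have : nz d m L V (3 * u + 2) = nc d m L V u := by
          rw [nz, if_neg (by omega), if_neg (by omega), show (3 * u + 2) / 3 = u by omega]
        by_cases h : (u + 1) % m = 0 <;> simp [nc, h, this, show 3 * u + 2 < 3 * (u + 1) by omega]
    have z0 : nz d m L V (3 * u) = rootOfUnity d (na m L u) := by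
      rw [nz, if_pos (by omega), show 3 * u / 3 = u by omega]
    have z1 : nz d m L V (3 * u + 1) = nb d m L V u := by
      rw [nz, if_neg (by omega), if_pos (by omega), show (3 * u + 1) / 3 = u by omega]
    have z2 : nz d m L V (3 * u + 1 + 1) = nc d m L V u := by
      rw [nz, if_neg (by omega), if_neg (by omega), show (3 * u + 1 + 1) / 3 = u by omega]
    rw [s0, s1, s2, s3, show 3 * (u + 1) = 3 * u + 1 + 1 + 1 by ring]
    simp [hI, hZ, List.range_succ, z0, z1, z2]; ring

lemma naive_halt {R C : Finset ℕ} (v : ℕ → ℂ) (h : R.card = C.card) :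
    naive.prog (naive.run d R C v () (4 * (C.card * C.card))).1 =
      .halt (fun i => C.card + (3 * (i * C.card + (C.card - 1)) + 2)) ∧
    ∀ i < C.card, (naive.run d R C v () (4 * (C.card * C.card))).2.2.getD
      (C.card + (3 * (i * C.card + (C.card - 1)) + 2)) 0 = entry d C v (R.sort.getD i 0) := by
  have h1 := naive_run d C.card ((R.sort ++ C.sort).map fun k : ℕ => (k : ℤ)) (C.sort.map v)
    (by simp [h]; ring) (by simp) _ le_rfl
  rw [Alg.run, show naive.start () d R C v = (d, C.card, 0) from rfl, h1]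
  refine ⟨by simp only [naive, lt_self_iff_false, ↓ reduceIte], fun i hi => ?_⟩
  have h2 : i * C.card + C.card ≤ C.card * C.card := by nlinarith only [hi]
  have h3 : 3 * (i * C.card + (C.card - 1)) + 2 < 3 * (C.card * C.card) := by omega
  rw [List.getD_append_right _ _ _ _ (by simp only [List.length_map, Finset.length_sort, le_add_iff_nonneg_right, zero_le]), List.getD_eq_getElem _ _ (by simpa only [List.length_map, Finset.length_sort, add_tsub_cancel_left, List.map_append, List.length_range] using h3)]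
  simp only [List.length_map, Finset.length_sort, Nat.add_sub_cancel_left, List.getElem_map,
    List.getElem_range]
  rw [nz, if_neg (by omega), if_neg (by omega),
    show (3 * (i * C.card + (C.card - 1)) + 2) / 3 = i * C.card + (C.card - 1) by omega,
    nc_eq _ _ _ _ _ _ (by omega), show C.card - 1 + 1 = C.card by omega, entry, Finset.sum_range]
  conv_rhs => rw [← C.map_orderEmbOfFin_univ rfl, Finset.sum_map]
  refine Finset.sum_congr rfl fun j _ => ?_
  have h4 : (i * C.card + j) / C.card = i := by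
    rw [add_comm, Nat.add_mul_div_right _ _ (by omega), Nat.div_eq_of_lt j.2, zero_add]
  have h5 : (i * C.card + j) % C.card = j := by rw [Nat.mul_add_mod', Nat.mod_eq_of_lt j.2]
  simp only [nb, na, List.map_append, h4, List.getD_eq_getElem?_getD, List.getElem?_append, List.length_map, Finset.length_sort, h, hi, ↓ reduceIte, getElem?_pos, List.getElem_map, Option.getD_some, h5, List.length_append, add_lt_add_iff_left, Fin.is_lt, le_add_iff_nonneg_right, zero_le, List.getElem_append_right, add_tsub_cancel_left, RelEmbedding.coe_toEmbedding, Finset.orderEmbOfFin_apply, Fin.getElem_fin]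

theorem naive_ok : naive.OneSided ∧ naive.Computes (Measure.dirac ()) 0 1 ∧
    ∀ (d : ℕ) (R C : Finset ℕ) (v : ℕ → ℂ), R.card = C.card →
      naive.time d R C v () ≤ 4 * (C.card * C.card) := by
  refine ⟨.inl fun _ _ _ _ _ _ => rfl, fun d C v _ hC => ⟨fun _ => Set.univ, ?_, fun R hR =>
    ⟨Subsingleton.measurable, .univ, fun _ _ => ?_⟩⟩, fun d R C v h =>
    Nat.sInf_le ⟨_, (naive_halt d v h).1⟩⟩
  · have h := Nat.choose_pos (show C.card ≤ d by simpa using Finset.card_le_card hC)
    simp [ENNReal.div_self, h.ne']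
  · obtain ⟨h1, h2⟩ := naive_halt d v (Finset.mem_powersetCard.1 hR).2
    refine ⟨_, _, h1, le_of_eq ?_⟩
    rw [Finset.sum_eq_zero fun i hi => by rw [h2 i (Finset.mem_range.1 hi)]; simp]
    simp only [ne_eq, OfNat.ofNat_ne_zero, not_false_eq_true, zero_pow, zero_mul]

end Pool.Agent.MP_d958de_lc.H19

end
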