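import Mathlib

attribute [-instance] RKHS.instFunLike Valued.toUniformSpace AddQuantale.instAddLeftMono Rat.isDomain
  SubfieldClass.toSubringClass LeftPreLieAlgebra.toModule RightPreLieAlgebra.toModule
  IdemSemiring.toCanonicallyOrderedAdd IsAddCyclic.isAddCommutative TotallySeparatedSpace.t2Space
  Group.IsPerfect.subsingleton_of_isMulCommutative NonUnitalNonAssocRing.toAddCommGroup
  AlgHom.instNonUnitalAlgHomClassOfAlgHomClass NumberField.to_charZero instCharZeroOfIsSemireal
  Nontrivial.to_nonempty littleWedderburn AddMonoid.FG.to_moduleFinite_int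
  CategoryTheory.CountableCategory.countableObj TopologicalSpace.NoetherianSpace.compactSpace
  NonUnitalNormedRing.toNonUnitalSeminormedRing NonarchimedeanAddGroup.toIsTopologicalAddGroup
  SemilinearIsometryClass.toSemilinearMapClass NormedRing.toRing
  NonUnitalRing.toNonUnitalNonAssocRing IsScalarTower.complexToReal
  AlexandrovDiscrete.toLocallyCompactSpace AddQuantale.instAddRightMono bot_nonempty
  NormedCommRing.toCommRing covariant_swap_mul_of_covariant_mul
  NonarchimedeanRing.toIsTopologicalRing RCLike.charZero_rclike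
  NonUnitalSeminormedRing.toPseudoMetricSpace IdemSemiring.toSemiring
  NonUnitalNonAssocSemiring.toMulZeroClass LieRing.toAddCommGroup GrpTypeEquivalenceGrp.grpGroup
  NonUnitalAlgHomClass.instLinearMapClass DenselyNormedField.toNormedField Unique.instSubsingleton
  CoalgHomClass.toSemilinearMapClass Quantale.instMulRightMono LieRinehartAlgebra.toIsScalarTower
  instCoeTCOfCoe instCoeTOfCoeDep SeminormedCommRing.toCommRing
  ContinuousMonoidHom.instCoeOutOfMonoidHomClassOfContinuousMapClass Zero.instNonempty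
  Action.FintypeCat.instMulActionObjFiniteOf CompletePartialOrder.toPartialOrder
  LieAdmissibleRing.toNonUnitalNonAssocRing ContinuousSemilinearMapClass.toSemilinearMapClass
  Valued.isTopologicalDivisionRing EuclideanDomain.toCommRing IdemSemiring.toMulLeftMono
  CStarAlgebra.instOrderClosedTopology AddCommGroupWithOne.toAddGroupWithOne
  AddCommMonoidWithOne.toAddCommMonoid FiniteDimensional.finiteDimensional_quotient
  LinearOrderedCommMonoidWithZero.toPosMulStrictMono One.instNonempty IsPurelyInseparable.isIntegral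
  NonUnitalAlgSemiHomClass.toDistribMulActionSemiHomClass NonUnitalNormedCommRing.toNonUnitalCommRing
  IsOrderedMonoid.toMulLeftMono NonUnitalNormedCommRing.toNonUnitalSeminormedCommRing
  Ring.toNonAssocRing Algebra.IsFiniteSplit.instFree BooleanRing.toRing
  IsDedekindDomain.isPrincipalIdealRing NonUnitalNonAssocCommSemiring.toNonUnitalNonAssocSemiring

-- part MP_d958de_lc.H19.Ana
section

/-! Families of analytic functions of bounded complexity along an ultrafilter: their sign
conditions are locally eventually constant at almost every point. -/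

namespace Pool.Agent.MP_d958de_lc.H19

open Filter MeasureTheory Topology Set

variable {E : Type} [NormedAddCommGroup E] [NormedSpace ℝ E] [FiniteDimensional ℝ E]
  [MeasurableSpace E] [BorelSpace E] (μ : Measure E) [μ.IsAddHaarMeasure]

/-- The zero set of a nonzero real-analytic function is null. -/
lemma ae_ne_zero (g : E → ℂ) (hg : AnalyticOnNhd ℝ g univ) (h0 : g ≠ 0) : ∀ᵐ t ∂μ, g t ≠ 0 := by
  obtain ⟨t1, h1⟩ := Function.ne_iff.1 h0
  have hc : Continuous g := continuousOn_univ.1 hg.continuousOn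
  have hline : ∀ t : E, ∀ᵐ l : ℝ, g (t1 + l • t) ≠ 0 := by
    intro t
    have ha : AnalyticOnNhd ℝ (fun l : ℝ => g (t1 + l • t)) univ := fun l _ =>
      (hg _ (mem_univ _)).fun_comp (f := fun l : ℝ => t1 + l • t) (by fun_prop)
    rcases ha.eqOn_zero_or_eventually_ne_zero_of_preconnected isPreconnected_univ with h | h
    · have := h (mem_univ 0)
      simp only [zero_smul, add_zero] at this
      exact absurd this h1
    · have := ae_restrict_le_codiscreteWithin (μ := (volume : Measure ℝ)) MeasurableSet.univ h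
      rwa [Measure.restrict_univ] at this
  have hm : MeasurableSet {x : E × ℝ | g (t1 + x.2 • x.1) ≠ 0} :=
    (isOpen_ne_fun (by fun_prop) continuous_const).measurableSet
  have h2 : ∀ᵐ l : ℝ, ∀ᵐ t ∂μ, g (t1 + l • t) ≠ 0 :=
    (Measure.ae_ae_comm (μ := μ) (ν := (volume : Measure ℝ))
      (p := fun t l => g (t1 + l • t) ≠ 0) hm).1 (ae_of_all _ hline)
  have h3 : ∀ᵐ l : ℝ, l ≠ 0 := by simp [ae_iff]
  obtain ⟨l, hl, hl0⟩ := (h2.and h3).exists
  have h4 := (Measure.quasiMeasurePreserving_smul μ (inv_ne_zero hl0)).ae hl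
  have h5 := (measurePreserving_add_left μ (-t1)).quasiMeasurePreserving.ae h4
  filter_upwards [h5] with t ht
  simpa [smul_smul, mul_inv_cancel₀ hl0] using ht

variable {P : Type}

/-- A family inside a finite-dimensional space of analytic functions. -/
def Fam (f : P → E → ℂ) : Prop :=
  ∃ W : Submodule ℝ (E → ℂ), W.FG ∧ (∀ φ ∈ W, AnalyticOnNhd ℝ φ univ) ∧ ∀ p, f p ∈ W

omit [FiniteDimensional ℝ E] [MeasurableSpace E] [BorelSpace E] in
lemma Fam.span {f : P → E → ℂ} (J : Set (E → ℂ)) (hJ : J.Finite)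
    (ha : ∀ φ ∈ J, AnalyticOnNhd ℝ φ univ) (hf : ∀ p, f p ∈ Submodule.span ℝ J) : Fam f := by
  refine ⟨_, Submodule.fg_span hJ, fun φ hφ => ?_, hf⟩
  induction hφ using Submodule.span_induction with
  | mem x hx => exact ha x hx
  | zero => exact analyticOnNhd_const
  | add x y _ _ hx hy => exact hx.add hy
  | smul a x _ hx => exact fun t ht => (hx t ht).const_smul

omit [FiniteDimensional ℝ E] [MeasurableSpace E] [BorelSpace E] in
lemma Fam.single (φ : E → ℂ) (h : AnalyticOnNhd ℝ φ univ) : Fam (fun _ : P => φ) :=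
  Fam.span {φ} (finite_singleton _) (by simpa using h) fun _ => Submodule.subset_span rfl

omit [FiniteDimensional ℝ E] [MeasurableSpace E] [BorelSpace E] in
lemma Fam.const (a : P → ℂ) : Fam (fun p (_ : E) => a p) := by
  refine Fam.span {fun _ => 1, fun _ => Complex.I} (by simp) ?_ fun p => ?_
  · rintro φ (rfl | rfl) <;> exact analyticOnNhd_const
  · refine Submodule.mem_span_pair.2 ⟨(a p).re, (a p).im, ?_⟩
    funext t
    simp

omit [FiniteDimensional ℝ E] [MeasurableSpace E] [BorelSpace E] in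
lemma Fam.add {f g : P → E → ℂ} (hf : Fam f) (hg : Fam g) : Fam (fun p t => f p t + g p t) := by
  obtain ⟨W, h1, h2, h3⟩ := hf
  obtain ⟨W', h1', h2', h3'⟩ := hg
  refine ⟨W ⊔ W', h1.sup h1', fun φ hφ => ?_, fun p => Submodule.add_mem_sup (h3 p) (h3' p)⟩
  obtain ⟨a, ha, b, hb, rfl⟩ := Submodule.mem_sup.1 hφ
  exact (h2 a ha).add (h2' b hb)

omit [FiniteDimensional ℝ E] [MeasurableSpace E] [BorelSpace E] in
lemma Fam.mul {f g : P → E → ℂ} (hf : Fam f) (hg : Fam g) : Fam (fun p t => f p t * g p t) := by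
  obtain ⟨W, h1, h2, h3⟩ := hf
  obtain ⟨W', h1', h2', h3'⟩ := hg
  refine ⟨W * W', h1.mul h1', fun φ hφ => ?_, fun p => Submodule.mul_mem_mul (h3 p) (h3' p)⟩
  refine Submodule.mul_induction_on hφ (fun a ha b hb => (h2 a ha).mul (h2' b hb)) ?_
  exact fun a b ha hb => ha.add hb

omit [FiniteDimensional ℝ E] [MeasurableSpace E] [BorelSpace E] in
lemma Fam.map {f : P → E → ℂ} (L : ℂ →L[ℝ] ℂ) (hf : Fam f) : Fam (fun p t => L (f p t)) := by
  obtain ⟨W, h1, h2, h3⟩ := hf
  refine ⟨W.map (L.toLinearMap.compLeft E), h1.map _, ?_, fun p => ⟨f p, h3 p, rfl⟩⟩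
  rintro φ ⟨a, ha, rfl⟩ t ht
  exact (L.analyticAt _).fun_comp (h2 a ha t ht)

variable (U : Ultrafilter P)

lemma Fam.dichotomy {f : P → E → ℂ} (hf : Fam f) : (∀ᶠ p in U, f p = 0) ∨
    ∃ ν : P → ℝ, (∀ p, 0 < ν p) ∧ ∀ᵐ t ∂μ, ∃ c : ℂ, c ≠ 0 ∧
      Tendsto (fun z : P × E => ((ν z.1)⁻¹ : ℝ) • f z.1 z.2) ((U : Filter P) ×ˢ 𝓝 t) (𝓝 c) := by
  obtain ⟨W, h1, h2, h3⟩ := hf
  by_cases h0 : ∀ᶠ p in U, f p = 0
  · exact Or.inl h0
  right
  have h0' : ∀ᶠ p in U, f p ≠ 0 := Ultrafilter.eventually_not.2 h0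
  have : Module.Finite ℝ W := Module.Finite.iff_fg.2 h1
  let b := Module.finBasis ℝ W
  let a : P → (Fin (Module.finrank ℝ W) → ℝ) := fun p => b.equivFun ⟨f p, h3 p⟩
  let ν : P → ℝ := fun p => if a p = 0 then 1 else ‖a p‖
  have hν : ∀ p, 0 < ν p := by
    intro p; simp only [ν]; split_ifs with h
    · exact one_pos
    · exact norm_pos_iff.2 h
  let c : P → (Fin (Module.finrank ℝ W) → ℝ) := fun p => (ν p)⁻¹ • a p
  have hc : ∀ᶠ p in U, c p ∈ Metric.sphere (0 : Fin (Module.finrank ℝ W) → ℝ) 1 := by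
    filter_upwards [h0'] with p hp
    have ha : a p ≠ 0 := by
      intro h
      have : (⟨f p, h3 p⟩ : W) = 0 := b.equivFun.map_eq_zero_iff.1 h
      exact hp (congrArg Subtype.val this)
    simp [c, ν, ha, norm_smul]
  obtain ⟨x, hx, hlim⟩ := (isCompact_sphere (0 : Fin (Module.finrank ℝ W) → ℝ) 1).ultrafilter_le_nhds'
    (U.map c) hc
  have hlim' : Tendsto c U (𝓝 x) := hlim
  have hrep : ∀ (y : Fin (Module.finrank ℝ W) → ℝ) (t : E),
      ((b.equivFun.symm y : W) : E → ℂ) t = ∑ j, y j • (b j : E → ℂ) t := by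
    intro y t
    rw [Module.Basis.equivFun_symm_apply]
    simp only [AddSubmonoidClass.coe_finsetSum, SetLike.val_smul, Finset.sum_apply, Pi.smul_apply, Complex.real_smul]
  have hg0 : ((b.equivFun.symm x : W) : E → ℂ) ≠ 0 := by
    intro h
    have h' : b.equivFun.symm x = 0 := Subtype.ext h
    rw [b.equivFun.symm.map_eq_zero_iff] at h'
    simp [h'] at hx
  refine ⟨ν, hν, ?_⟩
  filter_upwards [ae_ne_zero μ _ (h2 _ (b.equivFun.symm x).2) hg0] with t ht
  refine ⟨_, ht, ?_⟩
  have e : ∀ z : P × E, ((ν z.1)⁻¹ : ℝ) • f z.1 z.2 = ∑ j, c z.1 j • (b j : E → ℂ) z.2 := by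
    intro z
    rw [← hrep]
    simp [c, a]
  simp only [e, hrep]
  refine tendsto_finsetSum _ fun j _ => ?_
  have hb : Continuous (b j : E → ℂ) := continuousOn_univ.1 (h2 _ (b j).2).continuousOn
  exact (((continuous_apply j).tendsto x).comp (hlim'.comp tendsto_fst)).smul
    ((hb.tendsto t).comp tendsto_snd)

/-- Locally eventually constant at almost every point. -/
def Tame {Y : Type} [TopologicalSpace Y] [MeasurableSpace Y] (μ : Measure Y)
    (A : P → Y → Prop) : Prop :=
  ∀ᵐ t ∂μ, (∀ᶠ z in (U : Filter P) ×ˢ 𝓝 t, A z.1 z.2) ∨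
    (∀ᶠ z in (U : Filter P) ×ˢ 𝓝 t, ¬ A z.1 z.2)

lemma Tame.not {Y : Type} [TopologicalSpace Y] [MeasurableSpace Y] {μ : Measure Y}
    {A : P → Y → Prop} (h : Tame U μ A) : Tame U μ (fun p y => ¬ A p y) := by
  filter_upwards [h] with t ht
  rcases ht with h | h
  · exact Or.inr (h.mono fun z hz => not_not.2 hz)
  · exact Or.inl h

lemma Tame.and {Y : Type} [TopologicalSpace Y] [MeasurableSpace Y] {μ : Measure Y}
    {A B : P → Y → Prop} (h : Tame U μ A) (h' : Tame U μ B) :
    Tame U μ (fun p y => A p y ∧ B p y) := by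
  filter_upwards [h, h'] with t ht ht'
  rcases ht with h | h
  · rcases ht' with h' | h'
    · exact Or.inl (h.and h')
    · exact Or.inr (h'.mono fun z hz hh => hz hh.2)
  · exact Or.inr (h.mono fun z hz hh => hz hh.1)

lemma Fam.tame {f : P → E → ℂ} (hf : Fam f) : Tame U μ (fun p t => (f p t).re ≤ 0) := by
  rcases (hf.map (Complex.ofRealCLM.comp Complex.reCLM)).dichotomy μ U with h | ⟨ν, hν, h⟩
  · refine ae_of_all _ fun t => Or.inl ?_
    filter_upwards [tendsto_fst.eventually h] with z hz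
    have := congrFun hz z.2
    simp only [ContinuousLinearMap.comp_apply, Complex.reCLM_apply, Complex.ofRealCLM_apply,
      Pi.zero_apply, Complex.ofReal_eq_zero] at this
    exact this.le
  filter_upwards [h] with t ⟨c, hc, hlim⟩
  have h1 := (Complex.continuous_re.tendsto c).comp hlim
  have h2 := (Complex.continuous_im.tendsto c).comp hlim
  have h3 : c.im = 0 := by
    refine tendsto_nhds_unique h2 ?_
    refine tendsto_const_nhds.congr fun z => ?_
    simp
  have h4 : c.re ≠ 0 := fun h => hc (Complex.ext h h3)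
  rcases h4.lt_or_gt with h5 | h5
  · left
    filter_upwards [h1.eventually (gt_mem_nhds h5)] with z hz
    have hz' : (ν z.1)⁻¹ * (f z.1 z.2).re < 0 := by simpa only [ContinuousLinearMap.comp_apply, Complex.reCLM_apply, Complex.ofRealCLM_apply, Complex.real_smul, Complex.ofReal_inv, Function.comp_apply, Complex.mul_re, Complex.inv_re, Complex.ofReal_re, Complex.normSq_ofReal, div_self_mul_self', Complex.inv_im, Complex.ofReal_im, neg_zero, zero_div, mul_zero, sub_zero] using hz
    have := inv_pos.2 (hν z.1)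
    by_contra hh
    nlinarith only [hz', this, hh]
  · right
    filter_upwards [h1.eventually (lt_mem_nhds h5)] with z hz
    have hz' : 0 < (ν z.1)⁻¹ * (f z.1 z.2).re := by simpa only [ContinuousLinearMap.comp_apply, Complex.reCLM_apply, Complex.ofRealCLM_apply, Complex.real_smul, Complex.ofReal_inv, Function.comp_apply, Complex.mul_re, Complex.inv_re, Complex.ofReal_re, Complex.normSq_ofReal, div_self_mul_self', Complex.inv_im, Complex.ofReal_im, neg_zero, zero_div, mul_zero, sub_zero] using hz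
    have := inv_pos.2 (hν z.1)
    intro hh
    nlinarith only [hz', this, hh]

/-- Locally eventually a quotient of two families, from a countable stock. -/
def Quo (F : P → E → ℂ) : Prop :=
  ∃ C : Set ((P → E → ℂ) × (P → E → ℂ)), C.Countable ∧ (∀ c ∈ C, Fam c.1 ∧ Fam c.2) ∧
    ∀ᵐ t ∂μ, ∃ c ∈ C, ∀ᶠ z in (U : Filter P) ×ˢ 𝓝 t,
      c.2 z.1 z.2 ≠ 0 ∧ F z.1 z.2 = c.1 z.1 z.2 / c.2 z.1 z.2

omit [FiniteDimensional ℝ E] [BorelSpace E] [μ.IsAddHaarMeasure] in
lemma Fam.quo {f : P → E → ℂ} (hf : Fam f) : Quo μ U f := by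
  refine ⟨{(f, fun _ _ => 1)}, countable_singleton _, ?_, ae_of_all _ fun t => ⟨_, rfl, ?_⟩⟩
  · rintro c rfl; exact ⟨hf, Fam.const _⟩
  · exact Eventually.of_forall fun z => by simp

omit [FiniteDimensional ℝ E] [BorelSpace E] [μ.IsAddHaarMeasure] in
lemma Quo.add {F G : P → E → ℂ} (hF : Quo μ U F) (hG : Quo μ U G) :
    Quo μ U (fun p t => F p t + G p t) := by
  obtain ⟨C, h1, h2, h3⟩ := hF
  obtain ⟨C', h1', h2', h3'⟩ := hG
  refine ⟨image2 (fun c c' => (fun p t => c.1 p t * c'.2 p t + c'.1 p t * c.2 p t,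
    fun p t => c.2 p t * c'.2 p t)) C C', h1.image2 h1' _, ?_, ?_⟩
  · rintro _ ⟨c, hc, c', hc', rfl⟩
    exact ⟨((h2 c hc).1.mul (h2' c' hc').2).add ((h2' c' hc').1.mul (h2 c hc).2),
      (h2 c hc).2.mul (h2' c' hc').2⟩
  · filter_upwards [h3, h3'] with t ⟨c, hc, h⟩ ⟨c', hc', h'⟩
    refine ⟨_, mem_image2_of_mem hc hc', ?_⟩
    filter_upwards [h, h'] with z ⟨a1, a2⟩ ⟨b1, b2⟩
    refine ⟨mul_ne_zero a1 b1, ?_⟩
    rw [a2, b2]; field_simp

omit [FiniteDimensional ℝ E] [BorelSpace E] [μ.IsAddHaarMeasure] in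
lemma Quo.mul {F G : P → E → ℂ} (hF : Quo μ U F) (hG : Quo μ U G) :
    Quo μ U (fun p t => F p t * G p t) := by
  obtain ⟨C, h1, h2, h3⟩ := hF
  obtain ⟨C', h1', h2', h3'⟩ := hG
  refine ⟨image2 (fun c c' => (fun p t => c.1 p t * c'.1 p t,
    fun p t => c.2 p t * c'.2 p t)) C C', h1.image2 h1' _, ?_, ?_⟩
  · rintro _ ⟨c, hc, c', hc', rfl⟩
    exact ⟨(h2 c hc).1.mul (h2' c' hc').1, (h2 c hc).2.mul (h2' c' hc').2⟩
  · filter_upwards [h3, h3'] with t ⟨c, hc, h⟩ ⟨c', hc', h'⟩
    refine ⟨_, mem_image2_of_mem hc hc', ?_⟩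
    filter_upwards [h, h'] with z ⟨a1, a2⟩ ⟨b1, b2⟩
    refine ⟨mul_ne_zero a1 b1, ?_⟩
    rw [a2, b2]; field_simp

omit [FiniteDimensional ℝ E] [BorelSpace E] [μ.IsAddHaarMeasure] in
lemma Quo.conj {F : P → E → ℂ} (hF : Quo μ U F) :
    Quo μ U (fun p t => (starRingEnd ℂ) (F p t)) := by
  obtain ⟨C, h1, h2, h3⟩ := hF
  refine ⟨(fun c => (fun p t => (starRingEnd ℂ) (c.1 p t), fun p t => (starRingEnd ℂ) (c.2 p t))) '' C,
    h1.image _, ?_, ?_⟩
  · rintro _ ⟨c, hc, rfl⟩
    exact ⟨(h2 c hc).1.map (Complex.conjCLE : ℂ →L[ℝ] ℂ), (h2 c hc).2.map (Complex.conjCLE : ℂ →L[ℝ] ℂ)⟩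
  · filter_upwards [h3] with t ⟨c, hc, h⟩
    refine ⟨_, mem_image_of_mem _ hc, ?_⟩
    filter_upwards [h] with z ⟨a1, a2⟩
    exact ⟨by simpa using a1, by rw [a2, map_div₀]⟩

lemma Quo.inv {F : P → E → ℂ} (hF : Quo μ U F) : Quo μ U (fun p t => (F p t)⁻¹) := by
  classical
  obtain ⟨C, h1, h2, h3⟩ := hF
  refine ⟨(fun c => if ∀ᶠ p in U, c.1 p = 0 then (fun _ _ => 0, fun _ _ => 1) else (c.2, c.1)) '' C,
    h1.image _, ?_, ?_⟩
  · rintro _ ⟨c, hc, rfl⟩
    dsimp only
    split_ifs
    · exact ⟨Fam.const _, Fam.const _⟩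
    · exact (h2 c hc).symm
  have h4 : ∀ᵐ t ∂μ, ∀ c ∈ C, (∀ᶠ p in U, c.1 p = 0) ∨
      ∀ᶠ z in (U : Filter P) ×ˢ 𝓝 t, c.1 z.1 z.2 ≠ 0 := by
    refine (ae_ball_iff h1).2 fun c hc => ?_
    rcases (h2 c hc).1.dichotomy μ U with h | ⟨ν, hν, h⟩
    · exact ae_of_all _ fun t => Or.inl h
    · filter_upwards [h] with t ⟨x, hx, hlim⟩
      right
      filter_upwards [hlim.eventually_ne hx] with z hz h0
      exact hz (by rw [h0, smul_zero])
  filter_upwards [h3, h4] with t ⟨c, hc, h⟩ h5
  refine ⟨_, mem_image_of_mem _ hc, ?_⟩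
  split_ifs with h0
  · filter_upwards [h, tendsto_fst.eventually h0] with z ⟨_, a2⟩ hz
    simp [a2, hz]
  · filter_upwards [h, (h5 c hc).resolve_left h0] with z ⟨_, a2⟩ hz
    exact ⟨hz, by rw [a2, inv_div]⟩

lemma Quo.tame {F : P → E → ℂ} (hF : Quo μ U F) : Tame U μ (fun p t => (F p t).re ≤ 0) := by
  obtain ⟨C, h1, h2, h3⟩ := hF
  have h4 := (ae_ball_iff h1).2 fun c hc =>
    ((h2 c hc).1.mul ((h2 c hc).2.map (Complex.conjCLE : ℂ →L[ℝ] ℂ))).tame μ U
  filter_upwards [h3, h4] with t ⟨c, hc, h⟩ h5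
  have key : ∀ a b : ℂ, b ≠ 0 → ((a / b).re ≤ 0 ↔ (a * (starRingEnd ℂ) b).re ≤ 0) := by
    intro a b hb
    have hn : 0 < Complex.normSq b := Complex.normSq_pos.2 hb
    have : (a / b).re = (a * (starRingEnd ℂ) b).re / Complex.normSq b := by
      rw [Complex.div_re]; simp only [Complex.mul_re, Complex.conj_re, Complex.conj_im, mul_neg, sub_neg_eq_add, add_div]
    rw [this, div_nonpos_iff]
    constructor
    · rintro (⟨_, h⟩ | ⟨h, _⟩)
      · exact absurd hn (not_lt.2 h)
      · exact h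
    · exact fun h => Or.inr ⟨h, hn.le⟩
  rcases h5 c hc with h6 | h6
  · left
    filter_upwards [h, h6] with z ⟨a1, a2⟩ hz
    rw [a2, key _ _ a1]; exact hz
  · right
    filter_upwards [h, h6] with z ⟨a1, a2⟩ hz
    rw [a2, key _ _ a1]; exact hz

/-- The fractional part of an affine function with a bounded varying constant term. -/
lemma Quo.fract (l : E →L[ℝ] ℝ) (θ : P → ℝ) (h0 : ∀ p, 0 ≤ θ p) (h1 : ∀ p, θ p ≤ 1) :
    Quo μ U (fun p t => ((Int.fract (l t + θ p) : ℝ) : ℂ)) := by
  have hl : AnalyticOnNhd ℝ (fun t => ((l t : ℝ) : ℂ)) univ := fun t _ =>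
    (Complex.ofRealCLM.comp l).analyticAt t
  have hf : ∀ n : ℤ, Fam (fun p t => ((l t : ℝ) : ℂ) + ((θ p : ℂ) - n)) := fun n =>
    (Fam.single _ hl).add (Fam.const _)
  refine ⟨range fun n : ℤ => (fun p t => ((l t : ℝ) : ℂ) + ((θ p : ℂ) - n), fun _ _ => 1),
    countable_range _, ?_, ?_⟩
  · rintro _ ⟨n, rfl⟩; exact ⟨hf n, Fam.const _⟩
  have h4 := ae_all_iff.2 fun n : ℤ => ((hf n).map (-ContinuousLinearMap.id ℝ ℂ)).tame μ U
  filter_upwards [h4] with t ht
  have hnear : ∀ᶠ z in (U : Filter P) ×ˢ 𝓝 t, l t - 1 < l z.2 ∧ l z.2 < l t + 1 :=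
    tendsto_snd.eventually ((l.continuous.tendsto t).eventually
      ((lt_mem_nhds (by linarith)).and (gt_mem_nhds (by linarith))))
  have ht' : ∀ n : ℤ, (∀ᶠ z in (U : Filter P) ×ˢ 𝓝 t, (n : ℝ) ≤ l z.2 + θ z.1) ∨
      ∀ᶠ z in (U : Filter P) ×ˢ 𝓝 t, l z.2 + θ z.1 < n := by
    intro n
    rcases ht n with h | h
    · left; filter_upwards [h] with z hz
      simp only [neg_apply, ContinuousLinearMap.id_apply, neg_add_rev, neg_sub, Complex.add_re, Complex.sub_re, Complex.intCast_re, Complex.ofReal_re, Complex.neg_re, add_neg_le_iff_le_add, zero_add, tsub_le_iff_right] at hz; linarith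
    · right; filter_upwards [h] with z hz
      simp only [neg_apply, ContinuousLinearMap.id_apply, neg_add_rev, neg_sub, Complex.add_re, Complex.sub_re, Complex.intCast_re, Complex.ofReal_re, Complex.neg_re, add_neg_le_iff_le_add, zero_add, tsub_le_iff_right, not_le] at hz; linarith
  obtain ⟨n, hn, hmax⟩ := Int.exists_greatest_of_bdd
    (P := fun n : ℤ => ∀ᶠ z in (U : Filter P) ×ˢ 𝓝 t, (n : ℝ) ≤ l z.2 + θ z.1)
    ⟨⌈l t + 2⌉, fun n hn => by
      obtain ⟨z, a, _, b⟩ := (hn.and hnear).exists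
      have : (n : ℝ) ≤ ⌈l t + 2⌉ := by linarith [h1 z.1, Int.le_ceil (l t + 2)]
      exact_mod_cast this⟩
    ⟨⌊l t - 1⌋, hnear.mono fun z hz => by linarith [h0 z.1, Int.floor_le (l t - 1), hz.1]⟩
  have hn' := (ht' (n + 1)).resolve_left fun h => by have := hmax _ h; omega
  refine ⟨_, ⟨n, rfl⟩, ?_⟩
  filter_upwards [hn, hn'] with z a b
  have : ⌊l z.2 + θ z.1⌋ = n := Int.floor_eq_iff.2 ⟨a, by simpa only [Int.cast_add, Int.cast_one] using b⟩
  refine ⟨one_ne_zero, ?_⟩
  rw [Int.fract, this]; push_cast; ring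

end Pool.Agent.MP_d958de_lc.H19

end

-- part MP_d958de_lc.H19.Torus
section

/-! Transfer of tame sets from equidistributed finite samples to the limit measure. -/

namespace Pool.Agent.MP_d958de_lc.H19

open Filter MeasureTheory Topology Set

/-- Mean over a finite type. -/
noncomputable def av {G : Type} [Fintype G] (f : G → ℝ) : ℝ := (∑ x, f x) / Fintype.card G

open Classical in
/-- Indicator of a proposition. -/
noncomputable def ind (A : Prop) : ℝ := if A then 1 else 0

lemma ind_nonneg (A : Prop) : 0 ≤ ind A := by unfold ind; split_ifs <;> norm_num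
lemma ind_le_one (A : Prop) : ind A ≤ 1 := by unfold ind; split_ifs <;> norm_num
lemma ind_pos {A : Prop} (h : A) : ind A = 1 := by simp [ind, h]
lemma ind_neg {A : Prop} (h : ¬ A) : ind A = 0 := by simp [ind, h]
lemma ind_mono {A B : Prop} (h : A → B) : ind A ≤ ind B := by
  by_cases a : A
  · rw [ind_pos a, ind_pos (h a)]
  · rw [ind_neg a]; exact ind_nonneg _

lemma av_mono {G : Type} [Fintype G] {f g : G → ℝ} (h : ∀ x, f x ≤ g x) : av f ≤ av g :=
  div_le_div_of_nonneg_right (Finset.sum_le_sum fun x _ => h x) (by positivity)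
lemma av_add {G : Type} [Fintype G] (f g : G → ℝ) : av (fun x => f x + g x) = av f + av g := by
  simp only [av, Finset.sum_add_distrib, add_div]
lemma av_sub {G : Type} [Fintype G] (f g : G → ℝ) : av (fun x => f x - g x) = av f - av g := by
  simp only [av, Finset.sum_sub_distrib, sub_div]
lemma av_cmul {G : Type} [Fintype G] (c : ℝ) (f : G → ℝ) : av (fun x => c * f x) = c * av f := by
  simp only [av, ← Finset.mul_sum, mul_div_assoc]
lemma av_sum {G ι : Type} [Fintype G] (s : Finset ι) (f : ι → G → ℝ) :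
    av (fun x => ∑ i ∈ s, f i x) = ∑ i ∈ s, av (f i) := by
  simp only [av]; rw [Finset.sum_comm, Finset.sum_div]
lemma abs_av_le {G : Type} [Fintype G] (f : G → ℝ) : |av f| ≤ av (fun x => |f x|) := by
  rw [av, abs_div, abs_of_nonneg (a := (Fintype.card G : ℝ)) (by positivity)]
  exact div_le_div_of_nonneg_right (Finset.abs_sum_le_sum_abs _ _) (by positivity)

section
variable {P : Type} (U : Ultrafilter P) {Y : Type} [MetricSpace Y] [CompactSpace Y]
  [MeasurableSpace Y] [BorelSpace Y] (μ : Measure Y) [IsProbabilityMeasure μ]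

omit [CompactSpace Y] [MeasurableSpace Y] [BorelSpace Y] in
lemma isOpen_ev (A : P → Y → Prop) :
    IsOpen {y : Y | ∀ᶠ z in (U : Filter P) ×ˢ 𝓝 y, A z.1 z.2} := by
  refine isOpen_iff_mem_nhds.2 fun y hy => ?_
  obtain ⟨pa, ha, pb, hb, h⟩ := eventually_prod_iff.1 hy
  filter_upwards [eventually_eventually_nhds.2 hb] with y' hy'
  exact eventually_prod_iff.2 ⟨pa, ha, pb, hy', h⟩

lemma inner_bump (A : P → Y → Prop) (ε : ℝ) (hε : 0 < ε) : ∃ (a : C(Y, ℝ)) (K : Set Y),
    IsCompact K ∧ μ ({y : Y | ∀ᶠ z in (U : Filter P) ×ˢ 𝓝 y, A z.1 z.2} \ K) < ENNReal.ofReal ε ∧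
    (∀ y ∈ K, a y = 1) ∧ (∀ y, 0 ≤ a y) ∧ ∀ᶠ p in U, ∀ y, a y ≤ ind (A p y) := by
  obtain ⟨K, hK1, hK2, hK3⟩ := (isOpen_ev U A).measurableSet.exists_isCompact_sdiff_lt (μ := μ)
    (measure_ne_top _ _) (ε := ENNReal.ofReal ε) (by simpa using hε)
  have h1 : ∀ᶠ z in (U : Filter P) ×ˢ 𝓝ˢ K, A z.1 z.2 := by
    rw [hK2.prod_nhdsSet_eq_biSup]
    simp only [eventually_iSup]
    exact fun y hy => hK1 hy
  obtain ⟨pa, ha, pb, hb, h⟩ := eventually_prod_iff.1 h1
  obtain ⟨V, hV, hKV, hVb⟩ := mem_nhdsSet_iff_exists.1 hb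
  obtain ⟨a, a0, a1, a01⟩ := exists_continuous_zero_one_of_isClosed hV.isClosed_compl hK2.isClosed
    (disjoint_compl_left_iff_subset.2 hKV)
  refine ⟨a, K, hK2, hK3, fun y hy => a1 hy, fun y => (a01 y).1, ?_⟩
  filter_upwards [ha] with p hp y
  by_cases hy : y ∈ V
  · rw [ind_pos (h hp (hVb hy))]; exact (a01 y).2
  · rw [show a y = 0 from a0 hy]; exact ind_nonneg _

lemma sandwich {A : P → Y → Prop} (hA : Tame U μ A) (ε : ℝ) (hε : 0 < ε) :
    ∃ g h : C(Y, ℝ), ∫ y, h y ∂μ ≤ ε ∧ ∀ᶠ p in U, ∀ y, |ind (A p y) - g y| ≤ h y := by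
  obtain ⟨a, K, k1, k2, k3, k4, k5⟩ := inner_bump U μ A (ε / 2) (by positivity)
  obtain ⟨b, L, l1, l2, l3, l4, l5⟩ := inner_bump U μ (fun p y => ¬ A p y) (ε / 2) (by positivity)
  refine ⟨a, 1 - a - b, ?_, ?_⟩
  · have hm : MeasurableSet (K ∪ L)ᶜ := (k1.union l1).isClosed.measurableSet.compl
    have h1 : μ (K ∪ L)ᶜ ≤ ENNReal.ofReal ε := by
      calc μ (K ∪ L)ᶜ ≤ μ (({y : Y | ∀ᶠ z in (U : Filter P) ×ˢ 𝓝 y, A z.1 z.2} \ K) ∪
            ({y : Y | ∀ᶠ z in (U : Filter P) ×ˢ 𝓝 y, ¬ A z.1 z.2} \ L)) := by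
            refine measure_mono_ae ?_
            filter_upwards [hA] with y hy hy'
            have hy'' : y ∉ K ∪ L := hy'
            rcases hy with h | h
            · exact Or.inl ⟨h, fun hk => hy'' (Or.inl hk)⟩
            · exact Or.inr ⟨h, fun hk => hy'' (Or.inr hk)⟩
        _ ≤ ENNReal.ofReal (ε / 2) + ENNReal.ofReal (ε / 2) :=
            (measure_union_le _ _).trans (add_le_add k2.le l2.le)
        _ = ENNReal.ofReal ε := by
            rw [← ENNReal.ofReal_add (by positivity) (by positivity), add_halves]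
    calc ∫ y, (1 - a - b : C(Y, ℝ)) y ∂μ ≤ ∫ y, indicator (K ∪ L)ᶜ (1 : Y → ℝ) y ∂μ := by
          refine integral_mono ((1 - a - b : C(Y, ℝ)).continuous.integrable_of_hasCompactSupport
            (HasCompactSupport.of_compactSpace _)) ((integrable_const 1).indicator hm) fun y => ?_
          simp only [ContinuousMap.sub_apply, ContinuousMap.one_apply]
          by_cases hy : y ∈ (K ∪ L)ᶜ
          · rw [indicator_of_mem hy]; simp only [Pi.one_apply]; linarith [k4 y, l4 y]
          · rw [indicator_of_notMem hy]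
            rcases not_not.1 hy with h | h
            · linarith [k3 y h, l4 y]
            · linarith [l3 y h, k4 y]
      _ = μ.real (K ∪ L)ᶜ := integral_indicator_one hm
      _ ≤ ε := ENNReal.toReal_le_of_le_ofReal hε.le h1
  · filter_upwards [k5, l5] with p ha hb y
    have h1 := ha y
    have h2 := hb y
    simp only [ContinuousMap.sub_apply, ContinuousMap.one_apply]
    by_cases h : A p y
    · rw [ind_pos h] at h1 ⊢
      rw [ind_neg (not_not.2 h)] at h2
      rw [abs_of_nonneg (by linarith)]; linarith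
    · rw [ind_neg h] at h1 ⊢
      rw [ind_pos h] at h2
      have : a y = 0 := le_antisymm h1 (k4 y)
      rw [this]; simp only [sub_zero, abs_zero]; linarith

lemma cont_int (f : C(Y, ℝ)) : Integrable f μ :=
  f.continuous.integrable_of_hasCompactSupport (HasCompactSupport.of_compactSpace _)

omit [MetricSpace Y] [CompactSpace Y] [BorelSpace Y] in
lemma measurable_ind {A : Y → Prop} (h : MeasurableSet {y | A y}) :
    Measurable fun y => ind (A y) := by
  classical
  unfold ind
  exact Measurable.ite h measurable_const measurable_const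

/-- The transfer principle. -/
theorem transfer {G : P → Type} [∀ p, Fintype (G p)] (yy : ∀ p, G p → Y)
    (heq : ∀ g : C(Y, ℝ), Tendsto (fun p => av fun x => g (yy p x)) U (𝓝 (∫ y, g y ∂μ)))
    {A : P → Y → Prop} (hA : Tame U μ A) (hm : ∀ p, MeasurableSet {y | A p y}) (Φ : C(Y, ℝ))
    (η : ℝ) (hη : 0 < η) : ∀ᶠ p in U,
      |(av fun x => ind (A p (yy p x)) * Φ (yy p x)) - ∫ y, ind (A p y) * Φ y ∂μ| ≤ η := by
  set B : ℝ := ‖Φ‖ + 1 with hB
  have hB0 : 0 < B := by positivity
  have hΦ : ∀ y, |Φ y| ≤ B := fun y => (Φ.norm_coe_le_norm y).trans (by linarith)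
  obtain ⟨g, h, h1, h2⟩ := sandwich U μ hA (η / (4 * B)) (by positivity)
  have h3 := (heq h).eventually (gt_mem_nhds (lt_add_of_pos_right _ (show 0 < η / (4 * B) by positivity)))
  have h4 := (heq (g * Φ)).eventually (Metric.ball_mem_nhds _ (show 0 < η / 4 by positivity))
  filter_upwards [h2, h3, h4] with p e2 e3 e4
  have e5 : ∀ y, |ind (A p y) * Φ y - g y * Φ y| ≤ B * h y := by
    intro y
    rw [← sub_mul, abs_mul, mul_comm]
    exact mul_le_mul (hΦ y) (e2 y) (abs_nonneg _) hB0.le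
  have e6 : |(av fun x => ind (A p (yy p x)) * Φ (yy p x)) - av fun x => (g * Φ) (yy p x)| ≤
      B * av fun x => h (yy p x) := by
    rw [← av_sub, ← av_cmul]
    exact (abs_av_le _).trans (av_mono fun x => e5 _)
  have i1 : Integrable (fun y => ind (A p y) * Φ y) μ :=
    (cont_int μ Φ).bdd_mul (c := 1) (measurable_ind (hm p)).aestronglyMeasurable
      (ae_of_all _ fun y => by rw [Real.norm_of_nonneg (ind_nonneg _)]; exact ind_le_one _)
  have e7 : |∫ y, ind (A p y) * Φ y ∂μ - ∫ y, (g * Φ) y ∂μ| ≤ B * ∫ y, h y ∂μ := by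
    rw [← integral_sub i1 (cont_int μ _), ← integral_const_mul]
    refine (abs_integral_le_integral_abs).trans (integral_mono (i1.sub (cont_int μ _)).abs
      ((cont_int μ h).const_mul _) fun y => e5 y)
  have e8 : |(av fun x => (g * Φ) (yy p x)) - ∫ y, (g * Φ) y ∂μ| < η / 4 := e4
  have e9 : B * (η / (4 * B)) = η / 4 := by field_simp
  have e10 : B * (av fun x => h (yy p x)) ≤ B * (η / (4 * B) + η / (4 * B)) :=
    mul_le_mul_of_nonneg_left (by linarith only [h1, e3]) hB0.le
  have e11 : B * ∫ y, h y ∂μ ≤ B * (η / (4 * B)) := mul_le_mul_of_nonneg_left h1 hB0.le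
  rw [mul_add, e9] at e10
  rw [e9] at e11
  rw [abs_le] at e6 e7 ⊢
  rw [abs_lt] at e8
  constructor <;> linarith only [e6.1, e6.2, e7.1, e7.2, e8.1, e8.2, e10, e11]

end

/-- The standard character of the circle. -/
noncomputable def ec (θ : UnitAddCircle) : ℂ := (AddCircle.toCircle θ : ℂ)

lemma ec_add (a b : UnitAddCircle) : ec (a + b) = ec a * ec b := by
  simp [ec, AddCircle.toCircle_add]
lemma ec_norm (a : UnitAddCircle) : ‖ec a‖ = 1 := Circle.norm_coe _
lemma ec_zero : ec 0 = 1 := by simp [ec]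
lemma ec_eq_one {a : UnitAddCircle} (h : ec a = 1) : a = 0 := by
  apply AddCircle.injective_toCircle one_ne_zero
  rw [AddCircle.toCircle_zero]
  exact Subtype.ext h
lemma ec_coe (x : ℝ) : ec (x : UnitAddCircle) = Complex.exp (2 * Real.pi * Complex.I * x) := by
  have := fourier_coe_apply (T := 1) (n := 1) (x := x)
  rw [fourier_one] at this
  simpa [ec] using this
lemma ec_neg (a : UnitAddCircle) : ec (-a) = (starRingEnd ℂ) (ec a) := by
  rw [ec, AddCircle.toCircle_neg, Circle.coe_inv_eq_conj]; rfl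
lemma ec_sum {ι : Type} (s : Finset ι) (f : ι → UnitAddCircle) :
    ec (∑ i ∈ s, f i) = ∏ i ∈ s, ec (f i) := by
  classical
  induction s using Finset.induction_on with
  | empty => simp [ec_zero]
  | insert a s ha ih => rw [Finset.sum_insert ha, Finset.prod_insert ha, ec_add, ih]
lemma continuous_ec : Continuous ec := continuous_subtype_val.comp AddCircle.continuous_toCircle

variable {K : Type} [Fintype K]

/-- The pairing of an integer vector with a point of the torus. -/
noncomputable def pair (q : K → ℤ) (y : K → UnitAddCircle) : UnitAddCircle := ∑ k, q k • y k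

lemma pair_add (q : K → ℤ) (y h : K → UnitAddCircle) : pair q (y + h) = pair q y + pair q h := by
  simp only [pair, Pi.add_apply, smul_add, Finset.sum_add_distrib]
lemma continuous_pair (q : K → ℤ) : Continuous (pair q) := by unfold pair; fun_prop
lemma pair_coe (q : K → ℤ) (t : K → ℝ) :
    pair q (fun k => (t k : UnitAddCircle)) = ((∑ k, q k * t k : ℝ) : UnitAddCircle) := by
  rw [pair, QuotientAddGroup.mk_sum]
  refine Finset.sum_congr rfl fun k _ => ?_
  rw [← zsmul_eq_mul, QuotientAddGroup.mk_zsmul]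

instance : IsProbabilityMeasure (volume : Measure UnitAddCircle) := ⟨by simp only [AddCircle.measure_univ, ENNReal.ofReal_one]⟩

lemma integral_shift {Y : Type} [AddCommGroup Y] [MeasurableSpace Y] [MeasurableAdd Y]
    (μ : Measure Y) [μ.IsAddRightInvariant] (f : Y → ℂ) (h : Y) (c : ℂ) (hc : c ≠ 1)
    (hf : ∀ y, f (y + h) = c * f y) : ∫ y, f y ∂μ = 0 := by
  have h1 := integral_add_right_eq_self (μ := μ) f h
  simp only [hf, integral_const_mul] at h1
  have h2 : (c - 1) * ∫ y, f y ∂μ = 0 := by linear_combination h1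
  exact (mul_eq_zero.1 h2).resolve_left (sub_ne_zero.2 hc)

lemma half_ne : (((1 / 2 : ℝ)) : UnitAddCircle) ≠ 0 := by
  intro h
  obtain ⟨n, hn⟩ := (AddCircle.coe_eq_zero_iff _).1 h
  have h2 : ((2 * n : ℤ) : ℝ) = (1 : ℤ) := by push_cast; simp at hn; linarith only [hn]
  have h3 : 2 * n = 1 := by exact_mod_cast h2
  omega

theorem equidist {P : Type} (U : Filter P) {G : P → Type} [∀ p, Fintype (G p)]
    [∀ p, Nonempty (G p)] (yy : ∀ p, G p → K → UnitAddCircle)
    (h : ∀ q : K → ℤ, q ≠ 0 →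
      Tendsto (fun p => (∑ x, ec (pair q (yy p x))) / Fintype.card (G p)) U (𝓝 0))
    (g : C(K → UnitAddCircle, ℝ)) :
    Tendsto (fun p => av fun x => g (yy p x)) U (𝓝 (∫ y, g y)) := by
  classical
  have hint : ∀ f : C(K → UnitAddCircle, ℂ), Integrable f := fun f =>
    f.continuous.integrable_of_hasCompactSupport (HasCompactSupport.of_compactSpace _)
  have hcard : ∀ p, (Fintype.card (G p) : ℂ) ≠ 0 := fun p => by simp
  have hspan : ∀ f ∈ Submodule.span ℂ (range <| UnitAddTorus.mFourier (d := K)),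
      Tendsto (fun p => (∑ x, f (yy p x)) / Fintype.card (G p)) U (𝓝 (∫ y, f y)) := by
    intro f hf
    induction hf using Submodule.span_induction with
    | mem f hf =>
      obtain ⟨q, rfl⟩ := hf
      have e : ∀ y, UnitAddTorus.mFourier q y = ec (pair q y) := by
        intro y
        simp only [UnitAddTorus.mFourier, ContinuousMap.coe_mk, pair, ec_sum, fourier_apply]; rfl
      simp only [e]
      by_cases hq : q = 0
      · subst hq
        simp only [pair, Pi.zero_apply, zero_smul, Finset.sum_const_zero, ec_zero, Finset.sum_const, Finset.card_univ, nsmul_eq_mul, mul_one, ne_eq, Nat.cast_eq_zero, Fintype.card_ne_zero, not_false_eq_true, div_self, integral_const, probReal_univ, one_smul, tendsto_const_nhds]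
      · obtain ⟨k, hk⟩ := Function.ne_iff.1 hq
        have hk' : (q k : ℝ) ≠ 0 := by exact_mod_cast hk
        have e2 : pair q (fun j => ((Pi.single k (1 / 2 / q k : ℝ) : K → ℝ) j : UnitAddCircle)) =
            ((1 / 2 : ℝ) : UnitAddCircle) := by
          rw [pair_coe, Finset.sum_eq_single k (fun j _ hj => by simp [hj]) (by simp only [Finset.mem_univ, not_true_eq_false, one_div, Pi.single_eq_same, mul_eq_zero, Int.cast_eq_zero, div_eq_zero_iff, inv_eq_zero, OfNat.ofNat_ne_zero, false_or, or_self, IsEmpty.forall_iff])]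
          congr 1
          simp only [Pi.single_eq_same]; field_simp
        rw [integral_shift volume (fun y => ec (pair q y)) _ (ec ((1 / 2 : ℝ) : UnitAddCircle))
          (fun hh => half_ne (ec_eq_one hh)) (fun y => by rw [pair_add, e2, ec_add, mul_comm])]
        exact h q hq
    | zero => simp [tendsto_const_nhds]
    | add a b _ _ ha hb =>
      simp only [ContinuousMap.add_apply, Finset.sum_add_distrib, add_div]
      rw [integral_add (hint a) (hint b)]
      exact ha.add hb
    | smul c a _ ha =>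
      simp only [ContinuousMap.smul_apply, smul_eq_mul, ← Finset.mul_sum, mul_div_assoc]
      rw [integral_const_mul]
      exact ha.const_mul c
  let gc : C(K → UnitAddCircle, ℂ) := ⟨fun y => (g y : ℂ), by fun_prop⟩
  have hc : Tendsto (fun p => (∑ x, gc (yy p x)) / Fintype.card (G p)) U (𝓝 (∫ y, gc y)) := by
    refine Metric.tendsto_nhds.2 fun ε hε => ?_
    have hmem : gc ∈ closure (Submodule.span ℂ (range <| UnitAddTorus.mFourier (d := K)) :
        Set C(K → UnitAddCircle, ℂ)) := by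
      rw [← Submodule.topologicalClosure_coe, UnitAddTorus.span_mFourier_closure_eq_top]; trivial
    obtain ⟨f, hf, hd⟩ := Metric.mem_closure_iff.1 hmem (ε / 3) (by positivity)
    have hd' : ∀ y, ‖gc y - f y‖ ≤ dist gc f := fun y => by
      rw [← dist_eq_norm]; exact ContinuousMap.dist_apply_le_dist y
    filter_upwards [Metric.tendsto_nhds.1 (hspan f hf) (ε / 3) (by positivity)] with p hp
    have a1 : dist ((∑ x, gc (yy p x)) / (Fintype.card (G p) : ℂ))
        ((∑ x, f (yy p x)) / Fintype.card (G p)) ≤ dist gc f := by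
      rw [dist_eq_norm, ← sub_div, ← Finset.sum_sub_distrib, norm_div, Complex.norm_natCast,
        div_le_iff₀ (by simp [Fintype.card_pos])]
      refine (norm_sum_le _ _).trans ((Finset.sum_le_sum fun x _ => hd' _).trans ?_)
      simp [mul_comm]
    have a2 : dist (∫ y, f y) (∫ y, gc y) ≤ dist gc f := by
      rw [dist_comm, dist_eq_norm, ← integral_sub (hint _) (hint _)]
      simpa using norm_integral_le_of_norm_le_const (μ := volume) (ae_of_all _ hd')
    linarith [dist_triangle4 ((∑ x, gc (yy p x)) / (Fintype.card (G p) : ℂ))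
      ((∑ x, f (yy p x)) / Fintype.card (G p)) (∫ y, f y) (∫ y, gc y)]
  have h2 := (Complex.continuous_re.tendsto _).comp hc
  have e1 : (∫ y, gc y).re = ∫ y, g y := by
    simp only [gc, ContinuousMap.coe_mk]; rw [integral_complex_ofReal]; simp
  rw [e1] at h2
  refine h2.congr fun p => ?_
  simp only [Function.comp, gc, ContinuousMap.coe_mk, av]
  rw [← Complex.ofReal_sum, ← Complex.ofReal_natCast, ← Complex.ofReal_div, Complex.ofReal_re]

/-- Tameness descends from the covering space to the torus. -/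
lemma Tame.descend {P : Type} (U : Ultrafilter P) {A : P → (K → UnitAddCircle) → Prop}
    (h : Tame U (volume : Measure (K → ℝ)) fun p t => A p fun k => (t k : UnitAddCircle)) :
    Tame U volume A := by
  let π : (K → ℝ) → (K → UnitAddCircle) := fun t k => (t k : UnitAddCircle)
  have hop : IsOpenMap π :=
    (IsOpenQuotientMap.piMap fun _ : K => QuotientAddGroup.isOpenQuotientMap_mk).isOpenMap
  have hmp : MeasurePreserving π (Measure.pi fun _ : K => volume.restrict (Ioc (0 : ℝ) (0 + 1)))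
      volume := measurePreserving_pi _ _ fun _ => AddCircle.measurePreserving_mk 1 0
  have hdown : ∀ (B : P → (K → UnitAddCircle) → Prop) (t : K → ℝ),
      (∀ᶠ z in (U : Filter P) ×ˢ 𝓝 t, B z.1 (π z.2)) →
      ∀ᶠ z in (U : Filter P) ×ˢ 𝓝 (π t), B z.1 z.2 := by
    intro B t ht
    obtain ⟨pa, ha, pb, hb, h⟩ := eventually_prod_iff.1 ht
    refine eventually_prod_iff.2 ⟨pa, ha, fun y => y ∈ π '' {t | pb t}, hop.image_mem_nhds hb, ?_⟩
    rintro p hp _ ⟨t', ht', rfl⟩
    exact h hp ht'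
  have hmeas : MeasurableSet {y : K → UnitAddCircle | (∀ᶠ z in (U : Filter P) ×ˢ 𝓝 y, A z.1 z.2) ∨
      (∀ᶠ z in (U : Filter P) ×ˢ 𝓝 y, ¬ A z.1 z.2)} :=
    ((isOpen_ev U A).union (isOpen_ev U fun p y => ¬ A p y)).measurableSet
  unfold Tame
  rw [← hmp.map_eq, ae_map_iff hmp.measurable.aemeasurable hmeas, ← Measure.restrict_pi_pi]
  refine ae_restrict_of_ae ?_
  filter_upwards [h] with t ht
  exact ht.imp (hdown A t) (hdown (fun p y => ¬ A p y) t)

end Pool.Agent.MP_d958de_lc.H19

end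

-- part MP_d958de_lc.H19.Haar
section

/-! The lower bound in the limit model: a vector that only sees an invariant part of the group
cannot approximate the row sums of the characters. -/

namespace Pool.Agent.MP_d958de_lc.H19

open MeasureTheory Finset

lemma iadd {Y : Type} [MeasurableSpace Y] {μ : Measure Y} {f g : Y → ℝ} (hf : Integrable f μ)
    (hg : Integrable g μ) : Integrable (fun y => f y + g y) μ := hf.add hg

lemma int3 {Y : Type} [MeasurableSpace Y] {μ : Measure Y} {f g h : Y → ℝ} (hf : Integrable f μ)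
    (hg : Integrable g μ) (hh : Integrable h μ) (a b c d : ℝ) :
    ∫ y, a * f y + b * (c * g y + d * h y) ∂μ =
      a * ∫ y, f y ∂μ + b * (c * ∫ y, g y ∂μ + d * ∫ y, h y ∂μ) := by
  rw [integral_add (hf.const_mul _) ((iadd (hg.const_mul _) (hh.const_mul _)).const_mul _),
    integral_const_mul, integral_const_mul, integral_add (hg.const_mul _) (hh.const_mul _),
    integral_const_mul, integral_const_mul]

section
variable {Y : Type} [AddCommGroup Y] [MeasurableSpace Y]

/-- Bounded and measurable. -/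
def BM (f : Y → ℂ) : Prop := Measurable f ∧ ∃ C, ∀ y, ‖f y‖ ≤ C

omit [AddCommGroup Y] in
lemma BM.mul {f g : Y → ℂ} (hf : BM f) (hg : BM g) : BM fun y => f y * g y := by
  obtain ⟨a, C, h⟩ := hf
  obtain ⟨b, D, h'⟩ := hg
  exact ⟨a.mul b, C * D, fun y => (norm_mul_le _ _).trans
    (mul_le_mul (h y) (h' y) (norm_nonneg _) ((norm_nonneg _).trans (h y)))⟩

omit [AddCommGroup Y] in
lemma BM.add {f g : Y → ℂ} (hf : BM f) (hg : BM g) : BM fun y => f y + g y := by
  obtain ⟨a, C, h⟩ := hf
  obtain ⟨b, D, h'⟩ := hg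
  exact ⟨a.add b, C + D, fun y => (norm_add_le _ _).trans (add_le_add (h y) (h' y))⟩

omit [AddCommGroup Y] in
lemma BM.conj {f : Y → ℂ} (hf : BM f) : BM fun y => (starRingEnd ℂ) (f y) := by
  obtain ⟨a, C, h⟩ := hf
  exact ⟨Complex.continuous_conj.measurable.comp a, C, fun y => by simpa using h y⟩

omit [AddCommGroup Y] in
lemma BM.sum {ι : Type} (s : Finset ι) {f : ι → Y → ℂ} (hf : ∀ i, BM (f i)) :
    BM fun y => ∑ i ∈ s, f i y := by
  classical
  induction s using Finset.induction_on with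
  | empty => exact ⟨by simp, 0, by simp⟩
  | insert a s ha ih => simp only [sum_insert ha]; exact (hf a).add ih

omit [AddCommGroup Y] in
lemma BM.ind {E : Y → Prop} (h : MeasurableSet {y | E y}) : BM fun y => (ind (E y) : ℂ) :=
  ⟨Complex.measurable_ofReal.comp (measurable_ind h), 1, fun y => by
    rw [Complex.norm_real, Real.norm_of_nonneg (ind_nonneg _)]; exact ind_le_one _⟩

variable (μ : Measure Y) [IsProbabilityMeasure μ]

omit [AddCommGroup Y] in
lemma BM.int {f : Y → ℂ} (hf : BM f) : Integrable f μ := by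
  obtain ⟨a, C, h⟩ := hf
  exact Integrable.of_bound a.aestronglyMeasurable C (ae_of_all _ h)

omit [AddCommGroup Y] in
lemma BM.int_sq {f : Y → ℂ} (hf : BM f) : Integrable (fun y => ‖f y‖ ^ 2) μ := by
  have := ((hf.mul hf).int μ).norm
  simpa only [sq, Complex.norm_mul] using this

/-- Invariance under the shifts in `H`. -/
def Inv {α : Type} (H : Set Y) (f : Y → α) : Prop := ∀ h ∈ H, ∀ y, f (y + h) = f y

/-- A family of measurable characters. -/
structure Chars {I : Type} (c : I → Y → ℂ) : Prop where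
  meas : ∀ a, Measurable (c a)
  mul : ∀ a y h, c a (y + h) = c a y * c a h
  norm : ∀ a y, ‖c a y‖ = 1

lemma Chars.bm {I : Type} {c : I → Y → ℂ} (hc : Chars c) (a : I) : BM (c a) :=
  ⟨hc.meas a, 1, fun y => (hc.norm a y).le⟩

lemma mul_conj_one {z : ℂ} (h : ‖z‖ = 1) : z * (starRingEnd ℂ) z = 1 := by
  rw [Complex.mul_conj, Complex.normSq_eq_norm_sq, h]; simp

variable [MeasurableAdd Y] [μ.IsAddRightInvariant] {I : Type} {c : I → Y → ℂ} {H : Set Y}

omit [IsProbabilityMeasure μ] in
lemma orth (hc : Chars c) {f : Y → ℂ} (hf : Inv H f) {a b : I} (hab : ∃ h ∈ H, c a h ≠ c b h) :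
    ∫ y, f y * (c a y * (starRingEnd ℂ) (c b y)) ∂μ = 0 := by
  obtain ⟨h, hH, hne⟩ := hab
  refine integral_shift μ _ h (c a h * (starRingEnd ℂ) (c b h)) (fun h1 => hne ?_) fun y => ?_
  · have h2 := mul_conj_one (hc.norm b h)
    linear_combination (c b h) * h1 - (c a h) * h2
  · rw [hf h hH, hc.mul, hc.mul, map_mul]; ring

lemma step (hc : Chars c) {α : I → Y → ℂ} (hb : ∀ a, BM (α a)) (hi : ∀ a, Inv H (α a))
    (a : I) (s : Finset I) (hs : ∀ b ∈ s, ∃ h ∈ H, c a h ≠ c b h) :
    ∫ y, ‖α a y * c a y + ∑ b ∈ s, α b y * c b y‖ ^ 2 ∂μ =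
      ∫ y, ‖α a y‖ ^ 2 ∂μ + ∫ y, ‖∑ b ∈ s, α b y * c b y‖ ^ 2 ∂μ := by
  have hv : BM fun y => ∑ b ∈ s, α b y * c b y := BM.sum s fun b => (hb b).mul (hc.bm b)
  have hu : BM fun y => α a y * c a y := (hb a).mul (hc.bm a)
  have hx := (hu.mul hv.conj).int μ
  have h0 : ∫ y, α a y * c a y * (starRingEnd ℂ) (∑ b ∈ s, α b y * c b y) ∂μ = 0 := by
    have e : ∀ y, α a y * c a y * (starRingEnd ℂ) (∑ b ∈ s, α b y * c b y) =
        ∑ b ∈ s, (α a y * (starRingEnd ℂ) (α b y)) * (c a y * (starRingEnd ℂ) (c b y)) := by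
      intro y
      rw [map_sum, mul_sum]
      exact sum_congr rfl fun b _ => by rw [map_mul]; ring
    simp only [e]
    rw [integral_finsetSum _ fun b _ =>
      (((hb a).mul (hb b).conj).mul ((hc.bm a).mul (hc.bm b).conj)).int μ]
    refine sum_eq_zero fun b hb' => orth μ hc (fun h hH y => ?_) (hs b hb')
    simp only [hi a h hH y, hi b h hH y]
  have e : ∀ y, ‖α a y * c a y + ∑ b ∈ s, α b y * c b y‖ ^ 2 =
      (‖α a y‖ ^ 2 + ‖∑ b ∈ s, α b y * c b y‖ ^ 2) +
        2 * (α a y * c a y * (starRingEnd ℂ) (∑ b ∈ s, α b y * c b y)).re := by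
    intro y
    rw [← Complex.normSq_eq_norm_sq, Complex.normSq_add, Complex.normSq_eq_norm_sq,
      Complex.normSq_eq_norm_sq, norm_mul, hc.norm, mul_one]
  simp only [e]
  have hre := hx.re
  have h1 := integral_re hx
  simp only [RCLike.re_to_complex] at hre h1
  rw [integral_add (iadd ((hb a).int_sq μ) (hv.int_sq μ)) (hre.const_mul 2),
    integral_add ((hb a).int_sq μ) (hv.int_sq μ), integral_const_mul, h1, h0]
  simp

lemma split [DecidableEq I] (hc : Chars c) {α : I → Y → ℂ} (hb : ∀ a, BM (α a))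
    (hi : ∀ a, Inv H (α a)) (s A : Finset I) (hd : Disjoint A s)
    (hs : ∀ a ∈ A, ∀ b ∈ A ∪ s, b ≠ a → ∃ h ∈ H, c a h ≠ c b h) :
    ∫ y, ‖∑ b ∈ A ∪ s, α b y * c b y‖ ^ 2 ∂μ =
      ∑ a ∈ A, ∫ y, ‖α a y‖ ^ 2 ∂μ + ∫ y, ‖∑ b ∈ s, α b y * c b y‖ ^ 2 ∂μ := by
  induction A using Finset.induction_on with
  | empty => simp
  | insert a A ha ih =>
    have ha' : a ∉ A ∪ s := by
      simp only [mem_union, not_or]
      exact ⟨ha, disjoint_left.1 hd (mem_insert_self _ _)⟩
    simp only [insert_union, sum_insert ha', sum_insert ha]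
    rw [step μ hc hb hi a (A ∪ s) fun b hb' => hs a (mem_insert_self _ _) b
      (by rw [insert_union]; exact mem_insert_of_mem hb') (fun h => ha' (h ▸ hb')),
      ih (disjoint_of_subset_left (subset_insert _ _) hd) fun a' h1 b h2 =>
        hs a' (mem_insert_of_mem h1) b (by rw [insert_union]; exact mem_insert_of_mem h2)]
    ring

end

/-- Squared length of the vector of row sums. -/
noncomputable def NN {m : ℕ} (z : Fin m × Fin m → ℂ) : ℝ := ∑ i, ‖∑ j, z (i, j)‖ ^ 2

/-- The majorant of the success indicator. -/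
noncomputable def Phi (m : ℕ) (γ τ N : ℝ) : ℝ :=
  (N - m ^ 2) ^ 2 / (γ ^ 2 * m ^ 4) + (2 * m + 2 * (N - m ^ 2 + τ)) / (γ * m ^ 2)

lemma point {m : ℕ} (hm : 0 < m) {ε γ : ℝ} (hγ : 0 < γ) (he : ε ^ 2 = 1 - 2 * γ)
    (X W : Fin m → ℂ) (h : ∑ i, ‖W i - X i‖ ^ 2 ≤ ε ^ 2 * max (∑ i, ‖X i‖ ^ 2) (m ^ 2)) :
    1 ≤ (∑ i, ‖X i‖ ^ 2 - m ^ 2) ^ 2 / (γ ^ 2 * m ^ 4) +
      ‖∑ i, (starRingEnd ℂ) (W i / (√(∑ j, ‖W j‖ ^ 2) : ℝ)) * X i‖ ^ 2 / (γ * m ^ 2) := by
  set N := ∑ i, ‖X i‖ ^ 2 with hN
  set t := √(∑ j, ‖W j‖ ^ 2) with ht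
  set ip := ∑ i, (starRingEnd ℂ) (W i / (t : ℝ)) * X i with hip
  have hm' : (0 : ℝ) < m := by exact_mod_cast hm
  have ht2 : t ^ 2 = ∑ j, ‖W j‖ ^ 2 := Real.sq_sqrt (by positivity)
  have hW : ∀ i, W i = t * (W i / (t : ℝ)) := by
    intro i
    by_cases h0 : t = 0
    · have h1 : ∑ j, ‖W j‖ ^ 2 = 0 := by rw [← ht2, h0]; simp
      have h2 := (sum_eq_zero_iff_of_nonneg fun j _ => by positivity).1 h1 i (mem_univ _)
      have h3 : W i = 0 := by simpa using h2
      simp [h3]
    · have : (t : ℂ) ≠ 0 := by exact_mod_cast h0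
      field_simp
  have hexp : ∑ i, ‖W i - X i‖ ^ 2 = t ^ 2 + N - 2 * t * ip.re := by
    rw [ht2, hN, hip, Complex.re_sum, mul_sum, ← sum_add_distrib, ← sum_sub_distrib]
    refine sum_congr rfl fun i _ => ?_
    rw [← Complex.normSq_eq_norm_sq, Complex.normSq_sub, Complex.normSq_eq_norm_sq,
      Complex.normSq_eq_norm_sq]
    congr 1
    conv_lhs => rw [hW i]
    generalize W i / (t : ℝ) = w
    simp; ring
  have hre : ip.re ^ 2 ≤ ‖ip‖ ^ 2 := by
    rw [← sq_abs]; exact pow_le_pow_left₀ (abs_nonneg _) (Complex.abs_re_le_norm _) 2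
  have h1 : N - ‖ip‖ ^ 2 ≤ ε ^ 2 * max N (m ^ 2) := by linarith only [sq_nonneg (t - ip.re), h, hexp, hre]
  by_cases hc : N < (1 - γ) * m ^ 2
  · have : 1 ≤ (N - m ^ 2) ^ 2 / (γ ^ 2 * m ^ 4) := by
      rw [le_div_iff₀ (by positivity)]
      have h2 : γ * m ^ 2 ≤ m ^ 2 - N := by linarith only [hc]
      linarith only [mul_self_le_mul_self (by positivity) h2]
    exact this.trans (le_add_of_nonneg_right (by positivity))
  · have : 1 ≤ ‖ip‖ ^ 2 / (γ * m ^ 2) := by
      rw [le_div_iff₀ (by positivity)]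
      rcases le_total N (m ^ 2) with h2 | h2
      · rw [max_eq_right h2, he] at h1; linarith only [h1, hc]
      · rw [max_eq_left h2, he] at h1; nlinarith only [hγ, h1, h2]
    exact this.trans (le_add_of_nonneg_left (by positivity))

lemma unit_le {m : ℕ} (W : Fin m → ℂ) : ∑ i, ‖W i / (√(∑ j, ‖W j‖ ^ 2) : ℝ)‖ ^ 2 ≤ 1 := by
  simp only [norm_div, div_pow, Complex.norm_real, Real.norm_eq_abs, sq_abs]
  rw [← sum_div, Real.sq_sqrt (by positivity)]
  exact div_self_le_one _

lemma cs {m : ℕ} (w g : Fin m → ℂ) (hw : ∑ i, ‖w i‖ ^ 2 ≤ 1) :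
    ‖∑ i, (starRingEnd ℂ) (w i) * g i‖ ^ 2 ≤ ∑ i, ‖g i‖ ^ 2 := by
  have h1 : ‖∑ i, (starRingEnd ℂ) (w i) * g i‖ ≤ ∑ i, ‖w i‖ * ‖g i‖ :=
    (norm_sum_le _ _).trans (le_of_eq (sum_congr rfl fun i _ => by simp))
  calc _ ≤ (∑ i, ‖w i‖ * ‖g i‖) ^ 2 := pow_le_pow_left₀ (norm_nonneg _) h1 2
    _ ≤ (∑ i, ‖w i‖ ^ 2) * ∑ i, ‖g i‖ ^ 2 := sum_mul_sq_le_sq_mul_sq _ _ _
    _ ≤ _ := mul_le_of_le_one_left (by positivity) hw

lemma ind_sq (A : Prop) (z : ℂ) : ‖(ind A : ℂ) * z‖ ^ 2 = ind A * ‖z‖ ^ 2 := by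
  by_cases h : A
  · simp [ind_pos h]
  · simp [ind_neg h]

variable {Y : Type} [AddCommGroup Y] [MeasurableSpace Y] (μ : Measure Y) [IsProbabilityMeasure μ]
  [MeasurableAdd Y] [μ.IsAddRightInvariant] {m : ℕ} {Z : Fin m × Fin m → Y → ℂ} {H : Set Y}

/-- Row by row, the singles contribute exactly their number. -/
lemma rows (hZ : Chars Z) {E : Y → Prop} (hE : MeasurableSet {y | E y}) (hEi : Inv H E)
    (A : Finset (Fin m × Fin m)) (hA : ∀ a ∈ A, ∀ b, b ≠ a → ∃ h ∈ H, Z a h ≠ Z b h) :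
    ∫ y, ind (E y) * NN (fun a => Z a y) ∂μ = A.card * ∫ y, ind (E y) ∂μ +
      ∫ y, ind (E y) * NN (fun a => if a ∈ A then 0 else Z a y) ∂μ := by
  classical
  have hb : ∀ _ : Fin m × Fin m, BM fun y => (ind (E y) : ℂ) := fun _ => BM.ind hE
  have hi : ∀ _ : Fin m × Fin m, Inv H fun y => (ind (E y) : ℂ) := fun _ h hH y => by
    simp only [hEi h hH y]
  let row : Fin m → Finset (Fin m × Fin m) := fun i => univ.filter fun a => a.1 = i
  have hrow : ∀ (i : Fin m) (f : Fin m × Fin m → ℂ), ∑ j, f (i, j) = ∑ a ∈ row i, f a := by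
    intro i f
    rw [sum_filter, Fintype.sum_prod_type]
    symm
    rw [sum_eq_single i (fun b _ hb => by simp only [hb, ↓ reduceIte, sum_const_zero]) (by simp)]
    simp only [↓ reduceIte]
  have e1 : ∀ y, ind (E y) * NN (fun a => Z a y) =
      ∑ i, ‖∑ b ∈ (row i ∩ A) ∪ (row i \ A), (ind (E y) : ℂ) * Z b y‖ ^ 2 := by
    intro y
    rw [NN, mul_sum]
    refine sum_congr rfl fun i _ => ?_
    rw [union_comm, sdiff_union_inter, ← mul_sum, ind_sq, hrow i fun a => Z a y]
  have e2 : ∀ y, ind (E y) * NN (fun a => if a ∈ A then 0 else Z a y) =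
      ∑ i, ‖∑ b ∈ row i \ A, (ind (E y) : ℂ) * Z b y‖ ^ 2 := by
    intro y
    rw [NN, mul_sum]
    refine sum_congr rfl fun i _ => ?_
    rw [← mul_sum, ind_sq, hrow i fun a => if a ∈ A then 0 else Z a y, sdiff_eq_filter,
      sum_filter (fun a => a ∉ A)]
    simp only [ite_not]
  have hint : ∀ s : Finset (Fin m × Fin m),
      Integrable (fun y => ‖∑ b ∈ s, (ind (E y) : ℂ) * Z b y‖ ^ 2) μ := fun s =>
    (BM.sum s fun b => (hb b).mul (hZ.bm b)).int_sq μ
  simp only [e1, e2]
  rw [integral_finsetSum _ fun i _ => hint _, integral_finsetSum _ fun i _ => hint _]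
  have e3 : ∀ y, ‖(ind (E y) : ℂ)‖ ^ 2 = ind (E y) := fun y => by simpa using ind_sq (E y) 1
  have e4 : ∀ i, ∫ y, ‖∑ b ∈ (row i ∩ A) ∪ (row i \ A), (ind (E y) : ℂ) * Z b y‖ ^ 2 ∂μ =
      (row i ∩ A).card * ∫ y, ind (E y) ∂μ +
        ∫ y, ‖∑ b ∈ row i \ A, (ind (E y) : ℂ) * Z b y‖ ^ 2 ∂μ := by
    intro i
    rw [split μ hZ hb hi _ _ (disjoint_sdiff_inter _ _).symm
      fun a ha b _ hne => hA a (mem_inter.1 ha).2 b hne]
    simp only [e3, sum_const, nsmul_eq_mul]
  simp only [e4]
  rw [sum_add_distrib, ← sum_mul]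
  congr 2
  rw [← Nat.cast_sum, card_eq_sum_card_fiberwise (f := Prod.fst) (s := A) (t := univ) (by simp only [coe_univ, Set.mapsTo_univ])]
  congr 1
  refine sum_congr rfl fun i _ => ?_
  congr 1
  ext a; simp only [row, mem_inter, mem_filter, mem_univ, true_and, and_comm]

omit [AddCommGroup Y] [MeasurableAdd Y] in
lemma bm_NN {z : Fin m × Fin m → Y → ℂ} (hz : ∀ a, BM (z a)) :
    BM fun y => (NN (fun a => z a y) : ℂ) := by
  have e : ∀ y, (NN (fun a => z a y) : ℂ) =
      ∑ i, (∑ j, z (i, j) y) * (starRingEnd ℂ) (∑ j, z (i, j) y) := by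
    intro y
    simp only [NN, Complex.mul_conj, Complex.normSq_eq_norm_sq, Complex.ofReal_sum]
  simp only [e]
  exact BM.sum _ fun i => (BM.sum _ fun j => hz (i, j)).mul (BM.sum _ fun j => hz (i, j)).conj

omit [AddCommGroup Y] [MeasurableAdd Y] [μ.IsAddRightInvariant] in
lemma BM.int_re {f : Y → ℝ} (h : BM fun y => (f y : ℂ)) : Integrable f μ := by
  simpa using (h.int μ).re

omit [AddCommGroup Y] in
lemma BM.const (c : ℂ) : BM fun _ : Y => c := ⟨measurable_const, ‖c‖, fun _ => le_rfl⟩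

/-- The inequality at a leaf of the computation. -/
theorem leaf_haar (hm : 0 < m) {ε γ τ : ℝ} (hγ : 0 < γ) (he : ε ^ 2 = 1 - 2 * γ) (hZ : Chars Z)
    {E : Y → Prop} (hE : MeasurableSet {y | E y}) (hEi : Inv H E)
    (A : Finset (Fin m × Fin m)) (hA : ∀ a ∈ A, ∀ b, b ≠ a → ∃ h ∈ H, Z a h ≠ Z b h)
    (hτ : (m : ℝ) ^ 2 - τ ≤ A.card) (W : Fin m → Y → ℂ) (hW : ∀ i, Measurable (W i))
    (hWi : ∀ i, Inv H (W i)) {B : Y → Prop} (hB : MeasurableSet {y | B y})
    (hBE : ∀ y, B y → E y ∧
      ∑ i, ‖W i y - ∑ j, Z (i, j) y‖ ^ 2 ≤ ε ^ 2 * max (NN fun a => Z a y) (m ^ 2)) :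
    ∫ y, ind (B y) ∂μ ≤ ∫ y, ind (E y) * Phi m γ τ (NN fun a => Z a y) ∂μ := by
  classical
  have hm' : (0 : ℝ) < m := by exact_mod_cast hm
  let w : Fin m → Y → ℂ := fun i y => W i y / (√(∑ j, ‖W j y‖ ^ 2) : ℝ)
  have hw1 : ∀ y, ∑ i, ‖w i y‖ ^ 2 ≤ 1 := fun y => unit_le _
  have hwb : ∀ i, BM (w i) := fun i => ⟨by simp only [w]; fun_prop, 1, fun y => by
    have := (single_le_sum (f := fun i => ‖w i y‖ ^ 2) (fun _ _ => by positivity)
      (mem_univ i)).trans (hw1 y)
    nlinarith only [this]⟩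
  let α : Fin m × Fin m → Y → ℂ := fun a y => (ind (E y) : ℂ) * (starRingEnd ℂ) (w a.1 y)
  have hαb : ∀ a, BM (α a) := fun a => (BM.ind hE).mul (hwb a.1).conj
  have hαi : ∀ a, Inv H (α a) := fun a h hH y => by
    simp only [α, w, hEi h hH y, fun i => hWi i h hH y]
  have hiE : Integrable (fun y => ind (E y)) μ := (BM.ind hE).int_re μ
  have hE0 : 0 ≤ ∫ y, ind (E y) ∂μ := integral_nonneg fun y => ind_nonneg _
  have h1 : ∫ y, ‖∑ a ∈ A, α a y * Z a y‖ ^ 2 ∂μ ≤ m * ∫ y, ind (E y) ∂μ := by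
    have := split μ hZ hαb hαi ∅ A (by simp) fun a ha b _ hne => hA a ha b hne
    simp only [union_empty, sum_empty, norm_zero, ne_eq, OfNat.ofNat_ne_zero, not_false_eq_true,
      zero_pow, integral_zero, add_zero] at this
    rw [this, ← integral_finsetSum _ fun a _ => (hαb a).int_sq μ, ← integral_const_mul]
    refine integral_mono (integrable_finsetSum _ fun a _ => (hαb a).int_sq μ) (hiE.const_mul _)
      fun y => ?_
    calc ∑ a ∈ A, ‖α a y‖ ^ 2 ≤ ∑ a, ‖α a y‖ ^ 2 :=
          sum_le_sum_of_subset_of_nonneg (subset_univ _) fun _ _ _ => by positivity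
      _ = m * (ind (E y) * ∑ i, ‖w i y‖ ^ 2) := by
          simp only [α, ind_sq, Fintype.sum_prod_type, RCLike.norm_conj, sum_const, card_univ,
            Fintype.card_fin, nsmul_eq_mul, mul_sum]
      _ ≤ m * ind (E y) := by
          gcongr
          exact mul_le_of_le_one_right (ind_nonneg _) (hw1 y)
  have h2 := rows μ hZ hE hEi A hA
  have bN := bm_NN (z := Z) hZ.bm
  have bG : BM fun y => (NN (fun a => if a ∈ A then 0 else Z a y) : ℂ) :=
    bm_NN (z := fun a y => if a ∈ A then 0 else Z a y) fun a => by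
      by_cases h : a ∈ A
      · simpa [h] using BM.const (Y := Y) 0
      · simpa [h] using hZ.bm a
  have iN : Integrable (fun y => ind (E y) * NN fun a => Z a y) μ :=
    BM.int_re μ (by simpa using (BM.ind hE).mul bN)
  have iG : Integrable (fun y => ind (E y) * NN fun a => if a ∈ A then 0 else Z a y) μ :=
    BM.int_re μ (by simpa using (BM.ind hE).mul bG)
  have iV : Integrable (fun y => ind (E y) * ((NN fun a => Z a y) - m ^ 2) ^ 2) μ :=
    BM.int_re μ (by
      have h3 := bN.add (BM.const (-(m : ℂ) ^ 2))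
      simpa [sq, sub_eq_add_neg] using (BM.ind hE).mul (h3.mul h3))
  have iA := (BM.sum A fun a => (hαb a).mul (hZ.bm a)).int_sq μ
  have hpt : ∀ y, ind (B y) ≤ (γ ^ 2 * m ^ 4)⁻¹ * (ind (E y) * ((NN fun a => Z a y) - m ^ 2) ^ 2) +
      (γ * m ^ 2)⁻¹ * (2 * ‖∑ a ∈ A, α a y * Z a y‖ ^ 2 +
        2 * (ind (E y) * NN fun a => if a ∈ A then 0 else Z a y)) := by
    intro y
    have n0 : 0 ≤ NN fun a => if a ∈ A then 0 else Z a y := by unfold NN; positivity
    by_cases hy : B y
    swap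
    · rw [ind_neg hy]; have := ind_nonneg (E y); positivity
    obtain ⟨hy1, hy2⟩ := hBE y hy
    have h3 := point hm hγ he (fun i => ∑ j, Z (i, j) y) (fun i => W i y) hy2
    have h4 := cs (fun i => w i y) (fun i => ∑ j, if (i, j) ∈ A then 0 else Z (i, j) y) (hw1 y)
    have h5 : ∑ i, (starRingEnd ℂ) (w i y) * ∑ j, Z (i, j) y = ∑ a ∈ A, α a y * Z a y +
        ∑ i, (starRingEnd ℂ) (w i y) * ∑ j, if (i, j) ∈ A then 0 else Z (i, j) y := by
      rw [← univ_inter A, ← sum_ite_mem, Fintype.sum_prod_type, ← sum_add_distrib, univ_inter]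
      refine sum_congr rfl fun i _ => ?_
      rw [mul_sum, mul_sum, ← sum_add_distrib]
      refine sum_congr rfl fun j _ => ?_
      by_cases h : (i, j) ∈ A <;> simp [h, α, ind_pos hy1]
    have h6 : ‖∑ i, (starRingEnd ℂ) (w i y) * ∑ j, Z (i, j) y‖ ^ 2 ≤
        2 * ‖∑ a ∈ A, α a y * Z a y‖ ^ 2 + 2 * NN fun a => if a ∈ A then 0 else Z a y := by
      rw [h5]
      refine (pow_le_pow_left₀ (norm_nonneg _) (norm_add_le _ _) 2).trans ?_
      have h7 : ‖∑ i, (starRingEnd ℂ) (w i y) * ∑ j, if (i, j) ∈ A then 0 else Z (i, j) y‖ ^ 2 ≤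
        NN fun a => if a ∈ A then 0 else Z a y := h4
      linarith only [sq_nonneg (‖∑ a ∈ A, α a y * Z a y‖ -
        ‖∑ i, (starRingEnd ℂ) (w i y) * ∑ j, if (i, j) ∈ A then 0 else Z (i, j) y‖), h7]
    rw [ind_pos hy, ind_pos hy1, one_mul, one_mul, ← div_eq_inv_mul, ← div_eq_inv_mul]
    exact h3.trans (add_le_add le_rfl (div_le_div_of_nonneg_right h6 (by positivity)))
  have e : ∀ y, ind (E y) * Phi m γ τ (NN fun a => Z a y) =
      (γ ^ 2 * m ^ 4)⁻¹ * (ind (E y) * ((NN fun a => Z a y) - m ^ 2) ^ 2) +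
      (γ * m ^ 2)⁻¹ * ((2 * m - 2 * m ^ 2 + 2 * τ) * ind (E y) +
        2 * (ind (E y) * NN fun a => Z a y)) := by
    intro y; unfold Phi; ring
  simp only [e]
  refine (integral_mono ((BM.ind hB).int_re μ) (iadd (iV.const_mul _)
    ((iadd (iA.const_mul 2) (iG.const_mul 2)).const_mul _)) hpt).trans ?_
  rw [int3 iV iA iG, int3 iV hiE iN]
  gcongr _ + _ * ?_
  linarith only [mul_le_mul_of_nonneg_right hτ hE0, h1, h2]

/-- The mean of the majorant over an event that sees none of the characters. -/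
theorem mean_phi (hm : 0 < m) {γ τ : ℝ} (hγ : 0 < γ) (hZ : Chars Z)
    {E : Y → Prop} (hE : MeasurableSet {y | E y}) (hEi : Inv H E)
    (h1 : ∀ a b, b ≠ a → ∃ h ∈ H, Z a h ≠ Z b h)
    (h2 : ∀ i j k i' j' k', j ≠ k → j' ≠ k' → (i', j', k') ≠ (i, j, k) → ∃ h ∈ H,
      Z (i, j) h * (starRingEnd ℂ) (Z (i, k) h) ≠ Z (i', j') h * (starRingEnd ℂ) (Z (i', k') h)) :
    ∫ y, ind (E y) * Phi m γ τ (NN fun a => Z a y) ∂μ ≤
      (1 / (γ ^ 2 * m) + (2 * m + 2 * τ) / (γ * m ^ 2)) * ∫ y, ind (E y) ∂μ := by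
  classical
  have hm' : (0 : ℝ) < m := by exact_mod_cast hm
  have hiE : Integrable (fun y => ind (E y)) μ := (BM.ind hE).int_re μ
  have hE0 : 0 ≤ ∫ y, ind (E y) ∂μ := integral_nonneg fun y => ind_nonneg _
  have bN := bm_NN (z := Z) hZ.bm
  have iN : Integrable (fun y => ind (E y) * NN fun a => Z a y) μ :=
    BM.int_re μ (by simpa using (BM.ind hE).mul bN)
  have iV : Integrable (fun y => ind (E y) * ((NN fun a => Z a y) - m ^ 2) ^ 2) μ :=
    BM.int_re μ (by
      have h3 := bN.add (BM.const (-(m : ℂ) ^ 2))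
      simpa [sq, sub_eq_add_neg] using (BM.ind hE).mul (h3.mul h3))
  have a1 : ∫ y, ind (E y) * NN (fun a => Z a y) ∂μ = m ^ 2 * ∫ y, ind (E y) ∂μ := by
    rw [rows μ hZ hE hEi univ fun a _ b hb => h1 a b hb]
    simp only [card_univ, Fintype.card_prod, Fintype.card_fin, Nat.cast_mul, NN, mem_univ, ↓ reduceIte, sum_const_zero, norm_zero, sq, mul_zero, integral_zero, add_zero]
  let c : Fin m × Fin m × Fin m → Y → ℂ :=
    fun a y => Z (a.1, a.2.1) y * (starRingEnd ℂ) (Z (a.1, a.2.2) y)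
  have hc : Chars c := ⟨fun a => ((hZ.bm _).mul (hZ.bm _).conj).1,
    fun a y h => by simp only [c, hZ.mul, map_mul]; ring, fun a y => by simp [c, hZ.norm]⟩
  let D : Finset (Fin m × Fin m × Fin m) := univ.filter fun a => a.2.1 ≠ a.2.2
  have a2 : ∀ y, (((NN fun a => Z a y) - m ^ 2 : ℝ) : ℂ) = ∑ a ∈ D, c a y := by
    intro y
    have e1 : ((NN fun a => Z a y : ℝ) : ℂ) = ∑ a, c a y := by
      simp only [NN, ← Complex.normSq_eq_norm_sq, Complex.ofReal_sum, ← Complex.mul_conj, map_sum,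
        Fintype.sum_prod_type, c, sum_mul_sum]
    have e2 : ∑ a ∈ univ.filter fun a : Fin m × Fin m × Fin m => ¬ a.2.1 ≠ a.2.2, c a y = m ^ 2 := by
      simp only [sum_filter, Fintype.sum_prod_type, ne_eq, not_not, sum_ite_eq, mem_univ, if_true, c,
        mul_conj_one (hZ.norm _ _)]
      simp only [sum_const, card_univ, Fintype.card_fin, nsmul_eq_mul, mul_one, sq]
    rw [Complex.ofReal_sub, e1, ← sum_filter_add_sum_filter_not univ (fun a => a.2.1 ≠ a.2.2), e2]
    simp only [ne_eq, Complex.ofReal_pow, Complex.ofReal_natCast, add_sub_cancel_right, D]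
  have a3 : ∫ y, ind (E y) * ((NN fun a => Z a y) - m ^ 2) ^ 2 ∂μ ≤ m ^ 3 * ∫ y, ind (E y) ∂μ := by
    have := split μ hc (α := fun _ y => (ind (E y) : ℂ)) (fun _ => BM.ind hE)
      (fun _ h hH y => by simp only [hEi h hH y]) ∅ D (by simp) fun a ha b hb hne =>
        h2 a.1 a.2.1 a.2.2 b.1 b.2.1 b.2.2 (mem_filter.1 ha).2
          (mem_filter.1 (by simpa using hb : b ∈ D)).2 hne
    have e3 : ∀ y, ‖(ind (E y) : ℂ)‖ ^ 2 = ind (E y) := fun y => by simpa using ind_sq (E y) 1
    simp only [e3] at this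
    simp only [union_empty, sum_empty, norm_zero, ne_eq, OfNat.ofNat_ne_zero, not_false_eq_true,
      zero_pow, integral_zero, add_zero, sum_const, nsmul_eq_mul] at this
    simp only [← mul_sum, ind_sq, ← a2, Complex.norm_real, Real.norm_eq_abs, sq_abs] at this
    rw [this]
    have : (D.card : ℝ) ≤ m ^ 3 := by
      have := card_le_univ D
      simp only [Fintype.card_prod, Fintype.card_fin] at this
      calc (D.card : ℝ) ≤ (m * (m * m) : ℕ) := by exact_mod_cast this
        _ = m ^ 3 := by push_cast; ring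
    gcongr
  have e : ∀ y, ind (E y) * Phi m γ τ (NN fun a => Z a y) =
      (γ ^ 2 * m ^ 4)⁻¹ * (ind (E y) * ((NN fun a => Z a y) - m ^ 2) ^ 2) +
      (γ * m ^ 2)⁻¹ * ((2 * m - 2 * m ^ 2 + 2 * τ) * ind (E y) +
        2 * (ind (E y) * NN fun a => Z a y)) := by
    intro y; unfold Phi; ring
  simp only [e]
  rw [int3 iV hiE iN, a1]
  have a4 : (γ ^ 2 * m ^ 4)⁻¹ * ∫ y, ind (E y) * ((NN fun a => Z a y) - m ^ 2) ^ 2 ∂μ ≤
      (γ ^ 2 * m ^ 4)⁻¹ * (m ^ 3 * ∫ y, ind (E y) ∂μ) := by gcongr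
  refine (add_le_add a4 le_rfl).trans (le_of_eq ?_)
  field_simp
  ring

end Pool.Agent.MP_d958de_lc.H19

end

-- part MP_d958de_lc.H19.Deg
section

/-! Polynomial functions on a finite group of prime exponent, and Weyl differencing. -/

namespace Pool.Agent.MP_d958de_lc.H19

open Finset

section
variable {G R : Type} [AddCommGroup G] [CommRing R]

/-- All differences of order `n + 1` vanish. -/
def Deg : ℕ → (G → R) → Prop
  | 0, f => ∀ x h, f (x + h) = f x
  | n + 1, f => ∀ h, Deg n (fun x => f (x + h) - f x)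

lemma Deg.const (n : ℕ) (c : R) : Deg n (fun _ : G => c) := by
  induction n generalizing c with
  | zero => intro x h; rfl
  | succ n ih => intro h; simpa using ih 0

lemma Deg.succ {n : ℕ} {f : G → R} (hf : Deg n f) : Deg (n + 1) f := by
  induction n generalizing f with
  | zero =>
    intro h
    have : (fun x => f (x + h) - f x) = fun _ => (0 : R) := by funext x; rw [hf x h, sub_self]
    rw [this]; exact Deg.const 0 0
  | succ n ih => intro h; exact ih (hf h)

lemma Deg.mono {a b : ℕ} {f : G → R} (hf : Deg a f) (h : a ≤ b) : Deg b f := by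
  induction h with
  | refl => exact hf
  | step _ ih => exact ih.succ

lemma Deg.add {n : ℕ} {f g : G → R} (hf : Deg n f) (hg : Deg n g) :
    Deg n (fun x => f x + g x) := by
  induction n generalizing f g with
  | zero => intro x h; simp only [hf x h, hg x h]
  | succ n ih =>
    intro h
    have := ih (hf h) (hg h)
    convert this using 2
    ring

lemma Deg.cmul {n : ℕ} {f : G → R} (c : R) (hf : Deg n f) : Deg n (fun x => c * f x) := by
  induction n generalizing f with
  | zero => intro x h; simp only [hf x h]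
  | succ n ih =>
    intro h
    have := ih (hf h)
    convert this using 2
    ring

lemma Deg.shift {n : ℕ} {f : G → R} (k : G) (hf : Deg n f) : Deg n (fun x => f (x + k)) := by
  induction n generalizing f with
  | zero => intro x h; simp only [hf _ k, hf x h]
  | succ n ih =>
    intro h
    have := ih (hf h)
    convert this using 3
    rw [add_right_comm]

lemma Deg.mul_aux (n : ℕ) : ∀ (a b : ℕ) (f g : G → R), a + b = n → Deg a f → Deg b g →
    Deg n (fun x => f x * g x) := by
  induction n with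
  | zero =>
    intro a b f g hab hf hg
    obtain rfl : a = 0 := by omega
    obtain rfl : b = 0 := by omega
    intro x h; simp only [hf x h, hg x h]
  | succ n ih =>
    intro a b f g hab hf hg
    rcases a with _ | a
    · have e : (fun x => f x * g x) = fun x => f 0 * g x := by
        funext x; rw [← hf 0 x, zero_add]
      rw [e]; exact (hg.mono (by omega)).cmul _
    rcases b with _ | b
    · have e : (fun x => f x * g x) = fun x => g 0 * f x := by
        funext x; rw [← hg 0 x, zero_add, mul_comm]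
      rw [e]; exact (hf.mono (by omega)).cmul _
    intro h
    have h1 := ih a (b + 1) _ _ (by omega) (hf h) (hg.shift h)
    have h2 := ih (a + 1) b _ _ (by omega) hf (hg h)
    convert h1.add h2 using 2
    ring

lemma Deg.mul {a b : ℕ} {f g : G → R} (hf : Deg a f) (hg : Deg b g) :
    Deg (a + b) (fun x => f x * g x) := Deg.mul_aux _ a b f g rfl hf hg

lemma Deg.hom (f : G → R) (hf : ∀ x h, f (x + h) = f x + f h) : Deg 1 f := by
  intro h
  have : (fun x => f (x + h) - f x) = fun _ => f h := by funext x; rw [hf]; ring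
  rw [this]; exact Deg.const 0 _

lemma Deg.sum {ι : Type} {n : ℕ} (s : Finset ι) (f : ι → G → R) (hf : ∀ i ∈ s, Deg n (f i)) :
    Deg n (fun x => ∑ i ∈ s, f i x) := by
  classical
  induction s using Finset.induction_on with
  | empty => simpa using Deg.const n (0 : R)
  | insert a s ha ih =>
    simp only [sum_insert ha]
    exact (hf a (mem_insert_self _ _)).add (ih fun i hi => hf i (mem_insert_of_mem hi))

/-- The shifts whose difference is constant. -/
def flat (f : G → R) : AddSubgroup G where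
  carrier := {h | Deg 0 (fun x => f (x + h) - f x)}
  zero_mem' := by intro x h; simp
  add_mem' := by
    intro a b ha hb x h
    have h1 := ha (x + b) h
    have h2 := hb x h
    simp only at h1 h2 ⊢
    have e1 : x + h + (a + b) = x + b + h + a := by abel
    have e2 : x + (a + b) = x + b + a := by abel
    have e3 : x + h + b = x + b + h := by abel
    rw [e1, e2]; rw [e3] at h2
    linear_combination h1 + h2
  neg_mem' := by
    intro a ha x h
    have h1 := ha (x + -a) h
    simp only at h1 ⊢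
    have e1 : x + -a + h + a = x + h := by abel
    have e2 : x + -a + a = x := by abel
    have e3 : x + -a + h = x + h + -a := by abel
    rw [e1, e2, e3] at h1
    linear_combination -h1

end

lemma card_small {G : Type} [AddCommGroup G] [Fintype G] {p : ℕ} (hp : p.Prime)
    (hG : ∀ g : G, p • g = 0) (H : AddSubgroup G) (g : G) (hg : g ∉ H) :
    p * Nat.card H ≤ Fintype.card G := by
  have := Fact.mk hp
  have h1 : addOrderOf (g : G ⧸ H) = p := by
    apply addOrderOf_eq_prime
    · rw [← QuotientAddGroup.mk_nsmul, hG]; rfl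
    · intro h; exact hg ((QuotientAddGroup.eq_zero_iff g).1 h)
  have h2 : p ∣ Nat.card (G ⧸ H) := h1 ▸ addOrderOf_dvd_natCard _
  have h3 : p ≤ Nat.card (G ⧸ H) := Nat.le_of_dvd Nat.card_pos h2
  rw [← Nat.card_eq_fintype_card, AddSubgroup.card_eq_card_quotient_mul_card_addSubgroup H]
  exact Nat.mul_le_mul_right _ h3

/-- Weyl differencing: a nonconstant function of bounded degree is equidistributed. -/
theorem weyl (D : ℕ) : ∀ ε : ℝ, 0 < ε → ∃ N : ℕ, ∀ (p : ℕ), p.Prime → N ≤ p →
    ∀ (G R : Type) [AddCommGroup G] [Fintype G] [CommRing R] (ψ : R → ℂ),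
      (∀ g : G, p • g = 0) → (∀ a b, ψ (a + b) = ψ a * ψ b) → (∀ a, ‖ψ a‖ = 1) →
      (∀ a, ψ a = 1 → a = 0) → ∀ f : G → R, Deg D f → ¬ Deg 0 f →
      ‖∑ x, ψ (f x)‖ ≤ ε * Fintype.card G := by
  induction D with
  | zero => intro ε _; exact ⟨0, fun p _ _ G R _ _ _ ψ _ _ _ _ f h h' => absurd h h'⟩
  | succ D ih =>
    intro ε hε
    obtain ⟨N, hN⟩ := ih (ε ^ 2 / 2) (by positivity)
    obtain ⟨N', hN'⟩ := exists_nat_ge (2 / ε ^ 2)
    refine ⟨max N N', fun p hp hle G R _ _ _ ψ hG hadd hnorm hinj f hf hf0 => ?_⟩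
    classical
    by_cases hall : ∀ h, h ∈ flat f
    · have : ∃ x h, f (x + h) ≠ f x := by
        by_contra hc; push Not at hc; exact hf0 hc
      obtain ⟨x0, h0, hne⟩ := this
      have hc : ∀ x, f (x + h0) = (f (x0 + h0) - f x0) + f x := by
        intro x
        have := hall h0 x0 (x - x0)
        simp only [add_sub_cancel] at this
        linear_combination this
      have hS : ∑ x, ψ (f x) = ψ (f (x0 + h0) - f x0) * ∑ x, ψ (f x) := by
        rw [mul_sum]
        conv_lhs => rw [← Equiv.sum_comp (Equiv.addRight h0)]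
        refine sum_congr rfl fun x _ => ?_
        rw [← hadd, ← hc]; rfl
      have h1 : ψ (f (x0 + h0) - f x0) ≠ 1 := fun h => hne (sub_eq_zero.1 (hinj _ h))
      have : ∑ x, ψ (f x) = 0 := by
        have h2 : (1 - ψ (f (x0 + h0) - f x0)) * ∑ x, ψ (f x) = 0 := by linear_combination hS
        rcases mul_eq_zero.1 h2 with h | h
        · exact absurd (sub_eq_zero.1 h).symm h1
        · exact h
      rw [this, norm_zero]; positivity
    push Not at hall
    obtain ⟨g, hg⟩ := hall
    have hcard := card_small hp hG (flat f) g hg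
    have hconj : ∀ a b, ψ a * (starRingEnd ℂ) (ψ b) = ψ (a - b) := by
      intro a b
      have h1 : ψ a = ψ (a - b) * ψ b := by rw [← hadd, sub_add_cancel]
      rw [h1, mul_assoc, Complex.mul_conj, Complex.normSq_eq_norm_sq, hnorm]; simp
    have hsq : ((‖∑ x, ψ (f x)‖ ^ 2 : ℝ) : ℂ) = ∑ h, ∑ x, ψ (f (x + h) - f x) := by
      rw [← Complex.normSq_eq_norm_sq, ← Complex.mul_conj, map_sum, mul_sum, sum_comm]
      refine sum_congr rfl fun x _ => ?_
      rw [sum_mul, ← Equiv.sum_comp (Equiv.addLeft x)]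
      exact sum_congr rfl fun h _ => hconj _ _
    set n : ℝ := (Fintype.card G : ℝ) with hn
    have hn0 : 0 ≤ n := by positivity
    have hb : ∀ h, ‖∑ x, ψ (f (x + h) - f x)‖ ≤
        (if h ∈ flat f then n else 0) + ε ^ 2 / 2 * n := by
      intro h
      split_ifs with hh
      · calc _ ≤ ∑ x, ‖ψ (f (x + h) - f x)‖ := norm_sum_le _ _
          _ = n := by simp only [hnorm, sum_const, card_univ, nsmul_eq_mul, mul_one, hn]
          _ ≤ _ := le_add_of_nonneg_right (by positivity)
      · rw [zero_add]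
        exact hN p hp (le_trans (le_max_left _ _) hle) G R ψ hG hadd hnorm hinj _ (hf h) hh
    have hH : (∑ h : G, if h ∈ flat f then n else 0) = Nat.card (flat f) * n := by
      rw [← sum_filter, sum_const, nsmul_eq_mul, Nat.card_eq_fintype_card, Fintype.card_subtype]
    have hp2 : 2 / ε ^ 2 ≤ (p : ℝ) :=
      hN'.trans (by exact_mod_cast le_trans (le_max_right _ _) hle)
    have hH2 : (Nat.card (flat f) : ℝ) ≤ ε ^ 2 / 2 * n := by
      have h1 : (p : ℝ) * Nat.card (flat f) ≤ n := by rw [hn]; exact_mod_cast hcard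
      have h2 : 2 ≤ (p : ℝ) * ε ^ 2 := by rwa [div_le_iff₀ (by positivity)] at hp2
      have h3 : (0 : ℝ) ≤ Nat.card (flat f) := by positivity
      nlinarith only [h1, h2]
    have hfin : ‖∑ x, ψ (f x)‖ ^ 2 ≤ (ε * n) ^ 2 := by
      calc ‖∑ x, ψ (f x)‖ ^ 2 = ‖((‖∑ x, ψ (f x)‖ ^ 2 : ℝ) : ℂ)‖ := by
            rw [Complex.norm_real, Real.norm_of_nonneg (by positivity)]
        _ ≤ ∑ h, ‖∑ x, ψ (f (x + h) - f x)‖ := by rw [hsq]; exact norm_sum_le _ _
        _ ≤ ∑ h : G, ((if h ∈ flat f then n else 0) + ε ^ 2 / 2 * n) := sum_le_sum fun h _ => hb h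
        _ = Nat.card (flat f) * n + n * (ε ^ 2 / 2 * n) := by
            rw [sum_add_distrib, hH, sum_const, nsmul_eq_mul, card_univ]
        _ ≤ (ε * n) ^ 2 := by nlinarith
    exact le_of_sq_le_sq hfin (by positivity) |>.trans le_rfl

end Pool.Agent.MP_d958de_lc.H19

end

-- part MP_d958de_lc.H19.Sym
section

/-! Symbolic values, the torus model of finitely many exponent sequences, and linear algebra. -/

namespace Pool.Agent.MP_d958de_lc.H19

open Filter MeasureTheory Topology

/-- `e^{-2πix}`. -/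
noncomputable def em (x : ℝ) : ℂ := Complex.exp (-(2 * Real.pi * Complex.I * x))

section
variable {P ι : Type}

/-- Families of functions of the variables in `S` built by field operations. -/
inductive Rat (S : Set ι) : (P → (ι → ℝ) → ℂ) → Prop
  | const (a : P → ℂ) : Rat S fun p _ => a p
  | coord (s : ι) (hs : s ∈ S) : Rat S fun _ u => (u s : ℂ)
  | exp (s : ι) (hs : s ∈ S) : Rat S fun _ u => em (u s)
  | add {F G : P → (ι → ℝ) → ℂ} : Rat S F → Rat S G → Rat S fun p u => F p u + G p u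
  | mul {F G : P → (ι → ℝ) → ℂ} : Rat S F → Rat S G → Rat S fun p u => F p u * G p u
  | inv {F : P → (ι → ℝ) → ℂ} : Rat S F → Rat S fun p u => (F p u)⁻¹
  | conj {F : P → (ι → ℝ) → ℂ} : Rat S F → Rat S fun p u => (starRingEnd ℂ) (F p u)

/-- Boolean combinations of sign conditions. -/
inductive Cond (S : Set ι) : (P → (ι → ℝ) → Prop) → Prop
  | le {F : P → (ι → ℝ) → ℂ} : Rat S F → Cond S fun p u => (F p u).re ≤ 0
  | not {E : P → (ι → ℝ) → Prop} : Cond S E → Cond S fun p u => ¬ E p u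
  | and {E E' : P → (ι → ℝ) → Prop} : Cond S E → Cond S E' → Cond S fun p u => E p u ∧ E' p u

variable {S S' : Set ι} {F F' : P → (ι → ℝ) → ℂ} {E E' : P → (ι → ℝ) → Prop}

lemma Rat.mono (h : Rat S F) (hS : S ⊆ S') : Rat S' F := by
  induction h with
  | const a => exact .const a
  | coord s hs => exact .coord s (hS hs)
  | exp s hs => exact .exp s (hS hs)
  | add _ _ a b => exact a.add b
  | mul _ _ a b => exact a.mul b
  | inv _ a => exact a.inv
  | conj _ a => exact a.conj

lemma Cond.mono (h : Cond S E) (hS : S ⊆ S') : Cond S' E := by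
  induction h with
  | le a => exact .le (a.mono hS)
  | not _ a => exact a.not
  | and _ _ a b => exact a.and b

lemma Rat.meas (h : Rat S F) (p : P) : Measurable (F p) := by
  induction h with
  | const a => exact measurable_const
  | coord s hs => fun_prop
  | exp s hs => unfold em; fun_prop
  | add _ _ a b => exact a.add b
  | mul _ _ a b => exact a.mul b
  | inv _ a => exact a.inv
  | conj _ a => exact Complex.continuous_conj.measurable.comp a

lemma Cond.meas (h : Cond S E) (p : P) : MeasurableSet {u | E p u} := by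
  induction h with
  | le a => exact measurableSet_le (Complex.measurable_re.comp (a.meas p)) measurable_const
  | not _ a => exact a.compl
  | and _ _ a b => exact a.inter b

lemma Rat.congr (h : Rat S F) (p : P) {u u' : ι → ℝ} (hu : ∀ s ∈ S, u s = u' s) :
    F p u = F p u' := by
  induction h with
  | const a => rfl
  | coord s hs => simp only [hu s hs]
  | exp s hs => simp only [hu s hs]
  | add _ _ a b => simp only [a, b]
  | mul _ _ a b => simp only [a, b]
  | inv _ a => simp only [a]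
  | conj _ a => simp only [a]

lemma Cond.congr (h : Cond S E) (p : P) {u u' : ι → ℝ} (hu : ∀ s ∈ S, u s = u' s) :
    E p u = E p u' := by
  induction h with
  | le a => simp only [a.congr p hu]
  | not _ a => simp only [a]
  | and _ _ a b => simp only [a, b]

lemma Rat.sub (h : Rat S F) (h' : Rat S F') : Rat S fun p u => F p u - F' p u := by
  have := h.add ((Rat.const fun _ => -1).mul h')
  simpa [sub_eq_add_neg] using this

lemma Rat.sum {κ : Type} (s : Finset κ) {f : κ → P → (ι → ℝ) → ℂ} (h : ∀ i, Rat S (f i)) :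
    Rat S fun p u => ∑ i ∈ s, f i p u := by
  classical
  induction s using Finset.induction_on with
  | empty => simpa using Rat.const (S := S) fun _ : P => 0
  | insert a s ha ih => simp only [Finset.sum_insert ha]; exact (h a).add ih

lemma Rat.sq (h : Rat S F) : Rat S fun p u => ((‖F p u‖ ^ 2 : ℝ) : ℂ) := by
  have := h.mul h.conj
  simpa only [Complex.mul_conj, Complex.normSq_eq_norm_sq] using this

lemma Cond.le' (h : Rat S F) (h' : Rat S F') : Cond S fun p u => (F p u).re ≤ (F' p u).re := by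
  simpa only [Complex.sub_re, tsub_le_iff_right, zero_add] using Cond.le (h.sub h')

lemma Cond.or (h : Cond S E) (h' : Cond S E') : Cond S fun p u => E p u ∨ E' p u := by
  simpa only [not_and_or, not_not] using (h.not.and h'.not).not

lemma Cond.tru : Cond S fun (_ : P) _ => True := by
  simpa using Cond.le (Rat.const (S := S) fun _ : P => 0)

lemma Cond.iff (h : Cond S E) (b : Prop) : Cond S fun p u => E p u ↔ b := by
  by_cases hb : b
  · simpa [hb] using h
  · simpa [hb] using h.not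

lemma Cond.all {κ : Type} [Fintype κ] {e : κ → P → (ι → ℝ) → Prop} (h : ∀ i, Cond S (e i)) :
    Cond S fun p u => ∀ i, e i p u := by
  classical
  have : ∀ s : Finset κ, Cond S fun p u => ∀ i ∈ s, e i p u := by
    intro s
    induction s using Finset.induction_on with
    | empty => simpa using Cond.tru
    | insert a s ha ih => simpa only [Finset.mem_insert, forall_eq_or_imp] using (h a).and ih
  simpa only [Finset.mem_univ, forall_const] using this Finset.univ

variable {K : Type} [Fintype K] (U : Ultrafilter P)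

/-- The linear form with integer coefficients `q`. -/
noncomputable def lin (q : K → ℤ) : (K → ℝ) →L[ℝ] ℝ :=
  ∑ k, (q k : ℝ) • ContinuousLinearMap.proj k

lemma lin_apply (q : K → ℤ) (t : K → ℝ) : lin q t = ∑ k, q k * t k := by simp only [lin, sum_apply, smul_apply, ContinuousLinearMap.proj_apply, smul_eq_mul]

lemma em_fract (x : ℝ) : em (Int.fract x) = em x := by
  rw [em, em, Int.fract]
  push_cast
  rw [show -(2 * Real.pi * Complex.I * (x - ⌊x⌋)) =
    -(2 * Real.pi * Complex.I * x) + ⌊x⌋ * (2 * Real.pi * Complex.I) by ring, Complex.exp_add,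
    Complex.exp_int_mul_two_pi_mul_I, mul_one]

lemma Rat.quo (h : Rat S F) (q : ι → K → ℤ) (θ : ι → P → ℝ) (h0 : ∀ s p, 0 ≤ θ s p)
    (h1 : ∀ s p, θ s p ≤ 1) : Quo (volume : Measure (K → ℝ)) U
      fun p t => F p fun s => Int.fract (lin (q s) t + θ s p) := by
  induction h with
  | const a => exact (Fam.const a).quo _ _
  | coord s hs => exact Quo.fract _ U _ _ (h0 s) (h1 s)
  | exp s hs =>
    have e : ∀ p t, em (Int.fract (lin (q s) t + θ s p)) = em (lin (q s) t) * em (θ s p) := by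
      intro p t
      rw [em_fract, em, em, em, ← Complex.exp_add]; congr 1; push_cast; ring
    simp only [e]
    refine ((Fam.single _ fun t _ => ?_).mul (Fam.const _)).quo _ _
    have h2 : AnalyticAt ℝ (fun t => ((lin (q s) t : ℝ) : ℂ)) t :=
      (Complex.ofRealCLM.comp (lin (q s))).analyticAt t
    exact (analyticAt_cexp.restrictScalars (𝕜 := ℝ)).fun_comp (analyticAt_const.mul h2).neg
  | add _ _ a b => exact a.add _ _ b
  | mul _ _ a b => exact a.mul _ _ b
  | inv _ a => exact a.inv _ _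
  | conj _ a => exact a.conj _ _

/-- The representative in `[0, 1)`. -/
noncomputable def rep (θ : UnitAddCircle) : ℝ := AddCircle.equivIco 1 0 θ

lemma rep_coe (x : ℝ) : rep (x : UnitAddCircle) = Int.fract x := by
  simpa [rep] using AddCircle.coe_equivIco_mk_apply (p := (1 : ℝ)) x

lemma coe_rep (θ : UnitAddCircle) : (rep θ : UnitAddCircle) = θ := AddCircle.coe_equivIco

lemma rep_mem (θ : UnitAddCircle) : 0 ≤ rep θ ∧ rep θ ≤ 1 := by
  have := (AddCircle.equivIco 1 0 θ).2
  exact ⟨this.1, by simpa only [rep, zero_add] using this.2.le⟩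

lemma measurable_rep : Measurable rep :=
  measurable_subtype_coe.comp (AddCircle.measurableEquivIco 1 0).measurable

lemma em_rep (θ : UnitAddCircle) : em (rep θ) = ec (-θ) := by
  conv_rhs => rw [← coe_rep θ, ← AddCircle.coe_neg, ec_coe]
  rw [em]; congr 1; push_cast; ring

/-- The values of all variables at a point of the torus. -/
noncomputable def iota (q : ι → K → ℤ) (c : ι → UnitAddCircle) (y : K → UnitAddCircle) : ι → ℝ :=
  fun s => rep (pair (q s) y + c s)

lemma measurable_iota (q : ι → K → ℤ) (c : ι → UnitAddCircle) : Measurable (iota q c) :=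
  measurable_pi_lambda _ fun s =>
    measurable_rep.comp ((continuous_pair (q s)).add continuous_const).measurable

lemma Cond.tame (h : Cond S E) (q : ι → K → ℤ) (c : P → ι → UnitAddCircle) :
    Tame U volume fun p y => E p (iota q (c p) y) := by
  refine Tame.descend U ?_
  have e : ∀ p (t : K → ℝ), (iota q (c p) fun k => (t k : UnitAddCircle)) =
      fun s => Int.fract (lin (q s) t + rep (c p s)) := by
    intro p t; funext s
    rw [iota, pair_coe, ← rep_coe, lin_apply, AddCircle.coe_add, coe_rep]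
  simp only [e]
  induction h with
  | le a => exact (a.quo U q _ (fun s p => (rep_mem _).1) fun s p => (rep_mem _).2).tame _ U
  | not _ a => exact a.not
  | and _ _ a b => exact a.and U b

end

section
variable {P : Type} (U : Ultrafilter P) (n : P → ℕ) [∀ p, Fact (n p).Prime]
  {G : P → Type} [∀ p, AddCommGroup (G p)]

/-- Bounded degree along the ultrafilter. -/
def Poly (s : ∀ p, G p → ZMod (n p)) : Prop := ∃ D, ∀ᶠ p in U, Deg D (s p)

variable {U n}

lemma Poly.add {s t : ∀ p, G p → ZMod (n p)} (hs : Poly U n s) (ht : Poly U n t) :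
    Poly U n fun p x => s p x + t p x := by
  obtain ⟨a, ha⟩ := hs
  obtain ⟨b, hb⟩ := ht
  refine ⟨a + b, ?_⟩
  filter_upwards [ha, hb] with p h1 h2
  exact (h1.mono (by omega)).add (h2.mono (by omega))

lemma Poly.mul {s t : ∀ p, G p → ZMod (n p)} (hs : Poly U n s) (ht : Poly U n t) :
    Poly U n fun p x => s p x * t p x := by
  obtain ⟨a, ha⟩ := hs
  obtain ⟨b, hb⟩ := ht
  refine ⟨a + b, ?_⟩
  filter_upwards [ha, hb] with p h1 h2
  exact h1.mul h2

lemma Poly.const (c : ∀ p, ZMod (n p)) : Poly U n fun p (_ : G p) => c p :=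
  ⟨0, Eventually.of_forall fun _ => Deg.const _ _⟩

lemma Poly.congr {s t : ∀ p, G p → ZMod (n p)} (hs : Poly U n s) (h : ∀ᶠ p in U, t p = s p) :
    Poly U n t := by
  obtain ⟨a, ha⟩ := hs
  exact ⟨a, by filter_upwards [ha, h] with p h1 h2; rwa [h2]⟩

lemma int_zero (hn : Tendsto n U atTop) {a : ℤ} (h : ∀ᶠ p in U, (a : ZMod (n p)) = 0) : a = 0 := by
  obtain ⟨p, h1, h2⟩ := (h.and (hn.eventually (eventually_gt_atTop a.natAbs))).exists
  exact Int.eq_zero_of_dvd_of_natAbs_lt_natAbs ((ZMod.intCast_zmod_eq_zero_iff_dvd a _).1 h1)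
    (by simpa using h2)

/-- A basis of finitely many sequences modulo the eventually constant ones. -/
theorem exists_basis (hn : Tendsto n U atTop) (S : Finset (∀ p, G p → ZMod (n p)))
    (hS : ∀ s ∈ S, Poly U n s) : ∃ (k : ℕ) (B : Fin k → ∀ p, G p → ZMod (n p))
      (q : (∀ p, G p → ZMod (n p)) → Fin k → ℤ),
      (∀ r : Fin k → ℤ, r ≠ 0 → (Poly U n fun p x => ∑ j, (r j : ZMod (n p)) * B j p x) ∧
        ∀ᶠ p in U, ¬ Deg 0 fun x => ∑ j, (r j : ZMod (n p)) * B j p x) ∧
      ∀ s ∈ S, ∀ᶠ p in U, ∀ x, s p x = ∑ j, (q s j : ZMod (n p)) * B j p x + s p 0 := by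
  classical
  let M : Submodule ℤ (∀ p, G p → ZMod (n p)) := Submodule.span ℤ (S : Set _)
  have hM : ∀ s ∈ M, Poly U n s := by
    intro s hs
    induction hs using Submodule.span_induction with
    | mem x hx => exact hS x hx
    | zero => exact Poly.const fun _ => 0
    | add x y _ _ hx hy => exact hx.add hy
    | smul a x _ hx =>
      refine ((Poly.const fun p => (a : ZMod (n p))).mul hx).congr (Eventually.of_forall fun p => ?_)
      funext y; simp
  let N : Submodule ℤ M :=
    { carrier := {s | ∀ᶠ p in U, Deg 0 (s.1 p)}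
      zero_mem' := Eventually.of_forall fun p => Deg.const 0 0
      add_mem' := fun {a b} ha hb => by
        filter_upwards [ha, hb] with p h1 h2
        exact h1.add h2
      smul_mem' := fun a s hs => by
        filter_upwards [hs] with p h1 x h
        simp [h1 x h] }
  have : Module.Finite ℤ M := Module.Finite.span_of_finite ℤ S.finite_toSet
  have : Module.IsTorsionFree ℤ (M ⧸ N) := by
    refine Module.IsTorsionFree.of_smul_eq_zero fun r x hx => ?_
    by_cases hr : r = 0
    · exact Or.inl hr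
    right
    obtain ⟨s, rfl⟩ := Submodule.Quotient.mk_surjective N x
    rw [← Submodule.Quotient.mk_smul, Submodule.Quotient.mk_eq_zero] at hx
    rw [Submodule.Quotient.mk_eq_zero]
    have h2 : ∀ᶠ p in U, (r : ZMod (n p)) ≠ 0 :=
      Ultrafilter.eventually_not.2 fun h => hr (int_zero hn h)
    have hx' : ∀ᶠ p in U, Deg 0 ((r • s).1 p) := hx
    show ∀ᶠ p in U, Deg 0 (s.1 p)
    filter_upwards [hx', h2] with p h1 h2 x h
    have h3 := h1 x h
    simp only [SetLike.val_smul, Pi.smul_apply, zsmul_eq_mul] at h3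
    exact mul_left_cancel₀ h2 h3
  let b := Module.finBasis ℤ (M ⧸ N)
  choose l hl using fun j => Submodule.Quotient.mk_surjective N (b j)
  have hsum : ∀ r : Fin (Module.finrank ℤ (M ⧸ N)) → ℤ,
      (Submodule.Quotient.mk (∑ j, r j • l j) : M ⧸ N) = ∑ j, r j • b j := by
    intro r
    rw [← Submodule.mkQ_apply, map_sum]
    exact Finset.sum_congr rfl fun j _ => by rw [map_smul, Submodule.mkQ_apply, hl]
  have hval : ∀ (r : Fin (Module.finrank ℤ (M ⧸ N)) → ℤ) p x,
      (∑ j, r j • l j : M).1 p x = ∑ j, (r j : ZMod (n p)) * (l j).1 p x := by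
    intro r p x; simp only [AddSubmonoidClass.coe_finsetSum, SetLike.val_smul, zsmul_eq_mul, Finset.sum_apply, Pi.mul_apply, Pi.intCast_apply]
  refine ⟨_, fun j p x => (l j).1 p x - (l j).1 p 0,
    fun s => if h : s ∈ S then b.repr (Submodule.Quotient.mk ⟨s, Submodule.subset_span h⟩) else 0,
    fun r hr => ⟨?_, ?_⟩, fun s hs => ?_⟩
  · refine ((hM _ (∑ j, r j • l j).2).add
      (Poly.const fun p => -(∑ j, r j • l j : M).1 p 0)).congr (Eventually.of_forall fun p => ?_)
    funext x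
    simp only [hval, mul_sub, Finset.sum_sub_distrib]; ring
  · refine Ultrafilter.eventually_not.2 fun h => hr ?_
    have h1 : (∑ j, r j • l j) ∈ N := by
      show ∀ᶠ p in U, Deg 0 ((∑ j, r j • l j : M).1 p)
      filter_upwards [h] with p hp x y
      have := hp x y
      simp only [mul_sub, Finset.sum_sub_distrib] at this
      rw [hval, hval]; linear_combination this
    rw [← Submodule.Quotient.mk_eq_zero, hsum] at h1
    funext j
    exact Fintype.linearIndependent_iff.1 b.linearIndependent r h1 j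
  · simp only [dif_pos hs]
    set r := b.repr (Submodule.Quotient.mk ⟨s, Submodule.subset_span hs⟩) with hr
    have h1 : (⟨s, Submodule.subset_span hs⟩ - ∑ j, r j • l j : M) ∈ N := by
      rw [← Submodule.Quotient.eq, hsum, hr, b.sum_repr]
    have h2 : ∀ᶠ p in U, Deg 0 ((⟨s, Submodule.subset_span hs⟩ - ∑ j, r j • l j : M).1 p) := h1
    filter_upwards [h2] with p hp x
    have := hp 0 x
    simp only [zero_add, AddSubgroupClass.coe_sub, Pi.sub_apply, hval] at this
    simp only [mul_sub, Finset.sum_sub_distrib]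
    linear_combination this

end

/-- All but `2 T` unit vectors are not congruent to another one modulo a space of dimension `T`. -/
lemma singles {I : Type} [Fintype I] [DecidableEq I] (V : Submodule ℚ (I → ℚ)) :
    ∃ A : Finset I, Fintype.card I ≤ A.card + 2 * Module.finrank ℚ V ∧
      ∀ a ∈ A, ∀ b, b ≠ a → Pi.single a 1 - Pi.single b 1 ∉ V := by
  classical
  let r : Setoid I := ⟨fun a b => Pi.single a 1 - Pi.single b 1 ∈ V,
    ⟨fun a => by simp, fun h => by simpa using V.neg_mem h, fun h h' => by simpa using V.add_mem h h'⟩⟩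
  let ρ : I → I := fun a => (Quotient.mk r a).out
  have h1 : ∀ a, r (ρ a) a := fun a => Quotient.mk_out (s := r) a
  have h2 : ∀ a b, r a b → ρ a = ρ b := fun a b h => by simp only [ρ, Quotient.sound h]
  let A1 : Finset I := Finset.univ.filter fun a => ρ a ≠ a
  have h3 : A1.card ≤ Module.finrank ℚ V := by
    let v : A1 → V := fun a => ⟨Pi.single (ρ a) 1 - Pi.single a.1 1, h1 a⟩
    have hv : LinearIndependent ℚ v := by
      refine Fintype.linearIndependent_iff.2 fun g hg a => ?_
      have h4 := congrFun (congrArg Subtype.val hg) a.1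
      simp only [v, AddSubmonoidClass.coe_finsetSum, SetLike.mk_smul_mk, Finset.sum_apply,
        Pi.smul_apply, Pi.sub_apply, smul_eq_mul, ZeroMemClass.coe_zero, Pi.zero_apply] at h4
      have h5 : ∀ x : A1, ρ x ≠ a.1 := fun x hx =>
        (Finset.mem_filter.1 a.2).2 (by rw [← hx]; exact h2 _ _ (h1 _))
      rw [Finset.sum_eq_single a (fun b _ hb => by
        rw [Pi.single_eq_of_ne (h5 b).symm, Pi.single_eq_of_ne fun h => hb (Subtype.ext h).symm]
        simp) (by simp only [Finset.univ_eq_attach, Finset.mem_attach, not_true_eq_false, Pi.single_eq_same, mul_eq_zero, IsEmpty.forall_iff]), Pi.single_eq_of_ne (h5 a).symm] at h4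
      simpa using h4
    simpa only [ge_iff_le, Fintype.card_coe] using hv.fintype_card_le_finrank
  refine ⟨(A1 ∪ A1.image ρ)ᶜ, ?_, fun a ha b hb hab => ?_⟩
  · have h4 := Finset.card_union_le A1 (A1.image ρ)
    have h5 := Finset.card_image_le (s := A1) (f := ρ)
    have h6 := Finset.card_add_card_compl (A1 ∪ A1.image ρ)
    omega
  · simp only [Finset.mem_compl, Finset.mem_union, not_or, Finset.mem_image, not_exists,
      not_and] at ha
    have h4 : ρ a = a := by
      by_contra h; exact ha.1 (Finset.mem_filter.2 ⟨Finset.mem_univ _, h⟩)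
    have h5 : ρ b = a := by rw [← h2 a b hab, h4]
    exact ha.2 b (Finset.mem_filter.2 ⟨Finset.mem_univ _, by rw [h5]; exact hb.symm⟩) h5

/-- A shift of the torus that fixes the known characters and realises a rational functional. -/
lemma exists_shift {K I : Type} [Fintype K] (lam : (K → ℚ) →ₗ[ℚ] (I → ℚ))
    (V : Submodule ℚ (I → ℚ)) (v : I → ℚ) (hv : v ∉ V) :
    ∃ (h : K → UnitAddCircle) (φ : (I → ℚ) →ₗ[ℚ] ℚ), φ v = 1 / 2 ∧ (∀ w ∈ V, φ w = 0) ∧
      ∀ q : K → ℤ, pair q h = (((φ (lam fun k => q k) : ℚ) : ℝ) : UnitAddCircle) := by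
  classical
  obtain ⟨f, hf, hf'⟩ := V.exists_dual_map_eq_bot_of_notMem hv inferInstance
  refine ⟨fun k => ((((1 / 2 / f v) * f (lam (Pi.single k 1)) : ℚ) : ℝ) : UnitAddCircle),
    (1 / 2 / f v) • f, by simp [hf], fun w hw => ?_, fun q => ?_⟩
  · have : f w = 0 := (Submodule.mem_bot ℚ).1 (hf' ▸ Submodule.mem_map_of_mem hw)
    simp [this]
  · rw [pair_coe]
    congr 1
    have e : (fun k => (q k : ℚ)) = ∑ k, (q k : ℚ) • (Pi.single k 1 : K → ℚ) := by
      funext j; simp only [Finset.sum_apply, Pi.smul_apply, Pi.single_apply, smul_eq_mul, mul_ite, mul_one, mul_zero, Finset.sum_ite_eq, Finset.mem_univ, ↓ reduceIte]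
    rw [e, map_sum, map_sum]
    simp only [map_smul, LinearMap.smul_apply, smul_eq_mul]
    push_cast; rfl

end Pool.Agent.MP_d958de_lc.H19

end
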