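import Pool.Agent.MP_0cee90_lc.H63F.Tools

attribute [-instance] IdemSemiring.toCanonicallyOrderedAdd AddQuantale.instAddLeftMono
  IdemSemiring.toMulLeftMono NumberField.to_charZero IsOrderedMonoid.toMulLeftMono
  ContinuousMonoidHom.instCoeOutOfMonoidHomClassOfContinuousMapClass Fintype.decidableForallFintype
  ContinuousAddMonoidHom.instCoeOutOfAddMonoidHomClassOfContinuousMapClass
  AddQuantale.instAddRightMono Quantale.instMulLeftMono RCLike.toInnerProductSpaceReal
  Quantale.instMulRightMono MonTypeEquivalenceMon.monMonoid littleWedderburn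
  NonUnitalNonAssocSemiring.toDistrib GrpTypeEquivalenceGrp.grpGroup CommRing.toRing
  CanonicallyOrderedAdd.toMulLeftMono AddCommGroup.toAddGroup RCLike.innerProductSpace NeZero.of_gt'
  instCoeTOfCoeDep CommSemiring.toSemiring NonUnitalNonAssocSemiring.toMulZeroClass

-- part MP_d958de_lc.H67.Alg
section

/-! Taylor features of `exp (i ∑ s_j a_j)`, binary digits, approximation of `π`. -/

namespace Pool.Agent.MP_d958de_lc.H67

open Pool.Agent.MP_0cee90_lc.H63F Complex

noncomputable section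

/-- the list `(E-1, t (E-1)), …, (0, t 0)` -/
def rg {M : Type} (E : ℕ) (t : ℕ → M) : List (ℕ × M) := (List.range E).reverse.map fun j => (j, t j)

def gen (E : ℕ) (f : ℝ → ℂ → ℂ) : List (ℕ × ℂ) :=
  ((fun p : (ℕ × ℝ) × ℂ × List (ℕ × ℂ) =>
    ((p.1.1 + 1, p.1.2 + 1), f (p.1.2 + 1) p.2.1, (p.1.1, p.2.1) :: p.2.2))^[E] ((0, 0), 1, [])).2.2

theorem gen_eq (E : ℕ) {f : ℝ → ℂ → ℂ} {t : ℕ → ℂ} (h0 : t 0 = 1)
    (h : ∀ j : ℕ, t (j + 1) = f (j + 1) (t j)) : gen E f = rg E t := by
  have : (fun p : (ℕ × ℝ) × ℂ × List (ℕ × ℂ) =>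
      ((p.1.1 + 1, p.1.2 + 1), f (p.1.2 + 1) p.2.1, (p.1.1, p.2.1) :: p.2.2))^[E] ((0, 0), 1, []) =
      ((E, (E : ℝ)), t E, rg E t) := by
    induction E with
    | zero => simp [rg, h0]
    | succ E ih => rw [Function.iterate_succ_apply', ih]; simp [rg, h, List.range_succ]
  rw [gen, this]

def cp (E : ℕ) (x : ℝ) : List (ℕ × ℂ) := gen E fun j t => t * (((x / j : ℝ) : ℂ) * I)

def rp (E : ℕ) (s : ℝ) : List (ℕ × ℂ) := gen E fun _ t => t * (s : ℂ)

theorem cp_eq (E : ℕ) (x : ℝ) : cp E x = rg E fun j => (x * I) ^ j / j.factorial :=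
  gen_eq E (by simp) fun j => by
    have : ((j : ℂ) + 1) ≠ 0 := by exact_mod_cast j.succ_ne_zero
    have : (j.factorial : ℂ) ≠ 0 := by exact_mod_cast j.factorial_ne_zero
    rw [Nat.factorial_succ]
    push_cast
    field_simp
    ring

theorem rp_eq (E : ℕ) (s : ℝ) : rp E s = rg E fun j => (s : ℂ) ^ j :=
  gen_eq E (by simp) fun j => pow_succ _ _

theorem sum_range {R : Type} [AddCommMonoid R] (n : ℕ) (f : ℕ → R) :
    ((List.range n).map f).sum = ∑ i ∈ Finset.range n, f i := rfl

theorem sum_rg {M N : Type} [AddCommMonoid N] (E : ℕ) (t : ℕ → M) (g : ℕ × M → N) :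
    ((rg E t).map g).sum = ∑ j ∈ Finset.range E, g (j, t j) := by
  rw [rg, List.map_map, List.map_reverse, List.sum_reverse, sum_range]
  rfl

/-- Taylor polynomial of `exp (i x)` with `E` terms -/
def tay (E : ℕ) (x : ℝ) : ℂ := ((cp E x).map Prod.snd).sum

theorem tay_eq (E : ℕ) (x : ℝ) : tay E x = ∑ j ∈ Finset.range E, (x * I) ^ j / j.factorial := by
  rw [tay, cp_eq, sum_rg]

theorem tay_err {E q : ℕ} {x : ℝ} (h : |x| ≤ E / (4 * 2 ^ q)) :
    ‖exp (x * I) - tay E x‖ ≤ 2 / 2 ^ (q * E) := by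
  have h1 : ‖(x * I : ℂ)‖ = |x| := by simp
  have h2 : (1 : ℝ) ≤ 2 ^ q := one_le_pow₀ (by norm_num)
  have h3 : (E : ℝ) / (4 * 2 ^ q) ≤ E / 4 := by gcongr; linarith only [h2]
  have h4 := exp_bound' (x := x * I) (n := E) (by
    rw [h1, div_le_iff₀ (by positivity)]
    push_cast
    have : (0 : ℝ) ≤ E := by positivity
    linarith)
  rw [tay_eq]
  refine h4.trans ?_
  have h5 : (E : ℝ) ^ E / E.factorial ≤ 4 ^ E := by
    refine (Real.pow_div_factorial_le_exp _ (by positivity) E).trans ?_
    rw [← Real.exp_one_pow]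
    exact pow_le_pow_left₀ (by positivity) (by linarith only [Real.exp_one_lt_d9]) _
  calc ‖(x * I : ℂ)‖ ^ E / E.factorial * 2 ≤ (E / (4 * 2 ^ q)) ^ E / E.factorial * 2 := by
        rw [h1]; gcongr
    _ = (E : ℝ) ^ E / E.factorial / 4 ^ E * (2 / 2 ^ (q * E)) := by
        rw [div_pow, mul_pow, pow_mul]; field_simp
    _ ≤ 1 * (2 / 2 ^ (q * E)) := by
        gcongr
        exact (div_le_one (by positivity)).2 h5
    _ = _ := one_mul _

def stp {M : Type} [Mul M] (E : ℕ) (st p : List (ℕ × M)) : List (ℕ × M) :=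
  st.flatMap fun x => (p.filter fun y => ltN (x.1 + y.1) E).map fun y => (x.1 + y.1, x.2 * y.2)

/-- all monomials of degree less than `E` -/
def feat (ρ E : ℕ) (ps : List (List (ℕ × ℂ))) : List ℂ :=
  ((ps.foldl (fun st p => stp E (st.take ρ) (p.take E)) [(0, 1)]).take ρ).map Prod.snd

theorem stp_map {M M' : Type} [Monoid M] [Monoid M'] (φ : M →* M') (E : ℕ) (st : List (ℕ × M))
    (t : ℕ → M) : (stp E st (rg E t)).map (Prod.map id φ) =
      stp E (st.map (Prod.map id φ)) (rg E fun j => φ (t j)) := by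
  simp only [stp, rg, List.map_flatMap, List.flatMap_map, List.map_map, List.filter_map]
  congr 1
  funext x
  exact List.map_congr_left fun y _ => by simp

theorem fold_map {M M' ι : Type} [Monoid M] [Monoid M'] (φ : M →* M') (E : ℕ) (t : ι → ℕ → M)
    (l : List ι) (st : List (ℕ × M)) :
    ((l.map fun i => rg E (t i)).foldl (stp E) st).map (Prod.map id φ) =
      (l.map fun i => rg E fun j => φ (t i j)).foldl (stp E) (st.map (Prod.map id φ)) := by
  induction l generalizing st with
  | nil => rfl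
  | cons i l ih => simp only [List.map_cons, List.foldl_cons, ih, stp_map]

theorem sum_stp {M N : Type} [Mul M] [AddCommMonoid N] (E : ℕ) (st : List (ℕ × M)) (t : ℕ → M)
    (g : ℕ × M → N) : ((stp E st (rg E t)).map g).sum =
      (st.map fun x => ∑ a ∈ Finset.range (E - x.1), g (x.1 + a, x.2 * t a)).sum := by
  induction st with
  | nil => rfl
  | cons x st ih =>
    rw [stp, List.flatMap_cons, List.map_append, List.sum_append, ← stp, ih, List.map_cons,
      List.sum_cons, List.map_map]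
    congr 1
    have : ∀ l : List (ℕ × M), ((l.filter fun y => ltN (x.1 + y.1) E).map
        (g ∘ fun y => (x.1 + y.1, x.2 * y.2))).sum =
        (l.map fun y => if x.1 + y.1 < E then g (x.1 + y.1, x.2 * y.2) else 0).sum := by
      intro l
      induction l with
      | nil => rfl
      | cons y l ih => by_cases h : x.1 + y.1 < E <;> simp [h, ← ih]
    rw [this, sum_rg, ← Finset.sum_filter]
    refine Finset.sum_congr ?_ fun _ _ => rfl
    ext a
    simp only [Finset.mem_filter, Finset.mem_range]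
    omega

theorem add_pow_fact (x y : ℂ) (n : ℕ) : (x + y) ^ n / n.factorial =
    ∑ j ∈ Finset.range (n + 1), x ^ j / j.factorial * (y ^ (n - j) / (n - j).factorial) := by
  rw [add_pow, Finset.sum_div]
  refine Finset.sum_congr rfl fun j hj => ?_
  have h := Nat.choose_mul_factorial_mul_factorial (Nat.lt_succ_iff.1 (Finset.mem_range.1 hj))
  have h0 : (n.choose j : ℂ) ≠ 0 := by
    exact_mod_cast (Nat.choose_pos (Nat.lt_succ_iff.1 (Finset.mem_range.1 hj))).ne'
  have h1 : (j.factorial : ℂ) ≠ 0 := by exact_mod_cast j.factorial_ne_zero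
  have h2 : ((n - j).factorial : ℂ) ≠ 0 := by exact_mod_cast (n - j).factorial_ne_zero
  rw [← h]
  push_cast
  field_simp

theorem fold_sum {ι : Type} (E : ℕ) (z : ι → ℂ) (l : List ι) (st : List (ℕ × ℂ)) (Z : ℂ)
    (h : ∀ g : ℕ → ℂ, (st.map fun x => g x.1 * x.2).sum =
      ∑ j ∈ Finset.range E, g j * (Z ^ j / j.factorial)) (g : ℕ → ℂ) :
    (((l.map fun i => rg E fun j => z i ^ j / j.factorial).foldl (stp E) st).map
      fun x => g x.1 * x.2).sum =
      ∑ j ∈ Finset.range E, g j * ((Z + (l.map z).sum) ^ j / j.factorial) := by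
  induction l generalizing st Z with
  | nil => simpa using h g
  | cons i l ih =>
    rw [List.map_cons, List.foldl_cons, ih _ (Z + z i) fun g => ?_, List.map_cons, List.sum_cons,
      add_assoc]
    have h1 := h fun n => ∑ a ∈ Finset.range (E - n), g (n + a) * (z i ^ a / a.factorial)
    simp only [Finset.sum_mul] at h1
    rw [sum_stp]
    simp only [add_pow_fact, Finset.mul_sum]
    have h2 := Finset.sum_range_diag_flip E fun j a =>
      g (j + a) * (z i ^ a / a.factorial) * (Z ^ j / j.factorial)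
    rw [← h2] at h1
    refine Eq.trans (congrArg List.sum (List.map_congr_left fun x _ =>
      Finset.sum_congr rfl fun a _ => by ring)) (h1.trans ?_)
    refine Finset.sum_congr rfl fun n _ => Finset.sum_congr rfl fun j hj => ?_
    rw [Nat.add_sub_cancel' (Nat.lt_succ_iff.1 (Finset.mem_range.1 hj))]
    ring

theorem length_le_wt {M : Type} {E : ℕ} {y : ℝ} (h0 : 0 < y) (h1 : y ≤ 1) {st : List (ℕ × M)}
    (h : ∀ x ∈ st, x.1 ≤ E) : st.length * y ^ E ≤ (st.map fun x => y ^ x.1).sum := by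
  induction st with
  | nil => simp
  | cons x st ih =>
    have := ih fun w hw => h w (.tail _ hw)
    have := pow_le_pow_of_le_one h0.le h1 (h x (.head _))
    simp only [List.length_cons, List.map_cons, List.sum_cons]
    push_cast
    linarith

theorem fold_take {ι : Type} {ρ E n : ℕ} {y : ℝ} (h0 : 0 < y) (h1 : y < 1)
    (hρ : 1 ≤ ρ * y ^ E * (1 - y) ^ n) (t : ι → ℕ → ℂ) (l : List ι) (st : List (ℕ × ℂ)) (i : ℕ)
    (hi : i + l.length ≤ n) (h : ∀ x ∈ st, x.1 ≤ E)
    (hw : (st.map fun x => y ^ x.1).sum * (1 - y) ^ i ≤ 1) :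
    (l.map fun i => rg E (t i)).foldl (fun st p => stp E (st.take ρ) (p.take E)) st =
      (l.map fun i => rg E (t i)).foldl (stp E) st ∧
      ((l.map fun i => rg E (t i)).foldl (stp E) st).length ≤ ρ := by
  have h2 : 0 < 1 - y := by linarith only [h1]
  have hl : st.length ≤ ρ := by
    have h3 := length_le_wt h0 h1.le h
    have h4 : (1 - y) ^ n ≤ (1 - y) ^ i := pow_le_pow_of_le_one h2.le (by linarith only [h0]) (by omega)
    have h5 : (st.length : ℝ) * y ^ E * (1 - y) ^ n ≤ ρ * y ^ E * (1 - y) ^ n :=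
      calc _ ≤ (st.map fun x => y ^ x.1).sum * (1 - y) ^ i := by
            gcongr
            exact le_trans (by positivity) h3
        _ ≤ _ := hw.trans hρ
    have h6 := le_of_mul_le_mul_right (le_of_mul_le_mul_right h5 (by positivity)) (by positivity)
    exact_mod_cast h6
  induction l generalizing st i with
  | nil => exact ⟨rfl, hl⟩
  | cons a l ih =>
    simp only [List.map_cons, List.foldl_cons, List.length_cons] at hi ⊢
    rw [List.take_of_length_le hl, List.take_of_length_le (by simp [rg])]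
    have h3 : ∀ x ∈ stp E st (rg E (t a)), x.1 ≤ E := fun x hx => by
      simp only [stp, List.mem_flatMap, List.mem_map, List.mem_filter, ltN_iff] at hx
      obtain ⟨_, -, _, ⟨-, h⟩, rfl⟩ := hx
      exact h.le
    have h4 : ((stp E st (rg E (t a))).map fun x => y ^ x.1).sum * (1 - y) ^ (i + 1) ≤ 1 := by
      rw [sum_stp, pow_succ', ← mul_assoc]
      refine le_trans (mul_le_mul_of_nonneg_right ?_ (by positivity)) hw
      rw [← List.sum_map_mul_right]
      refine List.sum_le_sum fun x _ => ?_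
      simp only [pow_add, ← Finset.mul_sum, mul_assoc]
      refine mul_le_of_le_one_right (by positivity) ?_
      rw [geom_sum_mul_neg]
      have : 0 ≤ y ^ (E - x.1) := by positivity
      linarith only [this]
    refine ih _ (i + 1) (by omega) h3 h4 ?_
    have h5 := length_le_wt h0 h1.le h3
    have h6 : (1 - y) ^ n ≤ (1 - y) ^ (i + 1) := pow_le_pow_of_le_one h2.le (by linarith only [h0]) (by omega)
    have h7 : ((stp E st (rg E (t a))).length : ℝ) * y ^ E * (1 - y) ^ n ≤
        ρ * y ^ E * (1 - y) ^ n :=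
      calc _ ≤ ((stp E st (rg E (t a))).map fun x => y ^ x.1).sum * (1 - y) ^ (i + 1) := by
            gcongr
            exact le_trans (by positivity) h5
        _ ≤ _ := h4.trans hρ
    have h8 := le_of_mul_le_mul_right (le_of_mul_le_mul_right h7 (by positivity)) (by positivity)
    exact_mod_cast h8

def dot {R : Type} [Semiring R] (u a : List R) : R := ((u.zip a).map fun p => p.1 * p.2).sum

theorem dot_map {R ι : Type} [Semiring R] (l : List ι) (f g : ι → R) :
    dot (l.map f) (l.map g) = (l.map fun i => f i * g i).sum := by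
  rw [dot, List.zip_map', List.map_map]; rfl

/-- the features give the Taylor polynomial of the inner product -/
theorem feat_dot {ρ E n : ℕ} {y : ℝ} (hE : 0 < E) (h0 : 0 < y) (h1 : y < 1)
    (hρ : 1 ≤ ρ * y ^ E * (1 - y) ^ n) (s a : ℕ → ℝ) :
    dot (feat ρ E (((List.range n).map s).map (rp E))) (feat ρ E (((List.range n).map a).map (cp E))) =
      tay E (∑ i ∈ Finset.range n, s i * a i) ∧
    (feat ρ E (((List.range n).map s).map (rp E))).length ≤
      (feat ρ E (((List.range n).map a).map (cp E))).length := by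
  have k : ∀ t : ℕ → ℕ → ℂ, feat ρ E ((List.range n).map fun i => rg E (t i)) =
      (((List.range n).map fun i => rg E (t i)).foldl (stp E) [(0, 1)]).map Prod.snd := fun t => by
    obtain ⟨k1, k2⟩ := fold_take h0 h1 hρ t (List.range n) [(0, 1)] 0 (by simp) (by simp) (by simp)
    rw [feat, k1, List.take_of_length_le k2]
  let T : ℕ → ℕ → ℂ × ℂ := fun i j => ((s i : ℂ) ^ j, (a i * I) ^ j / j.factorial)
  have e1 := fold_map (MonoidHom.fst ℂ ℂ) E T (List.range n) [(0, 1)]
  have e2 := fold_map (MonoidHom.snd ℂ ℂ) E T (List.range n) [(0, 1)]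
  have e3 := fold_map (MonoidHom.fst ℂ ℂ * MonoidHom.snd ℂ ℂ) E T (List.range n) [(0, 1)]
  generalize ((List.range n).map fun i => rg E (T i)).foldl (stp E) [(0, 1)] = F at e1 e2 e3
  have f1 : feat ρ E (((List.range n).map s).map (rp E)) = F.map fun x => x.2.1 := by
    simp only [List.map_map, Function.comp_def, rp_eq]
    rw [k]
    exact (congrArg (List.map Prod.snd) e1).symm.trans (by rw [List.map_map]; rfl)
  have f2 : feat ρ E (((List.range n).map a).map (cp E)) = F.map fun x => x.2.2 := by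
    simp only [List.map_map, Function.comp_def, cp_eq]
    rw [k]
    exact (congrArg (List.map Prod.snd) e2).symm.trans (by rw [List.map_map]; rfl)
  refine ⟨?_, by rw [f1, f2, List.length_map, List.length_map]⟩
  have f3 := fold_sum E (fun i => ((s i * a i : ℝ) : ℂ) * I) (List.range n) [(0, 1)] 0
    (fun g => by
      rw [Finset.sum_eq_single 0 (fun j _ hj => by simp [hj]) (by simp only [Finset.mem_range, not_lt, nonpos_iff_eq_zero, hE.ne', pow_zero, Nat.factorial_zero, Nat.cast_one, ne_eq, one_ne_zero, not_false_eq_true, div_self, mul_one, IsEmpty.forall_iff])]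
      simp) fun _ => 1
  have f4 : (fun i => rg E fun j => (MonoidHom.fst ℂ ℂ * MonoidHom.snd ℂ ℂ) (T i j)) =
      fun i => rg E fun j => (((s i * a i : ℝ) : ℂ) * I) ^ j / j.factorial := by
    funext i
    congr 1
    funext j
    simp only [T, MonoidHom.mul_apply, MonoidHom.coe_fst, MonoidHom.coe_snd]
    push_cast
    ring
  have f5 : [((0 : ℕ), (1 : ℂ × ℂ))].map (Prod.map id (MonoidHom.fst ℂ ℂ * MonoidHom.snd ℂ ℂ)) =
      [(0, 1)] := by simp only [List.map_cons, Prod.map_apply, id_eq, MonoidHom.mul_apply, MonoidHom.coe_fst, Prod.fst_one, MonoidHom.coe_snd, Prod.snd_one, mul_one, List.map_nil]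
  rw [f4, f5] at e3
  rw [← e3, List.map_map, sum_range, ← Finset.sum_mul, zero_add] at f3
  rw [f1, f2, dot_map, tay_eq]
  simp only [one_mul] at f3
  push_cast at f3 ⊢
  exact f3

theorem dot_add {u a b : List ℂ} (y : ℂ) (ha : u.length ≤ a.length) (hb : u.length ≤ b.length) :
    dot u ((b.zip a).map fun p => p.2 + y * p.1) = dot u a + y * dot u b := by
  induction u generalizing a b with
  | nil => simp [dot]
  | cons x u ih =>
    obtain _ | ⟨a0, a⟩ := a
    · simp at ha
    obtain _ | ⟨b0, b⟩ := b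
    · simp at hb
    have := ih (a := a) (b := b) (by simpa using ha) (by simpa using hb)
    simp only [dot, List.zip_cons_cons, List.map_cons, List.sum_cons] at this ⊢
    rw [this]
    ring

/-- the weighted sum of the feature vectors of the columns -/
def wvec (ρ E N : ℕ) (cols : List (List ℝ × ℂ)) : List ℂ :=
  cols.foldl (fun w c => ((feat ρ E ((c.1.take N).map (cp E))).zip w).map fun p => p.2 + c.2 * p.1)
    ((List.range ρ).map fun _ => 0)

theorem dot_wvec {ρ E N : ℕ} {u : List ℂ} {cols : List (List ℝ × ℂ)} (hu : u.length ≤ ρ)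
    (h : ∀ c ∈ cols, u.length ≤ (feat ρ E ((c.1.take N).map (cp E))).length) :
    dot u (wvec ρ E N cols) =
      (cols.map fun c => c.2 * dot u (feat ρ E ((c.1.take N).map (cp E)))).sum := by
  have : ∀ w : List ℂ, u.length ≤ w.length → dot u (cols.foldl (fun w c =>
      ((feat ρ E ((c.1.take N).map (cp E))).zip w).map fun p => p.2 + c.2 * p.1) w) =
      dot u w + (cols.map fun c => c.2 * dot u (feat ρ E ((c.1.take N).map (cp E)))).sum := by
    induction cols with
    | nil => simp
    | cons c cols ih =>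
      intro w hw
      have hc := h c (.head _)
      rw [List.foldl_cons, ih (fun c hc => h c (.tail _ hc)) _
        (by rw [List.length_map, List.length_zip]; omega), dot_add _ hw hc,
        List.map_cons, List.sum_cons, add_assoc]
  rw [wvec, this _ (by simpa using hu)]
  have : dot u ((List.range ρ).map fun _ => (0 : ℂ)) = 0 := List.sum_eq_zero fun x hx => by
    obtain ⟨p, hp, rfl⟩ := List.mem_map.1 hx
    obtain ⟨_, -, h⟩ := List.mem_map.1 (List.of_mem_zip hp).2
    rw [← h, mul_zero]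
  rw [this, zero_add]

/-! Binary digits. -/

def pw (N : ℕ) : List ℕ := ((fun p : ℕ × List ℕ => (p.1 + p.1, p.1 :: p.2))^[N] (1, [])).2

theorem pw_succ (N : ℕ) : pw (N + 1) = 2 ^ N :: pw N := by
  have : ∀ N, ((fun p : ℕ × List ℕ => (p.1 + p.1, p.1 :: p.2))^[N] (1, [])).1 = 2 ^ N := by
    intro N
    induction N with
    | zero => rfl
    | succ N ih => rw [Function.iterate_succ_apply', pow_succ, ← ih]; simp only; omega
  rw [pw, Function.iterate_succ_apply', ← this N]
  rfl

theorem length_pw (N : ℕ) : (pw N).length = N := by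
  induction N with
  | zero => rfl
  | succ N ih => rw [pw_succ, List.length_cons, ih]

def bf (N r : ℕ) : List Bool :=
  ((pw N).foldl (fun (p : ℕ × List Bool) q =>
    (bif ltN p.1 q then p.1 else p.1 - q, (!ltN p.1 q) :: p.2)) (r, [])).2

theorem bf_aux (N r : ℕ) (acc : List Bool) : (((pw N).foldl (fun (p : ℕ × List Bool) q =>
      (bif ltN p.1 q then p.1 else p.1 - q, (!ltN p.1 q) :: p.2)) (r, acc)).2).length =
      N + acc.length ∧ (r < 2 ^ N → ((pw N).foldl (fun (p : ℕ × List Bool) q =>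
      (bif ltN p.1 q then p.1 else p.1 - q, (!ltN p.1 q) :: p.2)) (r, acc)).2 =
      (List.range N).map r.testBit ++ acc) := by
  induction N generalizing r acc with
  | zero => simp [pw]
  | succ N ih =>
    rw [pw_succ, List.foldl_cons]
    refine ⟨(ih _ _).1.trans (by simp; omega), fun h => ?_⟩
    rw [pow_succ] at h
    rcases lt_or_ge r (2 ^ N) with h1 | h1
    · rw [(ih _ _).2 (by simpa [ltN_iff.2 h1] using h1)]
      simp [ltN_iff.2 h1, List.range_succ, Nat.testBit_lt_two_pow h1]
    · obtain ⟨s, rfl⟩ := Nat.exists_eq_add_of_le h1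
      have h2 : s < 2 ^ N := by omega
      rw [(ih _ _).2 (by simpa only [ltN_false.2 h1, add_tsub_cancel_left, cond_false] using h2)]
      simp only [ltN_false.2 h1, cond_false, Nat.add_sub_cancel_left, List.range_succ,
        List.map_append, List.append_assoc, Bool.not_false, List.map_cons, List.map_nil,
        Nat.testBit_two_pow_add_eq, Nat.testBit_lt_two_pow h2, List.singleton_append]
      congr 1
      exact List.map_congr_left fun i hi => (Nat.testBit_two_pow_add_gt (List.mem_range.1 hi) s).symm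

theorem bf_eq {N r : ℕ} (h : r < 2 ^ N) : bf N r = (List.range N).map r.testBit := by
  simpa [bf] using (bf_aux N r []).2 h

theorem length_bf (N r : ℕ) : (bf N r).length = N := (bf_aux N r []).1

def valN (s : List Bool) : ℕ := s.reverse.foldl (fun a b => a + a + bif b then 1 else 0) 0

def valR (s : List Bool) : ℝ := s.reverse.foldl (fun a b => a + a + bif b then 1 else 0) 0

theorem valR_eq (s : List Bool) : valR s = valN s := by
  induction s with
  | nil => simp [valR, valN]
  | cons b s ih =>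
    simp only [valR, valN, List.reverse_cons, List.foldl_append, List.foldl_cons, List.foldl_nil] at *
    cases b <;> simp [ih]

theorem valN_bits (N r : ℕ) : valN ((List.range N).map r.testBit) = r % 2 ^ N := by
  induction N generalizing r with
  | zero => simp [valN, Nat.mod_one]
  | succ N ih =>
    have := ih (r / 2)
    rw [List.range_succ_eq_map, List.map_cons, List.map_map, pow_succ', Nat.mod_mul]
    simp only [valN, List.reverse_cons, List.foldl_append, List.foldl_cons, List.foldl_nil,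
      Function.comp_def, Nat.testBit_succ] at *
    rw [this, Nat.testBit_zero]
    rcases Nat.mod_two_eq_zero_or_one r with h | h <;> simp only [h, zero_ne_one, decide_false, cond_false, add_zero, zero_add, decide_true, cond_true] <;> omega

theorem valR_bf {N r : ℕ} (h : r < 2 ^ N) : valR (bf N r) = r := by
  rw [valR_eq, bf_eq h, valN_bits, Nat.mod_eq_of_lt h]

theorem sum_bits (N r : ℕ) : ∑ i ∈ Finset.range N, (r.testBit i).toNat * 2 ^ i = r % 2 ^ N := by
  induction N with
  | zero => simp [Nat.mod_one]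
  | succ N ih =>
    rw [Finset.sum_range_succ, ih, Nat.mod_pow_succ, Nat.toNat_testBit, mul_comm]

/-- block number `b` of length `l` -/
def chk {β : Type} (l b : ℕ) (s : List β) : List β := (s.drop (b * l)).take l

theorem chk_range {β : Type} {l b N : ℕ} (h : b * l + l ≤ N) (f : ℕ → β) :
    chk l b ((List.range N).map f) = (List.range l).map fun i => f (b * l + i) := by
  refine List.ext_getElem (by simp only [chk, List.length_take, List.length_drop, List.length_map, List.length_range, inf_eq_left]; omega) fun i h1 h2 => by simp [chk]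

def sg (b : Bool) : ℝ := bif b then 1 else -1

/-! Doubling modulo one and `π`. -/

def dbl (t : ℝ) : ℝ := bif ltR (t + t) 1 then t + t else t + t - 1

def ths (N : ℕ) (x : ℝ) : List ℝ :=
  ((fun p : ℝ × List ℝ => (dbl p.1, p.1 :: p.2))^[N] (x, [])).2.reverse

theorem ths_eq (N : ℕ) (x : ℝ) : ths N x = (List.range N).map fun i => dbl^[i] x := by
  have : (fun p : ℝ × List ℝ => (dbl p.1, p.1 :: p.2))^[N] (x, []) =
      (dbl^[N] x, ((List.range N).map fun i => dbl^[i] x).reverse) := by
    induction N with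
    | zero => rfl
    | succ N ih => simp only [Function.iterate_succ_apply', ih]; simp [List.range_succ]
  rw [ths, this, List.reverse_reverse]

theorem dbl_spec {x : ℝ} (h0 : 0 ≤ x) (h1 : x < 1) (i : ℕ) :
    0 ≤ dbl^[i] x ∧ dbl^[i] x < 1 ∧ ∃ z : ℤ, 2 ^ i * x = dbl^[i] x + z := by
  induction i with
  | zero => exact ⟨h0, h1, 0, by simp⟩
  | succ i ih =>
    obtain ⟨k0, k1, z, hz⟩ := ih
    rw [Function.iterate_succ_apply', dbl, pow_succ', mul_assoc, hz]
    rcases lt_or_ge (dbl^[i] x + dbl^[i] x) 1 with h | h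
    · rw [ltR_iff.2 h, cond_true]
      exact ⟨by linarith, h, 2 * z, by push_cast; ring⟩
    · rw [ltR_false.2 h, cond_false]
      exact ⟨by linarith, by linarith, 2 * z + 1, by push_cast; ring⟩

def atn (M : ℕ) (x : ℝ) : ℝ :=
  ((fun p : ℝ × ℝ × ℝ => (p.1 + 2, -(p.2.1 * x * x), p.2.2 + p.2.1 / p.1))^[M] (1, x, 0)).2.2

theorem atn_eq (M : ℕ) (x : ℝ) :
    atn M x = ∑ n ∈ Finset.range M, (-1) ^ n * x ^ (2 * n + 1) / ↑(2 * n + 1) := by
  have : (fun p : ℝ × ℝ × ℝ => (p.1 + 2, -(p.2.1 * x * x), p.2.2 + p.2.1 / p.1))^[M] (1, x, 0) =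
      (((2 * M + 1 : ℕ) : ℝ), (-1) ^ M * x ^ (2 * M + 1),
        ∑ n ∈ Finset.range M, (-1) ^ n * x ^ (2 * n + 1) / ↑(2 * n + 1)) := by
    induction M with
    | zero => simp only [Function.iterate_zero, id_eq, mul_zero, zero_add, Nat.cast_one, pow_zero, pow_one, one_mul, Finset.range_zero, Nat.cast_add, Nat.cast_mul, Nat.cast_ofNat, Finset.sum_empty]
    | succ M ih =>
      rw [Function.iterate_succ_apply', ih, Finset.sum_range_succ]
      refine Prod.ext (by push_cast; ring) (Prod.ext (by ring) rfl)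
  rw [atn, this]

theorem atn_err (M : ℕ) {x : ℝ} (h0 : 0 ≤ x) (h : x ≤ 1 / 2) :
    |Real.arctan x - atn M x| ≤ 1 / 4 ^ M := by
  have h1 := Real.hasSum_arctan (x := x) (by rw [Real.norm_of_nonneg h0]; linarith)
  have h2 := (hasSum_nat_add_iff' M).2 h1
  have h3 : HasSum (fun n : ℕ => 1 / 4 ^ M / 2 * (1 / 2 : ℝ) ^ n) (1 / 4 ^ M / 2 * 2) :=
    hasSum_geometric_two.mul_left _
  rw [atn_eq, ← Real.norm_eq_abs]
  refine (HasSum.norm_le_of_bounded h2 h3 fun n => ?_).trans (le_of_eq (by ring))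
  have h4 : (1 : ℝ) ≤ ((2 * (n + M) + 1 : ℕ) : ℝ) := by exact_mod_cast Nat.le_add_left ..
  calc ‖(-1) ^ (n + M) * x ^ (2 * (n + M) + 1) / ((2 * (n + M) + 1 : ℕ) : ℝ)‖
      = x ^ (2 * (n + M) + 1) / ((2 * (n + M) + 1 : ℕ) : ℝ) := by
        rw [norm_div, norm_mul, norm_pow, norm_neg, norm_one, one_pow, one_mul,
          Real.norm_of_nonneg (by positivity), Real.norm_of_nonneg (by positivity)]
    _ ≤ (1 / 2) ^ (2 * (n + M) + 1) / 1 := by gcongr
    _ = 1 / 4 ^ M / 2 * (1 / 2) ^ n * (1 / 2) ^ n := by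
        rw [show (4 : ℝ) = 2 ^ 2 by norm_num, ← pow_mul]
        simp only [one_div, inv_pow, pow_add, two_mul]
        field_simp
    _ ≤ _ := mul_le_of_le_one_right (by positivity) (pow_le_one₀ (by norm_num) (by norm_num))

def piA (M : ℕ) : ℝ := 2 * (2 * (atn M (1 / 2) + atn M (1 / (2 + 1))))

theorem piA_err (M : ℕ) : |Real.pi - piA M| ≤ 8 / 4 ^ M := by
  have h1 := atn_err M (x := 1 / 2) (by norm_num) le_rfl
  have h2 := atn_err M (x := 1 / (2 + 1)) (by norm_num) (by norm_num)
  have h3 := Real.arctan_inv_2_add_arctan_inv_3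
  rw [show (2⁻¹ : ℝ) = 1 / 2 by norm_num, show (3⁻¹ : ℝ) = 1 / (2 + 1) by norm_num] at h3
  rw [abs_le] at *
  rw [piA, show (8 : ℝ) / 4 ^ M = 8 * (1 / 4 ^ M) by ring]
  constructor <;> linarith

/-! Hoeffding's inequality for binary digits. -/

theorem sum_exp_bits (N : ℕ) (a : ℕ → ℝ) :
    ∑ x ∈ Finset.range (2 ^ N), Real.exp (∑ i ∈ Finset.range N, sg (x.testBit i) * a i) ≤
      2 ^ N * Real.exp ((∑ i ∈ Finset.range N, a i ^ 2) / 2) := by
  induction N with
  | zero => simp
  | succ N ih =>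
    have h1 : ∀ x ∈ Finset.range (2 ^ N), Real.exp (∑ i ∈ Finset.range (N + 1),
        sg (x.testBit i) * a i) =
        Real.exp (∑ i ∈ Finset.range N, sg (x.testBit i) * a i) * Real.exp (-a N) := fun x hx => by
      rw [Finset.sum_range_succ, Real.exp_add, Nat.testBit_lt_two_pow (Finset.mem_range.1 hx)]
      simp [sg]
    have h2 : ∀ x ∈ Finset.range (2 ^ N), Real.exp (∑ i ∈ Finset.range (N + 1),
        sg ((2 ^ N + x).testBit i) * a i) =
        Real.exp (∑ i ∈ Finset.range N, sg (x.testBit i) * a i) * Real.exp (a N) := fun x hx => by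
      rw [Finset.sum_range_succ, Real.exp_add, Nat.testBit_two_pow_add_eq,
        Nat.testBit_lt_two_pow (Finset.mem_range.1 hx), Finset.sum_congr rfl fun i hi => by
          rw [Nat.testBit_two_pow_add_gt (Finset.mem_range.1 hi)]]
      simp [sg]
    have h3 := Real.cosh_le_exp_half_sq (a N)
    rw [Real.cosh_eq] at h3
    rw [pow_succ 2 N, mul_two, Finset.sum_range_add, Finset.sum_congr rfl h1,
      Finset.sum_congr rfl h2, ← Finset.sum_mul, ← Finset.sum_mul, ← mul_add, Finset.sum_range_succ,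
      add_div, Real.exp_add]
    calc _ ≤ 2 ^ N * Real.exp ((∑ i ∈ Finset.range N, a i ^ 2) / 2) *
          (2 * Real.exp (a N ^ 2 / 2)) := by gcongr; linarith only [h3]
      _ = _ := by ring

theorem hoeff {N l o : ℕ} (h : o + l ≤ N) (hl : 0 < l) {a : ℕ → ℝ} (ha : ∀ i, |a i| ≤ 4) {w : ℝ}
    (hw : 0 ≤ w) : ∑ x ∈ Finset.range (2 ^ N),
      (if w < |∑ i ∈ Finset.range l, sg (x.testBit (o + i)) * a (o + i)| then (1 : ℝ) else 0) ≤
      2 * 2 ^ N * Real.exp (-(w ^ 2 / (32 * l))) := by
  have hl' : (0 : ℝ) < l := by exact_mod_cast hl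
  have k : ∀ t : ℝ, ∑ x ∈ Finset.range (2 ^ N),
      Real.exp (t * ∑ i ∈ Finset.range l, sg (x.testBit (o + i)) * a (o + i)) ≤
      2 ^ N * Real.exp (t ^ 2 * (8 * l)) := fun t => by
    have e : ∀ f : ℕ → ℝ, ∑ i ∈ Finset.range N, (if i ∈ Finset.Ico o (o + l) then f i else 0) =
        ∑ i ∈ Finset.range l, f (o + i) := fun f => by
      rw [← Finset.sum_filter, Finset.filter_mem_eq_inter, Finset.inter_eq_right.2 fun i hi => by
        simp only [Finset.mem_Ico, Finset.mem_range] at hi ⊢; omega, Finset.sum_Ico_eq_sum_range,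
        Nat.add_sub_cancel_left]
    have h1 := sum_exp_bits N fun i => if i ∈ Finset.Ico o (o + l) then t * a i else 0
    simp only [mul_ite, mul_zero, ite_pow, ne_eq, OfNat.ofNat_ne_zero, not_false_eq_true,
      zero_pow, e] at h1
    refine le_trans (le_of_eq (Finset.sum_congr rfl fun x _ => ?_)) (h1.trans ?_)
    · rw [Finset.mul_sum]
      exact congrArg _ (Finset.sum_congr rfl fun i _ => by ring)
    · gcongr
      have : ∑ i ∈ Finset.range l, (t * a (o + i)) ^ 2 ≤ ∑ _i ∈ Finset.range l, t ^ 2 * 16 :=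
        Finset.sum_le_sum fun i _ => by
          rw [mul_pow]
          gcongr
          nlinarith only [abs_le.1 (ha (o + i))]
      rw [Finset.sum_const, Finset.card_range, nsmul_eq_mul] at this
      linarith only [this]
  set t := w / (16 * l)
  have ht : 0 ≤ t := by positivity
  calc _ ≤ ∑ x ∈ Finset.range (2 ^ N), Real.exp (-(t * w)) *
        (Real.exp (t * ∑ i ∈ Finset.range l, sg (x.testBit (o + i)) * a (o + i)) +
        Real.exp (-t * ∑ i ∈ Finset.range l, sg (x.testBit (o + i)) * a (o + i))) := by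
        refine Finset.sum_le_sum fun x _ => ?_
        generalize ∑ i ∈ Finset.range l, sg (x.testBit (o + i)) * a (o + i) = S
        split_ifs with hS
        · rw [mul_add, ← Real.exp_add, ← Real.exp_add]
          rcases lt_abs.1 hS with h1 | h1
          · have := Real.one_le_exp (x := -(t * w) + t * S) (by nlinarith only [ht, h1])
            linarith only [Real.exp_pos (-(t * w) + -t * S), this]
          · have := Real.one_le_exp (x := -(t * w) + -t * S) (by nlinarith only [ht, h1])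
            linarith only [Real.exp_pos (-(t * w) + t * S), this]
        · positivity
    _ ≤ Real.exp (-(t * w)) * (2 ^ N * Real.exp (t ^ 2 * (8 * l)) +
        2 ^ N * Real.exp ((-t) ^ 2 * (8 * l))) := by
        rw [← Finset.mul_sum, Finset.sum_add_distrib]
        gcongr
        exacts [k t, k (-t)]
    _ = 2 * 2 ^ N * (Real.exp (-(t * w)) * Real.exp (t ^ 2 * (8 * l))) := by rw [neg_sq]; ring
    _ = _ := by
        rw [← Real.exp_add]
        congr 2
        simp only [t]
        field_simp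
        ring

end

end Pool.Agent.MP_d958de_lc.H67

end

-- part MP_d958de_lc.H67.Spec
section

/-! The algorithm as a function on lists, its accuracy and the number of exceptional pairs. -/

namespace Pool.Agent.MP_d958de_lc.H67

open Pool.Agent.MP_0cee90_lc.H63F Complex

noncomputable section

abbrev Col : Type := List ℝ × ℂ

/-- bits per block -/
def ll (k : ℕ) (L : Lam) : ℕ := L.n * (2 * k)
/-- number of bits -/
def nn (k : ℕ) (L : Lam) : ℕ := ll k L * k
/-- long Taylor length -/
def mm (k q : ℕ) (L : Lam) : ℕ := nn k L * (16 * 2 ^ q)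
/-- threshold for a block sum -/
def ww (k q : ℕ) (L : Lam) : ℝ := (L.n : ℝ) / ((4 * k * 2 ^ q : ℕ) : ℝ)

variable (k q : ℕ) (L : Lam)

def aL (d c : ℕ) : List ℝ :=
  (ths (nn k L) (valR (bf (nn k L) c) / valR (bf (nn k L) d))).map fun t => -(piA (mm k q L) * t)

def col (d : ℕ) (p : ℕ × ℝ × ℝ) : Col :=
  (aL k q L d p.1, (⟨p.2.1, p.2.2⟩ : ℂ) * tay (mm k q L) (aL k q L d p.1).sum)

def sL (N r : ℕ) : List ℝ := (bf N r).map sg

def blk {β : Type} (b : ℕ) (s : List β) : List β := chk (ll k L) (min b k) s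

def bad (cols : List Col) (b u : ℕ) : List Col :=
  cols.filter fun c => ltR (ww k q L) |dot (sL (ll k L) u) (blk k L b c.1)|

def trees (B : ℕ) (cols : List Col) : List (ℕ × BT ℕ (List Col)) :=
  (List.range k).map fun b => (b, mkT ((List.range B).map fun u => (bad k q L cols b u, u)) [])

def look (r : ℕ) (T : ℕ × BT ℕ (List Col)) : List Col :=
  (fnd (ll k L + 1) (fun j => leN (valN (blk k L T.1 (bf (nn k L) r))) j) T.2).getD []

def mu (s a : List ℝ) : ℝ :=
  ((List.range k).map fun b =>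
    bif ltR (ww k q L) |dot (blk k L b s) (blk k L b a)| then (1 : ℝ) else 0).sum

def fix (s : List ℝ) (c : Col) : ℂ :=
  c.2 * (tay (mm k q L) (dot s c.1) - tay L.n (dot s c.1)) * ((1 / mu k q L s c.1 : ℝ) : ℂ)

def corr (Ts : List (ℕ × BT ℕ (List Col))) (r : ℕ) : ℂ :=
  ((Ts.take k).map fun T => ((look k L r T).map (fix k q L (sL (nn k L) r))).sum).sum

def row (ρ : ℕ) (W : List ℂ) (Ts : List (ℕ × BT ℕ (List Col))) (r : ℕ) : ℂ :=
  dot (feat ρ L.n ((sL (nn k L) r).map (rp L.n))) W + corr k q L Ts r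

/-- number of exceptional pairs met by a row -/
def hits (Ts : List (ℕ × BT ℕ (List Col))) (r : ℕ) : ℕ :=
  ((Ts.take k).map fun T => (look k L r T).length + 1).sum

variable {k q L}

theorem blk_range {β : Type} {b : ℕ} (hb : b < k) (f : ℕ → β) :
    blk k L b ((List.range (nn k L)).map f) = (List.range (ll k L)).map fun i => f (b * ll k L + i) := by
  rw [blk, min_eq_left hb.le, chk_range]
  rw [nn, mul_comm _ k, ← Nat.succ_mul]
  exact Nat.mul_le_mul_right _ hb

theorem sL_eq {N r : ℕ} (h : r < 2 ^ N) : sL N r = (List.range N).map fun i => sg (r.testBit i) := by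
  rw [sL, bf_eq h, List.map_map]; rfl

/-- the sum over block `b` -/
def bsum (l r : ℕ) (a : ℕ → ℝ) (b : ℕ) : ℝ :=
  ∑ i ∈ Finset.range l, sg (r.testBit (b * l + i)) * a (b * l + i)

theorem look_eq {r b m : ℕ} (hr : r < 2 ^ nn k L) (hb : b < k) (a : ℕ → ℕ → ℝ) (y : ℕ → ℂ) :
    look k L r (b, mkT ((List.range (2 ^ ll k L)).map fun u => (bad k q L ((List.range m).map
      fun j => ((List.range (nn k L)).map (a j), y j)) b u, u)) []) =
    ((List.range m).filter fun j => decide (ww k q L < |bsum (ll k L) r (a j) b|)).map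
      fun j => ((List.range (nn k L)).map (a j), y j) := by
  generalize hc : ((List.range m).map fun j => ((List.range (nn k L)).map (a j), y j)) = cols
  have e : blk k L b (bf (nn k L) r) =
      (List.range (ll k L)).map (r / 2 ^ (b * ll k L)).testBit := by
    rw [bf_eq hr, blk_range hb]
    exact List.map_congr_left fun i _ => by rw [Nat.testBit_div_two_pow, add_comm]
  have hu : r / 2 ^ (b * ll k L) % 2 ^ ll k L < 2 ^ ll k L := Nat.mod_lt _ (by positivity)
  rw [look, e, valN_bits]
  generalize hu' : r / 2 ^ (b * ll k L) % 2 ^ ll k L = u at hu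
  rw [mkT_fnd _ ?_ (by simp only [List.length_map, List.length_range, pow_succ, Order.lt_two_iff, zero_le, pow_pos, lt_mul_iff_one_lt_right, Std.le_refl])]
  · have : ((List.range (2 ^ ll k L)).map fun u => (bad k q L cols b u, u)).find?
        (fun x => leN u x.2) = some (bad k q L cols b u, u) := by
      rw [List.find?_map, List.find?_range_eq_some.2 ⟨by simp, List.mem_range.2 hu,
        fun j hj => by simpa using hj⟩]
      rfl
    rw [this]
    simp only [Option.map_some, Option.getD_some]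
    rw [bad, ← hc, List.filter_map]
    congr 1
    refine List.filter_congr fun j _ => ?_
    simp only [Function.comp_apply, ltR]
    rw [sL_eq hu, blk_range hb, dot_map, sum_range, bsum]
    congr 3
    refine Finset.sum_congr rfl fun i hi => ?_
    rw [← hu', Nat.testBit_mod_two_pow, Nat.testBit_div_two_pow, add_comm i]
    simp [Finset.mem_range.1 hi]
  · rw [Mono, List.pairwise_map]
    exact List.pairwise_lt_range.imp fun h h' => leN_iff.2 ((leN_iff.1 h').trans h.le)

theorem sum_filter_range {R : Type} [AddCommMonoid R] (m : ℕ) (p : ℕ → Prop) [DecidablePred p]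
    (f : ℕ → R) : (((List.range m).filter fun j => decide (p j)).map f).sum =
      ∑ j ∈ Finset.range m, if p j then f j else 0 := by
  induction m with
  | zero => rfl
  | succ m ih =>
    rw [List.range_succ, List.filter_append, List.map_append, List.sum_append, ih,
      Finset.sum_range_succ]
    by_cases h : p m <;> simp [h]

theorem len_filter_range (m : ℕ) (p : ℕ → Prop) [DecidablePred p] :
    ((List.range m).filter fun j => decide (p j)).length =
      ∑ j ∈ Finset.range m, if p j then 1 else 0 := by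
  rw [← sum_filter_range]; simp

theorem sum_blocks (l k : ℕ) (f : ℕ → ℝ) : ∑ i ∈ Finset.range (l * k), f i =
    ∑ b ∈ Finset.range k, ∑ i ∈ Finset.range l, f (b * l + i) := by
  induction k with
  | zero => simp
  | succ k ih => rw [Nat.mul_succ, Finset.sum_range_add, ih, Finset.sum_range_succ, mul_comm l k]

theorem rho_ok (hk : 0 < k) :
    1 ≤ ((2 ^ ll k L * 2 ^ ll k L : ℕ) : ℝ) * (1 / (2 * k)) ^ L.n * (1 - 1 / (2 * k)) ^ nn k L := by
  have hk' : (1 : ℝ) ≤ k := by exact_mod_cast hk
  have h0 : (1 : ℝ) / (2 * k) ≤ 1 / 2 := by gcongr; linarith only [hk']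
  have h1 : (1 / 2 : ℝ) ≤ (1 - 1 / (2 * k)) ^ k := by
    have := one_add_mul_le_pow (a := -(1 / (2 * k) : ℝ)) (by linarith only [h0]) k
    have e : (k : ℝ) * -(1 / (2 * k)) = -(1 / 2) := by field_simp
    rw [e, ← sub_eq_add_neg, ← sub_eq_add_neg] at this
    linarith only [this]
  have h2 : (1 / 2 : ℝ) ^ (2 * k) ≤ 1 / (2 * k) := by
    rw [one_div_pow]
    gcongr
    exact_mod_cast (Nat.lt_two_pow_self (n := 2 * k)).le
  calc (1 : ℝ) = ((2 ^ ll k L * 2 ^ ll k L : ℕ) : ℝ) * ((1 / 2) ^ (2 * k)) ^ L.n * (1 / 2) ^ ll k L := by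
        rw [← pow_mul, mul_comm (2 * k), ← ll]
        push_cast
        simp only [one_div, inv_pow]
        field_simp
    _ ≤ _ := by
        rw [nn, mul_comm (ll k L) k, pow_mul (1 - 1 / (2 * (k : ℝ)))]
        gcongr

/-- the value computed for a row -/
theorem row_eq (hk : 0 < k) (hE : 0 < L.n) {r m : ℕ} (hr : r < 2 ^ nn k L) (a : ℕ → ℕ → ℝ)
    (y : ℕ → ℂ) {cols : List Col}
    (hc : cols = (List.range m).map fun j => ((List.range (nn k L)).map (a j), y j)) :
    row k q L (2 ^ ll k L * 2 ^ ll k L) (wvec (2 ^ ll k L * 2 ^ ll k L) L.n (nn k L) cols)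
      (trees k q L (2 ^ ll k L) cols) r = ∑ j ∈ Finset.range m, y j *
        tay (if ∀ b < k, |bsum (ll k L) r (a j) b| ≤ ww k q L then L.n else mm k q L)
          (∑ i ∈ Finset.range (nn k L), sg (r.testBit i) * a j i) ∧
    hits k L (trees k q L (2 ^ ll k L) cols) r = k + ∑ b ∈ Finset.range k, ∑ j ∈ Finset.range m,
      if ww k q L < |bsum (ll k L) r (a j) b| then 1 else 0 := by
  have hk' : (1 : ℝ) ≤ k := by exact_mod_cast hk
  have fd := fun j => feat_dot hE (y := 1 / (2 * k)) (by positivity)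
    ((div_lt_one (by positivity)).2 (by linarith only [hk'])) (rho_ok (L := L) hk)
    (fun i => sg (r.testBit i)) (a j)
  have ht : (trees k q L (2 ^ ll k L) cols).take k = trees k q L (2 ^ ll k L) cols :=
    List.take_of_length_le (by simp [trees])
  refine ⟨?_, ?_⟩
  · rw [row, corr, ht, trees, List.map_map, sum_range, sL_eq hr, dot_wvec (by simp only [feat, List.map_map, List.map_take, List.length_take, List.length_map, inf_le_left]) ?_]
    · subst hc
      rw [List.map_map, sum_range, Finset.sum_congr (s₁ := Finset.range k) rfl fun b hb => by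
        rw [Function.comp_apply, look_eq hr (Finset.mem_range.1 hb), List.map_map,
          sum_filter_range], Finset.sum_comm, ← Finset.sum_add_distrib]
      refine Finset.sum_congr rfl fun j _ => ?_
      have hm : mu k q L ((List.range (nn k L)).map fun i => sg (r.testBit i))
          ((List.range (nn k L)).map (a j)) =
          ∑ b ∈ Finset.range k, if ww k q L < |bsum (ll k L) r (a j) b| then 1 else 0 := by
        rw [mu, sum_range]
        refine Finset.sum_congr rfl fun b hb => ?_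
        rw [blk_range (Finset.mem_range.1 hb), blk_range (Finset.mem_range.1 hb), dot_map, sum_range,
          ← bsum, ltR]
        split_ifs with h <;> simp [h]
      simp only [Function.comp_apply]
      rw [List.take_of_length_le (by simp), (fd j).1, fix, hm, dot_map, sum_range, ← Finset.sum_filter,
        ← Finset.sum_filter, Finset.sum_const, Finset.sum_const]
      split_ifs with h
      · rw [Finset.filter_eq_empty_iff.2 fun b hb => not_lt.2 (h b (Finset.mem_range.1 hb))]
        simp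
      · have : ((Finset.range k).filter fun b => ww k q L < |bsum (ll k L) r (a j) b|).card ≠ 0 := by
          simp only [not_forall, not_le] at h
          obtain ⟨b, hb, h⟩ := h
          exact Finset.card_ne_zero.2 ⟨b, Finset.mem_filter.2 ⟨Finset.mem_range.2 hb, h⟩⟩
        generalize ((Finset.range k).filter fun b =>
          ww k q L < |bsum (ll k L) r (a j) b|).card = c at this
        have : (c : ℂ) ≠ 0 := by exact_mod_cast this
        simp only [nsmul_eq_mul]
        push_cast
        field_simp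
        ring
    · subst hc
      intro c hc
      obtain ⟨j, -, rfl⟩ := List.mem_map.1 hc
      rw [List.take_of_length_le (by simp)]
      exact (fd j).2
  · subst hc
    rw [hits, ht, trees, List.map_map, sum_range, Finset.sum_congr rfl fun b hb => by
      rw [Function.comp_apply, look_eq hr (Finset.mem_range.1 hb), List.length_map,
        len_filter_range], Finset.sum_add_distrib, add_comm]
    simp

theorem norm_exp_sub (x y : ℝ) : ‖exp (x * I) - exp (y * I)‖ ≤ |x - y| := by
  have h := Real.norm_exp_I_mul_ofReal_sub_one_le (x := x - y)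
  have e : exp (x * I) - exp (y * I) = exp (y * I) * (exp (I * (x - y : ℝ)) - 1) := by
    rw [mul_sub, ← exp_add, mul_one]
    congr 2
    push_cast
    ring
  rw [e, norm_mul, norm_exp_ofReal_mul_I, one_mul]
  exact h

theorem abs_sg (b : Bool) : |sg b| = 1 := by cases b <;> simp [sg]

theorem abs_sum_le {N : ℕ} {f : ℕ → ℝ} {c : ℝ} (h : ∀ i < N, |f i| ≤ c) :
    |∑ i ∈ Finset.range N, f i| ≤ N * c :=
  (Finset.abs_sum_le_sum_abs _ _).trans ((Finset.sum_le_card_nsmul _ _ c fun i hi =>
    h i (Finset.mem_range.1 hi)).trans (by simp))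

/-- the angles attached to a column -/
def ang (k q : ℕ) (L : Lam) (x : ℝ) (i : ℕ) : ℝ := -(piA (mm k q L) * dbl^[i] x)

theorem aL_eq {d c : ℕ} (hd : d < 2 ^ nn k L) (hc : c < d) :
    aL k q L d c = (List.range (nn k L)).map (ang k q L (c / d)) := by
  rw [aL, valR_bf hd, valR_bf (hc.trans hd), ths_eq, List.map_map]; rfl

theorem le_nn (hk : 0 < k) : L.n ≤ nn k L :=
  (Nat.le_mul_of_pos_right _ (by omega)).trans (Nat.le_mul_of_pos_right _ hk)

theorem abs_ang (hk : 0 < k) (hE : 0 < L.n) {x : ℝ} (h0 : 0 ≤ x) (h1 : x < 1) (i : ℕ) :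
    |ang k q L x i| ≤ 4 := by
  obtain ⟨k0, k1, -⟩ := dbl_spec h0 h1 i
  have h2 : 2 ≤ mm k q L := by
    have := le_nn (L := L) hk
    have : 0 < 2 ^ q := by positivity
    unfold mm
    nlinarith
  have h3 : (8 : ℝ) / 4 ^ mm k q L ≤ 8 / 4 ^ 2 := by gcongr; norm_num
  have h4 := abs_le.1 ((piA_err (mm k q L)).trans h3)
  have h5 : |piA (mm k q L)| ≤ 4 :=
    abs_le.2 ⟨by linarith only [Real.pi_pos, h4], by linarith only [Real.pi_lt_d2, h4]⟩
  rw [ang, abs_neg, abs_mul, abs_of_nonneg k0]
  nlinarith only [k0, k1, h5]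

theorem col_err {K : ℕ} (hk : 0 < k) (hE : 0 < L.n) (hq : q = K * (2 * k * k) + 4) {r : ℕ}
    (hr : r < 2 ^ nn k L) {x : ℝ} (h0 : 0 ≤ x) (h1 : x < 1) :
    ‖tay (mm k q L) (∑ i ∈ Finset.range (nn k L), ang k q L x i) *
      tay (if ∀ b < k, |bsum (ll k L) r (ang k q L x) b| ≤ ww k q L then L.n else mm k q L)
        (∑ i ∈ Finset.range (nn k L), sg (r.testBit i) * ang k q L x i) -
      exp (-(2 * Real.pi * I * r * x))‖ ≤ 1 / 2 ^ (K * nn k L) := by
  have ha := abs_ang (q := q) hk hE h0 h1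
  have hN := le_nn (L := L) hk
  have hM : nn k L * (K + 6) ≤ mm k q L := by
    refine Nat.mul_le_mul_left _ ?_
    have h1 : K ≤ K * (2 * k * k) := Nat.le_mul_of_pos_right _ (by positivity)
    have := Nat.lt_two_pow_self (n := q)
    omega
  have e0 : (2 : ℝ) / 2 ^ (q * L.n) ≤ 1 / 8 * (1 / 2 ^ (K * nn k L)) := by
    have : q * L.n = K * nn k L + 4 * L.n := by rw [hq, nn, ll]; ring
    have h4 : (2 : ℝ) ^ 4 ≤ 2 ^ (4 * L.n) := pow_le_pow_right₀ (by norm_num) (by omega)
    rw [this, pow_add, div_le_iff₀ (by positivity)]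
    field_simp
    linarith only [h4]
  have e1 : ∀ t : ℝ, |t| ≤ nn k L * 4 →
      ‖exp (t * I) - tay (mm k q L) t‖ ≤ 1 / 8 * (1 / 2 ^ (K * nn k L)) := fun t ht => by
    refine (tay_err (q := q) (ht.trans (le_of_eq ?_))).trans (le_trans ?_ e0)
    · rw [mm]; push_cast; field_simp; norm_num
    · gcongr
      · norm_num
      · nlinarith only [hN, hM]
  have e2 : (nn k L : ℝ) * (2 * (8 / 4 ^ mm k q L)) ≤ 1 / 2 * (1 / 2 ^ (K * nn k L)) := by
    have h1 : (nn k L : ℝ) ≤ 2 ^ nn k L := by exact_mod_cast Nat.lt_two_pow_self.le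
    have h2 : (2 : ℝ) ^ 5 ≤ 2 ^ (5 * nn k L) := pow_le_pow_right₀ (by norm_num) (by omega)
    have h3 : (2 : ℝ) ^ (nn k L * (K + 6)) ≤ 4 ^ mm k q L :=
      (pow_le_pow_right₀ (by norm_num) hM).trans (pow_le_pow_left₀ (by norm_num) (by norm_num) _)
    have h4 : (2 : ℝ) ^ (nn k L * (K + 6)) = 2 ^ nn k L * 2 ^ (5 * nn k L) * 2 ^ (K * nn k L) := by
      rw [← pow_add, ← pow_add]; congr 1; ring
    have h5 : (nn k L : ℝ) * 2 ^ 5 * 2 ^ (K * nn k L) ≤ 4 ^ mm k q L := by
      refine le_trans ?_ (h4 ▸ h3)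
      gcongr
    field_simp
    linarith only [h5]
  set U := ∑ i ∈ Finset.range (nn k L), ang k q L x i with hU
  set S := ∑ i ∈ Finset.range (nn k L), sg (r.testBit i) * ang k q L x i with hS
  have e3 := e1 U (abs_sum_le fun i _ => ha i)
  have e4 : ‖exp (S * I) - tay (if ∀ b < k, |bsum (ll k L) r (ang k q L x) b| ≤ ww k q L then L.n
      else mm k q L) S‖ ≤ 1 / 8 * (1 / 2 ^ (K * nn k L)) := by
    split_ifs with h
    · refine (tay_err (q := q) ?_).trans e0
      rw [hS, nn, sum_blocks]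
      refine (abs_sum_le h).trans (le_of_eq ?_)
      have : (k : ℝ) ≠ 0 := by exact_mod_cast hk.ne'
      rw [ww]; push_cast; field_simp
    · exact e1 S (abs_sum_le fun i _ => by rw [abs_mul, abs_sg, one_mul]; exact ha i)
  choose zz hz using fun i => (dbl_spec h0 h1 i).2.2
  have e5 : exp (-(2 * Real.pi * I * r * x)) = exp (((∑ i ∈ Finset.range (nn k L),
      (1 + sg (r.testBit i)) * -(Real.pi * dbl^[i] x) : ℝ) : ℂ) * I) := by
    have h2 : (r : ℝ) = ∑ i ∈ Finset.range (nn k L), ((r.testBit i).toNat : ℝ) * 2 ^ i := by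
      have := sum_bits (nn k L) r
      rw [Nat.mod_eq_of_lt hr] at this
      exact_mod_cast this.symm
    have h3 : ∑ i ∈ Finset.range (nn k L), (1 + sg (r.testBit i)) * -(Real.pi * dbl^[i] x) =
        -(2 * Real.pi * r * x) + ((∑ i ∈ Finset.range (nn k L),
          ((r.testBit i).toNat : ℤ) * zz i : ℤ) : ℝ) * (2 * Real.pi) := by
      push_cast
      conv_rhs => rw [h2]
      rw [Finset.mul_sum, Finset.sum_mul, Finset.sum_mul, ← Finset.sum_neg_distrib,
        ← Finset.sum_add_distrib]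
      refine Finset.sum_congr rfl fun i _ => ?_
      rw [show dbl^[i] x = 2 ^ i * x - zz i by linarith only [hz i]]
      cases r.testBit i
      · simp [sg]
      · simp [sg]; ring
    rw [h3]
    generalize (∑ i ∈ Finset.range (nn k L), ((r.testBit i).toNat : ℤ) * zz i : ℤ) = n
    push_cast
    rw [add_mul, exp_add, mul_assoc (n : ℂ), exp_int_mul_two_pi_mul_I, mul_one]
    congr 1
    ring
  have e6 : ‖exp (U * I) * exp (S * I) - exp (-(2 * Real.pi * I * r * x))‖ ≤
      1 / 2 * (1 / 2 ^ (K * nn k L)) := by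
    rw [e5, ← exp_add, ← add_mul, ← ofReal_add]
    refine (norm_exp_sub _ _).trans (le_trans ?_ e2)
    rw [hU, hS, ← Finset.sum_add_distrib, ← Finset.sum_sub_distrib]
    refine abs_sum_le fun i _ => ?_
    obtain ⟨k0, k1, -⟩ := dbl_spec h0 h1 i
    rw [show ang k q L x i + sg (r.testBit i) * ang k q L x i -
        (1 + sg (r.testBit i)) * -(Real.pi * dbl^[i] x) =
        (1 + sg (r.testBit i)) * ((Real.pi - piA (mm k q L)) * dbl^[i] x) by rw [ang]; ring,
      abs_mul, abs_mul, abs_of_nonneg k0]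
    have h2 : |1 + sg (r.testBit i)| ≤ 2 := by cases r.testBit i <;> norm_num [sg]
    have h3 := piA_err (mm k q L)
    rw [← mul_one (8 / 4 ^ mm k q L : ℝ)]
    gcongr
  generalize tay (mm k q L) U = P at *
  generalize tay (if ∀ b < k, |bsum (ll k L) r (ang k q L x) b| ≤ ww k q L then L.n
    else mm k q L) S = X at *
  have h8 : (1 : ℝ) / 2 ^ (K * nn k L) ≤ 1 :=
    (div_le_one (by positivity)).2 (one_le_pow₀ (by norm_num))
  have h9 : ‖X‖ ≤ 2 := by
    have := norm_sub_norm_le X (exp (S * I))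
    rw [norm_exp_ofReal_mul_I, norm_sub_rev] at this
    linarith only [e4, h8, this]
  calc _ = ‖-((exp (U * I) - P) * X) - exp (U * I) * (exp (S * I) - X) +
        (exp (U * I) * exp (S * I) - exp (-(2 * Real.pi * I * r * x)))‖ := by congr 1; ring
    _ ≤ ‖exp (U * I) - P‖ * ‖X‖ + ‖exp (S * I) - X‖ + _ := by
        refine (norm_add_le _ _).trans (add_le_add_left ((norm_sub_le _ _).trans ?_) _)
        rw [norm_neg, norm_mul, norm_mul, norm_exp_ofReal_mul_I, one_mul]
    _ ≤ 1 / 8 * (1 / 2 ^ (K * nn k L)) * 2 + 1 / 8 * (1 / 2 ^ (K * nn k L)) +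
        1 / 2 * (1 / 2 ^ (K * nn k L)) := by gcongr
    _ ≤ _ := by
        have : (0 : ℝ) ≤ 1 / 2 ^ (K * nn k L) := by positivity
        linarith only [this]

/-- the number of exceptional pairs, summed over all rows -/
theorem sum_hits (hk : 0 < k) (hE : 0 < L.n) {m : ℕ} (a : ℕ → ℕ → ℝ) (ha : ∀ j < m, ∀ i, |a j i| ≤ 4) :
    ∑ r ∈ Finset.range (2 ^ nn k L), ((∑ b ∈ Finset.range k, ∑ j ∈ Finset.range m,
      if ww k q L < |bsum (ll k L) r (a j) b| then 1 else 0 : ℕ) : ℝ) ≤
      k * (m * (2 * 2 ^ nn k L * Real.exp (-(L.n / (1024 * k ^ 3 * 4 ^ q))))) := by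
  have hk' : (0 : ℝ) < k := by exact_mod_cast hk
  have hE' : (0 : ℝ) < L.n := by exact_mod_cast hE
  push_cast
  rw [Finset.sum_comm]
  refine (Finset.sum_le_card_nsmul _ _ _ fun b hb => ?_).trans (by rw [Finset.card_range, nsmul_eq_mul])
  rw [Finset.sum_comm]
  refine (Finset.sum_le_card_nsmul _ _ _ fun j hj => ?_).trans (by rw [Finset.card_range, nsmul_eq_mul])
  refine (hoeff (o := b * ll k L) ?_ (by unfold ll; positivity) (ha j (Finset.mem_range.1 hj))
    (by unfold ww; positivity)).trans (le_of_eq ?_)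
  · rw [nn, mul_comm _ k, ← Nat.succ_mul]
    exact Nat.mul_le_mul_right _ (Finset.mem_range.1 hb)
  · congr 3
    rw [ww, ll, show (4 : ℝ) ^ q = (2 ^ q) ^ 2 by rw [← pow_mul, mul_comm, pow_mul]; norm_num]
    push_cast
    field_simp
    norm_num

end

end Pool.Agent.MP_d958de_lc.H67

end

-- part MP_d958de_lc.H67.Cost
section

/-! The running time of the algorithm on the real RAM. -/

set_option linter.unusedSectionVars false

namespace Pool.Agent.MP_d958de_lc.H67

open Pool.Agent.MP_0cee90_lc.H63F Complex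

noncomputable section

instance : Enc ℂ := ⟨fun x => enc (x.re, x.im)⟩
instance : Lit (0 : ℂ) := ⟨(inferInstance : Lit ((0 : ℝ), (0 : ℝ))).h⟩
instance : Lit (1 : ℂ) := ⟨(inferInstance : Lit ((1 : ℝ), (0 : ℝ))).h⟩
instance : Lit I := ⟨(inferInstance : Lit ((0 : ℝ), (1 : ℝ))).h⟩

variable {α β : Type} [Enc α] [Enc β] {κ : ℕ} {s : α → ℕ}

@[fun_prop] theorem tc_re {f : α → ℂ} (h : TC κ s f) : TC κ s fun a => (f a).re :=
  TC.fst (f := fun a => ((f a).re, (f a).im)) h
@[fun_prop] theorem tc_im {f : α → ℂ} (h : TC κ s f) : TC κ s fun a => (f a).im :=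
  TC.snd (f := fun a => ((f a).re, (f a).im)) h
@[fun_prop] theorem tc_mk {f g : α → ℝ} (h : TC κ s f) (h' : TC κ s g) :
    TC κ s fun a => (⟨f a, g a⟩ : ℂ) := h.prodMk h'
@[fun_prop] theorem tc_ofReal {f : α → ℝ} (h : TC κ s f) : TC κ s fun a => (f a : ℂ) :=
  h.prodMk (TC.const (0 : ℝ))
@[fun_prop] theorem tc_addC {f g : α → ℂ} (h : TC κ s f) (h' : TC κ s g) :
    TC κ s fun a => f a + g a :=
  TC.comp (g := fun p : ℂ × ℂ => (⟨p.1.re + p.2.re, p.1.im + p.2.im⟩ : ℂ)) (by fun_prop) (h.prodMk h')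
@[fun_prop] theorem tc_subC {f g : α → ℂ} (h : TC κ s f) (h' : TC κ s g) :
    TC κ s fun a => f a - g a :=
  TC.comp (g := fun p : ℂ × ℂ => (⟨p.1.re - p.2.re, p.1.im - p.2.im⟩ : ℂ)) (by fun_prop) (h.prodMk h')
@[fun_prop] theorem tc_mulC {f g : α → ℂ} (h : TC κ s f) (h' : TC κ s g) :
    TC κ s fun a => f a * g a :=
  TC.comp (g := fun p : ℂ × ℂ => (⟨p.1.re * p.2.re - p.1.im * p.2.im,
    p.1.re * p.2.im + p.1.im * p.2.re⟩ : ℂ)) (by fun_prop) (h.prodMk h')

@[fun_prop] theorem tc_sumC {l : α → List ℂ} (hl : LL κ s l) : TC κ s fun a => (l a).sum :=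
  (TC.foldl (g := fun _ c x => c + x) (by fun_prop) hl (TC.const 0)).of_eq fun a => by
    rw [List.sum_eq_foldl]
@[fun_prop] theorem tc_sumR {l : α → List ℝ} (hl : LL κ s l) : TC κ s fun a => (l a).sum :=
  (TC.foldl (g := fun _ c x => c + x) (by fun_prop) hl (TC.const 0)).of_eq fun a => by
    rw [List.sum_eq_foldl]

@[fun_prop] theorem tc_cast {f : α → ℕ} (h : NN κ s f) : TC κ s fun a => (f a : ℝ) :=
  (TC.iterate (g := fun _ (c : ℝ) => c + 1) (by fun_prop) h (TC.const 0)).of_eq fun a => by simp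

theorem length_gen (E : ℕ) (f : ℝ → ℂ → ℂ) : (gen E f).length = E := by
  unfold gen
  induction E with
  | zero => rfl
  | succ E ih => rw [Function.iterate_succ_apply']; simp [ih]

theorem ll_gen {E : α → ℕ} {f : α → ℝ → ℂ → ℂ} (hE : NN κ s E)
    (hf : TC κ z fun p : α × ℝ × ℂ => f p.1 p.2.1 p.2.2) : LL κ s fun a => gen (E a) (f a) :=
  ⟨(TC.iterate (g := fun a (p : (ℕ × ℝ) × ℂ × List (ℕ × ℂ)) =>
    ((p.1.1 + 1, p.1.2 + 1), f a (p.1.2 + 1) p.2.1, (p.1.1, p.2.1) :: p.2.2)) (by fun_prop) hE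
    (TC.const (((0 : ℕ), (0 : ℝ)), (1 : ℂ), ([] : List (ℕ × ℂ))))).snd.snd,
    hE.2.le fun _ => (length_gen ..).le⟩

@[fun_prop] theorem ll_cp {E : α → ℕ} {x : α → ℝ} (hE : NN κ z E) (hx : TC κ z x) :
    LL κ z fun a => cp (E a) (x a) := ll_gen hE (by fun_prop)
@[fun_prop] theorem tc_cp {E : α → ℕ} {x : α → ℝ} (hE : NN κ z E) (hx : TC κ z x) :
    TC κ z fun a => cp (E a) (x a) := (ll_cp hE hx).1
@[fun_prop] theorem tc_rp {E : α → ℕ} {x : α → ℝ} (hE : NN κ z E) (hx : TC κ z x) :
    TC κ z fun a => rp (E a) (x a) := (ll_gen hE (by fun_prop)).1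
@[fun_prop] theorem tc_tay {E : α → ℕ} {x : α → ℝ} (hE : NN κ z E) (hx : TC κ z x) :
    TC κ z fun a => tay (E a) (x a) := by unfold tay; fun_prop

theorem NN_cp {g : β → ℕ} {u : β → ℕ} {f : α → β} (hg : NN κ u g) (hf : TC κ z f) :
    NN κ (fun a => u (f a)) fun a => g (f a) := ⟨hg.1.cp hf, hg.2.comp hf⟩

theorem ll_feat {ρ E : α → ℕ} {ps : α → List (List (ℕ × ℂ))} (hρ : NN κ s ρ) (hE : NN κ z E)
    (hp : LL κ z ps) : LL κ s fun a => feat (ρ a) (E a) (ps a) := by
  refine LL.map (g := fun _ (x : ℕ × ℂ) => x.2) (by fun_prop) (LL.take hρ (TC.foldlB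
    (g := fun a st p => stp (E a) (st.take (ρ a)) (p.take (E a))) ?_ hp (TC.const _)))
  have := NN_cp hρ (f := fun p : α × List (ℕ × ℂ) × List (ℕ × ℂ) => p.1) (by fun_prop)
  unfold stp
  refine TC.flatMap ?_ (LL.take this (by fun_prop))
  fun_prop

@[fun_prop] theorem tc_dotR {u v : α → List ℝ} (hu : LL κ s u) (hv : TC κ s v) :
    TC κ s fun a => dot (u a) (v a) := by unfold dot; fun_prop
theorem tc_dotC {u v : α → List ℂ} (hu : LL κ s u) (hv : TC κ s v) :
    TC κ s fun a => dot (u a) (v a) := by unfold dot; fun_prop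

theorem tc_wvec {ρ E N : α → ℕ} {t : α → ℕ} {cols : α → List Col} (hρ : NN κ t ρ) (hE : NN κ z E)
    (hN : NN κ z N) (hc : LL κ s cols) :
    TC κ (fun a => (s a + 1) * (t a + 1)) fun a => wvec (ρ a) (E a) (N a) (cols a) := by
  refine TC.foldlG (u := fun a _ => t a) (g := fun a w (c : Col) =>
    ((feat (ρ a) (E a) ((c.1.take (N a)).map (cp (E a)))).zip w).map fun p => p.2 + c.2 * p.1) ?_
    (hc.1.mono 1 fun _ => le_P1 ..) ((TC.map (g := fun _ _ => (0 : ℂ)) (by fun_prop)
      (LL.range hρ)).mono 1 fun _ => le_P2 ..) (.len_P hc)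
  have := NN_cp hρ (f := fun p : α × List ℂ × Col => p.1) (by fun_prop)
  refine TC.map ?_ (LL.zip (ll_feat this (by fun_prop) (by fun_prop)) (by fun_prop))
  fun_prop

@[fun_prop] theorem ll_bf {N r : α → ℕ} (hN : NN κ z N) (hr : TC κ z r) :
    LL κ z fun a => bf (N a) (r a) := by
  have h : LL κ z fun a => pw (N a) :=
    ⟨(TC.iterate (g := fun _ (p : ℕ × List ℕ) => (p.1 + p.1, p.1 :: p.2)) (by fun_prop) hN
      (TC.const ((1 : ℕ), ([] : List ℕ)))).snd, hN.2.le fun _ => (length_pw _).le⟩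
  refine ⟨?_, hN.2.le fun _ => (length_bf ..).le⟩
  unfold bf
  fun_prop
@[fun_prop] theorem tc_bf {N r : α → ℕ} (hN : NN κ z N) (hr : TC κ z r) :
    TC κ z fun a => bf (N a) (r a) := (ll_bf hN hr).1
@[fun_prop] theorem tc_valN {l : α → List Bool} (hl : LL κ z l) : TC κ z fun a => valN (l a) := by
  unfold valN; fun_prop
@[fun_prop] theorem tc_valR {l : α → List Bool} (hl : LL κ z l) : TC κ z fun a => valR (l a) := by
  unfold valR; fun_prop
@[fun_prop] theorem tc_sg {b : α → Bool} (h : TC κ z b) : TC κ z fun a => sg (b a) := by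
  unfold sg; fun_prop
@[fun_prop] theorem tc_dbl {x : α → ℝ} (h : TC κ z x) : TC κ z fun a => dbl (x a) := by
  unfold dbl; fun_prop
@[fun_prop] theorem ll_ths {N : α → ℕ} {x : α → ℝ} (hN : NN κ z N) (hx : TC κ z x) :
    LL κ z fun a => ths (N a) (x a) :=
  LL.reverse ⟨(TC.iterate (g := fun _ (p : ℝ × List ℝ) => (dbl p.1, p.1 :: p.2)) (by fun_prop) hN
    (hx.prodMk (TC.const []))).snd, hN.2.le fun a => by
      have := congrArg List.length (ths_eq (N a) (x a))
      simp only [ths, List.length_reverse, List.length_map, List.length_range] at this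
      exact this.le⟩
@[fun_prop] theorem tc_atn {M : α → ℕ} {x : α → ℝ} (hM : NN κ z M) (hx : TC κ z x) :
    TC κ z fun a => atn (M a) (x a) := by unfold atn; fun_prop
@[fun_prop] theorem tc_piA {M : α → ℕ} (hM : NN κ z M) : TC κ z fun a => piA (M a) := by
  unfold piA; fun_prop

variable (k q : ℕ) {L : α → Lam}

@[fun_prop] theorem nn_ll (h : TC 1 z L) : NN 1 z fun a => ll k (L a) := by unfold ll; fun_prop
@[fun_prop] theorem nn_nn (h : TC 1 z L) : NN 1 z fun a => nn k (L a) := by unfold nn; fun_prop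
@[fun_prop] theorem nn_mm (h : TC 1 z L) : NN 1 z fun a => mm k q (L a) := by unfold mm; fun_prop
@[fun_prop] theorem tc_ww (h : TC 1 z L) : TC 1 z fun a => ww k q (L a) :=
  (tc_cast (NN.lam h)).divR (TC.const _)
@[fun_prop] theorem ll_aL {d c : α → ℕ} (h : TC 1 z L) (hd : TC 1 z d) (hc : TC 1 z c) :
    LL 1 z fun a => aL k q (L a) (d a) (c a) := by unfold aL; fun_prop
@[fun_prop] theorem tc_col {d : α → ℕ} {p : α → ℕ × ℝ × ℝ} (h : TC 1 z L) (hd : TC 1 z d)
    (hp : TC 1 z p) : TC 1 z fun a => col k q (L a) (d a) (p a) := by unfold col; fun_prop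
@[fun_prop] theorem ll_sL {N r : α → ℕ} (hN : NN κ z N) (hr : TC κ z r) :
    LL κ z fun a => sL (N a) (r a) := by unfold sL; fun_prop
@[fun_prop] theorem ll_blk {b : α → ℕ} {l : α → List β} (h : TC 1 z L) (hb : TC 1 z b)
    (hl : TC 1 z l) : LL 1 z fun a => blk k (L a) (b a) (l a) := by unfold blk chk; fun_prop

theorem tc_trees {B t : α → ℕ} {cols : α → List Col} (h : TC 1 z L) (hB : NN 1 t B)
    (hc : LL 1 s cols) :
    TC 1 (fun a => (t a + 1) * (s a + 1)) fun a => trees k q (L a) (B a) (cols a) := by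
  refine (LL.mapB (g := fun a b => (b, mkT ((List.range (B a)).map
    fun u => (bad k q (L a) (cols a) b u, u)) [])) ?_ (LL.range (NN.const k))).1
  refine TC.prodMk (by fun_prop) (TC.mkT (LL.mapP (s := fun p : α × ℕ => t p.1)
    (t := fun p : α × ℕ => s p.1) (g := fun (p : α × ℕ) u => (bad k q (L p.1) (cols p.1) p.2 u, u))
    (TC.prodMk ?_ (by fun_prop)) (LL.range (NN_cp hB (by fun_prop)))) (TC.const _))
  unfold bad
  exact TC.filter (by fun_prop) (hc.cp (f := fun p : (α × ℕ) × ℕ => p.1.1) (by fun_prop))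

@[fun_prop] theorem tc_look {r : α → ℕ} {T : α → ℕ × BT ℕ (List Col)} (h : TC 1 z L)
    (hr : TC 1 z r) (hT : TC 1 z T) : TC 1 z fun a => look k (L a) (r a) (T a) := by
  unfold look; fun_prop
@[fun_prop] theorem tc_mu {u v : α → List ℝ} (h : TC 1 z L) (hu : TC 1 z u) (hv : TC 1 z v) :
    TC 1 z fun a => mu k q (L a) (u a) (v a) := by unfold mu; fun_prop
@[fun_prop] theorem tc_fix {u : α → List ℝ} {c : α → Col} (h : TC 1 z L) (hu : LL 1 z u)
    (hc : TC 1 z c) : TC 1 z fun a => fix k q (L a) (u a) (c a) := by unfold fix; fun_prop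

theorem tc_corr {r : α → ℕ} {T : α → List (ℕ × BT ℕ (List Col))} (h : TC 1 z L) (hr : TC 1 z r)
    (hT : TC 1 z T) : TC 1 (fun a => hits k (L a) (T a) (r a))
      fun a => corr k q (L a) (T a) (r a) := by
  refine tc_sumC (LL.mapG (u := fun a x => (look k (L a) (r a) x).length)
    (g := fun a x => ((look k (L a) (r a) x).map (fix k q (L a) (sL (nn k (L a)) (r a)))).sum)
    (tc_sumC (LL.map (by fun_prop) ⟨TC.wk (by fun_prop), .refl⟩)) (TC.wk (by fun_prop)) .refl)

theorem tc_row {ρ r : α → ℕ} {W : α → List ℂ} {T : α → List (ℕ × BT ℕ (List Col))} (h : TC 1 z L)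
    (hρ : TC 1 z ρ) (hW : TC 1 z W) (hr : TC 1 z r) (hT : TC 1 z T) :
    TC 1 (fun a => ρ a + hits k (L a) (T a) (r a))
      fun a => row k q (L a) (ρ a) (W a) (T a) (r a) :=
  tc_addC ((tc_dotC (ll_feat (NN.self hρ) (by fun_prop) (by fun_prop)) hW.wk).mono 1
    fun _ => by omega) ((tc_corr k q h hr hT).mono 1 fun _ => by omega)

/-- scale, rows, columns, coordinates of the vector -/
abbrev Inp : Type := Lam × Tab true × Tab false × List ℝ

def colsOf (a : Inp) : List Col :=
  (((List.range (a.2.2.1.f 0)).map fun i => a.2.2.1.f (i + 1)).zip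
    ((a.2.2.2.take (a.2.2.1.f 0)).zip (a.2.2.2.drop (a.2.2.1.f 0)))).map (col k q a.1 (a.2.1.f 0))

def bb (L : Lam) : ℕ := 1 <<< ll k L
def rho (L : Lam) : ℕ := bb k L <<< ll k L

def rowsOf (a : Inp) : List ℕ := (List.range (a.2.2.1.f 0)).map fun i => a.2.1.f (i + 1)

def outOf (a : Inp) : List ℂ :=
  (rowsOf a).map (row k q a.1 (rho k a.1) (wvec (rho k a.1) a.1.n (nn k a.1) (colsOf k q a))
    (trees k q a.1 (bb k a.1) (colsOf k q a)))

def costOf (a : Inp) : ℕ := (a.2.2.1.f 0 + 1) * (rho k a.1 + 1) +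
  ((rowsOf a).map fun r =>
    rho k a.1 + hits k a.1 (trees k q a.1 (bb k a.1) (colsOf k q a)) r + 1).sum

theorem tc_rows : TC 1 (fun p : (Lam × List ℕ) × List ℂ × List (ℕ × BT ℕ (List Col)) =>
    (p.1.2.map fun r => rho k p.1.1 + hits k p.1.1 p.2.2 r + 1).sum)
    fun p => p.1.2.map (row k q p.1.1 (rho k p.1.1) p.2.1 p.2.2) := by
  have hρ : TC 1 z fun L => rho k L := by unfold rho bb; fun_prop
  refine (LL.mapG (u := fun (p : (Lam × List ℕ) × List ℂ × List (ℕ × BT ℕ (List Col))) r =>
    rho k p.1.1 + hits k p.1.1 p.2.2 r) (l := fun p => p.1.2)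
    (g := fun p => row k q p.1.1 (rho k p.1.1) p.2.1 p.2.2) (tc_row k q ?_ ?_ ?_ ?_ ?_) ?_ .refl).1 <;>
  fun_prop

theorem tc_pre : TC 1 (fun p : Lam × List Col => (p.2.length + 1) * (rho k p.1 + 1)) fun p =>
    (wvec (rho k p.1) p.1.n (nn k p.1) p.2, trees k q p.1 (bb k p.1) p.2) := by
  have hb : TC 1 z fun L => bb k L := by unfold bb; fun_prop
  have hρ : TC 1 z fun L => rho k L := by unfold rho; fun_prop
  have h2 : LL 1 (fun p : Lam × List Col => p.2.length) fun p => p.2 := ⟨by fun_prop, .refl⟩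
  refine TC.prodMk (tc_wvec (NN.self (by fun_prop)) (by fun_prop) (by fun_prop) h2)
    ((tc_trees k q (by fun_prop) (NN.self (k := fun p : Lam × List Col => bb k p.1) (by fun_prop))
      h2).mono 1 fun p => ?_)
  have : bb k p.1 + 1 ≤ rho k p.1 + 1 := by
    rw [rho, Nat.shiftLeft_eq]
    exact Nat.add_le_add_right (Nat.le_mul_of_pos_right _ (by positivity)) 1
  have := Nat.mul_le_mul_left (p.2.length + 1) this
  rw [mul_comm (bb k p.1 + 1)]
  omega

theorem tc_out : TC 1 (costOf k q) (outOf k q) := by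
  have hm : NN 1 (fun a : Inp => a.2.2.1.f 0) fun a => a.2.2.1.f 0 := NN.self (by fun_prop)
  have hc : LL 1 (fun a : Inp => a.2.2.1.f 0) (colsOf k q) := by unfold colsOf; fun_prop
  have hr : LL 1 (fun a : Inp => a.2.2.1.f 0) rowsOf := by unfold rowsOf; fun_prop
  have le : ∀ a : Inp, a.2.2.1.f 0 ≤ 1 * (costOf k q a + 1) := fun a => by
    have := Nat.le_mul_of_pos_right (a.2.2.1.f 0 + 1) (Nat.succ_pos (rho k a.1))
    rw [costOf]
    simp only [Nat.succ_eq_add_one] at this
    omega
  have h1 : TC 1 (costOf k q) fun a => a.1 := by fun_prop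
  have h2 := (tc_pre k q).compC (h1.prodMk (hc.1.mono 1 le)) 1 fun a => by
    have : (colsOf k q a).length + 1 ≤ a.2.2.1.f 0 + 1 := by simp only [colsOf, List.length_map, List.length_zip, List.length_range, List.length_take, List.length_drop, Nat.min_assoc, tsub_le_iff_right, le_add_iff_nonneg_right, zero_le, inf_of_le_right, inf_le_left, add_le_add_iff_right]
    have := Nat.mul_le_mul_right (rho k a.1 + 1) this
    rw [costOf]
    dsimp only
    omega
  have h3 := (tc_rows k q).compC ((h1.prodMk (hr.1.mono 1 le)).prodMk h2) 1 fun a => by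
    rw [costOf]
    dsimp only
    omega
  exact h3.of_eq fun a => by rw [outOf]

end

end Pool.Agent.MP_d958de_lc.H67

end
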