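import Pool.Agent.MP_d958de_lc.Mg.H67_Cost
import Pool.Agent.MP_d958de_lc.H67.Defs

-- part MP_d958de_lc.H67.Mem
section

/-! Reading the input arrays and writing the output arrays. -/

namespace Pool.Agent.MP_d958de_lc.H67

open Pool.Agent.MP_0cee90_lc.H63F

noncomputable section

theorem run_loop {b : Test} {s : Prog} (J : ℕ → Mem → Prop) (c : ℕ) (h0 : ∀ m, J 0 m → ¬ b.ev m)
    (hs : ∀ n m, J (n + 1) m → b.ev m ∧ ∃ m', Run s m m' c ∧ J n m') (n : ℕ) (m : Mem) (h : J n m) :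
    ∃ m', Run (.loop b s) m m' (n * (c + 1) + 1) ∧ J 0 m' := by
  induction n generalizing m with
  | zero => exact ⟨m, by simpa using Run.stop (h0 m h), h⟩
  | succ n ih =>
    obtain ⟨h1, m1, h2, h3⟩ := hs n m h
    obtain ⟨m2, h4, h5⟩ := ih m1 h3
    refine ⟨m2, ?_, h5⟩
    rw [show (n + 1) * (c + 1) + 1 = c + (n * (c + 1) + 1) + 1 by ring]
    exact Run.more h1 h2 h4

/-- add one to register `7`, multiply register `8` by `2 ^ g` -/
def dblP : ℕ → Prog
  | 0 => .setN 0 (.lit 7) (.add (reg 7) (.lit 1))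
  | g + 1 => .seq (.setN 0 (.lit 8) (.add (reg 8) (reg 8))) (dblP g)

/-- only the registers `7` and `8` differ -/
def Agr (m m' : Mem) : Prop :=
  m'.R = m.R ∧ ∀ k i, ¬ (k = 0 ∧ (i = 7 ∨ i = 8)) → m'.N k i = m.N k i

theorem dblP_run (g : ℕ) (m : Mem) : ∃ m', Run (dblP g) m m' (g + 1) ∧ Agr m m' ∧
    m'.N 0 7 = m.N 0 7 + 1 ∧ m'.N 0 8 = m.N 0 8 * 2 ^ g := by
  induction g generalizing m with
  | zero =>
    exact ⟨_, .setN .., ⟨rfl, fun k i h => by simp only [Mem.setN, NE.ev]; rw [if_neg]; tauto⟩,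
      by simp [Mem.setN, NE.ev, reg], by simp [Mem.setN, NE.ev]⟩
  | succ g ih =>
    obtain ⟨m', h1, h2, h3, h4⟩ := ih (m.setN 0 8 (m.N 0 8 + m.N 0 8))
    refine ⟨m', ?_, ⟨h2.1, fun k i h => (h2.2 k i h).trans ?_⟩, by simpa [Mem.setN] using h3, ?_⟩
    · rw [add_comm (g + 1)]
      exact Run.seq (.setN 0 (.lit 8) (.add (reg 8) (reg 8)) m) h1
    · simp only [Mem.setN]; rw [if_neg]; tauto
    · rw [h4]; simp only [Mem.setN, and_self, if_true]; ring

def scaleP (g : ℕ) : Prog := .seq (.setN 0 (.lit 7) (.lit 1)) <| .seq (.setN 0 (.lit 8) (.lit 1))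
  (.loop (.ltN (reg 8) (.load 5 (.lit 0))) (dblP g))

theorem scaleP_run {g : ℕ} (hg : 0 < g) (m : Mem) : ∃ m', Run (scaleP g) m m'
    (Nat.clog (2 ^ g) (m.N 5 0) * (g + 2) + 3) ∧ Agr m m' ∧
    m'.N 0 7 = Nat.clog (2 ^ g) (m.N 5 0) + 1 := by
  have hb : 1 < 2 ^ g := Nat.one_lt_two_pow hg.ne'
  obtain ⟨m', h1, h2, j, h3, h4, -⟩ := run_loop (b := .ltN (reg 8) (.load 5 (.lit 0))) (s := dblP g)
    (fun n m' => Agr m m' ∧ ∃ j, j + n = Nat.clog (2 ^ g) (m.N 5 0) ∧ m'.N 0 7 = j + 1 ∧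
      m'.N 0 8 = (2 ^ g) ^ j) (g + 1)
    (fun m' ⟨a, j, b, _, d⟩ => by
      simp only [Test.ev, NE.ev, reg, d, a.2 5 0 (by simp), ← Nat.lt_clog_iff_pow_lt hb]
      omega)
    (fun n m' ⟨a, j, b, c, d⟩ => by
      obtain ⟨m'', k1, k2, k3, k4⟩ := dblP_run g m'
      refine ⟨?_, m'', k1, ⟨k2.1.trans a.1, fun k i h => (k2.2 k i h).trans (a.2 k i h)⟩, j + 1,
        by omega, by omega, by rw [k4, d, pow_succ]⟩
      simp only [Test.ev, NE.ev, reg, d, a.2 5 0 (by simp), ← Nat.lt_clog_iff_pow_lt hb]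
      omega)
    (Nat.clog (2 ^ g) (m.N 5 0)) ((m.setN 0 7 1).setN 0 8 1)
    ⟨⟨rfl, fun k i h => by simp only [Mem.setN]; rw [if_neg, if_neg] <;> tauto⟩, 0, by simp,
      by simp [Mem.setN], by simp [Mem.setN]⟩
  refine ⟨m', ?_, h2, by omega⟩
  have := Run.seq (.setN 0 (.lit 7) (.lit 1) m) (.seq (.setN 0 (.lit 8) (.lit 1) _) h1)
  rwa [show 1 + (1 + (Nat.clog (2 ^ g) (m.N 5 0) * (g + 1 + 1) + 1)) =
    Nat.clog (2 ^ g) (m.N 5 0) * (g + 2) + 3 by ring] at this

def loadP : Prog := .seq (.setN 0 (.lit 9) (.add (.load 7 (.lit 0)) (.load 7 (.lit 0)))) <|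
  .loop (.ltN (.lit 0) (reg 9)) <| .seq (.setN 0 (.lit 9) (.sub (reg 9) (.lit 1))) <|
    .seq (alloc (.lit 0) (.load 0 (reg 9)) (.lit 0) (.lit 0) 4)
      (alloc (.lit 0) (.lit 0) (reg 4) (reg 0) 0)

theorem loadP_run (m : Mem) (h : m.N 0 0 = 0) : ∃ m', Run loadP m m' (36 * m.N 7 0 + 2) ∧ Ext m m' ∧
    St m' (enc ((List.range (2 * m.N 7 0)).map (m.R 0))) := by
  have e0 := ext_set m (i := 9) (m.N 7 0 + m.N 7 0) (by simp) (by simp)
  obtain ⟨m', h1, h2, -, -, h3⟩ := run_loop (b := .ltN (.lit 0) (reg 9))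
    (s := .seq (.setN 0 (.lit 9) (.sub (reg 9) (.lit 1))) <|
      .seq (alloc (.lit 0) (.load 0 (reg 9)) (.lit 0) (.lit 0) 4)
      (alloc (.lit 0) (.lit 0) (reg 4) (reg 0) 0))
    (fun n m' => Ext m m' ∧ m'.N 0 9 = n ∧ n ≤ 2 * m.N 7 0 ∧
      St m' (enc ((List.range' n (2 * m.N 7 0 - n)).map (m.R 0)))) (1 + (8 + 8))
    (fun m' ⟨_, b, _⟩ => by simp [Test.ev, NE.ev, reg, b])
    (fun n m' ⟨a, b, c, d⟩ => by
      refine ⟨by simp [Test.ev, NE.ev, reg, b], ?_⟩
      have e1 := ext_set m' (i := 9) n (by simp) (by simp)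
      obtain ⟨m2, r2, e2, a2, b2, c2, d2, f2, g2, i2⟩ := alloc_run (m'.setN 0 9 n) (n := .lit 0)
        (.load 0 (reg 9)) (.lit 0) (r := .lit 0) (d := 4) trivial trivial (by omega) (by omega)
      obtain ⟨m3, r3, e3, a3, b3, c3, d3, f3, g3, i3⟩ := alloc_run m2 (n := .lit 0)
        (.lit 0) (reg 4) (r := reg 0) (d := 0) trivial ⟨by omega, trivial⟩ (by omega) (by omega)
      have r1 := Run.setN 0 (.lit 9) (.sub (reg 9) (.lit 1)) m'
      rw [show (NE.sub (reg 9) (.lit 1)).ev m' = n by simp [NE.ev, reg, b]] at r1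
      refine ⟨m3, .seq r1 (.seq r2 r3), ((a.trans e1).trans e2).trans e3, ?_, by omega, ?_⟩
      · rw [a3 9 (by omega) (by omega), a2 9 (by omega) (by omega)]
        simp [Mem.setN]
      · rw [show 2 * m.N 7 0 - n = 2 * m.N 7 0 - (n + 1) + 1 by omega, List.range'_succ,
          List.map_cons]
        refine ⟨c3, b3.le, d3, f3.trans Int.cast_zero, g3 ▸ Rep.ext e3 ⟨c2, b2.le, d2, ?_, g2, i2⟩,
          i3 ▸ Rep.ext e3 ?_⟩
        · rw [show m2.R 1 ((reg 4).ev m2) = _ from f2, ← (a.trans e1).2.2.2.2.2]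
          simp [RE.ev, NE.ev, reg, Mem.setN]
        · rw [show (reg 0).ev m2 = m'.N 0 0 from (a2 0 (by omega) (by omega)).trans
            (by simp [Mem.setN])]
          exact Rep.ext (e1.trans e2) d)
    (2 * m.N 7 0) (m.setN 0 9 (m.N 7 0 + m.N 7 0))
    ⟨e0, by simp [Mem.setN, two_mul], le_rfl, by
      rw [Nat.sub_self]; exact (show (m.setN 0 9 _).N 0 0 = m.N 0 0 by simp [Mem.setN]).trans h⟩
  refine ⟨m', ?_, h2, by simpa only [Nat.sub_zero, ← List.range_eq_range'] using h3⟩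
  have := Run.seq (.setN 0 (.lit 9) (.add (.load 7 (.lit 0)) (.load 7 (.lit 0))) m) h1
  rwa [show 1 + (2 * m.N 7 0 * (1 + (8 + 8) + 1) + 1) = 36 * m.N 7 0 + 2 by ring] at this

def wrapP : Prog := alloc (.lit 0) (.lit 0) (.lit 1) (reg 0) 0

theorem wrapP_run {m : Mem} {l r : V} (hl : Rep m l 1) (hr : St m r) :
    ∃ m', Run wrapP m m' 8 ∧ St m' (.node 0 0 l r) ∧ Ext m m' := by
  obtain ⟨m', h1, h2, h3⟩ := alloc_st (m := m) (n := .lit 0) (.lit 0) (l := .lit 1) (r := reg 0)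
    trivial ⟨by omega, trivial⟩ hl hr
  exact ⟨m', h1, by simpa [NE.ev, RE.ev] using h2, h3.1⟩

def storeL : Prog := .loop (.ltN (.lit 0) (reg 0)) <|
  .seq (.setR 2 (reg 8) (.load 1 (.load 2 (.load 2 (reg 0))))) <|
  .seq (.setR 3 (reg 8) (.load 1 (.load 3 (.load 2 (reg 0))))) <|
  .seq (.setN 0 (.lit 8) (.add (reg 8) (.lit 1))) (.setN 0 (.lit 0) (.load 3 (reg 0)))

theorem storeL_run (l : List ℂ) (m : Mem) (h : St m (enc l)) : ∃ m', Run storeL m m'
    (5 * l.length + 1) ∧ (∀ i (hi : i < l.length), output m' (m.N 0 8 + i) = l[i]) ∧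
    ∀ j < m.N 0 8, output m' j = output m j := by
  induction l generalizing m with
  | nil =>
    have : m.N 0 0 = 0 := h
    exact ⟨m, .stop (by simp [Test.ev, NE.ev, reg, this]), by simp, fun _ _ => rfl⟩
  | cons x l ih =>
    have h1 : m.R 1 (m.N 2 (m.N 2 (m.N 0 0))) = x.re := h.2.2.2.2.1.2.2.2.2.1.2.2.2.1
    have h2 : m.R 1 (m.N 3 (m.N 2 (m.N 0 0))) = x.im := h.2.2.2.2.1.2.2.2.2.2.2.2.2.1
    let m4 := (((m.setR 2 (m.N 0 8) x.re).setR 3 (m.N 0 8) x.im).setN 0 8 (m.N 0 8 + 1)).setN 0 0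
      (m.N 3 (m.N 0 0))
    have e : Ext m m4 := by simp [m4, MP_0cee90_lc.H63F.Ext, HExt, Mem.setN, Mem.setR]
    have e0 : m4.N 0 0 = m.N 3 (m.N 0 0) := by simp [m4, Mem.setN]
    obtain ⟨m', r, a, b⟩ := ih m4 (by rw [St, e0]; exact Rep.ext e h.2.2.2.2.2)
    have e8 : m4.N 0 8 = m.N 0 8 + 1 := by simp [m4, Mem.setN]
    have r0 : Run (.seq (.setR 2 (reg 8) (.load 1 (.load 2 (.load 2 (reg 0))))) <|
        .seq (.setR 3 (reg 8) (.load 1 (.load 3 (.load 2 (reg 0))))) <|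
        .seq (.setN 0 (.lit 8) (.add (reg 8) (.lit 1))) (.setN 0 (.lit 0) (.load 3 (reg 0)))) m m4
        (1 + (1 + (1 + 1))) := by
      have := Run.seq (.setR 2 (reg 8) (.load 1 (.load 2 (.load 2 (reg 0)))) m) <|
        .seq (.setR 3 (reg 8) (.load 1 (.load 3 (.load 2 (reg 0)))) _) <|
        .seq (.setN 0 (.lit 8) (.add (reg 8) (.lit 1)) _) (.setN 0 (.lit 0) (.load 3 (reg 0)) _)
      convert this using 1
      simp [m4, RE.ev, NE.ev, reg, Mem.setR, Mem.setN, h1, h2]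
    refine ⟨m', ?_, fun i hi => ?_, fun j hj => (b j (by omega)).trans ?_⟩
    · have := Run.more (b := .ltN (.lit 0) (reg 0)) h.1 r0 r
      rwa [show 1 + (1 + (1 + 1)) + (5 * l.length + 1) + 1 = 5 * (l.length + 1) + 1 by ring] at this
    · rcases i with _ | i
      · exact (b _ (by omega)).trans (by simp [output, m4, Mem.setN, Mem.setR])
      · have := a i (by simpa using hi)
        rwa [e8, add_assoc, add_comm 1] at this
    · simp [output, m4, Mem.setN, Mem.setR, hj.ne]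

/-- A function on the input arrays computed with scale `clog (2 ^ g) d + 1`. -/
theorem io_run {g : ℕ} (hg : 0 < g) {t : Inp → ℕ} {f : Inp → List ℂ} (h : TC 1 t f) :
    ∃ (P : Prog) (c e : ℕ), ∀ m : Mem, m.N 0 0 = 0 → ∀ a : Inp,
      a = (⟨Nat.clog (2 ^ g) (m.N 5 0) + 1⟩, ⟨m.N 5⟩, ⟨m.N 7⟩,
        (List.range (2 * m.N 7 0)).map (m.R 0)) →
      ∃ m' j, Run P m m' j ∧ j ≤ c * (t a + m.N 7 0 + (f a).length + 1) * (a.1.n + 1) ^ e ∧
        ∀ i (hi : i < (f a).length), output m' i = (f a)[i] := by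
  obtain ⟨P, c, e, h⟩ := h
  refine ⟨.seq (scaleP g) <| .seq loadP <| .seq wrapP <| .seq wrapP <| .seq wrapP <| .seq P <|
    .seq (.setN 0 (.lit 8) (.lit 0)) storeL, c + g + 80, e + 1, fun m h0 a ha => ?_⟩
  obtain ⟨m1, r1, a1, b1⟩ := scaleP_run hg m
  have c5 : m1.N 5 = m.N 5 := funext fun i => a1.2 5 i (by simp)
  have c7 : m1.N 7 = m.N 7 := funext fun i => a1.2 7 i (by simp)
  obtain ⟨m2, r2, e2, s2⟩ := loadP_run m1 ((a1.2 0 0 (by simp)).trans h0)
  rw [c7, a1.1] at s2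
  rw [c7] at r2
  obtain ⟨m3, r3, s3, e3⟩ := wrapP_run (l := .tab false (m.N 7)) ⟨one_pos, e2.2.2.2.1.trans c7⟩ s2
  have e13 := e2.trans e3
  obtain ⟨m4, r4, s4, e4⟩ := wrapP_run (l := .tab true (m.N 5)) ⟨one_pos, e13.2.2.1.trans c5⟩ s3
  have e14 := e13.trans e4
  obtain ⟨m5, r5, s5, e5⟩ := wrapP_run (l := .lam (Nat.clog (2 ^ g) (m.N 5 0) + 1))
    ⟨one_pos, e14.2.2.2.2.1.trans b1⟩ s4
  obtain ⟨m6, j, r6, b6, s6, -⟩ := h a m5 (ha ▸ s5)
  obtain ⟨m7, r7, a7, -⟩ := storeL_run (f a) (m6.setN 0 8 0) (by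
    simpa [St, Mem.setN] using Rep.ext (ext_set m6 (i := 8) 0 (by simp) (by simp)) s6)
  refine ⟨m7, _, .seq r1 <| .seq r2 <| .seq r3 <| .seq r4 <| .seq r5 <| .seq r6 <|
    .seq (.setN ..) r7, ?_, fun i hi => by simpa [Mem.setN] using a7 i hi⟩
  have hE : a.1.n = Nat.clog (2 ^ g) (m.N 5 0) + 1 := by rw [ha]
  rw [(e14.trans e5).2.2.2.2.1, b1, ← hE, bd, one_mul] at b6
  have k1 : (a.1.n + 1) ^ e ≤ (a.1.n + 1) ^ (e + 1) := Nat.pow_le_pow_right (by omega) (by omega)
  have k2 : a.1.n + 1 ≤ (a.1.n + 1) ^ (e + 1) := Nat.le_self_pow (by omega) _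
  generalize (a.1.n + 1) ^ (e + 1) = W at *
  generalize hS : t a + m.N 7 0 + (f a).length + 1 = S
  have k3 : j ≤ c * S * W := b6.trans (by gcongr; omega)
  have k4 : Nat.clog (2 ^ g) (m.N 5 0) * (g + 2) ≤ (g + 2) * S * W := by
    rw [mul_comm, mul_assoc]
    exact Nat.mul_le_mul_left _ (le_trans (by omega) (Nat.le_mul_of_pos_left W (by omega)))
  have k5 : S ≤ S * W := Nat.le_mul_of_pos_right _ (by omega)
  have k6 : (c + g + 80) * S * W = c * S * W + (g + 2) * S * W + 78 * (S * W) := by ring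
  omega

end

end Pool.Agent.MP_d958de_lc.H67

end

-- part MP_d958de_lc.H67.Main
section

/-! The product with random rows in subquadratic expected time. -/

namespace Pool.Agent.MP_d958de_lc.H67

open Pool.Agent.MP_0cee90_lc.H63F Complex

noncomputable section

theorem el_mem {S : Finset ℕ} {i : ℕ} (h : i < S.card) : el S i ∈ S :=
  Nat.nth_mem_of_lt_card (p := (· ∈ S)) S.finite_toSet (by simpa using h)

theorem sum_el {M : Type} [AddCommMonoid M] (S : Finset ℕ) (f : ℕ → M) :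
    ∑ i ∈ Finset.range S.card, f (el S i) = ∑ r ∈ S, f r := by
  refine Finset.sum_nbij (el S) (fun i hi => el_mem (Finset.mem_range.1 hi)) (fun i hi j hj h => ?_)
    (fun r hr => ?_) fun _ _ => rfl
  · exact Nat.nth_injOn (p := (· ∈ S)) S.finite_toSet (by simpa using hi) (by simpa using hj) h
  · obtain ⟨n, h1, h2⟩ := Nat.exists_lt_card_finite_nth_eq (p := (· ∈ S)) S.finite_toSet hr
    exact ⟨n, by simpa using h1, h2⟩

theorem sum_subsets {d m : ℕ} (hm : 1 ≤ m) (hd : 1 ≤ d) (f : ℕ → ℝ) :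
    d * ∑ R ∈ (Finset.range d).powersetCard m, ∑ r ∈ R, f r =
      m * d.choose m * ∑ r ∈ Finset.range d, f r := by
  have h1 : ∑ R ∈ (Finset.range d).powersetCard m, ∑ r ∈ R, f r =
      ∑ r ∈ Finset.range d, ((d - 1).choose (m - 1) : ℝ) * f r := by
    rw [Finset.sum_congr rfl fun R hR => show ∑ r ∈ R, f r = ∑ r ∈ Finset.range d,
      if {r} ⊆ R then f r else 0 by
        rw [← Finset.sum_filter]
        refine Finset.sum_congr ?_ fun _ _ => rfl
        ext r
        simpa only [Finset.singleton_subset_iff, Finset.mem_filter, Finset.mem_range, iff_and_self] using fun h => Finset.mem_range.1 ((Finset.mem_powersetCard.1 hR).1 h),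
      Finset.sum_comm]
    refine Finset.sum_congr rfl fun r hr => ?_
    rw [← Finset.sum_filter, Finset.sum_const, Finset.card_filter_powersetCard_subset _ _ _
      (by simpa using hr) (by simpa using hm), nsmul_eq_mul]
    simp only [Finset.card_range, Finset.card_singleton]
  have h2 : (d : ℝ) * (d - 1).choose (m - 1) = m * d.choose m := by
    have := Nat.add_one_mul_choose_eq (d - 1) (m - 1)
    rw [Nat.sub_add_cancel hd, Nat.sub_add_cancel hm, mul_comm _ m] at this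
    exact_mod_cast this
  rw [h1, ← Finset.mul_sum, ← mul_assoc, h2]

theorem polylog_le (A C e : ℕ) {δ : ℝ} (hδ : 0 < δ) : ∃ c : ℝ, 0 ≤ c ∧ ∀ m E : ℕ, 1 ≤ m →
    2 ^ E ≤ 2 ^ A * m ^ C → ((E + 1 : ℕ) : ℝ) ^ e ≤ c * (m : ℝ) ^ δ := by
  have hl := Real.log_pos one_lt_two
  set η := δ / (C + 1) * Real.log 2 with hη
  have h0 : 0 < η := by positivity
  refine ⟨e.factorial * Real.exp (η * (A + 1)) / η ^ e, by positivity, fun m E hm h => ?_⟩
  have hm' : (1 : ℝ) ≤ m := by exact_mod_cast hm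
  have h1 : E * Real.log 2 ≤ A * Real.log 2 + C * Real.log m := by
    have : (2 : ℝ) ^ E ≤ 2 ^ A * m ^ C := by exact_mod_cast h
    have := Real.log_le_log (by positivity) this
    rwa [Real.log_mul (by positivity) (by positivity), Real.log_pow, Real.log_pow,
      Real.log_pow] at this
  have h2 := Real.pow_div_factorial_le_exp (η * (E + 1 : ℕ)) (by positivity) e
  have h3 : η * (E + 1 : ℕ) ≤ η * (A + 1) + Real.log m * δ := by
    have h4 := Real.log_nonneg hm'
    have h5 : δ / (C + 1) * (C * Real.log m) ≤ Real.log m * δ := by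
      rw [div_mul_eq_mul_div, div_le_iff₀ (by positivity)]
      linarith only [mul_nonneg h4 hδ.le]
    have h6 := mul_le_mul_of_nonneg_left h1 (show 0 ≤ δ / (C + 1) by positivity)
    push_cast
    rw [hη]
    linarith only [h5, h6]
  rw [Real.rpow_def_of_pos (by linarith only [hm']), div_mul_eq_mul_div, le_div_iff₀ (by positivity),
    mul_assoc, ← Real.exp_add, ← mul_pow, mul_comm _ η]
  rw [div_le_iff₀ (by positivity), mul_comm (Real.exp _)] at h2
  exact h2.trans (by gcongr)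

/-- what the program reads -/
def inp (g d : ℕ) (R C : Finset ℕ) (v : ℕ → ℂ) : Inp :=
  (⟨Nat.clog (2 ^ g) d + 1⟩, ⟨(input d R C v).N 5⟩, ⟨(input d R C v).N 7⟩,
    (List.range (2 * C.card)).map ((input d R C v).R 0))

variable {k q g d : ℕ} {R C : Finset ℕ} {v : ℕ → ℂ}

theorem rowsOf_inp : rowsOf (inp g d R C v) = (List.range C.card).map (el R) := by
  simp only [rowsOf, inp, input, ↓ reduceIte, Nat.reduceEqDiff, true_and, Nat.add_eq_zero_iff, one_ne_zero, and_false, add_tsub_cancel_right]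

theorem colsOf_inp (hd : d < 2 ^ nn k (inp g d R C v).1) (hC : C ⊆ Finset.range d) :
    colsOf k q (inp g d R C v) = (List.range C.card).map fun j =>
      ((List.range (nn k (inp g d R C v).1)).map (ang k q (inp g d R C v).1 (el C j / d)),
        v (el C j) * tay (mm k q (inp g d R C v).1) (∑ i ∈ Finset.range (nn k (inp g d R C v).1),
          ang k q (inp g d R C v).1 (el C j / d) i)) := by
  generalize hL : (inp g d R C v).1 = L at hd ⊢
  refine List.ext_getElem (by simp only [colsOf, inp, input, ↓ reduceIte, Nat.reduceEqDiff, true_and, Nat.add_eq_zero_iff, one_ne_zero, and_false, add_tsub_cancel_right, List.length_map, List.length_zip, List.length_range, List.length_take, List.length_drop, Nat.min_assoc, tsub_le_iff_right, le_add_iff_nonneg_right, zero_le, inf_of_le_right, inf_le_left, inf_eq_left]; omega) fun j h1 h2 => ?_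
  have hj : j < C.card := by simpa using h2
  have h3 := aL_eq (q := q) hd (Finset.mem_range.1 (hC (el_mem hj)))
  have h4 : C.card + j < 2 * C.card := by omega
  simp only [colsOf, List.getElem_map, List.getElem_zip, List.getElem_range, List.getElem_take,
    List.getElem_drop, hL, col]
  simp only [inp, input, List.getElem_map, List.getElem_range, if_true, true_and, hj, h4,
    Nat.add_sub_cancel, Nat.add_sub_cancel_left, Nat.succ_ne_zero, if_false,
    show ¬ (7 = 5) by omega, show ¬ (C.card + j < C.card) by omega, h3, sum_range]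

theorem two_pow_nn (hk : 0 < k) (hg : g = 2 * k * k) (hd : 1 ≤ d) :
    d < 2 ^ nn k (inp g d R C v).1 ∧ 2 ^ nn k (inp g d R C v).1 ≤ 2 ^ (2 * g) * d := by
  have h0 : 0 < g := by rw [hg]; positivity
  have hb : 1 < 2 ^ g := Nat.one_lt_two_pow h0.ne'
  have e : 2 ^ nn k (inp g d R C v).1 = (2 ^ g) ^ Nat.clog (2 ^ g) d * 2 ^ g := by
    rw [← pow_succ, ← pow_mul, nn, ll, mul_assoc, ← hg, mul_comm]; rfl
  have h1 := Nat.le_pow_clog hb d
  have h2 : (2 ^ g) ^ Nat.clog (2 ^ g) d ≤ 2 ^ g * d := by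
    rcases h : Nat.clog (2 ^ g) d with _ | n
    · exact Nat.mul_pos (by positivity) hd
    · rw [pow_succ']
      exact Nat.mul_le_mul_left _ (Nat.pow_lt_of_lt_clog (by omega)).le
  rw [e, two_mul g, pow_add]
  constructor <;> nlinarith only [hd, hb, h1, h2]

theorem main (C K : ℕ) : ∃ (P : Prog) (δ c : ℝ), 0 < δ ∧ ∀ (m d : ℕ) (S : Finset ℕ) (v : ℕ → ℂ),
    1 ≤ m → m ≤ d → d ≤ m ^ C → S ⊆ Finset.range d → S.card = m → ∃ T : Finset ℕ → ℕ,
      (∀ R ∈ (Finset.range d).powersetCard m, ∃ M, Run P (input d R S v) M (T R) ∧ ∀ i < m,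
        ‖output M i - ∑ c ∈ S, exp (-(2 * Real.pi * I * el R i * c / d)) * v c‖ ≤
          (∑ c ∈ S, ‖v c‖) / d ^ K) ∧
      ∑ R ∈ (Finset.range d).powersetCard m, (T R : ℝ) ≤ d.choose m * (c * (m : ℝ) ^ (2 - δ)) := by
  obtain ⟨k, hk⟩ : ∃ k, k = 4 * (C + 1) := ⟨_, rfl⟩
  obtain ⟨g, hg⟩ : ∃ g, g = 2 * k * k := ⟨_, rfl⟩
  obtain ⟨q, hq⟩ : ∃ q, q = K * (2 * k * k) + 4 := ⟨_, rfl⟩
  have k0 : 0 < k := by omega
  have g0 : 0 < g := by rw [hg]; positivity
  have k1 : (1 : ℝ) ≤ k := by exact_mod_cast k0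
  have g1 : (1 : ℝ) ≤ g := by exact_mod_cast g0
  obtain ⟨P, c, e, hP⟩ := io_run g0 (tc_out k q)
  obtain ⟨β, hβ⟩ : ∃ β : ℝ, β = 1 / (1024 * k ^ 3 * 4 ^ q) / g := ⟨_, rfl⟩
  have β0 : 0 < β := by rw [hβ]; positivity
  have β1 : β ≤ 1 / 2 := by
    have h1 : (1 : ℝ) ≤ k ^ 3 * 4 ^ q :=
      one_le_mul_of_one_le_of_one_le (one_le_pow₀ k1) (one_le_pow₀ (by norm_num))
    rw [hβ, div_div]
    exact one_div_le_one_div_of_le two_pos (by nlinarith only [g1, h1])
  obtain ⟨c', c0, hc'⟩ := polylog_le (2 * g) C e (half_pos β0)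
  refine ⟨P, β / 2, c * c' * (3 * 2 ^ g + 6 + k + k * 2 * 2 ^ (2 * g)), half_pos β0,
    fun m d S v hm hmd hdC hS hc => ?_⟩
  subst hc
  have d1 : 1 ≤ d := hm.trans hmd
  choose M T hT using fun R => hP (input d R S v) rfl (inp g d R S v) rfl
  obtain ⟨L, hL⟩ : ∃ L : Lam, ∀ R, (inp g d R S v).1 = L := ⟨_, fun _ => rfl⟩
  have hE : 0 < L.n := by rw [← hL ∅]; exact Nat.succ_pos _
  obtain ⟨n1, n2⟩ := hL ∅ ▸ two_pow_nn (R := ∅) (C := S) (v := v) k0 hg d1
  have hb : bb k L = 2 ^ ll k L := by rw [bb, Nat.shiftLeft_eq, one_mul]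
  have hρ : rho k L = 2 ^ ll k L * 2 ^ ll k L := by rw [rho, Nat.shiftLeft_eq, hb]
  have hx : ∀ j < S.card, (0 : ℝ) ≤ el S j / d ∧ (el S j / d : ℝ) < 1 := fun j hj =>
    ⟨by positivity, (div_lt_one (by exact_mod_cast d1)).2
      (by exact_mod_cast Finset.mem_range.1 (hS (el_mem hj)))⟩
  have hrow := fun R r (hr : r < d) => row_eq (q := q) k0 hE (hr.trans n1) _ _
    (hL R ▸ colsOf_inp (q := q) (hL R ▸ n1) hS :
      colsOf k q (inp g d R S v) = _)
  have hm1 : (1 : ℝ) ≤ S.card := by exact_mod_cast hm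
  refine ⟨T, fun R hR => ⟨M R, (hT R).1, fun i hi => ?_⟩, ?_⟩
  · obtain ⟨hR1, hR2⟩ := Finset.mem_powersetCard.1 hR
    have hr : el R i < d := Finset.mem_range.1 (hR1 (el_mem (hR2 ▸ hi)))
    rw [(hT R).2.2 i (by simpa [outOf, rowsOf_inp] using hi)]
    simp only [outOf, rowsOf_inp, List.getElem_map, List.getElem_range, hL, hb, hρ]
    rw [(hrow R _ hr).1, ← sum_el S, ← sum_el S, ← Finset.sum_sub_distrib, Finset.sum_div]
    refine norm_sum_le_of_le _ fun j hj => ?_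
    have h1 := col_err k0 hE hq (hr.trans n1) (hx j (Finset.mem_range.1 hj)).1
      (hx j (Finset.mem_range.1 hj)).2
    rw [mul_assoc, mul_comm (exp _), ← mul_sub, norm_mul, div_eq_mul_one_div ‖_‖]
    refine mul_le_mul_of_nonneg_left (le_trans (le_of_eq ?_) (h1.trans ?_)) (norm_nonneg _)
    · congr 3
      push_cast
      ring
    · rw [mul_comm K, pow_mul]
      gcongr
      exact_mod_cast n1.le
  · set H : ℕ → ℝ := fun r => ((∑ b ∈ Finset.range k, ∑ j ∈ Finset.range S.card,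
      if ww k q L < |bsum (ll k L) r (ang k q L (el S j / d)) b| then 1 else 0 : ℕ) : ℝ) with hH
    have hW : ((L.n + 1 : ℕ) : ℝ) ^ e ≤ c' * (S.card : ℝ) ^ (β / 2) := hc' _ _ hm
      (((Nat.pow_le_pow_right two_pos (le_nn k0)).trans n2).trans (Nat.mul_le_mul_left _ hdC))
    have hr2 : (rho k L : ℝ) ≤ 2 ^ g * (S.card : ℝ) ^ (1 - β) := by
      have h1 : (rho k L ^ 2) ^ (2 * (C + 1)) ≤ ((2 ^ g) ^ 2 * S.card) ^ (2 * (C + 1)) := by
        calc _ = (2 ^ nn k L) ^ 2 := by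
              rw [hρ, ← pow_add, ← pow_mul, ← pow_mul, ← pow_mul, nn, hk]; congr 1; ring
          _ ≤ (2 ^ (2 * g) * S.card ^ C) ^ 2 :=
              Nat.pow_le_pow_left (n2.trans (Nat.mul_le_mul_left _ hdC)) 2
          _ ≤ _ := by
              rw [mul_pow, mul_pow, ← pow_mul, ← pow_mul, ← pow_mul, ← pow_mul]
              exact Nat.mul_le_mul (Nat.pow_le_pow_right two_pos (by nlinarith only []))
                (Nat.pow_le_pow_right hm (by omega))
      have h2 : (rho k L : ℝ) ^ 2 ≤ (2 ^ g) ^ 2 * S.card := by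
        exact_mod_cast (Nat.pow_le_pow_iff_left (by omega)).1 h1
      refine le_of_sq_le_sq (h2.trans ?_) (by positivity)
      rw [mul_pow, ← Real.rpow_natCast ((S.card : ℝ) ^ (1 - β)), ← Real.rpow_mul (by positivity)]
      gcongr
      exact Real.self_le_rpow_of_one_le hm1 (by push_cast; linarith only [β1])
    have hex : Real.exp (-(L.n / (1024 * k ^ 3 * 4 ^ q))) * S.card ≤ (S.card : ℝ) ^ (1 - β) := by
      have h1 : Real.log S.card ≤ g * L.n := by
        have h2 : (S.card : ℝ) ≤ 2 ^ nn k L := by exact_mod_cast hmd.trans n1.le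
        have h3 := Real.log_le_log (by linarith only [β0, β1, hm1]) h2
        have h4 : (nn k L : ℝ) = g * L.n := by rw [nn, ll, hg]; push_cast; ring
        rw [Real.log_pow, h4] at h3
        have := Real.log_two_lt_d9
        have : (0 : ℝ) ≤ g * L.n := by positivity
        nlinarith
      rw [Real.rpow_sub (by linarith only [β0, β1, hm1]), Real.rpow_one, div_eq_mul_inv (S.card : ℝ), mul_comm,
        Real.rpow_def_of_pos (by linarith only [β0, β1, hm1]), ← Real.exp_neg]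
      gcongr
      refine (mul_le_mul_of_nonneg_right h1 β0.le).trans (le_of_eq ?_)
      rw [hβ]
      field_simp
    set U : ℝ := (S.card : ℝ) ^ (1 - β) with hU
    have U1 : 1 ≤ U := Real.one_le_rpow hm1 (by linarith only [β0, β1])
    have h1 : ∑ R ∈ (Finset.range d).powersetCard S.card, ∑ r ∈ R, H r ≤
        d.choose S.card * (k * 2 * 2 ^ (2 * g) * (S.card * U)) := by
      have d0 : (0 : ℝ) < d := by exact_mod_cast d1
      refine le_of_mul_le_mul_left ?_ d0
      have h2 := (Finset.sum_le_sum_of_subset_of_nonneg (Finset.range_subset_range.2 n1.le)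
        fun r _ _ => Nat.cast_nonneg _).trans (sum_hits (q := q) k0 hE
          (fun j => ang k q L (el S j / d)) fun j hj => abs_ang k0 hE (hx j hj).1 (hx j hj).2)
      have h3 : (2 : ℝ) ^ nn k L ≤ 2 ^ (2 * g) * d := by exact_mod_cast n2
      rw [sum_subsets hm d1]
      calc _ ≤ S.card * d.choose S.card * (k * (S.card * (2 * (2 ^ (2 * g) * d) *
            Real.exp (-(L.n / (1024 * k ^ 3 * 4 ^ q)))))) :=
            mul_le_mul_of_nonneg_left (h2.trans (by gcongr)) (by positivity)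
        _ = d * (d.choose S.card * (k * 2 * 2 ^ (2 * g) * (S.card *
            (Real.exp (-(L.n / (1024 * k ^ 3 * 4 ^ q))) * S.card)))) := by ring
        _ ≤ _ := by gcongr
    have h2 : ∀ R ∈ (Finset.range d).powersetCard S.card, (T R : ℝ) ≤
        c * c' * (S.card : ℝ) ^ (β / 2) * ((3 * 2 ^ g + 6 + k) * (S.card * U) + ∑ r ∈ R, H r) := by
      intro R hR
      obtain ⟨hR1, hR2⟩ := Finset.mem_powersetCard.1 hR
      have h3 := (hT R).2.1
      have h4 : costOf k q (inp g d R S v) = (S.card + 1) * (rho k L + 1) + ∑ r ∈ R,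
          (rho k L + (k + ∑ b ∈ Finset.range k, ∑ j ∈ Finset.range S.card,
            if ww k q L < |bsum (ll k L) r (ang k q L (el S j / d)) b| then 1 else 0) + 1) := by
        rw [costOf, rowsOf_inp, List.map_map, sum_range, ← sum_el R, hR2, hL, hb]
        congr 1
        exact Finset.sum_congr rfl fun i hi => by
          rw [Function.comp_apply, (hrow R _ (Finset.mem_range.1
            (hR1 (el_mem (hR2 ▸ Finset.mem_range.1 hi))))).2]
      have h5 : (outOf k q (inp g d R S v)).length = S.card := by simp [outOf, rowsOf_inp]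
      rw [h4, h5, hL, show (input d R S v).N 7 0 = S.card from rfl] at h3
      have h6 : (T R : ℝ) ≤ c * ((S.card + 1) * (rho k L + 1) + (S.card * (rho k L + k + 1) +
          ∑ r ∈ R, H r) + S.card + S.card + 1) * ((L.n + 1 : ℕ) : ℝ) ^ e := by
        refine (Nat.cast_le.2 h3).trans (le_of_eq ?_)
        simp only [hH, Finset.sum_add_distrib, Finset.sum_const, hR2, smul_eq_mul]
        push_cast
        ring
      have h7 : 0 ≤ ∑ r ∈ R, H r := Finset.sum_nonneg fun _ _ => Nat.cast_nonneg _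
      have h8 : ((S.card : ℝ) + 1) * (rho k L + 1) + (S.card * (rho k L + k + 1) +
          ∑ r ∈ R, H r) + S.card + S.card + 1 ≤
          (3 * 2 ^ g + 6 + k) * (S.card * U) + ∑ r ∈ R, H r := by
        have a1 : (S.card : ℝ) * rho k L ≤ S.card * (2 ^ g * U) := by gcongr
        have a2 : (rho k L : ℝ) ≤ S.card * rho k L := le_mul_of_one_le_left (by positivity) hm1
        have a3 : (S.card : ℝ) ≤ S.card * U := le_mul_of_one_le_right (by positivity) U1
        have a4 : (k : ℝ) * S.card ≤ k * (S.card * U) := by gcongr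
        linarith only [hm1, a1, a2, a3, a4]
      calc _ ≤ _ := h6
        _ ≤ c * ((3 * 2 ^ g + 6 + k) * (S.card * U) + ∑ r ∈ R, H r) *
            (c' * (S.card : ℝ) ^ (β / 2)) := by gcongr
        _ = _ := by ring
    have h3 : (S.card : ℝ) ^ (2 - β / 2) = (S.card : ℝ) ^ (β / 2) * (S.card * U) := by
      rw [hU, ← Real.rpow_one_add' (by positivity) (by linarith only [β0, β1]), ← Real.rpow_add (by linarith only [β0, β1, hm1])]
      congr 1
      ring
    refine (Finset.sum_le_sum h2).trans ?_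
    rw [← Finset.mul_sum, Finset.sum_add_distrib, Finset.sum_const, Finset.card_powersetCard,
      Finset.card_range, nsmul_eq_mul, h3]
    refine (mul_le_mul_of_nonneg_left (add_le_add_right h1 _) (by positivity)).trans (le_of_eq ?_)
    ring

end

end Pool.Agent.MP_d958de_lc.H67

end
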