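import Pool.Agent.MP_d958de_lc.Mg.H67_Main

/-! Worst-case rows from almost uniform rows: digits, counting, extrapolation. -/

namespace Pool.Agent.MP_d958de_lc.H67

open Complex Finset

noncomputable section

/-- digit of a new row -/
def yy (B H d r u k j : ℕ) : ℕ := ((H - k) * u + k * (H * (B * (2 ^ j * r % d) / d))) / (H * H)
/-- digit number `t` in base `U` -/
def dg (U σ t : ℕ) : ℕ := σ / U ^ t % U
/-- new row -/
def nrow (B H n d r σ k i : ℕ) : ℕ :=
  ∑ j ∈ range n, yy B H d r (dg (B * H) σ (i * n + j)) k j * B ^ j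
/-- new column -/
def ncol (B n c : ℕ) : ℕ := ∑ j ∈ range n, (c.testBit (n - 1 - j)).toNat * B ^ j
/-- Lagrange coefficient -/
def lam (H J k : ℕ) : ℝ := ∏ l ∈ (range J).erase k, ((H : ℝ) - l) / ((k : ℝ) - l)

variable {B H J n d r u k m : ℕ}

theorem dig_lt {y : ℕ → ℕ} (h : ∀ j < n, y j < B) : ∑ j ∈ range n, y j * B ^ j < B ^ n := by
  induction n with
  | zero => simp
  | succ n ih =>
    have h1 := ih fun j hj => h j (by omega)
    have h2 := Nat.mul_le_mul_right (B ^ n) (Nat.succ_le_of_lt (h n (by omega)))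
    rw [sum_range_succ, pow_succ']
    rw [Nat.succ_mul] at h2
    omega

theorem dig_split {y : ℕ → ℕ} (h : ∀ j < n, y j < B) {l : ℕ} (hl : l < n) :
    ∃ e z, e < B ^ l ∧ ∑ j ∈ range n, y j * B ^ j = e + B ^ l * (y l + B * z) := by
  obtain ⟨s, rfl⟩ := Nat.exists_eq_add_of_lt hl
  refine ⟨_, ∑ x ∈ range s, y (l + 1 + x) * B ^ x, dig_lt (y := y) fun j hj => h j (by omega), ?_⟩
  rw [show l + s + 1 = l + 1 + s by ring, sum_range_add, sum_range_succ, mul_add, ← mul_assoc,
    mul_sum, add_assoc, mul_comm (y l)]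
  congr 2
  exact sum_congr rfl fun x _ => by ring

theorem dig_eq {y : ℕ → ℕ} (h : ∀ j < n, y j < B) {l : ℕ} (hl : l < n) :
    dg B (∑ j ∈ range n, y j * B ^ j) l = y l := by
  obtain ⟨e, z, h1, h2⟩ := dig_split h hl
  rw [dg, h2, Nat.add_mul_div_left _ _ (by omega), Nat.div_eq_of_lt h1, zero_add,
    Nat.add_mul_mod_self_left, Nat.mod_eq_of_lt (h l hl)]

theorem tt_lt (hB : 0 < B) (hd : 0 < d) (x : ℕ) : B * (x % d) / d < B :=
  Nat.div_lt_of_lt_mul (by rw [mul_comm d]; exact Nat.mul_lt_mul_of_pos_left (Nat.mod_lt _ hd) hB)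

theorem num_lt (hu : u < B * H) (hk : k ≤ H) (hd : 0 < d) (j : ℕ) :
    (H - k) * u + k * (H * (B * (2 ^ j * r % d) / d)) < H * H * B := by
  have hB : 0 < B := Nat.pos_of_mul_pos_right (Nat.zero_lt_of_lt hu)
  have hH : 0 < H := Nat.pos_of_mul_pos_left (Nat.zero_lt_of_lt hu)
  have h1 := Nat.mul_lt_mul_of_pos_left (tt_lt hB hd (2 ^ j * r)) hH
  generalize H * (B * (2 ^ j * r % d) / d) = w at h1
  obtain ⟨s, rfl⟩ := Nat.exists_eq_add_of_le hk
  rw [Nat.add_sub_cancel_left]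
  have h2 := Nat.mul_le_mul_left s (Nat.succ_le_of_lt hu)
  have h3 := Nat.mul_le_mul_left k (Nat.succ_le_of_lt h1)
  simp only [Nat.succ_eq_add_one] at h2 h3
  linarith only [hH, h2, h3]

theorem yy_lt (hu : u < B * H) (hk : k ≤ H) (hd : 0 < d) (j : ℕ) : yy B H d r u k j < B :=
  Nat.div_lt_of_lt_mul (num_lt hu hk hd j)

theorem dg_lt {U : ℕ} (hU : 0 < U) (σ t : ℕ) : dg U σ t < U := Nat.mod_lt _ hU

theorem nrow_lt (hB : 0 < B) (hH : 0 < H) (hk : k ≤ H) (hd : 0 < d) (σ i : ℕ) :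
    nrow B H n d r σ k i < B ^ n :=
  dig_lt fun j _ => yy_lt (dg_lt (by positivity) ..) hk hd j

theorem ncol_lt (hB : 2 ≤ B) (c : ℕ) : ncol B n c < B ^ n :=
  dig_lt fun _ _ => (Bool.toNat_lt _).trans_le hB

theorem ncol_inj (hB : 2 ≤ B) {c c' : ℕ} (hc : c < 2 ^ n) (hc' : c' < 2 ^ n)
    (h : ncol B n c = ncol B n c') : c = c' := by
  rw [← Nat.mod_eq_of_lt hc, ← Nat.mod_eq_of_lt hc', ← sum_bits, ← sum_bits]
  refine sum_congr rfl fun l hl => ?_
  have hl := mem_range.1 hl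
  have e := fun c : ℕ => dig_eq (B := B) (y := fun j => (c.testBit (n - 1 - j)).toNat)
    (fun _ _ => (Bool.toNat_lt _).trans_le hB) (show n - 1 - l < n by omega)
  have := (e c).symm.trans ((congrArg (dg B · (n - 1 - l)) h).trans (e c'))
  rw [show n - 1 - (n - 1 - l) = l by omega] at this
  rw [this]

theorem yy_cnt (hH : 0 < H) (hk : k ≤ J) (hJ : 2 * J ≤ H) (U j y : ℕ) :
    #{u ∈ range U | yy B H d r u k j = y} ≤ H + 2 * J := by
  unfold yy
  generalize k * (H * (B * (2 ^ j * r % d) / d)) = c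
  rcases Finset.eq_empty_or_nonempty {u ∈ range U | ((H - k) * u + c) / (H * H) = y} with h | h
  · simp [h]
  refine (card_le_card (t := Ico (min' _ h) (min' _ h + (H + 2 * J))) fun u hu => ?_).trans (by simp only [Nat.card_Ico, add_tsub_cancel_left, Std.le_refl])
  have h1 := (mem_filter.1 hu).2
  have h2 := (mem_filter.1 (min'_mem _ h)).2
  have h3 := min'_le _ u hu
  generalize min' _ h = u0 at *
  obtain ⟨s, rfl⟩ := Nat.exists_eq_add_of_le h3
  refine mem_Ico.2 ⟨h3, Nat.add_lt_add_left ?_ _⟩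
  have h4 := Nat.lt_mul_div_succ ((H - k) * (u0 + s) + c) (Nat.mul_pos hH hH)
  have h5 := Nat.mul_div_le ((H - k) * u0 + c) (H * H)
  rw [h1] at h4
  rw [h2] at h5
  obtain ⟨w, rfl⟩ := Nat.exists_eq_add_of_le (show k ≤ H by omega)
  rw [Nat.add_sub_cancel_left] at h4 h5
  by_contra hs
  have h6 := Nat.mul_le_mul_left w (not_lt.1 hs)
  have h7 : k * k ≤ w * k := Nat.mul_le_mul_right _ (by omega)
  have h8 : w * k ≤ w * J := Nat.mul_le_mul_left _ hk
  have h9 : k + w ≤ 2 * w := by omega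
  linarith only [h4, h5, h6, h7, h8]

theorem prod_dg {U : ℕ} (hU : 0 < U) (M : ℕ) (g : ℕ → ℕ → ℕ) :
    ∑ σ ∈ range (U ^ M), ∏ t ∈ range M, g t (dg U σ t) = ∏ t ∈ range M, ∑ x ∈ range U, g t x := by
  induction M generalizing g with
  | zero => simp
  | succ M ih =>
    have := sum_blocks U (U ^ M) fun σ => ((∏ t ∈ range (M + 1), g t (dg U σ t) : ℕ) : ℝ)
    have h : ∑ σ ∈ range (U * U ^ M), ∏ t ∈ range (M + 1), g t (dg U σ t) =
      ∑ b ∈ range (U ^ M), ∑ i ∈ range U, ∏ t ∈ range (M + 1), g t (dg U (b * U + i) t) := by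
      exact_mod_cast this
    rw [pow_succ', h, prod_range_succ', ← ih, sum_mul]
    refine sum_congr rfl fun b _ => ?_
    rw [mul_sum]
    refine sum_congr rfl fun i hi => ?_
    have hi := mem_range.1 hi
    rw [prod_range_succ']
    congr 1
    · refine prod_congr rfl fun t _ => ?_
      rw [dg, dg, pow_succ', ← Nat.div_div_eq_div_mul, mul_comm b, Nat.mul_add_div hU,
        Nat.div_eq_of_lt hi, add_zero]
    · rw [dg, pow_zero, Nat.div_one, Nat.mul_add_mod', Nat.mod_eq_of_lt hi]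

theorem row_cnt (hB : 0 < B) (hH : 0 < H) (hk : k ≤ J) (hJ : 2 * J ≤ H) (hd : 0 < d) (hn : 0 < n)
    (ρ τ : ℕ → ℕ) : #{σ ∈ range ((B * H) ^ (m * n)) | ∀ i < m, nrow B H n d (ρ i) σ k i = τ i} ≤
      (H + 2 * J) ^ (m * n) := by
  have hU : 0 < B * H := by positivity
  have := prod_dg hU (m * n) fun t x =>
    if yy B H d (ρ (t / n)) x k (t % n) = dg B (τ (t / n)) (t % n) then 1 else 0
  calc _ ≤ _ := ?_
    _ = _ := this
    _ ≤ _ := by
      refine (prod_le_pow_card _ _ _ fun t _ => ?_).trans (by rw [card_range])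
      rw [← card_filter]
      exact yy_cnt hH hk hJ ..
  rw [card_filter]
  refine sum_le_sum fun σ _ => ?_
  split_ifs with h
  · refine (prod_eq_one fun t ht => if_pos ?_).ge
    rw [← h _ (Nat.div_lt_of_lt_mul (by rw [mul_comm]; exact mem_range.1 ht)), nrow,
      dig_eq (fun j _ => yy_lt (dg_lt hU ..) (by omega) hd j) (Nat.mod_lt _ hn), Nat.div_add_mod']
  · exact Nat.zero_le _

theorem row_dom (hB : 0 < B) (hH : 0 < H) (hk : k ≤ J) (hJ : 2 * J ≤ H) (hd : 0 < d) (hn : 0 < n)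
    (h2 : (H + 2 * J) ^ (m * n) ≤ 2 * H ^ (m * n)) (ρ : ℕ → ℕ) (T : Finset (Fin m → ℕ))
    (p : ℕ → Prop) [DecidablePred p] (hp : ∀ σ, p σ → (fun i : Fin m => nrow B H n d (ρ i) σ k i) ∈ T) :
    #{σ ∈ range ((B * H) ^ (m * n)) | p σ} * (B ^ n) ^ m ≤ 2 * (B * H) ^ (m * n) * #T := by
  have := card_le_mul_card_image_of_maps_to (s := {σ ∈ range ((B * H) ^ (m * n)) | p σ})
    (fun σ h => hp σ (mem_filter.1 h).2) ((H + 2 * J) ^ (m * n)) fun τ _ =>
      (card_le_card fun σ h => mem_filter.2 ⟨(mem_filter.1 (mem_filter.1 h).1).1, fun i hi => by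
        simpa [hi] using congrFun (mem_filter.1 h).2 ⟨i, hi⟩⟩).trans
      (row_cnt hB hH hk hJ hd hn ρ fun i => if h : i < m then τ ⟨i, h⟩ else 0)
  calc _ ≤ 2 * H ^ (m * n) * #T * (B ^ n) ^ m :=
        Nat.mul_le_mul_right _ (this.trans (Nat.mul_le_mul_right _ h2))
    _ = _ := by rw [← pow_mul, mul_comm n m, mul_pow]; ring

/-- injective tuples with values in `S` -/
def injT (m : ℕ) (S : Finset ℕ) : Finset (Fin m → ℕ) :=
  (univ : Finset (Fin m ↪ S)).image fun e i => (e i : ℕ)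

theorem card_injT (S : Finset ℕ) : #(injT m S) = (#S).descFactorial m := by
  rw [injT, card_image_of_injective _ fun e e' h => DFunLike.ext _ _ fun i =>
    Subtype.ext (congrFun h i)]
  simp only [card_univ, Fintype.card_embedding_eq, Fintype.card_coe, Fintype.card_fin]

theorem mem_injT {S : Finset ℕ} {f : ℕ → ℕ} (h1 : (range m).image f ⊆ S)
    (h2 : #((range m).image f) = m) : (fun i : Fin m => f i) ∈ injT m S := by
  have h3 := card_image_iff.1 (h2.trans (card_range m).symm)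
  exact mem_image.2 ⟨⟨fun i => ⟨f i, h1 (mem_image_of_mem _ (mem_range.2 i.2))⟩, fun i j h =>
    Fin.ext (h3 (by simp) (by simp) (congrArg Subtype.val h))⟩, mem_univ _, rfl⟩

theorem of_mem_injT {S : Finset ℕ} {f : ℕ → ℕ} (h : (fun i : Fin m => f i) ∈ injT m S) :
    #((range m).image f) = m := by
  obtain ⟨e, -, h⟩ := mem_image.1 h
  refine (card_image_iff.2 fun i hi j hj hij => ?_).trans (card_range m)
  have := e.injective (a₁ := ⟨i, by simpa using hi⟩) (a₂ := ⟨j, by simpa using hj⟩)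
    (Subtype.ext ((congrFun h _).trans (hij.trans (congrFun h ⟨j, _⟩).symm)))
  exact congrArg Fin.val this

theorem desc_ge (D m : ℕ) : D ^ (m + 1) ≤ D * D.descFactorial m + m ^ 2 * D ^ m := by
  induction m with
  | zero => simp
  | succ m ih =>
    have h1 := Nat.mul_le_mul_left D ih
    have h2 := Nat.mul_le_mul_right (D * D.descFactorial m) (show D ≤ (D - m) + m by omega)
    have h3 := Nat.mul_le_mul_left (m * D) (Nat.descFactorial_le_pow D m)
    rw [Nat.descFactorial_succ, pow_succ' D (m + 1), pow_succ' D m] at *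
    nlinarith [Nat.zero_le (D * D ^ m)]

theorem row_law (hB : 0 < B) (hH : 0 < H) (hk : k ≤ J) (hJ : 2 * J ≤ H) (hd : 0 < d) (hn : 0 < n)
    (h2 : (H + 2 * J) ^ (m * n) ≤ 2 * H ^ (m * n)) (ρ : ℕ → ℕ) {S : Finset ℕ} (hS : #S = m) :
    #{σ ∈ range ((B * H) ^ (m * n)) | (range m).image (fun i => nrow B H n d (ρ i) σ k i) = S} *
      (B ^ n).choose m ≤ 2 * (B * H) ^ (m * n) := by
  have h := row_dom hB hH hk hJ hd hn h2 ρ (injT m S)
    (fun σ => (range m).image (fun i => nrow B H n d (ρ i) σ k i) = S) fun σ h =>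
      mem_injT (f := fun i => nrow B H n d (ρ i) σ k i) h.le (by rw [h, hS])
  rw [card_injT, hS, Nat.descFactorial_self] at h
  refine Nat.le_of_mul_le_mul_right (le_trans ?_ h) m.factorial_pos
  rw [mul_assoc, mul_comm _ m.factorial, ← Nat.descFactorial_eq_factorial_mul_choose]
  exact Nat.mul_le_mul_left _ (Nat.descFactorial_le_pow ..)

theorem row_coll (hB : 0 < B) (hH : 0 < H) (hk : k ≤ J) (hJ : 2 * J ≤ H) (hd : 0 < d) (hn : 0 < n)
    (h2 : (H + 2 * J) ^ (m * n) ≤ 2 * H ^ (m * n)) (ρ : ℕ → ℕ) :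
    #{σ ∈ range ((B * H) ^ (m * n)) | (range m).image (fun i => nrow B H n d (ρ i) σ k i) ∉
      (range (B ^ n)).powersetCard m} * B ^ n ≤ 2 * (B * H) ^ (m * n) * m ^ 2 := by
  have hlt := fun σ i => nrow_lt (n := n) (r := ρ i) hB hH (show k ≤ H by omega) hd σ i
  have h := row_dom hB hH hk hJ hd hn h2 ρ
    ((Fintype.piFinset fun _ => range (B ^ n)) \ injT m (range (B ^ n)))
    (fun σ => (range m).image (fun i => nrow B H n d (ρ i) σ k i) ∉ (range (B ^ n)).powersetCard m)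
    fun σ h => mem_sdiff.2 ⟨Fintype.mem_piFinset.2 fun i => mem_range.2 (hlt ..), fun h' =>
      h (mem_powersetCard.2 ⟨image_subset_iff.2 fun i _ => mem_range.2 (hlt ..),
        of_mem_injT (f := fun i => nrow B H n d (ρ i) σ k i) h'⟩)⟩
  rw [card_sdiff_of_subset (fun f hf => by
    obtain ⟨e, -, rfl⟩ := mem_image.1 hf
    exact Fintype.mem_piFinset.2 fun i => (e i).2), card_injT, Fintype.card_piFinset_const,
    card_range] at h
  have h3 := desc_ge (B ^ n) m
  have h4 := Nat.descFactorial_le_pow (B ^ n) m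
  have h0 : 0 < (B ^ n) ^ m := by positivity
  generalize B ^ n = D at *
  have h5 : (D ^ m - D.descFactorial m) * D ≤ m ^ 2 * D ^ m := by
    rw [Nat.sub_mul, ← pow_succ, mul_comm _ D]; omega
  refine Nat.le_of_mul_le_mul_right ?_ h0
  calc _ = _ * D ^ m * D := by ring
    _ ≤ _ := Nat.mul_le_mul_right D h
    _ ≤ _ := by rw [mul_assoc _ _ D, mul_assoc _ (m ^ 2)]; exact Nat.mul_le_mul_left _ h5

theorem pow_le_two (hH : 0 < H) {M : ℕ} (h : 4 * J * M ≤ H) : (H + 2 * J) ^ M ≤ 2 * H ^ M := by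
  have h0 : (0 : ℝ) < H := by exact_mod_cast hH
  have h1 : (4 * J * M : ℝ) ≤ H := by exact_mod_cast h
  have h2 : ((H + 2 * J : ℕ) : ℝ) ≤ Real.exp (2 * J / H) * H := by
    refine le_trans (le_of_eq ?_) (mul_le_mul_of_nonneg_right (Real.add_one_le_exp _) h0.le)
    push_cast; field_simp; ring
  have h3 : Real.exp (M * (2 * J / H)) ≤ 2 := by
    rw [← Real.le_log_iff_exp_le two_pos, ← mul_div_assoc, div_le_iff₀ h0]
    nlinarith only [Real.log_two_gt_d9, h1]
  have h4 := pow_le_pow_left₀ (by positivity) h2 M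
  rw [mul_pow, ← Real.exp_nat_mul] at h4
  exact_mod_cast h4.trans (mul_le_mul_of_nonneg_right h3 (by positivity))

theorem exp_shift (x : ℝ) (z : ℕ) :
    exp ((-(2 * Real.pi * (x + z)) : ℝ) * I) = exp ((-(2 * Real.pi * x) : ℝ) * I) := by
  have := exp_int_mul_two_pi_mul_I (-z)
  rw [← mul_one (exp ((-(2 * Real.pi * x) : ℝ) * I)), ← this, ← exp_add]
  congr 1
  push_cast
  ring

/-- the phase of the old entry -/
theorem phase_old (hd : 0 < d) {c : ℕ} (hc : c < 2 ^ n) :
    exp (-(2 * Real.pi * I * r * c / d)) = exp ((-(2 * Real.pi * ∑ l ∈ range n,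
      (c.testBit l).toNat * ((2 ^ l * r % d : ℕ) / d : ℝ)) : ℝ) * I) := by
  rw [← exp_shift _ (∑ l ∈ range n, (c.testBit l).toNat * (2 ^ l * r / d))]
  have h0 : (d : ℝ) ≠ 0 := by exact_mod_cast hd.ne'
  have h : ∑ l ∈ range n, (c.testBit l).toNat * ((2 ^ l * r % d : ℕ) / d : ℝ) +
      (∑ l ∈ range n, (c.testBit l).toNat * (2 ^ l * r / d) : ℕ) = r * c / d := by
    have h1 : (c : ℝ) = ∑ l ∈ range n, ((c.testBit l).toNat : ℝ) * 2 ^ l := by
      have := sum_bits n c
      rw [Nat.mod_eq_of_lt hc] at this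
      exact_mod_cast this.symm
    conv_rhs => rw [h1, mul_sum, sum_div]
    rw [Nat.cast_sum, ← sum_add_distrib]
    refine sum_congr rfl fun l _ => ?_
    have h2 : ((2 ^ l * r % d : ℕ) : ℝ) + d * (2 ^ l * r / d : ℕ) = 2 ^ l * r := by
      exact_mod_cast Nat.mod_add_div (2 ^ l * r) d
    rw [Nat.cast_mul]
    field_simp
    rw [h2]
    ring
  rw [h]
  congr 1
  push_cast
  ring

theorem floor_div (a : ℕ) {b : ℕ} (hb : 0 < b) :
    ((a / b : ℕ) : ℝ) ≤ a / b ∧ (a / b : ℝ) < (a / b : ℕ) + 1 := by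
  rw [← Nat.floor_div_eq_div (K := ℝ)]
  exact ⟨Nat.floor_le (by positivity), Nat.lt_floor_add_one _⟩

/-- the phase of the new entry -/
theorem phase_new (hB : 0 < B) (hH : 0 < H) (hk : k ≤ H) (hd : 0 < d) (σ i c : ℕ) :
    ‖exp (-(2 * Real.pi * I * nrow B H n d r σ k i * ncol B n c / (B ^ n : ℕ))) -
      exp ((-(2 * Real.pi * ∑ l ∈ range n, (c.testBit l).toNat *
        ((dg (B * H) σ (i * n + l) / (B * H) : ℝ) + k / H * ((2 ^ l * r % d : ℕ) / d -
          dg (B * H) σ (i * n + l) / (B * H)))) : ℝ) * I)‖ ≤ 13 * n / B := by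
  have hU : 0 < B * H := by positivity
  have B0 : (0 : ℝ) < B := by exact_mod_cast hB
  have H0 : (0 : ℝ) < H := by exact_mod_cast hH
  have hy := fun j (_ : j < n) => yy_lt (r := r) (dg_lt hU σ (i * n + j)) hk hd j
  have : ∀ l, ∃ e z : ℕ, l < n → e < B ^ l ∧ nrow B H n d r σ k i =
      e + B ^ l * (yy B H d r (dg (B * H) σ (i * n + l)) k l + B * z) := fun l => by
    by_cases hl : l < n
    · obtain ⟨e, z, h⟩ := dig_split hy hl
      exact ⟨e, z, fun _ => h⟩
    · exact ⟨0, 0, fun h => absurd h hl⟩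
  choose e z hz using this
  have h1 : (nrow B H n d r σ k i * ncol B n c / (B ^ n : ℕ) : ℝ) =
      ∑ l ∈ range n, (c.testBit l).toNat *
        ((yy B H d r (dg (B * H) σ (i * n + l)) k l + e l / B ^ l) / B : ℝ) +
      (∑ l ∈ range n, (c.testBit l).toNat * z l : ℕ) := by
    rw [ncol, ← sum_range_reflect]
    push_cast
    rw [mul_sum, sum_div, ← sum_add_distrib]
    refine sum_congr rfl fun l hl => ?_
    obtain ⟨s, rfl⟩ := Nat.exists_eq_add_of_lt (mem_range.1 hl)
    rw [(hz l (mem_range.1 hl)).2, show l + s + 1 - 1 - l = s by omega,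
      show l + s + 1 - 1 - s = l by omega]
    push_cast
    field_simp
    ring
  have h2 : exp (-(2 * Real.pi * I * nrow B H n d r σ k i * ncol B n c / (B ^ n : ℕ))) =
      exp ((-(2 * Real.pi * (nrow B H n d r σ k i * ncol B n c / (B ^ n : ℕ) : ℝ)) : ℝ) * I) := by
    congr 1; push_cast; ring
  rw [h2, h1, exp_shift]
  refine (norm_exp_sub _ _).trans ?_
  rw [neg_sub_neg, ← mul_sub, abs_mul, ← sum_sub_distrib, abs_of_pos (by positivity)]
  refine (mul_le_mul (show 2 * Real.pi ≤ 13 / 2 by linarith only [Real.pi_lt_d2])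
    (abs_sum_le (c := 2 / B) fun l hl => ?_) (abs_nonneg _) (by norm_num)).trans
    (le_of_eq (by ring))
  rw [← mul_sub, abs_mul]
  refine (mul_le_of_le_one_left (abs_nonneg _) (by cases c.testBit l <;> simp)).trans ?_
  obtain ⟨a1, a2⟩ := floor_div (B * (2 ^ l * r % d)) hd
  obtain ⟨a3, a4⟩ := floor_div ((H - k) * dg (B * H) σ (i * n + l) +
    k * (H * (B * (2 ^ l * r % d) / d))) (Nat.mul_pos hH hH)
  rw [← yy] at a3 a4
  have a5 : (e l / B ^ l : ℝ) < 1 := (div_lt_one (by positivity)).2 (by exact_mod_cast (hz l hl).1)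
  have a6 : (0 : ℝ) ≤ e l / B ^ l := by positivity
  have a7 : (k / H : ℝ) ≤ 1 := (div_le_one H0).2 (by exact_mod_cast hk)
  have a8 : (0 : ℝ) ≤ k / H := by positivity
  rw [Nat.cast_mul, mul_div_assoc] at a1 a2
  rw [Nat.cast_add, Nat.cast_mul, Nat.cast_mul, Nat.cast_mul, Nat.cast_mul, Nat.cast_sub hk] at a3 a4
  generalize ((B * (2 ^ l * r % d) / d : ℕ) : ℝ) = t at *
  generalize (((2 ^ l * r % d : ℕ) : ℝ) / d) = θ at *
  generalize (yy B H d r (dg (B * H) σ (i * n + l)) k l : ℝ) = y at *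
  generalize (dg (B * H) σ (i * n + l) : ℝ) = x at *
  generalize (e l / B ^ l : ℝ) = ε at *
  have e1 : x / (B * H) + k / H * (θ - x / (B * H)) - (y + ε) / B =
      ((((H - k) * x + k * (H * t)) / (H * H) - y) - ε + k / H * (B * θ - t)) / B := by
    field_simp; ring
  rw [e1, abs_div, abs_of_pos B0]
  refine div_le_div_of_nonneg_right (abs_le.2 ⟨?_, ?_⟩) B0.le
  · linarith only [mul_nonneg a8 (sub_nonneg.2 a1), a3, a5]
  · linarith only [mul_le_mul a7 (show B * θ - t ≤ 1 by linarith only [a2]) (sub_nonneg.2 a1) zero_le_one, a4, a6]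

theorem lam_pow {j : ℕ} (hj : j < J) : (H : ℂ) ^ j = ∑ k ∈ range J, (lam H J k : ℂ) * k ^ j := by
  have := congrArg (Polynomial.eval (H : ℂ)) (Lagrange.eq_interpolate (s := range J)
    (v := fun k : ℕ => (k : ℂ)) (f := Polynomial.X ^ j) Nat.cast_injective.injOn
    (by rw [Polynomial.degree_X_pow, card_range]; exact_mod_cast hj))
  simp only [Lagrange.interpolate_apply, Polynomial.eval_finsetSum, Polynomial.eval_mul,
    Polynomial.eval_C, Polynomial.eval_pow, Polynomial.eval_X, Lagrange.basis, Polynomial.eval_prod,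
    Lagrange.basisDivisor, Polynomial.eval_sub] at this
  rw [this]
  refine sum_congr rfl fun k _ => ?_
  rw [mul_comm, lam]
  push_cast
  simp only [div_eq_inv_mul]

theorem lam_le (hJ : J ≤ H) (hk : k < J) : |lam H J k| * H ≤ H ^ J := by
  have h : |lam H J k| ≤ H ^ (J - 1) := by
    rw [lam, abs_prod, ← card_range J, ← card_erase_of_mem (mem_range.2 hk), card_range,
      ← prod_const]
    refine prod_le_prod (fun _ _ => abs_nonneg _) fun l hl => ?_
    obtain ⟨h1, h2⟩ := mem_erase.1 hl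
    have h3 : (l : ℝ) ≤ H := by exact_mod_cast (mem_range.1 h2).le.trans hJ
    have h4 : (1 : ℝ) ≤ |(k : ℝ) - l| := by
      exact_mod_cast Int.one_le_abs (z := (k : ℤ) - l) (by omega)
    rw [abs_div, abs_of_nonneg (sub_nonneg.2 h3)]
    exact (div_le_self (sub_nonneg.2 h3) h4).trans (sub_le_self _ (Nat.cast_nonneg _))
  refine (mul_le_mul_of_nonneg_right h (Nat.cast_nonneg _)).trans (le_of_eq ?_)
  rw [← pow_succ, Nat.sub_add_cancel (by omega)]

theorem extrap (hH : 0 < H) {q : ℕ} {α β : ℝ} (h1 : |β| ≤ J / 8) (h2 : |β| * (4 * 2 ^ q) ≤ H) :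
    ‖∑ k ∈ range J, (lam H J k : ℂ) * exp ((α + k / H * β : ℝ) * I) - exp ((α + β : ℝ) * I)‖ ≤
      2 / 2 ^ J + ∑ k ∈ range J, |lam H J k| * (2 / 2 ^ (q * J)) := by
  have H0 : (0 : ℝ) < H := by exact_mod_cast hH
  have h3 : tay J β = ∑ k ∈ range J, (lam H J k : ℂ) * tay J (k / H * β) := by
    simp only [tay_eq, mul_sum]
    rw [sum_comm]
    refine sum_congr rfl fun j hj => ?_
    have h4 : (H : ℂ) ^ j ≠ 0 := pow_ne_zero _ (by exact_mod_cast hH.ne')
    calc _ = (H : ℂ) ^ j * ((β * I) ^ j / j.factorial / H ^ j) := by field_simp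
      _ = _ := by
        rw [lam_pow (mem_range.1 hj), sum_mul]
        refine sum_congr rfl fun k _ => ?_
        rw [← lam_pow (mem_range.1 hj)]
        push_cast
        simp only [mul_pow, div_pow]
        ring
  have h5 : ∑ k ∈ range J, (lam H J k : ℂ) * exp ((α + k / H * β : ℝ) * I) -
      exp ((α + β : ℝ) * I) = exp (α * I) * (∑ k ∈ range J, (lam H J k : ℂ) *
        (exp ((k / H * β : ℝ) * I) - tay J (k / H * β)) - (exp (β * I) - tay J β)) := by
    simp only [mul_sub, sum_sub_distrib, ← h3, ofReal_add, add_mul, exp_add, mul_sum]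
    rw [sum_congr rfl fun k _ => mul_left_comm (exp (α * I)) _ (exp _)]
    ring
  rw [h5, norm_mul, norm_exp_ofReal_mul_I, one_mul, add_comm]
  refine (norm_sub_le _ _).trans (add_le_add (norm_sum_le_of_le _ fun k hk => ?_) ?_)
  · rw [norm_mul, norm_real, Real.norm_eq_abs]
    refine mul_le_mul_of_nonneg_left (tay_err ?_) (abs_nonneg _)
    have : (k : ℝ) ≤ J := by exact_mod_cast (mem_range.1 hk).le
    rw [abs_mul, abs_of_nonneg (by positivity), le_div_iff₀ (by positivity), mul_assoc]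
    calc _ ≤ J / H * (H : ℝ) := by gcongr
      _ = _ := by field_simp
  · simpa using tay_err (E := J) (q := 1) (x := β) (by norm_num; exact h1)

/-- one entry of the old matrix from entries of the new matrices -/
theorem entry_err (hB : 0 < B) (hH : 0 < H) (hJ : J ≤ H) (hd : 0 < d) {q : ℕ} (h1 : 56 * n ≤ J)
    (h2 : 28 * n * 2 ^ q ≤ H) {c : ℕ} (hc : c < 2 ^ n) (σ i : ℕ) :
    ‖∑ k ∈ range J, (lam H J k : ℂ) *
        exp (-(2 * Real.pi * I * nrow B H n d r σ k i * ncol B n c / (B ^ n : ℕ))) -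
      exp (-(2 * Real.pi * I * r * c / d))‖ ≤
      2 / 2 ^ J + ∑ k ∈ range J, |lam H J k| * (2 / 2 ^ (q * J) + 13 * n / B) := by
  have hU : 0 < B * H := by positivity
  set x : ℕ → ℝ := fun l => dg (B * H) σ (i * n + l) / (B * H) with hx
  set θ : ℕ → ℝ := fun l => (2 ^ l * r % d : ℕ) / d with hθ
  set α := -(2 * Real.pi * ∑ l ∈ range n, (c.testBit l).toNat * x l) with hα
  set β := -(2 * Real.pi * ∑ l ∈ range n, (c.testBit l).toNat * (θ l - x l)) with hβ
  have hb : |β| ≤ 7 * n := by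
    rw [hβ, abs_neg, abs_mul, abs_of_pos (by positivity)]
    refine (mul_le_mul (show 2 * Real.pi ≤ 7 by linarith only [Real.pi_lt_d2])
      (abs_sum_le (c := 1) fun l _ => ?_) (abs_nonneg _) (by norm_num)).trans (by simp)
    have a1 : x l < 1 := (div_lt_one (by positivity)).2 (by exact_mod_cast dg_lt hU ..)
    have a2 : θ l < 1 := (div_lt_one (by exact_mod_cast hd)).2 (by exact_mod_cast Nat.mod_lt _ hd)
    have a3 : 0 ≤ x l := by positivity
    have a4 : 0 ≤ θ l := by positivity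
    rw [abs_mul]
    exact mul_le_one₀ (by cases c.testBit l <;> simp) (abs_nonneg _)
      (abs_le.2 ⟨by linarith only [a1, a4], by linarith only [a2, a3]⟩)
  have e1 : ∀ s : ℝ, -(2 * Real.pi * ∑ l ∈ range n, (c.testBit l).toNat * (x l + s * (θ l - x l))) =
      α + s * β := fun s => by
    simp only [hα, hβ, mul_add, sum_add_distrib, mul_left_comm _ s, ← mul_sum]
    ring
  have e2 := e1 1
  simp only [one_mul, add_sub_cancel] at e2
  have h3 := extrap (J := J) hH (q := q) (α := α) (β := β)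
    (hb.trans (by have : (56 * n : ℝ) ≤ J := by exact_mod_cast h1
                  linarith only [this]))
    ((mul_le_mul_of_nonneg_right hb (by positivity)).trans (by
      have : (28 * n * 2 ^ q : ℝ) ≤ H := by exact_mod_cast h2
      linarith only [this]))
  rw [phase_old hd hc, e2]
  refine (norm_sub_le_norm_sub_add_norm_sub _ _ _).trans ((add_le_add ?_ h3).trans
    (le_of_eq (b := _) (a := ∑ k ∈ range J, |lam H J k| * (13 * n / B) + _) ?_))
  · rw [← sum_sub_distrib]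
    refine norm_sum_le_of_le _ fun k hk => ?_
    rw [← mul_sub, norm_mul, norm_real, Real.norm_eq_abs, ← e1]
    exact mul_le_mul_of_nonneg_left (phase_new hB hH ((mem_range.1 hk).le.trans hJ) hd σ i c)
      (abs_nonneg _)
  · simp only [mul_add, sum_add_distrib]
    ring

end

end Pool.Agent.MP_d958de_lc.H67
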