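import Pool.Agent.MP_d958de_lc.Mg.H67_Red
import Pool.Agent.MP_d958de_lc.H67.Defs2

/-! The two programs of the reduction. -/

namespace Pool.Agent.MP_d958de_lc.H67

open Pool.Agent.MP_0cee90_lc.H63F Complex

noncomputable section

/-- long division -/
def ldv (N x d : ℕ) : ℕ × ℕ := (List.range N).reverse.foldl (fun (p : ℕ × ℕ) i =>
  bif ltN p.1 (d <<< min i N) then p else (p.1 - d <<< min i N, p.2 + 1 <<< min i N)) (x, 0)

theorem ldv_eq {N x d : ℕ} (h : x < d * 2 ^ N) : ldv N x d = (x % d, x / d) := by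
  have hd : 0 < d := Nat.pos_of_mul_pos_right (Nat.zero_lt_of_lt h)
  have : ∀ M ≤ N, ∀ x q, x < d * 2 ^ M → (List.range M).reverse.foldl (fun (p : ℕ × ℕ) i =>
      bif ltN p.1 (d <<< min i N) then p else (p.1 - d <<< min i N, p.2 + 1 <<< min i N)) (x, q) =
      (x % d, q + x / d) := by
    intro M
    induction M with
    | zero =>
      intro _ x q h
      rw [pow_zero, mul_one] at h
      simp only [List.range_zero, List.reverse_nil, List.foldl_nil, Nat.mod_eq_of_lt h, Nat.div_eq_of_lt h, add_zero]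
    | succ M ih =>
      intro hM x q h
      rw [List.range_succ, List.reverse_append, List.reverse_singleton, List.singleton_append,
        List.foldl_cons, min_eq_left (by omega), Nat.shiftLeft_eq, Nat.shiftLeft_eq, one_mul]
      rcases lt_or_ge x (d * 2 ^ M) with h1 | h1
      · rw [ltN_iff.2 h1, cond_true]
        exact ih (by omega) _ _ h1
      · obtain ⟨s, rfl⟩ := Nat.exists_eq_add_of_le' h1
        rw [ltN_false.2 h1, cond_false, Nat.add_sub_cancel, ih (by omega) _ _ (by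
          rw [pow_succ, ← mul_assoc] at h; omega), Nat.add_mul_mod_self_left,
          Nat.add_mul_div_left _ _ hd]
        congr 1
        ring
  rw [ldv, this N le_rfl x 0 h, zero_add]

def pJ (L : Lam) : ℕ := L.n * 56
def pq (L : Lam) : ℕ := (L.n + 5) * pJ L + pJ L + (L.n * 3 + 3)
def ph (L : Lam) : ℕ := pq L + (L.n + 5)
def pb (L : Lam) : ℕ := ph L * pJ L + pJ L + (L.n * 2 + 7)

def yyC (L : Lam) (d r u k j : ℕ) : ℕ :=
  (ldv (pb L) (u <<< ph L - u * min k (pJ L) + ((ldv (pb L)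
    ((ldv L.n (r <<< min j L.n) d).1 <<< pb L) d).2 <<< ph L) * min k (pJ L))
    (1 <<< (ph L + ph L))).2

def dgC (T : Tab true) (L : Lam) (m t : ℕ) : ℕ :=
  ((List.range (pb L + ph L)).map fun s =>
    T.f (t * (pb L + ph L) + s + m + 1) <<< min s (pb L + ph L)).sum

def rowC (T : Tab true) (L : Lam) (m k i : ℕ) : ℕ :=
  ((List.range L.n).map fun j =>
    yyC L (T.f 0) (T.f (i + 1)) (dgC T L m (i * L.n + j)) k j <<< (pb L * min j L.n)).sum

def colC (L : Lam) (c : ℕ) : ℕ :=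
  ((List.range L.n).map fun j =>
    (ldv L.n (ldv L.n c (1 <<< (L.n - 1 - j))).2 2).1 <<< (pb L * min j L.n)).sum

def preOf (a : Inp) : List ℕ :=
  1 <<< (pb a.1 * a.1.n) :: pJ a.1 :: a.2.2.1.f 0 * a.1.n * (pb a.1 + ph a.1) :: (((List.range (a.2.2.1.f 0)).map fun j => colC a.1 (a.2.2.1.f (j + 1))) ++
    (List.range (a.2.2.1.f 0 * pJ a.1)).map fun t => rowC a.2.1 a.1 (a.2.2.1.f 0)
      (ldv (pJ a.1) t (a.2.2.1.f 0)).2 (ldv (pJ a.1) t (a.2.2.1.f 0)).1)

def lamC (L : Lam) (k : ℕ) : ℝ :=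
  ((List.range (pJ L)).map fun l => bif eqN l k then (1 : ℝ) else
    ((fun x : ℝ => x + x)^[ph L] 1 - (min l (pJ L) : ℕ)) /
      ((min k (pJ L) : ℕ) - (min l (pJ L) : ℕ))).foldl (fun p x => p * x) 1

def ansL (a : Inp) : List ℂ :=
  ((a.2.2.2.take (a.2.2.1.f 0)).zip (a.2.2.2.drop (a.2.2.1.f 0))).map fun p => ⟨p.1, p.2⟩

def postOf (a : Inp) : List ℂ :=
  (List.range (pJ a.1)).foldl (fun acc k => ((chk (a.2.2.1.f 1) (min k (pJ a.1)) (ansL a)).zip acc).map
    fun p => p.2 + (lamC a.1 k : ℂ) * p.1) ((List.range (a.2.2.1.f 1)).map fun _ => 0)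

section
variable {α : Type} [Enc α] {L : α → Lam}

@[fun_prop] theorem tc_ldv {N x d : α → ℕ} (hN : NN 1 z N) (hx : TC 1 z x) (hd : TC 1 z d) :
    TC 1 z fun a => ldv (N a) (x a) (d a) := by unfold ldv; fun_prop
@[fun_prop] theorem nn_pJ (h : TC 1 z L) : NN 1 z fun a => pJ (L a) := by unfold pJ; fun_prop
@[fun_prop] theorem nn_pq (h : TC 1 z L) : NN 1 z fun a => pq (L a) := by unfold pq; fun_prop
@[fun_prop] theorem nn_ph (h : TC 1 z L) : NN 1 z fun a => ph (L a) := by unfold ph; fun_prop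
@[fun_prop] theorem nn_pb (h : TC 1 z L) : NN 1 z fun a => pb (L a) := by unfold pb; fun_prop
@[fun_prop] theorem tc_pJ (h : TC 1 z L) : TC 1 z fun a => pJ (L a) := (nn_pJ h).1
@[fun_prop] theorem tc_yyC {d r u k j : α → ℕ} (h : TC 1 z L) (hd : TC 1 z d) (hr : TC 1 z r)
    (hu : TC 1 z u) (hk : TC 1 z k) (hj : TC 1 z j) :
    TC 1 z fun a => yyC (L a) (d a) (r a) (u a) (k a) (j a) := by unfold yyC; fun_prop
@[fun_prop] theorem tc_dgC {T : α → Tab true} {m t : α → ℕ} (hT : TC 1 z T) (h : TC 1 z L)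
    (hm : TC 1 z m) (ht : TC 1 z t) : TC 1 z fun a => dgC (T a) (L a) (m a) (t a) := by
  unfold dgC; fun_prop
@[fun_prop] theorem tc_rowC {T : α → Tab true} {m k i : α → ℕ} (hT : TC 1 z T) (h : TC 1 z L)
    (hm : TC 1 z m) (hk : TC 1 z k) (hi : TC 1 z i) :
    TC 1 z fun a => rowC (T a) (L a) (m a) (k a) (i a) := by unfold rowC; fun_prop
@[fun_prop] theorem tc_colC {c : α → ℕ} (h : TC 1 z L) (hc : TC 1 z c) :
    TC 1 z fun a => colC (L a) (c a) := by unfold colC; fun_prop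
@[fun_prop] theorem tc_lamC {k : α → ℕ} (h : TC 1 z L) (hk : TC 1 z k) :
    TC 1 z fun a => lamC (L a) (k a) := by unfold lamC; fun_prop
end

theorem tc_preOf : TC 1 (fun a : Inp => a.2.2.1.f 0) preOf := by
  have hm : NN 1 (fun a : Inp => a.2.2.1.f 0) fun a => a.2.2.1.f 0 := NN.self (by fun_prop)
  unfold preOf
  exact TC.cons (TC.wk (by fun_prop)) <| TC.cons (TC.wk (by fun_prop)) <|
    TC.cons (TC.wk (by fun_prop)) (TC.append (LL.map (by fun_prop) (LL.range hm))
    (TC.map (by fun_prop) (LL.range (hm.mul (by fun_prop)))))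

theorem tc_postOf : TC 1 (fun a : Inp => a.2.2.1.f 0 + a.2.2.1.f 1) postOf := by
  have h0 : NN 1 (fun a : Inp => a.2.2.1.f 0 + a.2.2.1.f 1) fun a => a.2.2.1.f 0 :=
    NN.of_le (by fun_prop) 1 fun _ => by omega
  have h1 : NN 1 (fun a : Inp => a.2.2.1.f 0 + a.2.2.1.f 1) fun a => a.2.2.1.f 1 :=
    NN.of_le (by fun_prop) 1 fun _ => by omega
  have h2 : TC 1 (fun a : Inp => a.2.2.1.f 0 + a.2.2.1.f 1) ansL := by unfold ansL; fun_prop
  unfold postOf
  refine TC.foldlB ?_ (by fun_prop) (TC.map (by fun_prop) (LL.range h1))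
  have h3 := NN_cp h1 (f := fun p : Inp × List ℂ × ℕ => p.1) (by fun_prop)
  have h4 := h2.cp (f := fun p : Inp × List ℂ × ℕ => p.1) (by fun_prop)
  refine TC.map (by fun_prop) (LL.zip ?_ (by fun_prop))
  unfold chk
  exact LL.take h3 (TC.drop ((h3.mul (g := fun p => min p.2.2 (pJ p.1.1)) (by fun_prop)).of_eq
    fun _ => mul_comm _ _) h4)

def storeN : Prog := .loop (.ltN (.lit 0) (reg 0)) <|
  .seq (.setN 8 (reg 8) (.load 1 (.load 2 (reg 0)))) <|
  .seq (.setN 0 (.lit 8) (.add (reg 8) (.lit 1))) (.setN 0 (.lit 0) (.load 3 (reg 0)))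

theorem storeN_run (l : List ℕ) (m : Mem) (h : St m (enc l)) : ∃ m', Run storeN m m'
    (4 * l.length + 1) ∧ (∀ i (hi : i < l.length), m'.N 8 (m.N 0 8 + i) = l[i]) ∧
    ∀ j < m.N 0 8, m'.N 8 j = m.N 8 j := by
  induction l generalizing m with
  | nil =>
    have : m.N 0 0 = 0 := h
    exact ⟨m, .stop (by simp [Test.ev, NE.ev, reg, this]), by simp, fun _ _ => rfl⟩
  | cons x l ih =>
    have h1 : m.N 1 (m.N 2 (m.N 0 0)) = x := h.2.2.2.2.1.2.2.1
    let m4 := ((m.setN 8 (m.N 0 8) x).setN 0 8 (m.N 0 8 + 1)).setN 0 0 (m.N 3 (m.N 0 0))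
    have e : Ext m m4 := by simp [m4, MP_0cee90_lc.H63F.Ext, HExt, Mem.setN]
    have e0 : m4.N 0 0 = m.N 3 (m.N 0 0) := by simp [m4, Mem.setN]
    obtain ⟨m', r, a, b⟩ := ih m4 (by rw [St, e0]; exact Rep.ext e h.2.2.2.2.2)
    have e8 : m4.N 0 8 = m.N 0 8 + 1 := by simp [m4, Mem.setN]
    have r0 : Run (.seq (.setN 8 (reg 8) (.load 1 (.load 2 (reg 0)))) <|
        .seq (.setN 0 (.lit 8) (.add (reg 8) (.lit 1))) (.setN 0 (.lit 0) (.load 3 (reg 0)))) m m4
        (1 + (1 + 1)) := by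
      have := Run.seq (.setN 8 (reg 8) (.load 1 (.load 2 (reg 0))) m) <|
        .seq (.setN 0 (.lit 8) (.add (reg 8) (.lit 1)) _) (.setN 0 (.lit 0) (.load 3 (reg 0)) _)
      convert this using 1
      simp [m4, NE.ev, reg, Mem.setN, h1]
    refine ⟨m', ?_, fun i hi => ?_, fun j hj => (b j (by omega)).trans ?_⟩
    · have := Run.more (b := .ltN (.lit 0) (reg 0)) h.1 r0 r
      rwa [show 1 + (1 + 1) + (4 * l.length + 1) + 1 = 4 * (l.length + 1) + 1 by ring] at this
    · rcases i with _ | i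
      · exact (b _ (by omega)).trans (by simp [m4, Mem.setN])
      · have := a i (by simpa using hi)
        rwa [e8, add_assoc, add_comm 1] at this
    · simp [m4, Mem.setN, hj.ne]

theorem io_runN {g : ℕ} (hg : 0 < g) {t : Inp → ℕ} {f : Inp → List ℕ} (h : TC 1 t f) :
    ∃ (P : Prog) (c e : ℕ), ∀ m : Mem, m.N 0 0 = 0 → ∀ a : Inp,
      a = (⟨Nat.clog (2 ^ g) (m.N 5 0) + 1⟩, ⟨m.N 5⟩, ⟨m.N 7⟩,
        (List.range (2 * m.N 7 0)).map (m.R 0)) →
      ∃ m' j, Run P m m' j ∧ j ≤ c * (t a + m.N 7 0 + (f a).length + 1) * (a.1.n + 1) ^ e ∧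
        ∀ i (hi : i < (f a).length), m'.N 8 i = (f a)[i] := by
  obtain ⟨P, c, e, h⟩ := h
  refine ⟨.seq (scaleP g) <| .seq loadP <| .seq wrapP <| .seq wrapP <| .seq wrapP <| .seq P <|
    .seq (.setN 0 (.lit 8) (.lit 0)) storeN, c + g + 80, e + 1, fun m h0 a ha => ?_⟩
  obtain ⟨m1, r1, a1, b1⟩ := scaleP_run hg m
  have c5 : m1.N 5 = m.N 5 := funext fun i => a1.2 5 i (by simp)
  have c7 : m1.N 7 = m.N 7 := funext fun i => a1.2 7 i (by simp)
  obtain ⟨m2, r2, e2, s2⟩ := loadP_run m1 ((a1.2 0 0 (by simp)).trans h0)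
  rw [c7, a1.1] at s2
  rw [c7] at r2
  obtain ⟨m3, r3, s3, e3⟩ := wrapP_run (l := .tab false (m.N 7)) ⟨one_pos, e2.2.2.2.1.trans c7⟩ s2
  have e13 := e2.trans e3
  obtain ⟨m4, r4, s4, e4⟩ := wrapP_run (l := .tab true (m.N 5)) ⟨one_pos, e13.2.2.1.trans c5⟩ s3
  have e14 := e13.trans e4
  obtain ⟨m5, r5, s5, e5⟩ := wrapP_run (l := .lam (Nat.clog (2 ^ g) (m.N 5 0) + 1))
    ⟨one_pos, e14.2.2.2.2.1.trans b1⟩ s4
  obtain ⟨m6, j, r6, b6, s6, -⟩ := h a m5 (ha ▸ s5)
  obtain ⟨m7, r7, a7, -⟩ := storeN_run (f a) (m6.setN 0 8 0) (by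
    simpa [St, Mem.setN] using Rep.ext (ext_set m6 (i := 8) 0 (by simp) (by simp)) s6)
  refine ⟨m7, _, .seq r1 <| .seq r2 <| .seq r3 <| .seq r4 <| .seq r5 <| .seq r6 <|
    .seq (.setN ..) r7, ?_, fun i hi => by simpa [Mem.setN] using a7 i hi⟩
  have hE : a.1.n = Nat.clog (2 ^ g) (m.N 5 0) + 1 := by rw [ha]
  rw [(e14.trans e5).2.2.2.2.1, b1, ← hE, bd, one_mul] at b6
  have k1 : (a.1.n + 1) ^ e ≤ (a.1.n + 1) ^ (e + 1) := Nat.pow_le_pow_right (by omega) (by omega)
  have k2 : a.1.n + 1 ≤ (a.1.n + 1) ^ (e + 1) := Nat.le_self_pow (by omega) _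
  generalize (a.1.n + 1) ^ (e + 1) = W at *
  generalize hS : t a + m.N 7 0 + (f a).length + 1 = S
  have k3 : j ≤ c * S * W := b6.trans (by gcongr; omega)
  have k4 : Nat.clog (2 ^ g) (m.N 5 0) * (g + 2) ≤ (g + 2) * S * W := by
    rw [mul_comm, mul_assoc]
    exact Nat.mul_le_mul_left _ (le_trans (by omega) (Nat.le_mul_of_pos_left W (by omega)))
  have k5 : S ≤ S * W := Nat.le_mul_of_pos_right _ (by omega)
  have k6 : (c + g + 80) * S * W = c * S * W + (g + 2) * S * W + 78 * (S * W) := by ring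
  omega

variable {L : Lam} {d r u k j m : ℕ}

theorem pJ_le : 2 * pJ L ≤ 2 ^ ph L := by
  have h1 := Nat.lt_two_pow_self (n := pJ L)
  have h2 : 2 ^ (pJ L + 1) ≤ 2 ^ ph L := Nat.pow_le_pow_right two_pos (by unfold ph pq; omega)
  rw [pow_succ] at h2
  omega

theorem yyC_eq (hr : r < d) (hu : u < 2 ^ pb L * 2 ^ ph L) (hk : k < pJ L) (hj : j < L.n) :
    yyC L d r u k j = yy (2 ^ pb L) (2 ^ ph L) d r u k j := by
  have hd : 0 < d := Nat.zero_lt_of_lt hr
  have h1 := pJ_le (L := L)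
  have h2 : r * 2 ^ j < d * 2 ^ L.n :=
    Nat.mul_lt_mul_of_lt_of_le hr (Nat.pow_le_pow_right two_pos hj.le) (by positivity)
  have h3 := num_lt (r := r) hu (show k ≤ 2 ^ ph L by omega) hd j
  simp only [yyC, Nat.shiftLeft_eq, min_eq_left hk.le, min_eq_left hj.le, ldv_eq h2, one_mul,
    ldv_eq (Nat.mul_lt_mul_of_pos_right (Nat.mod_lt (r * 2 ^ j) hd) (show 0 < 2 ^ pb L by positivity))]
  rw [← Nat.mul_sub, mul_comm u, mul_comm _ k, mul_comm _ (2 ^ ph L), mul_comm _ (2 ^ pb L),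
    mul_comm r, pow_add, ldv_eq h3, yy]

theorem dgC_eq {T : Tab true} {σ : ℕ} (hT : ∀ i, T.f (i + m + 1) = (σ.testBit i).toNat) (t : ℕ) :
    dgC T L m t = dg (2 ^ pb L * 2 ^ ph L) σ t := by
  rw [dgC, sum_range, dg, ← pow_add, ← pow_mul, ← sum_bits]
  refine Finset.sum_congr rfl fun s hs => ?_
  rw [hT, min_eq_left (Finset.mem_range.1 hs).le, Nat.shiftLeft_eq, Nat.testBit_div_two_pow,
    mul_comm t, add_comm s]

theorem rowC_eq {T : Tab true} {σ i : ℕ} (hT : ∀ i, T.f (i + m + 1) = (σ.testBit i).toNat)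
    (hr : T.f (i + 1) < T.f 0) (hk : k < pJ L) :
    rowC T L m k i = nrow (2 ^ pb L) (2 ^ ph L) L.n (T.f 0) (T.f (i + 1)) σ k i := by
  rw [rowC, sum_range, nrow]
  refine Finset.sum_congr rfl fun j hj => ?_
  have hj := Finset.mem_range.1 hj
  rw [dgC_eq hT, yyC_eq hr (dg_lt (by positivity) ..) hk hj, min_eq_left hj.le, Nat.shiftLeft_eq,
    pow_mul]

theorem colC_eq {c : ℕ} (hc : c < 2 ^ L.n) : colC L c = ncol (2 ^ pb L) L.n c := by
  rw [colC, sum_range, ncol]
  refine Finset.sum_congr rfl fun j hj => ?_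
  rw [min_eq_left (Finset.mem_range.1 hj).le, Nat.shiftLeft_eq, Nat.shiftLeft_eq, one_mul,
    ldv_eq (hc.trans_le (Nat.le_mul_of_pos_left _ (by positivity))),
    ldv_eq (((Nat.div_le_self _ _).trans_lt hc).trans_le (Nat.le_mul_of_pos_left _ two_pos)),
    Nat.toNat_testBit, pow_mul]

theorem lamC_eq (hk : k < pJ L) : lamC L k = lam (2 ^ ph L) (pJ L) k := by
  have e : ∀ h : ℕ, (fun x : ℝ => x + x)^[h] 1 = 2 ^ h := fun h => by
    induction h with
    | zero => simp
    | succ h ih => rw [Function.iterate_succ_apply', ih]; ring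
  have e' : ∀ (n : ℕ) (f : ℕ → ℝ), ((List.range n).map f).prod = ∏ i ∈ Finset.range n, f i :=
    fun _ _ => rfl
  rw [lamC, ← List.prod_eq_foldl, e', ← Finset.prod_erase (a := k) _ (by
    rw [eqN_iff.2 rfl, cond_true]), lam]
  refine Finset.prod_congr rfl fun l hl => ?_
  obtain ⟨h1, h2⟩ := Finset.mem_erase.1 hl
  rw [eqN_false.2 h1, cond_false, e, min_eq_left hk.le, min_eq_left (Finset.mem_range.1 h2).le]
  push_cast
  rfl

theorem postOf_eq {a : Inp} {x : ℕ → ℕ → ℂ} (hm : a.2.2.1.f 1 = m) (h0 : 0 < m)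
    (h : ansL a = (List.range (pJ a.1 * m)).map fun t => x (t / m) (t % m)) :
    postOf a = (List.range m).map fun i => ∑ k ∈ Finset.range (pJ a.1),
      (lam (2 ^ ph a.1) (pJ a.1) k : ℂ) * x k i := by
  have : ∀ M ≤ pJ a.1, (List.range M).foldl (fun acc k =>
      ((chk m (min k (pJ a.1)) (ansL a)).zip acc).map fun p => p.2 + (lamC a.1 k : ℂ) * p.1)
      ((List.range m).map fun _ => 0) = (List.range m).map fun i => ∑ k ∈ Finset.range M,
      (lam (2 ^ ph a.1) (pJ a.1) k : ℂ) * x k i := by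
    intro M
    induction M with
    | zero => simp only [zero_le, List.map_const', List.length_range, List.range_zero, List.foldl_nil, Finset.range_zero, Finset.sum_empty, imp_self]
    | succ M ih =>
      intro hM
      rw [List.range_succ, List.foldl_append, ih (by omega), List.foldl_cons, List.foldl_nil,
        min_eq_left (by omega), h, chk_range (by
          rw [← Nat.succ_mul]; exact Nat.mul_le_mul_right _ hM), List.zip_map', List.map_map,
        lamC_eq hM]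
      refine List.map_congr_left fun i hi => ?_
      have hi := List.mem_range.1 hi
      rw [Function.comp_apply, Finset.sum_range_succ, Nat.mul_add_mod', Nat.mod_eq_of_lt hi,
        mul_comm M, Nat.mul_add_div h0, Nat.div_eq_of_lt hi, add_zero]
  rw [postOf, hm, this _ le_rfl]

theorem le_base {N c k e : ℕ} (hN : 2 ≤ N) (h : c + k ≤ e) : c * N ^ k ≤ N ^ e := by
  refine le_trans ?_ (Nat.pow_le_pow_right (by omega) h)
  rw [pow_add]
  exact Nat.mul_le_mul_right _ (Nat.lt_two_pow_self.le.trans (Nat.pow_le_pow_left hN _))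

theorem par_le (L : Lam) : pJ L ≤ 56 * (L.n + 1) ∧ pb L + ph L ≤ 20000 * (L.n + 1) ^ 3 := by
  unfold pb ph pq pJ
  constructor <;> nlinarith only [Nat.zero_le (L.n ^ 3)]

theorem two_le {a x y : ℕ} (h : a ≤ 2 ^ x) (h' : x ≤ y) : a ≤ 2 ^ y :=
  h.trans (Nat.pow_le_pow_right two_pos h')

theorem mul_two {a b x y : ℕ} (h : a ≤ 2 ^ x) (h' : b ≤ 2 ^ y) : a * b ≤ 2 ^ (x + y) := by
  rw [pow_add]; exact Nat.mul_le_mul h h'

theorem tot_err (hn : 0 < L.n) (hd : d ≤ 2 ^ L.n) (h0 : 0 < d) :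
    (2 : ℝ) / 2 ^ pJ L + ∑ k ∈ Finset.range (pJ L), |lam (2 ^ ph L) (pJ L) k| *
      (2 / 2 ^ (pq L * pJ L) + 13 * L.n / (2 ^ pb L : ℕ)) +
      (∑ k ∈ Finset.range (pJ L), |lam (2 ^ ph L) (pJ L) k|) / ((2 ^ pb L) ^ L.n : ℕ) ≤ 1 / d := by
  have hJ := pJ_le (L := L)
  have j1 : pJ L ≤ 2 ^ pJ L := Nat.lt_two_pow_self.le
  have n1 : L.n ≤ 2 ^ L.n := Nat.lt_two_pow_self.le
  have hH : (2 ^ ph L) ^ pJ L ≤ 2 ^ (ph L * pJ L) := (pow_mul ..).ge
  have f1 : pJ L * (2 ^ ph L) ^ pJ L * (8 * d) ≤ 2 ^ ph L * 2 ^ (pq L * pJ L) := by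
    rw [← pow_add]
    refine two_le (mul_two (mul_two j1 hH) (mul_two (x := 3) le_rfl hd)) ?_
    have : ph L * pJ L = pq L * pJ L + (L.n + 5) * pJ L := by rw [ph, add_mul]
    rw [this, ph]
    nth_rewrite 2 [pq]
    omega
  have f2 : pJ L * (2 ^ ph L) ^ pJ L * (64 * L.n * d) ≤ 2 ^ pb L :=
    two_le (mul_two (mul_two j1 hH) (mul_two (mul_two (x := 6) le_rfl n1) hd)) (by unfold pb; omega)
  have f3 : 8 * d ≤ 2 ^ pJ L := two_le (mul_two (x := 3) le_rfl hd) (by unfold pJ; omega)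
  have f4 : 2 ^ pb L ≤ (2 ^ pb L) ^ L.n := Nat.le_self_pow hn.ne' _
  rw [← Finset.sum_mul]
  have hS : (∑ k ∈ Finset.range (pJ L), |lam (2 ^ ph L) (pJ L) k|) * (2 ^ ph L : ℕ) ≤
      (pJ L * (2 ^ ph L) ^ pJ L : ℕ) := by
    rw [Finset.sum_mul]
    refine (Finset.sum_le_card_nsmul _ _ _ fun k hk =>
      lam_le (by omega) (Finset.mem_range.1 hk)).trans (le_of_eq ?_)
    simp
  have S0 : 0 ≤ ∑ k ∈ Finset.range (pJ L), |lam (2 ^ ph L) (pJ L) k| :=
    Finset.sum_nonneg fun _ _ => abs_nonneg _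
  have H1 : (1 : ℝ) ≤ (2 ^ ph L : ℕ) := by exact_mod_cast Nat.one_le_two_pow
  have B0 : (0 : ℝ) < (2 ^ pb L : ℕ) := by positivity
  have g1 := (Nat.cast_le (α := ℝ)).2 f1
  have g2 := (Nat.cast_le (α := ℝ)).2 f2
  have g3 : (8 * d : ℝ) ≤ 2 ^ pJ L := by exact_mod_cast f3
  have g4 := one_div_le_one_div_of_le B0 ((Nat.cast_le (α := ℝ)).2 f4)
  rw [Nat.cast_mul _ (8 * d), Nat.cast_mul (2 ^ ph L), Nat.cast_pow 2 (_ * _)] at g1
  rw [Nat.cast_mul _ (64 * _ * d)] at g2
  generalize ((pJ L * (2 ^ ph L) ^ pJ L : ℕ) : ℝ) = W at *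
  generalize ∑ k ∈ Finset.range (pJ L), |lam (2 ^ ph L) (pJ L) k| = S at *
  generalize ((2 ^ ph L : ℕ) : ℝ) = H at *
  generalize (((2 ^ pb L) ^ L.n : ℕ) : ℝ) = D at *
  generalize ((2 ^ pb L : ℕ) : ℝ) = B at *
  push_cast at g1 g2
  have d0 : (0 : ℝ) < d := by exact_mod_cast h0
  have n0 : (1 : ℝ) ≤ L.n := by exact_mod_cast hn
  have a1 : (2 : ℝ) / 2 ^ pJ L ≤ 1 / d / 4 := by
    rw [div_div, div_le_div_iff₀ (by positivity) (by positivity)]; linarith only [g3]
  have a2 : S * (2 / 2 ^ (pq L * pJ L)) ≤ 1 / d / 4 := by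
    rw [← mul_div_assoc, div_div, div_le_div_iff₀ (by positivity) (by positivity)]
    refine le_of_mul_le_mul_left ?_ (show 0 < H by linarith only [H1])
    linarith only [mul_le_mul_of_nonneg_right hS (show (0 : ℝ) ≤ 8 * d by positivity), g1]
  have a3 : S * (16 * L.n / B) ≤ 1 / d / 4 := by
    rw [← mul_div_assoc, div_div, div_le_div_iff₀ (by positivity) (by positivity)]
    have : S ≤ W := (le_mul_of_one_le_right S0 H1).trans hS
    linarith only [mul_le_mul_of_nonneg_right this (show (0 : ℝ) ≤ 64 * L.n * d by positivity), g2]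
  have a4 : S * (13 * L.n / B) + S / D ≤ S * (16 * L.n / B) := by
    rw [div_eq_mul_one_div S, ← mul_add]
    refine mul_le_mul_of_nonneg_left ((add_le_add_right g4 _).trans ?_) S0
    rw [← add_div]
    gcongr
    linarith only [n0]
  have : (0 : ℝ) ≤ 1 / d := by positivity
  rw [mul_add]
  linarith only [a1, a2, a3, a4, this]

open Finset in
theorem reduction : ∃ (Pre Post : Prog) (e : ℕ), ∀ (m d : ℕ) (C : Finset ℕ), 1 ≤ m →
    C ⊆ range d → #C = m → ∃ (J D l : ℕ) (κ : ℕ → ℕ),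
      J ≤ (Nat.clog 2 d + 2) ^ e ∧ D ≤ 2 ^ (Nat.clog 2 d + 2) ^ e ∧ l ≤ m * (Nat.clog 2 d + 2) ^ e ∧
      (range m).image κ ∈ (range D).powersetCard m ∧
      ∀ R ∈ (range d).powersetCard m, ∃ ρ : ℕ → ℕ → ℕ → ℕ,
        (∀ σ, ∃ M t, Run Pre (coinInput d R C σ) M t ∧ t ≤ m * (Nat.clog 2 d + 2) ^ e ∧
          M.N 8 0 = D ∧ M.N 8 1 = J ∧ M.N 8 2 = l ∧ (∀ j < m, M.N 8 (3 + j) = κ j) ∧
          ∀ k < J, ∀ i < m, M.N 8 (3 + m + (k * m + i)) = ρ σ k i) ∧
        (∀ k < J, ∀ S ∈ (range D).powersetCard m,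
          #{σ ∈ range (2 ^ l) | (range m).image (ρ σ k) = S} * D.choose m ≤ 2 * 2 ^ l) ∧
        #{σ ∈ range (2 ^ l) | ∃ k < J, (range m).image (ρ σ k) ∉ (range D).powersetCard m} * d ≤
          2 ^ l ∧
        ∀ (σ : ℕ) (v : ℕ → ℂ) (a : ℕ → ℕ → ℂ),
          (∀ k < J, ∀ i < m, ‖a k i - ∑ j ∈ range m,
            exp (-(2 * Real.pi * I * ρ σ k i * κ j / D)) * v (el C j)‖ ≤ (∑ c ∈ C, ‖v c‖) / D) →
          ∃ M t, Run Post (ansInput d m J a) M t ∧ t ≤ m * (Nat.clog 2 d + 2) ^ e ∧ ∀ i < m,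
            ‖output M i - ∑ c ∈ C, exp (-(2 * Real.pi * I * el R i * c / d)) * v c‖ ≤
              (∑ c ∈ C, ‖v c‖) / d := by
  obtain ⟨P, c, e, hP⟩ := io_runN one_pos tc_preOf
  obtain ⟨Q, c', e', hQ⟩ := io_run one_pos tc_postOf
  refine ⟨P, Q, c * 63 + e + (c' * 115 + e') + 20004, fun m d C hm hC hc => ?_⟩
  subst hc
  obtain ⟨L, hL⟩ : ∃ L : Lam, L = ⟨Nat.clog (2 ^ 1) d + 1⟩ := ⟨_, rfl⟩
  have hN : Nat.clog 2 d + 2 = L.n + 1 := by rw [hL]; rfl
  have hn : 0 < L.n := by rw [hL]; exact Nat.succ_pos _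
  have hd : d < 2 ^ L.n := by
    have := Nat.le_pow_clog one_lt_two d
    have : 0 < 2 ^ Nat.clog 2 d := by positivity
    rw [hL, pow_succ, pow_one]
    omega
  have hmd : #C ≤ d := (card_le_card hC).trans (card_range d).le
  have d0 : 0 < d := by omega
  have hm2 : #C ≤ 2 ^ L.n := by omega
  have hCn : ∀ j < #C, el C j < 2 ^ L.n := fun j hj => (mem_range.1 (hC (el_mem hj))).trans hd
  obtain ⟨p1, p2⟩ := par_le L
  have hJ := pJ_le (L := L)
  have j1 : pJ L ≤ 2 ^ pJ L := Nat.lt_two_pow_self.le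
  have n1 : L.n ≤ 2 ^ L.n := Nat.lt_two_pow_self.le
  have hB : 2 ≤ 2 ^ pb L := two_le (x := 1) le_rfl (by unfold pb; omega)
  have B0 : 0 < 2 ^ pb L := by positivity
  have H0 : 0 < 2 ^ ph L := by positivity
  have h2 := pow_le_two (J := pJ L) H0 (M := #C * L.n)
    (two_le (mul_two (mul_two (x := 2) le_rfl j1) (mul_two hm2 n1)) (by unfold ph pq; omega))
  have hl : 2 ^ ((pb L + ph L) * (#C * L.n)) = (2 ^ pb L * 2 ^ ph L) ^ (#C * L.n) := by
    rw [pow_mul, pow_add]
  have p3 : (pb L + ph L) * L.n ≤ 20000 * (L.n + 1) ^ 4 := by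
    rw [pow_succ _ 3, ← mul_assoc]; exact Nat.mul_le_mul p2 (by omega)
  rw [hN]
  refine ⟨pJ L, (2 ^ pb L) ^ L.n, (pb L + ph L) * (#C * L.n), fun j => ncol (2 ^ pb L) L.n (el C j),
    p1.trans (by simpa using le_base (c := 56) (k := 1) (N := L.n + 1) (by omega) (by omega)), ?_, ?_,
    mem_powersetCard.2 ⟨image_subset_iff.2 fun j _ => mem_range.2 (ncol_lt hB _),
      (card_image_iff.2 fun i hi j hj h => ?_).trans (card_range _)⟩,
    fun R hR => ⟨fun σ k i => nrow (2 ^ pb L) (2 ^ ph L) L.n d (el R i) σ k i, fun σ => ?_,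
      fun k hk S hS => ?_, ?_, fun σ v a ha => ?_⟩⟩
  · rw [← pow_mul]
    exact Nat.pow_le_pow_right two_pos (((Nat.mul_le_mul_right _ (Nat.le_add_right ..)).trans p3).trans
      (le_base (by omega) (by omega)))
  · rw [mul_left_comm]
    exact Nat.mul_le_mul_left _ (p3.trans (le_base (by omega) (by omega)))
  · exact Nat.nth_injOn (p := (· ∈ C)) C.finite_toSet (by simpa using hi) (by simpa using hj)
      (ncol_inj hB (hCn i (by simpa using hi)) (hCn j (by simpa using hj)) h)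
  · obtain ⟨hR1, hR2⟩ := mem_powersetCard.1 hR
    have e5 : (coinInput d R C σ).N 5 0 = d := by simp only [coinInput, input, Pi.zero_apply, zero_re, zero_im, ite_self, not_lt_zero, and_false, ↓ reduceIte]
    have e7 : (coinInput d R C σ).N 7 0 = #C := by simp only [coinInput, input, Pi.zero_apply, zero_re, zero_im, ite_self, Nat.reduceEqDiff, not_lt_zero, and_self, ↓ reduceIte]
    obtain ⟨M, t, r1, r2, r3⟩ := hP (coinInput d R C σ) rfl (L, _, _, _) (by rw [e5, ← hL])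
    simp only [preOf, e7, List.length_cons, List.length_append, List.length_map,
      List.length_range] at r2 r3
    refine ⟨M, t, r1, r2.trans ?_, ?_, r3 1 (by omega), (r3 2 (by omega)).trans (mul_comm ..),
      fun j hj => ?_, fun k hk i hi => ?_⟩
    · refine le_trans ?_ (Nat.mul_le_mul_left _ (le_base (c := c * 63) (k := e + 1) (by omega)
        (by omega)))
      have : #C + #C + (#C + #C * pJ L + 1 + 1 + 1) + 1 ≤ #C * (63 * (L.n + 1)) := by nlinarith only [hm, p1]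
      exact (Nat.mul_le_mul_right _ (Nat.mul_le_mul_left _ this)).trans (le_of_eq (by ring))
    · rw [r3 0 (by omega), List.getElem_cons_zero, Nat.shiftLeft_eq, one_mul, pow_mul]
    · rw [add_comm, r3 (j + 1 + 1 + 1) (by omega), List.getElem_cons_succ, List.getElem_cons_succ,
        List.getElem_cons_succ,
        List.getElem_append_left (by simpa using hj), List.getElem_map, List.getElem_range]
      exact (congrArg (colC L) (by simp only [coinInput, input, Pi.zero_apply, zero_re, zero_im, ite_self, Nat.reduceEqDiff, Order.lt_add_one_iff, false_and, ↓ reduceIte, Nat.add_eq_zero_iff, one_ne_zero, and_false, add_tsub_cancel_right])).trans (colC_eq (hCn j hj))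
    · have h3 : k * #C + i < #C * pJ L := by nlinarith only [hk, hi]
      have h4 : (coinInput d R C σ).N 5 (i + 1) = el R i := by
        simp only [coinInput, input, Pi.zero_apply, zero_re, zero_im, ite_self, Order.lt_add_one_iff, show ¬ #C ≤ i by omega, and_false, ↓ reduceIte, Nat.add_eq_zero_iff, one_ne_zero, add_tsub_cancel_right]
      have h5 := rowC_eq (L := L) (T := ⟨(coinInput d R C σ).N 5⟩) (m := #C) (σ := σ) (i := i)
        (fun s => by simp only [coinInput, show #C < s + #C + 1 by omega, and_self, ↓ reduceIte, show s + #C + 1 - #C - 1 = s by omega])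
        (by simp only [h4, e5]; exact mem_range.1 (hR1 (el_mem (hR2 ▸ hi)))) hk
      rw [show 3 + #C + (k * #C + i) = #C + (k * #C + i) + 1 + 1 + 1 by ring, r3 _ (by omega),
        List.getElem_cons_succ, List.getElem_cons_succ, List.getElem_cons_succ, List.getElem_append_right (by simp), List.getElem_map,
        List.getElem_range]
      simp only [List.length_map, List.length_range, Nat.add_sub_cancel_left]
      rw [ldv_eq (h3.trans_le (Nat.mul_le_mul_left _ j1)), Nat.mul_add_mod', Nat.mod_eq_of_lt hi,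
        mul_comm k, Nat.mul_add_div hm, Nat.div_eq_of_lt hi, add_zero, h5]
      simp only [h4, e5]
  · rw [hl]
    exact row_law B0 H0 hk.le hJ d0 hn h2 _ (mem_powersetCard.1 hS).2
  · rw [hl]
    have h3 : pJ L * (2 * #C ^ 2) * d ≤ (2 ^ pb L) ^ L.n := by
      refine le_trans (two_le (mul_two (mul_two j1 (mul_two (x := 1) le_rfl
        (sq (#C) ▸ mul_two hm2 hm2))) hd.le) ?_) (Nat.le_self_pow hn.ne' _)
      have : L.n ≤ ph L * pJ L := le_trans (by unfold ph; omega)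
        (Nat.le_mul_of_pos_right _ (by unfold pJ; omega))
      unfold pb
      omega
    refine Nat.le_of_mul_le_mul_right ?_ (show 0 < (2 ^ pb L) ^ L.n by positivity)
    refine le_trans ?_ (Nat.mul_le_mul_left _ h3)
    rw [mul_right_comm, ← mul_assoc]
    refine Nat.mul_le_mul_right _ ((Nat.mul_le_mul_right _ ((card_le_card (t := (range (pJ L)).biUnion
      fun k => {σ ∈ range ((2 ^ pb L * 2 ^ ph L) ^ (#C * L.n)) | (range #C).image
        (fun i => nrow (2 ^ pb L) (2 ^ ph L) L.n d (el R i) σ k i) ∉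
        (range ((2 ^ pb L) ^ L.n)).powersetCard #C}) fun σ h => ?_).trans card_biUnion_le)).trans ?_)
    · obtain ⟨h4, k, h5, h6⟩ := mem_filter.1 h
      exact mem_biUnion.2 ⟨k, mem_range.2 h5, mem_filter.2 ⟨h4, h6⟩⟩
    · rw [sum_mul]
      refine (sum_le_card_nsmul _ _ _ fun k hk =>
        row_coll B0 H0 (mem_range.1 hk).le hJ d0 hn h2 _).trans (le_of_eq ?_)
      rw [card_range, smul_eq_mul]
      ring
  · have e5 : (ansInput d #C (pJ L) a).N 5 0 = d := by simp only [ansInput, and_self, ↓ reduceIte]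
    have e7 : (ansInput d #C (pJ L) a).N 7 0 = pJ L * #C := by simp only [ansInput, Nat.reduceEqDiff, and_true, ↓ reduceIte, and_self]
    have e8 : (ansInput d #C (pJ L) a).N 7 1 = #C := by simp only [ansInput, Nat.reduceEqDiff, one_ne_zero, and_self, ↓ reduceIte, and_false]
    obtain ⟨M, t, r1, r2, r3⟩ := hQ (ansInput d #C (pJ L) a) rfl (L, _, _, _) (by rw [e5, ← hL])
    simp only [e7, e8] at r2 r3
    have h3 := postOf_eq (a := (L, ⟨(ansInput d #C (pJ L) a).N 5⟩, ⟨(ansInput d #C (pJ L) a).N 7⟩,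
      (List.range (2 * (pJ L * #C))).map ((ansInput d #C (pJ L) a).R 0))) (x := a) e8 hm
      (List.ext_getElem (by simp only [ansL, e7, List.length_map, List.length_zip, List.length_take, List.length_range, List.length_drop, Nat.min_assoc, tsub_le_iff_right, le_add_iff_nonneg_right, zero_le, inf_of_le_right, inf_eq_left]; omega) fun j h1 h2 => by
        have hj : j < pJ L * #C := by simpa using h2
        have h4 : pJ L * #C + j < 2 * (pJ L * #C) := by omega
        simp only [ansL, e7, List.getElem_map, List.getElem_zip, List.getElem_range,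
          List.getElem_take, List.getElem_drop]
        simp only [ansInput, hj, and_self, ↓ reduceIte, add_lt_iff_neg_left, not_lt_zero, and_false, h4, add_tsub_cancel_left, eta])
    simp only [h3, List.length_map, List.length_range, List.getElem_map, List.getElem_range] at r2 r3
    refine ⟨M, t, r1, r2.trans ?_, fun i hi => ?_⟩
    · refine le_trans ?_ (Nat.mul_le_mul_left _ (le_base (c := c' * 115) (k := e' + 1) (by omega)
        (by omega)))
      have : pJ L * #C + #C + pJ L * #C + #C + 1 ≤ #C * (115 * (L.n + 1)) := by nlinarith only [hm, p1]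
      exact (Nat.mul_le_mul_right _ (Nat.mul_le_mul_left _ this)).trans (le_of_eq (by ring))
    · rw [r3 i hi, ← sum_el C (fun c => exp (-(2 * Real.pi * I * el R i * c / d)) * v c)]
      have V0 : 0 ≤ ∑ c ∈ C, ‖v c‖ := sum_nonneg fun _ _ => norm_nonneg _
      refine (norm_sub_le_norm_sub_add_norm_sub _ (∑ k ∈ range (pJ L),
        (lam (2 ^ ph L) (pJ L) k : ℂ) * ∑ j ∈ range #C, exp (-(2 * Real.pi * I *
          nrow (2 ^ pb L) (2 ^ ph L) L.n d (el R i) σ k i * ncol (2 ^ pb L) L.n (el C j) /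
          ((2 ^ pb L) ^ L.n : ℕ))) * v (el C j)) _).trans (le_trans ?_ ((mul_le_mul_of_nonneg_left
            (tot_err hn hd.le d0) V0).trans (le_of_eq (mul_one_div ..))))
      rw [mul_add, add_comm]
      refine add_le_add ?_ ?_
      · rw [sum_congr rfl fun k _ => mul_sum _ _ _, sum_comm, ← sum_sub_distrib,
          ← sum_el C (fun c => ‖v c‖), sum_mul]
        refine norm_sum_le_of_le _ fun j hj => ?_
        rw [sum_congr rfl fun k _ => (mul_assoc _ _ (v _)).symm, ← sum_mul, ← sub_mul, norm_mul,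
          mul_comm]
        exact mul_le_mul_of_nonneg_left (entry_err B0 H0 (by omega) d0 (by unfold pJ; omega)
          (two_le (mul_two (mul_two (x := 5) (by norm_num) n1) le_rfl) (by unfold ph; omega))
          (hCn j (mem_range.1 hj)) σ i) (norm_nonneg _)
      · rw [← sum_sub_distrib, mul_div_left_comm, sum_mul]
        refine norm_sum_le_of_le _ fun k hk => ?_
        rw [← mul_sub, norm_mul, norm_real, Real.norm_eq_abs]
        exact mul_le_mul_of_nonneg_left (ha k (mem_range.1 hk) i hi) (abs_nonneg _)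

end

end Pool.Agent.MP_d958de_lc.H67
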